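import Pool.Agent.H709.OW.Props

set_option autoImplicit false

/-!
Leaf `Abs`: the absorption process exists and is primitive recursive.
-/

namespace Pool.Agent.H709.OW

open Pool.Agent.Helper227 MeasureTheory Encodable
open scoped ENNReal

namespace AbsL

section prim
variable {α β γ : Type*} [Primcodable α] [Primcodable β] [Primcodable γ]

theorem prim_filter {f : α → List β} {p : α → β → Prop} [∀ a b, Decidable (p a b)]
    (hp : PrimrecRel p) (hf : Primrec f) :
    Primrec fun a => (f a).filter fun b => decide (p a b) := by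
  classical
  have h1 : PrimrecRel (fun (b : β) (a : α) => p a b) := hp.comp Primrec.snd Primrec.fst
  refine (h1.listFilter.comp hf Primrec.id).of_eq fun a => ?_
  simp only [id]

theorem pp_mem {f : α → List β} {g : α → β} (hf : Primrec f) (hg : Primrec g) :
    PrimrecPred fun a => g a ∈ f a := by
  refine (PP.ex_mem (p := fun a b => b = g a)
    (Primrec.eq.comp Primrec.snd (hg.comp Primrec.fst)) hf).of_eq fun a => ?_
  simp

end prim

variable {g : Str → ℕ → Str → Prop}

theorem prim_lev (hg : PrimrecPred fun x : Str × ℕ × Str => g x.1 x.2.1 x.2.2) :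
    Primrec₂ (lev g) := by
  classical
  unfold lev
  refine Primrec.list_length.comp ?_
  refine (prim_filter (α := Str × Str) (β := ℕ) (f := fun x => List.range x.1.length)
    (p := fun x n => g x.1 n x.2) ?_ ?_).of_eq fun x => ?_
  · exact hg.comp ((Primrec.fst.comp Primrec.fst).pair
      (Primrec.snd.pair (Primrec.snd.comp Primrec.fst)))
  · exact Primrec.list_range.comp (Primrec.list_length.comp Primrec.fst)
  · rfl

theorem prim_before (hg : PrimrecPred fun x : Str × ℕ × Str => g x.1 x.2.1 x.2.2) :
    PrimrecPred fun x : Str × Str × Str => Before g x.1 x.2.1 x.2.2 := by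
  have h1 : Primrec fun x : Str × Str × Str => lev g x.1 x.2.1 :=
    (prim_lev hg).comp Primrec.fst (Primrec.fst.comp Primrec.snd)
  have h2 : Primrec fun x : Str × Str × Str => lev g x.1 x.2.2 :=
    (prim_lev hg).comp Primrec.fst (Primrec.snd.comp Primrec.snd)
  unfold Before
  refine PrimrecPred.or (Primrec.nat_lt.comp h2 h1) (PrimrecPred.and (Primrec.eq.comp h2 h1) ?_)
  exact Primrec.nat_lt.comp (Primrec.encode.comp (Primrec.fst.comp Primrec.snd))
    (Primrec.encode.comp (Primrec.snd.comp Primrec.snd))

variable (g) (q : ℕ → ℕ)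

/-- `ξ` is alive at `v` according to the table `T` -/
def Al (m : ℕ) (v ξ : Str) (T : List (List Str)) : Prop :=
  g v m ξ ∧ ∀ t < v.length, ¬ ξ.take t ∈ T.getD t []

open Classical in
/-- the strings absorbed at `v`, according to the table `T` -/
noncomputable def row (m : ℕ) (v : Str) (T : List (List Str)) : List Str :=
  (allStr v.length).filter fun ξ => decide (Al g m v ξ T ∧
    num v.length (fun ξ' => Al g m v ξ' T ∧ Before g v ξ' ξ) < q v.length)

/-- the table -/
noncomputable def tbl (m : ℕ) (v : Str) : ℕ → List (List Str)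
  | 0 => []
  | t + 1 => tbl m v t ++ [row g q m (v.take t) (tbl m v t)]

variable {g q}

theorem prim_al (hg : PrimrecPred fun x : Str × ℕ × Str => g x.1 x.2.1 x.2.2) :
    PrimrecPred fun x : (ℕ × Str × List (List Str)) × Str => Al g x.1.1 x.1.2.1 x.2 x.1.2.2 := by
  unfold Al
  refine PrimrecPred.and ?_ ?_
  · exact hg.comp ((Primrec.fst.comp (Primrec.snd.comp Primrec.fst)).pair
      ((Primrec.fst.comp Primrec.fst).pair Primrec.snd))
  · refine PP.all_lt (α := (ℕ × Str × List (List Str)) × Str) (f := fun x => x.1.2.1.length)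
      (p := fun x t => ¬ x.2.take t ∈ x.1.2.2.getD t []) ?_ ?_
    · refine PrimrecPred.not ?_
      refine pp_mem ?_ ?_
      · exact (Primrec.list_getD (α := List Str) []).comp
          (Primrec.snd.comp (Primrec.snd.comp (Primrec.fst.comp Primrec.fst))) Primrec.snd
      · exact Primrec.list_take.comp Primrec.snd (Primrec.snd.comp Primrec.fst)
    · exact Primrec.list_length.comp (Primrec.fst.comp (Primrec.snd.comp Primrec.fst))

theorem prim_row (hg : PrimrecPred fun x : Str × ℕ × Str => g x.1 x.2.1 x.2.2) (hq : Primrec q) :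
    Primrec fun x : ℕ × Str × List (List Str) => row g q x.1 x.2.1 x.2.2 := by
  classical
  unfold row
  refine prim_filter (α := ℕ × Str × List (List Str)) (β := Str)
    (f := fun x => allStr x.2.1.length)
    (p := fun x ξ => Al g x.1 x.2.1 ξ x.2.2 ∧
      num x.2.1.length (fun ξ' => Al g x.1 x.2.1 ξ' x.2.2 ∧ Before g x.2.1 ξ' ξ) < q x.2.1.length)
    ?_ ?_
  · refine PrimrecPred.and (prim_al hg) ?_
    refine Primrec.nat_lt.comp ?_ (hq.comp (Primrec.list_length.comp
      (Primrec.fst.comp (Primrec.snd.comp Primrec.fst))))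
    unfold num
    refine Primrec.list_length.comp ?_
    refine @prim_filter ((ℕ × Str × List (List Str)) × Str) Str _ _
      (fun x => allStr x.1.2.1.length)
      (fun x ξ' => Al g x.1.1 x.1.2.1 ξ' x.1.2.2 ∧ Before g x.1.2.1 ξ' x.2)
      (fun _ _ => Classical.propDecidable _) ?_ ?_
    · refine PrimrecPred.and ?_ ?_
      · exact (prim_al hg).comp ((Primrec.fst.comp Primrec.fst).pair Primrec.snd)
      · exact (prim_before hg).comp
          ((Primrec.fst.comp (Primrec.snd.comp (Primrec.fst.comp Primrec.fst))).pair
            (Primrec.snd.pair (Primrec.snd.comp Primrec.fst)))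
    · exact primrec_allStr.comp (Primrec.list_length.comp
        (Primrec.fst.comp (Primrec.snd.comp Primrec.fst)))
  · exact primrec_allStr.comp (Primrec.list_length.comp (Primrec.fst.comp Primrec.snd))

theorem prim_tbl (hg : PrimrecPred fun x : Str × ℕ × Str => g x.1 x.2.1 x.2.2) (hq : Primrec q) :
    Primrec fun x : (ℕ × Str) × ℕ => tbl g q x.1.1 x.1.2 x.2 := by
  have h : Primrec fun x : (ℕ × Str) × ℕ => (Nat.rec [] (fun t T =>
      T ++ [row g q x.1.1 (x.1.2.take t) T]) x.2 : List (List Str)) := by
    refine Primrec.nat_rec' (f := fun x : (ℕ × Str) × ℕ => x.2)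
      (g := fun _ => ([] : List (List Str)))
      (h := fun x p => p.2 ++ [row g q x.1.1 (x.1.2.take p.1) p.2]) Primrec.snd
      (Primrec.const _) ?_
    refine Primrec.list_append.comp (Primrec.snd.comp Primrec.snd) ?_
    refine Primrec.list_cons.comp ?_ (Primrec.const [])
    refine (prim_row hg hq).comp ((Primrec.fst.comp (Primrec.fst.comp Primrec.fst)).pair
      (Primrec.pair ?_ (Primrec.snd.comp Primrec.snd)))
    exact Primrec.list_take.comp (Primrec.fst.comp Primrec.snd)
      (Primrec.snd.comp (Primrec.fst.comp Primrec.fst))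
  refine h.of_eq fun x => ?_
  induction x.2 with
  | zero => rfl
  | succ n ih => simp only [ih, tbl]

theorem length_tbl (m : ℕ) (v : Str) (t : ℕ) : (tbl g q m v t).length = t := by
  induction t with
  | zero => rfl
  | succ t ih => simp [tbl, ih]

theorem getD_tbl (m : ℕ) (v : Str) {i t : ℕ} (h : i < t) :
    (tbl g q m v t).getD i [] = row g q m (v.take i) (tbl g q m v i) := by
  induction t with
  | zero => omega
  | succ t ih =>
    simp only [tbl]
    rcases Nat.lt_succ_iff_lt_or_eq.1 h with h | rfl
    · rw [← ih h, List.getD_append _ _ _ _ (by rw [length_tbl]; exact h)]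
    · rw [List.getD_append_right _ _ _ _ (by rw [length_tbl]), length_tbl]
      simp

theorem tbl_take (m : ℕ) (v : Str) {k t : ℕ} (h : t ≤ k) :
    tbl g q m (v.take k) t = tbl g q m v t := by
  induction t with
  | zero => rfl
  | succ t ih =>
    simp only [tbl]
    rw [ih (by omega), List.take_take, min_eq_left (by omega : t ≤ k)]

end AbsL

open AbsL in
theorem s_Abs : S_Abs := by
  classical
  intro g q hg hq
  refine ⟨fun m v ξ => ξ ∈ row g q m v (tbl g q m v v.length), ?_, ?_⟩
  · refine pp_mem ?_ (Primrec.snd.comp Primrec.snd)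
    refine (prim_row hg hq).comp (Primrec.fst.pair
      ((Primrec.fst.comp Primrec.snd).pair ?_))
    exact (prim_tbl hg hq).comp ((Primrec.fst.pair (Primrec.fst.comp Primrec.snd)).pair
      (Primrec.list_length.comp (Primrec.fst.comp Primrec.snd)))
  · have hal : ∀ m v ξ, Al g m v ξ (tbl g q m v v.length) ↔
        Alive g (fun m v ξ => ξ ∈ row g q m v (tbl g q m v v.length)) m v ξ := by
      intro m v ξ
      unfold Al Alive
      refine and_congr_right fun _ => forall_congr' fun t => forall_congr' fun ht => ?_
      rw [getD_tbl m v ht]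
      simp only [List.length_take, min_eq_left ht.le, tbl_take m v le_rfl]
    intro m v ξ
    have h1 : ξ ∈ row g q m v (tbl g q m v v.length) ↔ ξ.length = v.length ∧
        Al g m v ξ (tbl g q m v v.length) ∧ num v.length (fun ξ' =>
          Al g m v ξ' (tbl g q m v v.length) ∧ Before g v ξ' ξ) < q v.length := by
      unfold row
      rw [List.mem_filter, mem_allStr, decide_eq_true_eq]
    simp only [hal] at h1
    exact h1

end Pool.Agent.H709.OW
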