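import Pool.Agent.H709.OW.Props

set_option autoImplicit false

namespace Pool.Agent.H709.OW

open Pool.Agent.Helper227 MeasureTheory Encodable
open scoped ENNReal

/-- Assembly of the Oberwolfach part: the covering property implies lowness. -/
theorem low_of_cov (hg : S_g) (hQ : S_Q) (hDelay : S_Delay) (hAbs : S_Abs) (hNest : S_Nest)
    (hCnt : S_Cnt) (hKill : S_Kill) (hFin : S_Fin) (hOWML : S_OWML) (hLow : S_Low)
    (A : ℕ → Bool) (hA : Cov A) (Z : ℕ → Bool) (hZ : OWR (fun _ => false) Z) : OWR A Z := by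
  rintro G ⟨hU, hanti, β, b, c, hβ, hmono, hb, hG⟩ hZG
  rw [Set.mem_iInter] at hZG
  have hML : MLR A Z := hLow A hA Z (hOWML _ Z hZ)
  obtain ⟨g, hg⟩ := hg A G hU hanti
  obtain ⟨Q, hQp, hQ0, ⟨M, hM⟩, hQ1⟩ := hQ A β b c hA hβ hmono hb
  obtain ⟨g', hg', hgm⟩ := hDelay A G g Q hg hQp fun m => by
    obtain ⟨n, hn⟩ := hQ1 m
    exact ⟨n, lt_of_le_of_lt (hG m) hn⟩
  have hq : Primrec fun t => 2 * Q t := Primrec.nat_mul.comp (Primrec.const 2) hQp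
  obtain ⟨Bp, hBp, hBabs⟩ := hAbs g' (fun t => 2 * Q t) hg'.prim hq
  have hk := hKill A G g' Q Bp M hg' hM hgm hBp hBabs Z hML hZG
  obtain ⟨H, hH, hH2⟩ := hFin A Q Bp M hA hQp hQ0 hM hBp
    (fun m v ξ h => ⟨((hBabs m v ξ).1 h).1, hg'.small v m ξ ((hBabs m v ξ).1 h).2.1.1⟩)
    (hNest g' _ Bp hg'.anti hg'.small hBabs) (hCnt g' _ Bp hBabs)
  refine hZ H hH ?_
  rw [Set.mem_iInter]
  exact hH2 Z hk

end Pool.Agent.H709.OW
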