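import Pool.Agent.H709.OW.Props

/-! Leaf Conv: compactness. -/

set_option autoImplicit false

namespace Pool.Agent.H709.OW

open Pool.Agent.Helper227 MeasureTheory Encodable
open scoped ENNReal

namespace ConvL

theorem take_eq_pre {X : ℕ → Bool} {w : List Bool} {n : ℕ} (hw : n ≤ w.length)
    (h : ∀ i < n, w.getD i false = X i) : w.take n = pre X n := by
  apply List.ext_getElem
  · rw [List.length_take, length_pre, min_eq_left hw]
  · intro i h1 h2
    rw [length_pre] at h2
    rw [getElem_pre, List.getElem_take, ← h i h2, List.getD_eq_getElem _ _ (h2.trans_le hw)]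

end ConvL

theorem s_Conv : S_Conv := by
  intro P A l₀ hA α hlen h0 hP l
  by_contra hcon
  push Not at hcon
  -- infinitely many bad stages
  have hne : (Filter.atTop ⊓ Filter.principal {s : ℕ | (α s).take l ≠ pre A l}).NeBot := by
    rw [Filter.inf_principal_neBot_iff]
    intro U hU
    obtain ⟨a, ha⟩ := Filter.mem_atTop_sets.1 hU
    obtain ⟨s, hs, h⟩ := hcon a
    exact ⟨s, ha s hs, h⟩
  obtain ⟨𝒰, h𝒰⟩ := Ultrafilter.exists_le
    (Filter.atTop ⊓ Filter.principal {s : ℕ | (α s).take l ≠ pre A l})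
  have hbig : ∀ n, ∀ᶠ s in (𝒰 : Filter ℕ), n ≤ s := fun n =>
    (h𝒰.trans inf_le_left) (Filter.eventually_ge_atTop n)
  have hbad : ∀ᶠ s in (𝒰 : Filter ℕ), (α s).take l ≠ pre A l :=
    (h𝒰.trans inf_le_right) (Filter.mem_principal_self _)
  have hX : ∀ i, ∃ b, ∀ᶠ s in (𝒰 : Filter ℕ), (α s).getD i false = b := by
    intro i
    rcases 𝒰.mem_or_compl_mem {s | (α s).getD i false = true} with h | h
    · exact ⟨true, h⟩
    · refine ⟨false, ?_⟩
      filter_upwards [h] with s hs
      simpa using hs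
  choose X hX using hX
  have hpre : ∀ n, ∀ᶠ s in (𝒰 : Filter ℕ), (α s).take n = pre X n := by
    intro n
    have h1 : ∀ᶠ s in (𝒰 : Filter ℕ), ∀ i ∈ Finset.range n, (α s).getD i false = X i :=
      (Filter.eventually_all_finset _).2 fun i _ => hX i
    filter_upwards [h1, hbig n] with s h2 h3
    exact ConvL.take_eq_pre (by rw [hlen]; exact h3) fun i hi => h2 i (Finset.mem_range.2 hi)
  have hXA : X = A := by
    refine hA X ?_ fun n => ?_
    · obtain ⟨s, h1, h2⟩ := ((hpre l₀).and (hbig l₀)).exists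
      rw [← h1]
      exact h0 s h2
    · obtain ⟨s₁, hs₁⟩ := hP n
      obtain ⟨s, h1, h2⟩ := ((hpre n).and (hbig s₁)).exists
      rw [← h1]
      exact hs₁ s h2
  obtain ⟨s, h1, h2⟩ := ((hpre l).and hbad).exists
  rw [hXA] at h1
  exact h2 h1

end Pool.Agent.H709.OW
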