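import Pool.Agent.H709.OW.Props

set_option autoImplicit false

namespace Pool.Agent.H709.OW

open Pool.Agent.Helper227 MeasureTheory Encodable
open scoped ENNReal

namespace CountL

theorem s1_graph {U : List Bool →. List Bool} (hU : Partrec U) :
    S1 fun x : List Bool × List Bool => x.2 ∈ U x.1 := by
  have h1 : Partrec fun x : List Bool × List Bool => (U x.1).bind fun y =>
      (if y = x.2 then Part.some () else Part.none) := by
    refine Partrec.bind (hU.comp Computable.fst) ?_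
    have h2 : PrimrecPred fun z : (List Bool × List Bool) × List Bool => z.2 = z.1.2 :=
      Primrec.eq.comp Primrec.snd (Primrec.snd.comp Primrec.fst)
    have h3 : Partrec fun z : (List Bool × List Bool) × List Bool =>
        (cond (decide (z.2 = z.1.2)) (Part.some ()) Part.none : Part Unit) :=
      Partrec.cond h2.decide.to_comp (Computable.const ()).partrec Partrec.none
    refine h3.of_eq fun z => ?_
    by_cases h : z.2 = z.1.2 <;> simp [h]
  refine (S1.of_re h1.dom_re).of_eq fun x => ?_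
  simp only [Part.bind_dom]
  constructor
  · rintro ⟨h, h2⟩
    by_cases h3 : (U x.1).get h = x.2
    · rw [← h3]; exact Part.get_mem h
    · rw [if_neg h3] at h2
      exact h2.elim
  · intro h
    refine ⟨Part.dom_iff_mem.2 ⟨_, h⟩, ?_⟩
    have h3 : (U x.1).get (Part.dom_iff_mem.2 ⟨_, h⟩) = x.2 := Part.get_eq_of_mem h _
    rw [h3, if_pos rfl]
    trivial

theorem KU_le_iff {U : List Bool →. List Bool} (hU : IsUniversal U) (y : List Bool) (k : ℕ) :
    KU U y ≤ k ↔ ∃ τ : List Bool, τ.length ≤ k ∧ y ∈ U τ := by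
  constructor
  · intro h
    obtain ⟨τ, h1, h2⟩ := hU.exists_min y
    exact ⟨τ, h1 ▸ h, h2⟩
  · rintro ⟨τ, h1, h2⟩
    exact (KU_le h2).trans h1

theorem s1_KU {U : List Bool →. List Bool} (hU : IsUniversal U) :
    S1 fun x : ℕ × List Bool => KU U x.2 ≤ x.1 := by
  have h1 : S1 fun x : ℕ × List Bool => ∃ τ : List Bool, τ.length ≤ x.1 ∧ x.2 ∈ U τ := by
    refine S1.ex (S1.and (S1.of_prim ?_) ((s1_graph hU.1.1).comp
      (f := fun y : (ℕ × List Bool) × List Bool => (y.2, y.1.2)) ?_))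
    · exact Primrec.nat_le.comp (Primrec.list_length.comp Primrec.snd)
        (Primrec.fst.comp Primrec.fst)
    · exact Primrec.snd.pair (Primrec.snd.comp Primrec.fst)
  exact h1.of_eq fun x => (KU_le_iff hU _ _).symm

theorem prim_nodup : PrimrecPred fun L : List (List Bool) => L.Nodup := by
  have h : PrimrecPred fun L : List (List Bool) => ∀ j < L.length, ∀ i < j, ¬ (L[i]? = L[j]?) := by
    refine PP.all_lt (α := List (List Bool)) (p := fun L j => ∀ i < j, ¬ (L[i]? = L[j]?)) ?_
      Primrec.list_length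
    refine PP.all_lt (α := List (List Bool) × ℕ) (f := fun x => x.2)
      (p := fun x i => ¬ (x.1[i]? = x.1[x.2]?)) ?_ Primrec.snd
    refine PrimrecPred.not ?_
    refine Primrec.eq.comp ?_ ?_
    · exact Primrec.list_getElem?.comp (Primrec.fst.comp Primrec.fst) Primrec.snd
    · exact Primrec.list_getElem?.comp (Primrec.fst.comp Primrec.fst)
        (Primrec.snd.comp Primrec.fst)
  refine h.of_eq fun L => ?_
  rw [List.nodup_iff_getElem?_ne_getElem?]
  exact ⟨fun h i j hij hj => h j hj i hij, fun h j hj i hij => h i j hij hj⟩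

/-- the requests -/
def Rq (U : List Bool →. List Bool) (x : ℕ × List Bool) : Prop :=
  ∃ w : (ℕ × ℕ) × (ℕ × List (List Bool)), (x.1 = w.1.1 + 1 ∧
    x.2 = (List.range w.1.2).map (fun _ => false)) ∧ (w.2.2.Nodup ∧
      2 ^ w.2.1 < w.2.2.length * 2 ^ w.1.1) ∧
      ∀ σ ∈ w.2.2, σ.length = w.1.2 ∧ KU U σ ≤ w.2.1

theorem s1_Rq {U : List Bool →. List Bool} (hU : IsUniversal U) : S1 (Rq U) := by
  refine S1.ex (S1.and (S1.of_prim ?_) (S1.and (S1.of_prim ?_) ?_))
  · refine PrimrecPred.and ?_ ?_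
    · exact Primrec.eq.comp (Primrec.fst.comp Primrec.fst)
        (Primrec.succ.comp (Primrec.fst.comp (Primrec.fst.comp Primrec.snd)))
    · exact Primrec.eq.comp (Primrec.snd.comp Primrec.fst)
        (Primrec.list_map (Primrec.list_range.comp
          (Primrec.snd.comp (Primrec.fst.comp Primrec.snd))) (Primrec.const false))
  · refine PrimrecPred.and ?_ ?_
    · exact prim_nodup.comp (Primrec.snd.comp (Primrec.snd.comp Primrec.snd))
    · exact Primrec.nat_lt.comp
        (primrec_pow.comp (Primrec.const 2) (Primrec.fst.comp (Primrec.snd.comp Primrec.snd)))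
        (Primrec.nat_mul.comp (Primrec.list_length.comp
          (Primrec.snd.comp (Primrec.snd.comp Primrec.snd)))
          (primrec_pow.comp (Primrec.const 2) (Primrec.fst.comp (Primrec.fst.comp Primrec.snd))))
  · refine S1.all_mem (α := (ℕ × List Bool) × ((ℕ × ℕ) × (ℕ × List (List Bool))))
      (f := fun x => x.2.2.2) (p := fun x σ => σ.length = x.2.1.2 ∧ KU U σ ≤ x.2.2.1) ?_
      (Primrec.snd.comp (Primrec.snd.comp Primrec.snd))
    refine S1.and (S1.of_prim ?_) ((s1_KU hU).comp (f := fun y :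
      ((ℕ × List Bool) × ((ℕ × ℕ) × (ℕ × List (List Bool)))) × List Bool => (y.1.2.2.1, y.2)) ?_)
    · exact Primrec.eq.comp (Primrec.list_length.comp Primrec.snd)
        (Primrec.snd.comp (Primrec.fst.comp (Primrec.snd.comp Primrec.fst)))
    · exact (Primrec.fst.comp (Primrec.snd.comp (Primrec.snd.comp Primrec.fst))).pair Primrec.snd

theorem geo (m M : ℕ) (h : m ≤ M) :
    ∑ i ∈ Finset.Ico m M, (1 / 2 : ℝ) ^ i ≤ 2 * (1 / 2 : ℝ) ^ m - 2 * (1 / 2 : ℝ) ^ M := by
  induction M, h using Nat.le_induction with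
  | base => simp
  | succ M h ih =>
    rw [Finset.sum_Ico_succ_top h]
    have : (1 / 2 : ℝ) ^ (M + 1) = (1 / 2) ^ M / 2 := by ring
    rw [this]
    linarith

theorem geo_fin (I : Finset ℕ) (m : ℕ) (h : ∀ i ∈ I, m ≤ i) :
    ∑ i ∈ I, (1 / 2 : ℝ) ^ i ≤ 2 * (1 / 2 : ℝ) ^ m := by
  have h1 : I ⊆ Finset.Ico m (m + (I.sup id + 1)) := by
    intro i hi
    rw [Finset.mem_Ico]
    have : i ≤ I.sup id := Finset.le_sup (f := id) hi
    exact ⟨h i hi, by omega⟩
  refine (Finset.sum_le_sum_of_subset_of_nonneg h1 fun _ _ _ => by positivity).trans ?_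
  have h2 := geo m (m + (I.sup id + 1)) (by omega)
  have h3 : (0 : ℝ) ≤ (1 / 2 : ℝ) ^ (m + (I.sup id + 1)) := by positivity
  linarith

theorem rep (n : ℕ) : (List.range n).map (fun _ => false) = List.replicate n false :=
  List.ext_getElem (by simp) fun i h1 h2 => by simp

theorem group (U : List Bool →. List Bool) (F : Finset (ℕ × List Bool)) (hF : ∀ x ∈ F, Rq U x)
    (y : List Bool) (hy : y ∈ F.image Prod.snd) :
    ∃ S : Finset (List Bool), (∀ σ ∈ S, σ.length = y.length) ∧
      y = List.replicate y.length false ∧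
      ∑ x ∈ F with x.2 = y, (1 / 2 : ℝ) ^ x.1 ≤ ∑ σ ∈ S, (1 / 2 : ℝ) ^ KU U σ := by
  classical
  have hne : (F.filter fun x => x.2 = y).Nonempty := by
    obtain ⟨x, hx, rfl⟩ := Finset.mem_image.1 hy
    exact ⟨x, by simp [hx]⟩
  obtain ⟨x, hx, hmin⟩ := Finset.exists_min_image _ (fun x : ℕ × List Bool => x.1) hne
  rw [Finset.mem_filter] at hx
  obtain ⟨⟨⟨r, n⟩, ⟨k, L⟩⟩, ⟨h1, h2⟩, ⟨h3, h4⟩, h5⟩ := hF x hx.1
  simp only at h1 h2 h3 h4 h5
  rw [rep, hx.2] at h2
  have hn : y.length = n := by rw [h2]; simp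
  refine ⟨L.toFinset, ?_, ?_, ?_⟩
  · intro σ hσ
    rw [List.mem_toFinset] at hσ
    rw [hn]; exact (h5 σ hσ).1
  · rw [hn]; exact h2
  · have e1 : ∑ x ∈ F with x.2 = y, (1 / 2 : ℝ) ^ x.1 =
        ∑ i ∈ (F.filter fun x => x.2 = y).image Prod.fst, (1 / 2 : ℝ) ^ i := by
      rw [Finset.sum_image]
      intro a ha b hb hab
      have ha' := (Finset.mem_filter.1 (Finset.mem_coe.1 ha)).2
      have hb' := (Finset.mem_filter.1 (Finset.mem_coe.1 hb)).2
      exact Prod.ext hab (ha'.trans hb'.symm)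
    have e2 : ∑ i ∈ (F.filter fun x => x.2 = y).image Prod.fst, (1 / 2 : ℝ) ^ i ≤
        2 * (1 / 2 : ℝ) ^ x.1 := by
      refine geo_fin _ _ fun i hi => ?_
      obtain ⟨z, hz, rfl⟩ := Finset.mem_image.1 hi
      exact hmin z hz
    have e3 : 2 * (1 / 2 : ℝ) ^ x.1 = (1 / 2 : ℝ) ^ r := by
      rw [h1, pow_succ]; ring
    have e4 : (1 / 2 : ℝ) ^ r ≤ L.length * (1 / 2 : ℝ) ^ k := by
      have h4' : (2 : ℝ) ^ k < L.length * 2 ^ r := by exact_mod_cast h4
      rw [one_div, inv_pow, inv_pow, ← div_eq_mul_inv, inv_eq_one_div,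
        div_le_div_iff₀ (by positivity) (by positivity)]
      linarith
    have e5 : (L.length : ℝ) * (1 / 2 : ℝ) ^ k ≤ ∑ σ ∈ L.toFinset, (1 / 2 : ℝ) ^ KU U σ := by
      rw [← List.toFinset_card_of_nodup h3, ← nsmul_eq_mul]
      refine Finset.card_nsmul_le_sum _ _ _ fun σ hσ => ?_
      rw [List.mem_toFinset] at hσ
      exact pow_le_pow_of_le_one (by norm_num) (by norm_num) (h5 σ hσ).2
    rw [e1]
    linarith

theorem weight (hKr : S_Kraft) {U : List Bool →. List Bool} (hU : IsUniversal U)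
    (F : Finset (ℕ × List Bool)) (hF : ∀ x ∈ F, Rq U x) : ∑ x ∈ F, (1 / 2 : ℝ) ^ x.1 ≤ 1 := by
  classical
  choose! S hS1 hS2 hS3 using group U F hF
  have e1 : ∑ x ∈ F, (1 / 2 : ℝ) ^ x.1 =
      ∑ y ∈ F.image Prod.snd, ∑ x ∈ F with x.2 = y, (1 / 2 : ℝ) ^ x.1 :=
    (Finset.sum_fiberwise_of_maps_to (fun x hx => Finset.mem_image_of_mem _ hx) _).symm
  rw [e1]
  refine (Finset.sum_le_sum fun y hy => hS3 y hy).trans ?_
  rw [← Finset.sum_biUnion]
  · exact hKr U hU _
  · intro y hy z hz hne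
    rw [Function.onFun, Finset.disjoint_left]
    intro σ h1 h2
    apply hne
    have hy' := Finset.mem_coe.1 hy
    have hz' := Finset.mem_coe.1 hz
    have h3 := hS1 y hy' σ h1
    have h4 := hS1 z hz' σ h2
    rw [hS2 y hy', hS2 z hz', ← h3, ← h4]

end CountL

open CountL in
theorem s_Count (hKC : S_KC) (hKr : S_Kraft) : S_Count := by
  intro U hU b
  obtain ⟨c, hc⟩ := hKC U hU (Rq U) (s1_Rq hU) (weight hKr hU)
  refine ⟨2 ^ (b + c + 2), fun n F hF => ?_⟩
  by_contra hcon
  push Not at hcon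
  rcases Nat.lt_or_ge (KU U (List.replicate n false) + b) (b + c + 2) with h | h
  · have h1 := hKr U hU F
    have h2 : (F.card : ℝ) * (1 / 2 : ℝ) ^ (KU U (List.replicate n false) + b) ≤
        ∑ σ ∈ F, (1 / 2 : ℝ) ^ KU U σ := by
      rw [← nsmul_eq_mul]
      refine Finset.card_nsmul_le_sum _ _ _ fun σ hσ => ?_
      exact pow_le_pow_of_le_one (by norm_num) (by norm_num) (hF σ hσ).2
    have h3 : (2 : ℝ) ^ (b + c + 2) < F.card := by exact_mod_cast hcon
    have h4 : (2 : ℝ) ^ (KU U (List.replicate n false) + b) ≤ 2 ^ (b + c + 2) :=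
      pow_le_pow_right₀ (by norm_num) h.le
    have h5 : (1 : ℝ) < (F.card : ℝ) * (1 / 2 : ℝ) ^ (KU U (List.replicate n false) + b) := by
      rw [one_div, inv_pow, ← div_eq_mul_inv, lt_div_iff₀ (by positivity)]
      linarith
    linarith
  · have h1 : Rq U ((KU U (List.replicate n false) + b - (b + c + 2)) + 1,
        List.replicate n false) := by
      refine ⟨((KU U (List.replicate n false) + b - (b + c + 2), n),
        (KU U (List.replicate n false) + b, F.toList)), ⟨rfl, (rep n).symm⟩,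
        ⟨F.nodup_toList, ?_⟩, ?_⟩
      · simp only [Finset.length_toList]
        calc 2 ^ (KU U (List.replicate n false) + b) = 2 ^ (b + c + 2) *
              2 ^ (KU U (List.replicate n false) + b - (b + c + 2)) := by
              rw [← pow_add]; congr 1; omega
          _ < _ := Nat.mul_lt_mul_of_pos_right hcon (by positivity)
      · intro σ hσ
        exact hF σ (Finset.mem_toList.1 hσ)
    have h2 := hc _ _ h1
    omega

namespace CountL

theorem ev_sep (X Y : ℕ → Bool) : ∀ᶠ n in Filter.atTop, pre X n = pre Y n → X = Y := by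
  by_cases h : X = Y
  · exact Filter.Eventually.of_forall fun _ _ => h
  · obtain ⟨i, hi⟩ := Function.ne_iff.1 h
    filter_upwards [Filter.eventually_gt_atTop i] with n hn hp
    exfalso
    apply hi
    have h1 := congrArg (fun L => L[i]?) hp
    simpa [pre, hn] using h1

end CountL

open CountL in
theorem s_Iso (h : S_Count) : S_Iso := by
  intro U hU A b
  obtain ⟨N, hN⟩ := h U hU b
  have hfin : {X : ℕ → Bool | ∀ n, KU U (pre X n) ≤ KU U (List.replicate n false) + b}.Finite := by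
    by_contra hinf
    obtain ⟨T, hT, hTc⟩ := Set.Infinite.exists_subset_card_eq hinf (N + 1)
    have h1 : ∀ᶠ n in Filter.atTop, ∀ X ∈ T, ∀ Y ∈ T, pre X n = pre Y n → X = Y := by
      rw [Filter.eventually_all_finset]
      intro X _
      rw [Filter.eventually_all_finset]
      intro Y _
      exact ev_sep X Y
    obtain ⟨n, hn⟩ := h1.exists
    classical
    have h2 := hN n (T.image fun X => pre X n) (by
      intro σ hσ
      obtain ⟨X, hX, rfl⟩ := Finset.mem_image.1 hσ
      exact ⟨by simp [pre], hT hX n⟩)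
    rw [Finset.card_image_of_injOn (fun X hX Y hY hXY => hn X hX Y hY hXY), hTc] at h2
    omega
  have h1 : ∀ᶠ l in Filter.atTop, ∀ X ∈ {X : ℕ → Bool | ∀ n, KU U (pre X n) ≤
      KU U (List.replicate n false) + b}, pre X l = pre A l → X = A := by
    rw [Filter.eventually_all_finite hfin]
    intro X _
    exact ev_sep X A
  obtain ⟨l₀, hl⟩ := h1.exists
  exact ⟨l₀, fun X h1 h2 _ => hl X h2 h1⟩

end Pool.Agent.H709.OW
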