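import Pool.Graph.R_seed8.Helper227.VL
import Pool.Graph.R_seed8.Helper227.KC2
import Pool.Graph.R_seed8.Helper227.Mach

set_option autoImplicit false

/-!
Definitions for `MP_e7a618_lc`: every K-trivial set is low for Oberwolfach randomness.
All the basic notions (`S1`, `CEIn`, `cyl`, `lam`, `MLR`, `pre`, `KU`, `KTrivial`, `allStr`)
come from `Pool.Graph.R_seed8.Helper227`.
-/

namespace Pool.Agent.H709.OW

open Pool.Agent.Helper227 MeasureTheory Encodable
open scoped ENNReal

/-- finite strings -/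
abbrev Str := List Bool

/-! ### Oberwolfach randomness -/

/-- `f` is computable relative to `A`. -/
def CompIn (A : ℕ → Bool) (f : ℕ → ℕ) : Prop :=
  TuringReducible (fun n => Part.some (f n)) (chi A)

/-- `β` is an `A`-computable sequence of rationals. -/
def CompRatIn (A : ℕ → Bool) (β : ℕ → ℚ) : Prop :=
  ∃ f g h : ℕ → ℕ, CompIn A f ∧ CompIn A g ∧ CompIn A h ∧
    ∀ n, β n = ((f n : ℚ) - (g n : ℚ)) / ((h n : ℚ) + 1)

/-- `G 0, G 1, ...` is a uniformly `Σ⁰₁(A)` sequence of open sets. -/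
def UnifSigma (A : ℕ → Bool) (G : ℕ → Set (ℕ → Bool)) : Prop :=
  ∃ W : Set ℕ, CEIn A W ∧
    ∀ n, G n = ⋃ σ ∈ {σ : List Bool | Nat.pair n (encode σ) ∈ W}, cyl σ

/-- `G` is (the sequence of open sets of) a left-c.e. test relative to `A`: a descending
uniformly `Σ⁰₁(A)` sequence, such that for some `A`-computable increasing sequence of rationals
`β 0 < β 1 < ...` with supremum `b` the measure of `G m` is `O(b - β m)`. -/
def IsOWTest (A : ℕ → Bool) (G : ℕ → Set (ℕ → Bool)) : Prop :=
  UnifSigma A G ∧ Antitone G ∧ ∃ (β : ℕ → ℚ) (b : ℝ) (c : ℕ), CompRatIn A β ∧ StrictMono β ∧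
    IsLUB (Set.range fun s => (β s : ℝ)) b ∧ ∀ m, lam (G m) ≤ ENNReal.ofReal (c * (b - β m))

/-- `Z` is Oberwolfach random relative to `A`. -/
def OWR (A Z : ℕ → Bool) : Prop := ∀ G : ℕ → Set (ℕ → Bool), IsOWTest A G → Z ∉ ⋂ m, G m

/-! ### The covering property -/

/-- the set enumerated with oracle `A` -/
def En (E : Str × ℕ → Prop) (A : ℕ → Bool) : Set ℕ := {x | ∃ s, E (pre A s, x)}

/-- Covering property (equivalent to lowness for `K`): every `A`-c.e. set of bounded weight is
contained in a c.e. set of bounded weight. -/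
def Cov (A : ℕ → Bool) : Prop :=
  ∀ (E : Str × ℕ → Prop) (ω : ℕ → ℕ), S1 E → Primrec ω →
    (∀ F : Finset ℕ, (∀ x ∈ F, x ∈ En E A) → ∑ x ∈ F, (1 / 2 : ℝ) ^ ω x ≤ 1) →
    ∃ V : ℕ → Prop, S1 V ∧ (∀ x ∈ En E A, V x) ∧
      ∃ c : ℕ, ∀ F : Finset ℕ, (∀ x ∈ F, V x) → ∑ x ∈ F, (1 / 2 : ℝ) ^ ω x ≤ c

/-! ### The golden run -/

namespace GR

/-- the element which may be enumerated at the string `τ` -/
def el (τ : Str) : ℕ := (Nat.unpair τ.length).1

/-- `en` is a trimmed enumeration operator for the weights `2 ^ (- ω x)`: along every string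
the elements enumerated have total weight at most one. -/
def Trimmed (ω : ℕ → ℕ) (en : Str → Prop) : Prop :=
  ∀ (α : Str) (F : Finset ℕ), (∀ x ∈ F, ∃ τ, τ <+: α ∧ en τ ∧ el τ = x) →
    ∑ x ∈ F, (1 / 2 : ℝ) ^ ω x ≤ 1

/-- the record of a stage: the current approximation (with a search bound), the current strings
of the levels, and the load exponent (`none` if no load is made). -/
abbrev Rec := (Str × ℕ) × List Str × Option ℕ

/-- the weight of a load -/
noncomputable def wt (o : Option ℕ) : ℝ := o.elim 0 fun q => (1 / 2 : ℝ) ^ q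

variable (R : ℕ → Rec)

/-- current approximation at stage `s` -/
abbrev al (s : ℕ) : Str := (R s).1.1
/-- current strings of the levels at stage `s` -/
abbrev ps (s : ℕ) : List Str := (R s).2.1
/-- load at stage `s` -/
abbrev ld (s : ℕ) : Option ℕ := (R s).2.2

/-- start of the level `i` run with stack `L` which is active at stage `s`:
the least `t ≤ s` such that the first `i` strings are `L` at all stages in `[t, s)`. -/
noncomputable def st (s i : ℕ) (L : List Str) : ℕ :=
  open Classical in Nat.find (p := fun t => ∀ u, t ≤ u → u < s → (ps R u).take i = L)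
    ⟨s, fun _ h1 h2 => absurd h1 (Nat.not_le.2 h2)⟩

/-- the amount fed to `x` by the level `i` run with stack `L` before stage `s` -/
noncomputable def fed (s i : ℕ) (L : List Str) (x : ℕ) : ℝ :=
  ∑ u ∈ Finset.Ico (st R s i L) s, if ((ps R u)[i]?).map el = some x then wt (ld R u) else 0

/-- total load before stage `s` -/
noncomputable def tot (s : ℕ) : ℝ := ∑ u ∈ Finset.range s, wt (ld R u)

variable (ω : ℕ → ℕ) (en : Str → Prop) (r : ℕ)

/-- the exponent of the quota of `x` in the level `i` run with stack `L` -/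
noncomputable def qu (s i : ℕ) (L : List Str) (x : ℕ) : ℕ := i + st R s i L + 3 + ω x

/-- the level `i` run with stack `L` is hungry at `τ` -/
def Hungry (s i : ℕ) (L : List Str) (τ : Str) : Prop :=
  en τ ∧ fed R s i L (el τ) < (1 / 2 : ℝ) ^ qu R ω s i L (el τ)

/-- the specification of the strings of the levels at stage `s` -/
structure PsAt (s : ℕ) : Prop where
  len : (al R s).length = s
  le : (ps R s).length ≤ r + 1
  mem : ∀ i (hi : i < (ps R s).length), (ps R s)[i] <+: al R s ∧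
    Hungry R ω en s i ((ps R s).take i) (ps R s)[i]
  min : ∀ i (hi : i < (ps R s).length), ∀ τ, τ <+: al R s → τ.length < (ps R s)[i].length →
    ¬ Hungry R ω en s i ((ps R s).take i) τ
  max : (ps R s).length < r + 1 → ∀ τ, τ <+: al R s → ¬ Hungry R ω en s (ps R s).length (ps R s) τ

/-- the specification of the load at stage `s` -/
structure LdAt (s : ℕ) : Prop where
  none : ¬ ((ps R s).length = r + 1 ∧ tot R s < 1) → ld R s = none
  some : (ps R s).length = r + 1 → tot R s < 1 → ∃ q, ld R s = some q ∧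
    (∀ u < s, ∀ q', ld R u = some q' → q' ≤ q) ∧
    (∀ i ≤ r, qu R ω s i ((ps R s).take i) (el ((ps R s).getD i [])) ≤ q) ∧
    ((∃ u < s, ld R u = some q) ∨
      ∃ i ≤ r, qu R ω s i ((ps R s).take i) (el ((ps R s).getD i [])) = q)

/-- the specification of stage `s` -/
def SpecAt (s : ℕ) : Prop := PsAt R ω en r s ∧ LdAt R ω r s

end GR

/-! ### Enumerations of uniformly `Σ⁰₁(A)` sequences -/

theorem unifSigma_of_E {A : ℕ → Bool} {E : List Bool × ℕ × List Bool → Prop} (hE : S1 E) :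
    UnifSigma A (UE E A) := by
  refine ⟨{m | ∃ s, ∃ ζ : List Bool, E (pre A s, (Nat.unpair m).1, ζ) ∧ encode ζ = (Nat.unpair m).2},
    ?_, ?_⟩
  · rw [ceIn_iff]
    refine ⟨fun x => ∃ s : ℕ, ∃ ζ : List Bool, (s ≤ x.1.length ∧
      encode ζ = (Nat.unpair x.2).2) ∧ E (x.1.take s, (Nat.unpair x.2).1, ζ), ?_, ?_, ?_⟩
    · refine S1.ex (S1.ex (S1.and (S1.of_prim (PrimrecPred.and ?_ ?_)) (hE.comp ?_)))
      · exact Primrec.nat_le.comp (Primrec.snd.comp Primrec.fst)
          (Primrec.list_length.comp (Primrec.fst.comp (Primrec.fst.comp Primrec.fst)))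
      · exact Primrec.eq.comp (Primrec.encode.comp Primrec.snd)
          (Primrec.snd.comp (Primrec.unpair.comp (Primrec.snd.comp (Primrec.fst.comp Primrec.fst))))
      · exact (Primrec.list_take.comp (Primrec.snd.comp Primrec.fst)
          (Primrec.fst.comp (Primrec.fst.comp Primrec.fst))).pair
          ((Primrec.fst.comp (Primrec.unpair.comp
            (Primrec.snd.comp (Primrec.fst.comp Primrec.fst)))).pair Primrec.snd)
    · rintro σ τ n h ⟨s, ζ, ⟨hs, h1⟩, h2⟩
      refine ⟨s, ζ, ⟨le_trans hs h.length_le, h1⟩, ?_⟩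
      simp only at hs h2 ⊢
      rw [List.prefix_iff_eq_take] at h
      rw [h, List.take_take, min_eq_left hs] at h2
      exact h2
    · intro n
      simp only [Set.mem_ofPred_eq, length_pre]
      constructor
      · rintro ⟨s, ζ, h1, h2⟩
        exact ⟨s, s, ζ, ⟨le_rfl, h2⟩, by rwa [take_pre _ _ _ le_rfl]⟩
      · rintro ⟨s', s, ζ, ⟨hs, h2⟩, h1⟩
        rw [take_pre _ _ _ hs] at h1
        exact ⟨s, ζ, h1, h2⟩
  · intro n
    ext X
    simp only [UE, Set.mem_ofPred_eq, Set.mem_iUnion, Nat.unpair_pair, exists_prop]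
    constructor
    · rintro ⟨s, t, h⟩
      exact ⟨pre X t, ⟨s, pre X t, h, rfl⟩, mem_cyl_pre _ _⟩
    · rintro ⟨σ, ⟨s, ζ, h, h2⟩, hX⟩
      have := encode_injective h2
      subst this
      rw [mem_cyl_iff] at hX
      exact ⟨s, ζ.length, by rw [hX]; exact h⟩

theorem UnifSigma.exists_E {A : ℕ → Bool} {U : ℕ → Set (ℕ → Bool)} (h : UnifSigma A U) :
    ∃ E : List Bool × ℕ × List Bool → Prop, S1 E ∧ Mono3 E ∧ ∀ n, U n = UE E A n := by
  obtain ⟨W, hW, hU⟩ := h
  obtain ⟨E0, hE0, -, eE0⟩ := ceIn_iff.1 hW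
  obtain ⟨E, hE, mE, eE⟩ := exists_mono3 (E := fun x => E0 (x.1, Nat.pair x.2.1 (encode x.2.2)))
    (hE0.comp (Primrec.fst.pair (Primrec₂.natPair.comp (Primrec.fst.comp Primrec.snd)
      (Primrec.encode.comp (Primrec.snd.comp Primrec.snd)))))
  refine ⟨E, hE, mE, fun n => ?_⟩
  rw [hU, eE]
  ext X
  simp only [UE, Set.mem_ofPred_eq, Set.mem_iUnion, exists_prop, eE0]
  constructor
  · rintro ⟨σ, ⟨s, hs⟩, hX⟩
    rw [mem_cyl_iff] at hX
    exact ⟨s, σ.length, by rw [hX]; exact hs⟩
  · rintro ⟨s, t, h⟩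
    exact ⟨pre X t, ⟨s, h⟩, mem_cyl_pre _ _⟩

end Pool.Agent.H709.OW
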