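import Pool.Agent.H709.OW.Props

set_option autoImplicit false

/-!
Leaf `Delay`: `s_Delay : S_Delay`.
-/

namespace Pool.Agent.H709.OW

open Pool.Agent.Helper227 MeasureTheory Encodable
open scoped ENNReal

namespace DelayL

variable (g : Str → ℕ → Str → Prop) (Q : ℕ → ℕ)

open Classical in
/-- number of strings of length `|w|` with `g w n ξ` -/
noncomputable def cg (w : Str) (n : ℕ) : ℕ :=
  ((allStr w.length).filter fun ξ => g w n ξ).length

/-- `2 ^ t * ∑_{i < t} Q i / 2 ^ i` -/
def PQ : ℕ → ℕ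
  | 0 => 0
  | t + 1 => 2 * PQ t + 2 * Q t

/-- the semantic condition -/
def ok (w : Str) (t : ℕ) : Prop :=
  ∀ n < w.length, (cg g w n : ℝ≥0∞) / 2 ^ w.length ≤ ∑ i ∈ Finset.Ico n t, (Q i : ℝ≥0∞) / 2 ^ i

/-- the arithmetic condition -/
def okA (w : Str) (t : ℕ) : Prop :=
  ∀ n < w.length, cg g w n * 2 ^ t + 2 ^ (t - n) * PQ Q n * 2 ^ w.length ≤ PQ Q t * 2 ^ w.length

/-- the delayed enumeration -/
def dg (v : Str) (m : ℕ) (ξ : Str) : Prop :=
  ∃ u < v.length + 1, u ≤ ξ.length ∧ ok g Q (v.take u) v.length ∧ g (v.take u) m (ξ.take u)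

variable {g Q}

theorem sum_eq (n t : ℕ) (h : n ≤ t) : ∃ N : ℕ, N + 2 ^ (t - n) * PQ Q n = PQ Q t ∧
    ∑ i ∈ Finset.Ico n t, (Q i : ℝ≥0∞) / 2 ^ i = (N : ℝ≥0∞) / 2 ^ t := by
  induction t, h using Nat.le_induction with
  | base => exact ⟨0, by simp, by simp⟩
  | succ t h ih =>
    obtain ⟨N, h1, h2⟩ := ih
    refine ⟨2 * N + 2 * Q t, ?_, ?_⟩
    · have h3 : t + 1 - n = (t - n) + 1 := by omega
      rw [h3, pow_succ]
      show _ = 2 * PQ Q t + 2 * Q t
      rw [← h1]
      ring
    · rw [Finset.sum_Ico_succ_top h, h2]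
      have e1 : ((2 * N + 2 * Q t : ℕ) : ℝ≥0∞) = 2 * ((N : ℝ≥0∞) + Q t) := by
        push_cast
        ring
      rw [e1, pow_succ', ENNReal.mul_div_mul_left _ _ (by norm_num) (by norm_num),
        ENNReal.add_div]

theorem ok_iff (w : Str) (t : ℕ) (h : w.length ≤ t) : ok g Q w t ↔ okA g Q w t := by
  unfold ok okA
  refine forall_congr' fun n => forall_congr' fun hn => ?_
  obtain ⟨N, h1, h2⟩ := sum_eq (Q := Q) n t (by omega)
  rw [h2, ← h1]
  have a2 : (2 : ℝ≥0∞) ≠ 0 := by norm_num
  have a3 : (2 : ℝ≥0∞) ≠ ⊤ := by norm_num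
  rw [ENNReal.div_le_iff (pow_ne_zero _ a2) (ENNReal.pow_ne_top a3), div_eq_mul_inv, mul_right_comm,
    ← div_eq_mul_inv,
    ENNReal.le_div_iff_mul_le (Or.inl (pow_ne_zero _ a2)) (Or.inl (ENNReal.pow_ne_top a3))]
  rw [add_mul]
  have e : ((cg g w n : ℝ≥0∞) * 2 ^ t ≤ (N : ℝ≥0∞) * 2 ^ w.length) ↔
      cg g w n * 2 ^ t ≤ N * 2 ^ w.length := by norm_cast
  rw [e]
  constructor
  · intro h; omega
  · intro h; omega

theorem ok_mono {w : Str} {t t' : ℕ} (h : t ≤ t') (hw : ok g Q w t) : ok g Q w t' := fun n hn =>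
  (hw n hn).trans (Finset.sum_le_sum_of_subset (Finset.Ico_subset_Ico_right h))

theorem lam_cg (A : ℕ → Bool) (u n : ℕ) :
    lam {X | g (pre A u) n (pre X u)} = (cg g (pre A u) n : ℝ≥0∞) / 2 ^ u := by
  classical
  have h := lam_finset (((allStr u).filter fun ξ => g (pre A u) n ξ).toFinset) u
    (by intro σ hσ; simp only [List.mem_toFinset, List.mem_filter, mem_allStr] at hσ; exact hσ.1)
  rw [List.toFinset_card_of_nodup ((nodup_allStr u).filter _)] at h
  have e : {X : ℕ → Bool | pre X u ∈ ((allStr u).filter fun ξ => g (pre A u) n ξ).toFinset} =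
      {X | g (pre A u) n (pre X u)} := by
    ext X
    simp only [Set.mem_ofPred_eq, List.mem_toFinset, List.mem_filter, mem_allStr, length_pre,
      true_and, decide_eq_true_eq]
  rw [e] at h
  rw [h, cg, length_pre, one_div, ← ENNReal.inv_pow, div_eq_mul_inv]

theorem primrec_PQ (hQ : Primrec Q) : Primrec (PQ Q) := by
  have : Primrec fun n : ℕ => (Nat.rec 0 (fun t IH => 2 * IH + 2 * Q t) n : ℕ) := by
    refine Primrec.nat_rec' (f := fun n : ℕ => n) (g := fun _ => (0 : ℕ))
      (h := fun _ p => 2 * p.2 + 2 * Q p.1) Primrec.id (Primrec.const _) ?_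
    refine Primrec.nat_add.comp (Primrec.nat_mul.comp (Primrec.const 2)
      (Primrec.snd.comp Primrec.snd)) (Primrec.nat_mul.comp (Primrec.const 2)
      (hQ.comp (Primrec.fst.comp Primrec.snd)))
  refine this.of_eq fun n => ?_
  induction n with
  | zero => rfl
  | succ n ih => simp only [ih, PQ]

theorem primrec_cg (hg : PrimrecPred fun x : Str × ℕ × Str => g x.1 x.2.1 x.2.2) :
    Primrec₂ (cg g) := by
  classical
  have h1 : PrimrecRel (fun (ξ : Str) (p : Str × ℕ) => g p.1 p.2 ξ) :=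
    hg.comp ((Primrec.fst.comp Primrec.snd).pair ((Primrec.snd.comp Primrec.snd).pair Primrec.fst))
  have h2 := h1.listFilter
  refine (Primrec.list_length.comp (h2.comp (primrec_allStr.comp (Primrec.list_length.comp
    Primrec.fst)) (Primrec.id (α := Str × ℕ)))).of_eq fun x => ?_
  rfl

theorem prim_okA (hg : PrimrecPred fun x : Str × ℕ × Str => g x.1 x.2.1 x.2.2) (hQ : Primrec Q) :
    PrimrecRel (okA g Q) := by
  have hP := primrec_PQ hQ
  have hc := primrec_cg hg
  have hl : Primrec fun x : (Str × ℕ) × ℕ => x.1.1.length :=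
    Primrec.list_length.comp (Primrec.fst.comp Primrec.fst)
  refine PP.all_lt (α := Str × ℕ) (f := fun x => x.1.length) (p := fun x n =>
    cg g x.1 n * 2 ^ x.2 + 2 ^ (x.2 - n) * PQ Q n * 2 ^ x.1.length ≤ PQ Q x.2 * 2 ^ x.1.length) ?_
    (Primrec.list_length.comp Primrec.fst)
  refine Primrec.nat_le.comp (Primrec.nat_add.comp (Primrec.nat_mul.comp ?_ ?_)
    (Primrec.nat_mul.comp (Primrec.nat_mul.comp ?_ ?_) ?_)) (Primrec.nat_mul.comp ?_ ?_)
  · exact hc.comp (Primrec.fst.comp Primrec.fst) Primrec.snd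
  · exact primrec_pow.comp (Primrec.const 2) (Primrec.snd.comp Primrec.fst)
  · exact primrec_pow.comp (Primrec.const 2)
      (Primrec.nat_sub.comp (Primrec.snd.comp Primrec.fst) Primrec.snd)
  · exact hP.comp Primrec.snd
  · exact primrec_pow.comp (Primrec.const 2) hl
  · exact hP.comp (Primrec.snd.comp Primrec.fst)
  · exact primrec_pow.comp (Primrec.const 2) hl

theorem prim_dg (hg : PrimrecPred fun x : Str × ℕ × Str => g x.1 x.2.1 x.2.2) (hQ : Primrec Q) :
    PrimrecPred fun x : Str × ℕ × Str => dg g Q x.1 x.2.1 x.2.2 := by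
  have h : PrimrecPred fun x : Str × ℕ × Str => ∃ u < x.1.length + 1, u ≤ x.2.2.length ∧
      okA g Q (x.1.take u) x.1.length ∧ g (x.1.take u) x.2.1 (x.2.2.take u) := by
    refine PP.ex_lt (α := Str × ℕ × Str) (f := fun x => x.1.length + 1) (p := fun x u =>
      u ≤ x.2.2.length ∧ okA g Q (x.1.take u) x.1.length ∧
        g (x.1.take u) x.2.1 (x.2.2.take u)) ?_
      (Primrec.succ.comp (Primrec.list_length.comp Primrec.fst))
    refine PrimrecPred.and ?_ (PrimrecPred.and ?_ ?_)
    · exact Primrec.nat_le.comp Primrec.snd (Primrec.list_length.comp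
        (Primrec.snd.comp (Primrec.snd.comp Primrec.fst)))
    · exact (prim_okA hg hQ).comp (Primrec.list_take.comp Primrec.snd
        (Primrec.fst.comp Primrec.fst)) (Primrec.list_length.comp (Primrec.fst.comp Primrec.fst))
    · exact hg.comp ((Primrec.list_take.comp Primrec.snd
        (Primrec.fst.comp Primrec.fst)).pair ((Primrec.fst.comp (Primrec.snd.comp Primrec.fst)).pair
        (Primrec.list_take.comp Primrec.snd (Primrec.snd.comp (Primrec.snd.comp Primrec.fst)))))
  refine h.of_eq fun x => ?_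
  unfold dg
  refine exists_congr fun u => and_congr_right fun hu => and_congr_right fun _ => ?_
  rw [ok_iff _ _ (by rw [List.length_take]; exact min_le_right _ _)]

theorem take_take_pre (v v' : Str) (u : ℕ) (h : v <+: v') (hu : u ≤ v.length) :
    v'.take u = v.take u := by
  obtain ⟨w, rfl⟩ := h
  rw [List.take_append_of_le_length hu]

end DelayL

open DelayL in
theorem s_Delay : S_Delay := by
  intro A G g Q hg hQ hG
  refine ⟨dg g Q, ⟨prim_dg hg.prim hQ, ?_, ?_, ?_, ?_⟩, ?_⟩
  · -- mono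
    rintro v v' m ξ ξ' hv hξ ⟨u, h1, h2, h3, h4⟩
    refine ⟨u, lt_of_lt_of_le h1 (Nat.succ_le_succ hv.length_le), h2.trans hξ.length_le, ?_, ?_⟩
    · rw [take_take_pre v v' u hv (by omega)]
      exact ok_mono hv.length_le h3
    · rw [take_take_pre v v' u hv (by omega), take_take_pre ξ ξ' u hξ h2]
      exact h4
  · -- anti
    rintro v m n ξ hmn ⟨u, h1, h2, h3, h4⟩
    exact ⟨u, h1, h2, h3, hg.anti _ _ _ _ hmn h4⟩
  · -- small
    rintro v m ξ ⟨u, h1, h2, h3, h4⟩
    have := hg.small _ _ _ h4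
    rw [List.length_take] at this
    omega
  · -- spec
    intro m X
    constructor
    · intro hX
      obtain ⟨t₀, ht₀⟩ := (hg.spec m X).1 hX
      choose N hN using hG
      -- a common bound
      obtain ⟨t, ht1, ht2⟩ : ∃ t, t₀ ≤ t ∧ ∀ n < t₀, N n ≤ t := by
        refine ⟨max t₀ ((Finset.range t₀).sup N), le_max_left _ _, fun n hn => ?_⟩
        exact (Finset.le_sup (f := N) (Finset.mem_range.2 hn)).trans (le_max_right _ _)
      refine ⟨t, t₀, by rw [length_pre]; omega, by rw [length_pre]; exact ht1, ?_, ?_⟩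
      · rw [take_pre _ _ _ ht1]
        intro n hn
        rw [length_pre] at hn ⊢
        rw [← lam_cg A t₀ n]
        calc lam {X | g (pre A t₀) n (pre X t₀)} ≤ lam (G n) :=
              measure_mono fun Y hY => (hg.spec n Y).2 ⟨t₀, hY⟩
          _ ≤ ∑ i ∈ Finset.Ico n (N n), (Q i : ℝ≥0∞) / 2 ^ i := (hN n).le
          _ ≤ _ := Finset.sum_le_sum_of_subset (Finset.Ico_subset_Ico_right (by
              rw [length_pre]; exact ht2 n hn))
      · rw [take_pre _ _ _ ht1, take_pre _ _ _ ht1]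
        exact ht₀
    · rintro ⟨t, u, h1, h2, -, h4⟩
      rw [length_pre] at h1 h2
      rw [take_pre _ _ _ h2, take_pre _ _ _ h2] at h4
      exact (hg.spec m X).2 ⟨u, h4⟩
  · -- measure bound
    intro m t
    classical
    by_cases hne : ∃ u, u ≤ t ∧ ok g Q (pre A u) t
    · -- the largest such `u`
      obtain ⟨u₀, ⟨hu1, hu2⟩, hmax⟩ : ∃ u₀, (u₀ ≤ t ∧ ok g Q (pre A u₀) t) ∧
          ∀ u, u ≤ t → ok g Q (pre A u) t → u ≤ u₀ := by
        obtain ⟨u, hu, hu'⟩ := hne
        refine ⟨Nat.findGreatest (fun u => ok g Q (pre A u) t) t,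
          ⟨Nat.findGreatest_le _, Nat.findGreatest_spec (P := fun u => ok g Q (pre A u) t) hu hu'⟩,
          fun v hv hv' => Nat.le_findGreatest hv hv'⟩
      have hsub : {X | dg g Q (pre A t) m (pre X t)} ⊆ {X | g (pre A u₀) m (pre X u₀)} := by
        rintro X ⟨u, h1, h2, h3, h4⟩
        rw [length_pre] at h1 h2
        rw [length_pre] at h3
        rw [take_pre _ _ _ h2] at h3
        rw [take_pre _ _ _ h2, take_pre _ _ _ h2] at h4
        have hle := hmax u h2 h3
        exact hg.mono _ _ _ _ _ (pre_prefix A hle) (pre_prefix X hle) h4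
      by_cases hm : m < u₀
      · refine (measure_mono hsub).trans ?_
        rw [lam_cg]
        have := hu2 m (by rw [length_pre]; exact hm)
        rwa [length_pre] at this
      · have : {X | dg g Q (pre A t) m (pre X t)} = ∅ := by
          refine Set.eq_empty_of_forall_notMem fun X hX => ?_
          have := hg.small _ _ _ (hsub hX)
          rw [length_pre] at this
          exact hm this
        rw [this, measure_empty]
        exact zero_le
    · have : {X | dg g Q (pre A t) m (pre X t)} = ∅ := by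
        refine Set.eq_empty_of_forall_notMem fun X hX => ?_
        obtain ⟨u, h1, h2, h3, h4⟩ := hX
        rw [length_pre] at h1 h2 h3
        rw [take_pre _ _ _ h2] at h3
        exact hne ⟨u, h2, h3⟩
      rw [this, measure_empty]
      exact zero_le

end Pool.Agent.H709.OW
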