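import Pool.Agent.H709.OW.Props

set_option autoImplicit false

namespace Pool.Agent.H709.OW

open Pool.Agent.Helper227 MeasureTheory Encodable
open scoped ENNReal

namespace EnumL

theorem take_take_prefix {v v' : Str} (h : v <+: v') {i : ℕ} (hi : i < v.length + 1) :
    v.take i = v'.take i := by
  rw [List.prefix_iff_eq_take] at h
  conv_lhs => rw [h]
  rw [List.take_take, min_eq_left (by omega)]

theorem primrec_g {q : List Bool × ℕ × List Bool → ℕ → Prop} (hq : PrimrecRel q) :
    PrimrecPred fun x : Str × ℕ × Str => x.2.1 < x.1.length ∧ ∀ n < x.2.1 + 1,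
      ∃ i < x.1.length + 1, ∃ j < x.2.2.length + 1,
        q (x.1.take i, n, x.2.2.take j) x.1.length := by
  refine PrimrecPred.and ?_ ?_
  · exact Primrec.nat_lt.comp (Primrec.fst.comp Primrec.snd) (Primrec.list_length.comp Primrec.fst)
  · refine PP.all_lt (f := fun x : Str × ℕ × Str => x.2.1 + 1)
      (p := fun x n => ∃ i < x.1.length + 1, ∃ j < x.2.2.length + 1,
        q (x.1.take i, n, x.2.2.take j) x.1.length) ?_
      (Primrec.succ.comp (Primrec.fst.comp Primrec.snd))
    refine PP.ex_lt (α := (Str × ℕ × Str) × ℕ) (f := fun x => x.1.1.length + 1)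
      (p := fun x i => ∃ j < x.1.2.2.length + 1,
        q (x.1.1.take i, x.2, x.1.2.2.take j) x.1.1.length) ?_
      (Primrec.succ.comp (Primrec.list_length.comp (Primrec.fst.comp Primrec.fst)))
    refine PP.ex_lt (α := ((Str × ℕ × Str) × ℕ) × ℕ) (f := fun x => x.1.1.2.2.length + 1)
      (p := fun x j => q (x.1.1.1.take x.2, x.1.2, x.1.1.2.2.take j) x.1.1.1.length) ?_
      (Primrec.succ.comp (Primrec.list_length.comp (Primrec.snd.comp (Primrec.snd.comp
        (Primrec.fst.comp Primrec.fst)))))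
    have hv : Primrec fun x : (((Str × ℕ × Str) × ℕ) × ℕ) × ℕ => x.1.1.1.1 :=
      Primrec.fst.comp (Primrec.fst.comp (Primrec.fst.comp Primrec.fst))
    have hξ : Primrec fun x : (((Str × ℕ × Str) × ℕ) × ℕ) × ℕ => x.1.1.1.2.2 :=
      Primrec.snd.comp (Primrec.snd.comp (Primrec.fst.comp (Primrec.fst.comp Primrec.fst)))
    have hi : Primrec fun x : (((Str × ℕ × Str) × ℕ) × ℕ) × ℕ => x.1.2 :=
      Primrec.snd.comp Primrec.fst
    have hn : Primrec fun x : (((Str × ℕ × Str) × ℕ) × ℕ) × ℕ => x.1.1.2 :=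
      Primrec.snd.comp (Primrec.fst.comp Primrec.fst)
    exact hq.comp ((Primrec.list_take.comp hi hv).pair (hn.pair (Primrec.list_take.comp Primrec.snd hξ)))
      (Primrec.list_length.comp hv)

theorem compIn_of_primrec (A : ℕ → Bool) {f : ℕ → ℕ} (hf : Primrec f) : CompIn A f := by
  have h1 : Computable f := hf.to_comp
  exact Partrec.turingReducible (f := fun n => Part.some (f n)) h1.partrec

theorem primrec_two_pow_sub : Primrec fun n : ℕ => 2 ^ n - 1 :=
  Primrec.nat_sub.comp (primrec_pow.comp (Primrec.const 2) Primrec.id) (Primrec.const 1)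

theorem pow_cast (n : ℕ) : (((2 ^ n - 1 : ℕ) : ℚ) - ((0 : ℕ) : ℚ)) / (((2 ^ n - 1 : ℕ) : ℚ) + 1) =
    1 - (1 / 2) ^ n := by
  have h : 1 ≤ 2 ^ n := Nat.one_le_two_pow
  rw [Nat.cast_sub h]
  push_cast
  rw [one_div, inv_pow]
  field_simp
  ring

end EnumL

open EnumL

theorem s_g : S_g := by
  intro A G hG hanti
  obtain ⟨E, hE, -, eE⟩ := hG.exists_E
  obtain ⟨q, hq, hm, he⟩ := hE
  refine ⟨fun v m ξ => m < v.length ∧ ∀ n < m + 1, ∃ i < v.length + 1, ∃ j < ξ.length + 1,
    q (v.take i, n, ξ.take j) v.length, ?_⟩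
  constructor
  · exact primrec_g hq
  · rintro v v' m ξ ξ' hv hξ ⟨h1, h2⟩
    refine ⟨lt_of_lt_of_le h1 hv.length_le, fun n hn => ?_⟩
    obtain ⟨i, hi, j, hj, h⟩ := h2 n hn
    have e1 := hv.length_le
    have e2 := hξ.length_le
    refine ⟨i, by omega, j, by omega, ?_⟩
    rw [← take_take_prefix hv hi, ← take_take_prefix hξ hj]
    exact hm _ _ _ e1 h
  · rintro v m n ξ hmn ⟨h1, h2⟩
    exact ⟨by omega, fun k hk => h2 k (by omega)⟩
  · rintro v m ξ ⟨h1, -⟩
    exact h1
  · intro m X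
    constructor
    · intro hX
      have h1 : ∀ n, ∃ T : ℕ, n ≤ m → ∃ i < T + 1, ∃ j < T + 1, q (pre A i, n, pre X j) T := by
        intro n
        by_cases hn : n ≤ m
        · have h2 := hanti hn hX
          rw [eE] at h2
          obtain ⟨s, t, h3⟩ := h2
          obtain ⟨k, hk⟩ := (he _).1 h3
          refine ⟨s + t + k, fun _ => ⟨s, by omega, t, by omega, hm _ _ _ (by omega) hk⟩⟩
        · exact ⟨0, fun h => absurd h hn⟩
      choose T hT using h1
      have hle : ∀ n, n ≤ m → T n ≤ ∑ k ∈ Finset.range (m + 1), T k := fun n hn =>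
        Finset.single_le_sum (f := T) (fun _ _ => Nat.zero_le _) (Finset.mem_range.2 (by omega))
      refine ⟨(∑ k ∈ Finset.range (m + 1), T k) + m + 1, ?_, ?_⟩
      · rw [length_pre]; omega
      · intro n hn
        obtain ⟨i, hi, j, hj, h⟩ := hT n (by omega)
        have e := hle n (by omega)
        rw [length_pre, length_pre]
        refine ⟨i, by omega, j, by omega, ?_⟩
        rw [take_pre _ _ _ (by omega), take_pre _ _ _ (by omega)]
        exact hm _ _ _ (by omega) h
    · rintro ⟨t, -, h2⟩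
      obtain ⟨i, hi, j, hj, h⟩ := h2 m (by omega)
      rw [length_pre] at hi hj
      rw [take_pre _ _ _ (by omega), take_pre _ _ _ (by omega)] at h
      rw [eE]
      exact ⟨i, j, (he _).2 ⟨_, h⟩⟩

theorem s_OWML : S_OWML := by
  intro A Z hZ U hU hmem
  obtain ⟨E, hE, mE, eE⟩ := hU.exists_E
  have hG : ∀ m, UE (fun x => ∀ n < x.2.1 + 1, E (x.1, n, x.2.2)) A m = {X | ∀ n ≤ m, X ∈ U n} := by
    intro m
    ext X
    constructor
    · rintro ⟨s, t, h⟩ n hn
      rw [eE]
      exact ⟨s, t, h n (Nat.lt_succ_of_le hn)⟩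
    · intro h
      have h1 : ∀ n, ∃ T : ℕ, n ≤ m → E (pre A T, n, pre X T) := by
        intro n
        by_cases hn : n ≤ m
        · have h2 := h n hn
          rw [eE] at h2
          obtain ⟨s, t, h3⟩ := h2
          exact ⟨s + t, fun _ => mE _ _ _ _ _ (pre_prefix _ (by omega)) (pre_prefix _ (by omega)) h3⟩
        · exact ⟨0, fun h => absurd h hn⟩
      choose T hT using h1
      have hle : ∀ n, n ≤ m → T n ≤ ∑ k ∈ Finset.range (m + 1), T k := fun n hn =>
        Finset.single_le_sum (f := T) (fun _ _ => Nat.zero_le _) (Finset.mem_range.2 (by omega))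
      refine ⟨∑ k ∈ Finset.range (m + 1), T k, ∑ k ∈ Finset.range (m + 1), T k, fun n hn => ?_⟩
      have hn' : n ≤ m := Nat.le_of_lt_succ hn
      exact mE _ _ _ _ _ (pre_prefix _ (hle n hn')) (pre_prefix _ (hle n hn')) (hT n hn')
  have hS : S1 (fun x : List Bool × ℕ × List Bool => ∀ n < x.2.1 + 1, E (x.1, n, x.2.2)) := by
    refine S1.all_lt (f := fun x : List Bool × ℕ × List Bool => x.2.1 + 1)
      (p := fun x n => E (x.1, n, x.2.2)) (hE.comp ?_) (Primrec.succ.comp (Primrec.fst.comp Primrec.snd))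
    exact (Primrec.fst.comp Primrec.fst).pair (Primrec.snd.pair
      (Primrec.snd.comp (Primrec.snd.comp Primrec.fst)))
  refine hZ (UE (fun x => ∀ n < x.2.1 + 1, E (x.1, n, x.2.2)) A) ⟨unifSigma_of_E hS, ?_, ?_⟩ ?_
  · intro m n hmn X hX
    rw [hG] at hX ⊢
    exact fun k hk => hX k (le_trans hk hmn)
  · refine ⟨fun n => 1 - (1 / 2) ^ n, 1, 1, ⟨fun n => 2 ^ n - 1, fun _ => 0, fun n => 2 ^ n - 1,
      compIn_of_primrec A primrec_two_pow_sub, compIn_of_primrec A (Primrec.const 0),
      compIn_of_primrec A primrec_two_pow_sub, fun n => (pow_cast n).symm⟩, ?_, ?_, ?_⟩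
    · intro m n hmn
      have : ((1 : ℚ) / 2) ^ n < (1 / 2) ^ m := pow_lt_pow_right_of_lt_one₀ (by norm_num) (by norm_num) hmn
      simp only
      linarith
    · constructor
      · rintro x ⟨s, rfl⟩
        have : (0 : ℝ) ≤ (1 / 2) ^ s := by positivity
        simp only [Rat.cast_sub, Rat.cast_one, Rat.cast_pow, Rat.cast_div, Rat.cast_ofNat]
        linarith
      · intro x hx
        by_contra hlt
        rw [not_le] at hlt
        obtain ⟨n, hn⟩ := exists_pow_lt_of_lt_one (sub_pos.2 hlt) (by norm_num : (1 / 2 : ℝ) < 1)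
        have h2 := hx ⟨n, rfl⟩
        simp only [Rat.cast_sub, Rat.cast_one, Rat.cast_pow, Rat.cast_div, Rat.cast_ofNat] at h2
        linarith
    · intro m
      have h1 : lam (UE (fun x => ∀ n < x.2.1 + 1, E (x.1, n, x.2.2)) A m) ≤ (1 / 2) ^ m := by
        refine le_trans (measure_mono ?_) (hU.2 m)
        rw [hG]
        exact fun X hX => hX m le_rfl
      refine le_trans h1 ?_
      have h2 : ((1 : ℕ) : ℝ) * (1 - (((1 - (1 / 2) ^ m : ℚ)) : ℝ)) = (1 / 2) ^ m := by
        push_cast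
        ring
      rw [h2, ENNReal.ofReal_pow (by norm_num), ENNReal.ofReal_div_of_pos (by norm_num)]
      simp
  · rw [Set.mem_iInter] at hmem ⊢
    intro m
    rw [hG]
    exact fun n _ => hmem n

end Pool.Agent.H709.OW
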