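import Pool.Agent.H709.OW.Props

set_option autoImplicit false

namespace Pool.Agent.H709.OW

open Pool.Agent.Helper227 MeasureTheory Encodable
open scoped ENNReal

namespace GR

namespace ExL

lemma st_congr {R R' : ℕ → Rec} {s : ℕ} (h : ∀ u < s, R u = R' u) (i : ℕ) (L : List Str) :
    st R s i L = st R' s i L := by
  classical
  unfold st
  have h1 : (fun t => ∀ u, t ≤ u → u < s → (ps R u).take i = L)
      = (fun t => ∀ u, t ≤ u → u < s → (ps R' u).take i = L) := by
    funext t
    apply propext
    constructor
    · intro h2 u hu hus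
      have := h2 u hu hus
      unfold ps at this ⊢
      rwa [← h u hus]
    · intro h2 u hu hus
      have := h2 u hu hus
      unfold ps at this ⊢
      rwa [h u hus]
  simp only [h1]

lemma fed_congr {R R' : ℕ → Rec} {s : ℕ} (h : ∀ u < s, R u = R' u) (i : ℕ) (L : List Str)
    (x : ℕ) : fed R s i L x = fed R' s i L x := by
  unfold fed
  rw [st_congr h]
  refine Finset.sum_congr rfl fun u hu => ?_
  have hus : u < s := (Finset.mem_Ico.mp hu).2
  unfold ps ld
  rw [h u hus]

lemma tot_congr {R R' : ℕ → Rec} {s : ℕ} (h : ∀ u < s, R u = R' u) : tot R s = tot R' s := by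
  unfold tot
  refine Finset.sum_congr rfl fun u hu => ?_
  unfold ld
  rw [h u (Finset.mem_range.mp hu)]

lemma qu_congr {R R' : ℕ → Rec} {s : ℕ} (h : ∀ u < s, R u = R' u) (ω : ℕ → ℕ) (i : ℕ)
    (L : List Str) (x : ℕ) : qu R ω s i L x = qu R' ω s i L x := by
  unfold qu
  rw [st_congr h]

lemma hungry_congr {R R' : ℕ → Rec} {s : ℕ} (h : ∀ u < s, R u = R' u) (ω : ℕ → ℕ)
    (en : Str → Prop) (i : ℕ) (L : List Str) (τ : Str) :
    Hungry R ω en s i L τ ↔ Hungry R' ω en s i L τ := by
  unfold Hungry
  rw [fed_congr h, qu_congr h]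

/-- abstract specification of the list of strings -/
structure PL (H : ℕ → List Str → Str → Prop) (α : Str) (j : ℕ) (p : List Str) : Prop where
  le : p.length ≤ j
  mem : ∀ i (hi : i < p.length), p[i] <+: α ∧ H i (p.take i) p[i]
  min : ∀ i (hi : i < p.length), ∀ τ, τ <+: α → τ.length < p[i].length → ¬ H i (p.take i) τ
  max : p.length < j → ∀ τ, τ <+: α → ¬ H p.length p τ

lemma PL.exists (H : ℕ → List Str → Str → Prop) (α : Str) (j : ℕ) : ∃ p, PL H α j p := by
  classical
  induction j with
  | zero =>
    exact ⟨[], le_rfl, fun i hi => absurd hi (by simp), fun i hi => absurd hi (by simp),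
      fun h => absurd h (by simp)⟩
  | succ j ih =>
    obtain ⟨p, h1, h2, h3, h4⟩ := ih
    rcases lt_or_eq_of_le h1 with hlt | heq
    · exact ⟨p, by omega, h2, h3, fun _ => h4 hlt⟩
    · by_cases hex : ∃ n, ∃ τ, τ <+: α ∧ H j p τ ∧ τ.length = n
      · obtain ⟨τ, t1, t2, t3⟩ := Nat.find_spec hex
        have hmin : ∀ τ', τ' <+: α → τ'.length < τ.length → ¬ H j p τ' := by
          intro τ' a1 a2 a3
          rw [t3] at a2
          exact Nat.find_min hex a2 ⟨τ', a1, a3, rfl⟩
        refine ⟨p ++ [τ], by simp; omega, ?_, ?_, ?_⟩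
        · intro i hi
          simp only [List.length_append, List.length_cons, List.length_nil] at hi
          by_cases hip : i < p.length
          · rw [List.getElem_append_left hip, List.take_append_of_le_length hip.le]
            exact h2 i hip
          · have : i = p.length := by omega
            subst this
            have e1 : (p ++ [τ]).take p.length = p := by simp
            have e2 : (p ++ [τ])[p.length] = τ := by simp
            rw [e1, e2, heq]
            exact ⟨t1, t2⟩
        · intro i hi τ' a1 a2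
          simp only [List.length_append, List.length_cons, List.length_nil] at hi
          by_cases hip : i < p.length
          · rw [List.getElem_append_left hip] at a2
            rw [List.take_append_of_le_length hip.le]
            exact h3 i hip τ' a1 a2
          · have : i = p.length := by omega
            subst this
            have e1 : (p ++ [τ]).take p.length = p := by simp
            have e2 : (p ++ [τ])[p.length] = τ := by simp
            rw [e2] at a2
            rw [e1, heq]
            exact hmin τ' a1 a2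
        · intro h
          simp at h
          omega
      · refine ⟨p, by omega, h2, h3, fun _ τ hτ hH => hex ?_⟩
        rw [heq] at hH
        exact ⟨_, τ, hτ, hH, rfl⟩

lemma PL.take_eq {H : ℕ → List Str → Str → Prop} {α : Str} {j : ℕ} {p p' : List Str}
    (h : PL H α j p) (h' : PL H α j p') (i : ℕ) : p.take i = p'.take i := by
  induction i with
  | zero => simp
  | succ i ih =>
    by_cases h1 : i < p.length
    · by_cases h2 : i < p'.length
      · obtain ⟨a1, a2⟩ := h.mem i h1
        obtain ⟨b1, b2⟩ := h'.mem i h2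
        have hl : p[i].length = p'[i].length := by
          rcases lt_trichotomy p[i].length p'[i].length with hlt | he | hgt
          · exact absurd (ih ▸ a2) (h'.min i h2 _ a1 hlt)
          · exact he
          · exact absurd (ih ▸ b2) (h.min i h1 _ b1 hgt)
        have he : p[i] = p'[i] := (List.prefix_of_prefix_length_le a1 b1 hl.le).eq_of_length hl
        rw [List.take_succ_eq_append_getElem h1, List.take_succ_eq_append_getElem h2, ih, he]
      · exfalso
        have e1 : p'.take i = p' := List.take_of_length_le (by omega)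
        have e2 : p'.length = i := by
          have := congrArg List.length ih
          rw [List.length_take, List.length_take] at this
          omega
        have e3 := h.le
        obtain ⟨a1, a2⟩ := h.mem i h1
        refine h'.max (by omega) _ a1 ?_
        rw [ih, e1] at a2
        rw [e2]
        exact a2
    · by_cases h2 : i < p'.length
      · exfalso
        have e1 : p.take i = p := List.take_of_length_le (by omega)
        have e2 : p.length = i := by
          have := congrArg List.length ih
          rw [List.length_take, List.length_take] at this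
          omega
        have e3 := h'.le
        obtain ⟨a1, a2⟩ := h'.mem i h2
        refine h.max (by omega) _ a1 ?_
        rw [← ih, e1] at a2
        rw [e2]
        exact a2
      · rw [List.take_of_length_le (by omega), List.take_of_length_le (by omega)] at ih ⊢
        exact ih

lemma PL.unique {H : ℕ → List Str → Str → Prop} {α : Str} {j : ℕ} {p p' : List Str}
    (h : PL H α j p) (h' : PL H α j p') : p = p' := by
  have := h.take_eq h' (Nat.max p.length p'.length)
  rwa [List.take_of_length_le (Nat.le_max_left _ _), List.take_of_length_le (Nat.le_max_right _ _)] at this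

lemma psAt_iff (R : ℕ → Rec) (ω : ℕ → ℕ) (en : Str → Prop) (r s : ℕ) :
    PsAt R ω en r s ↔ (al R s).length = s ∧
      PL (fun i L τ => Hungry R ω en s i L τ) (al R s) (r + 1) (ps R s) :=
  ⟨fun h => ⟨h.len, h.le, h.mem, h.min, h.max⟩, fun h => ⟨h.1, h.2.le, h.2.mem, h.2.min, h.2.max⟩⟩

lemma H_congr {R R' : ℕ → Rec} {s : ℕ} (h : ∀ u < s, R u = R' u) (ω : ℕ → ℕ)
    (en : Str → Prop) :
    (fun i L τ => Hungry R ω en s i L τ) = (fun i L τ => Hungry R' ω en s i L τ) := by
  funext i L τ
  exact propext (hungry_congr h ω en i L τ)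

lemma ldAt_congr {R R' : ℕ → Rec} {s : ℕ} (h : ∀ u < s, R u = R' u) (hp : ps R s = ps R' s)
    (hl : ld R s = ld R' s) (ω : ℕ → ℕ) (r : ℕ) (hh : LdAt R ω r s) : LdAt R' ω r s := by
  have hld : ∀ u < s, ld R u = ld R' u := fun u hu => by unfold ld; rw [h u hu]
  refine ⟨?_, ?_⟩
  · intro h1
    rw [← hl]
    apply hh.none
    rwa [hp, tot_congr h]
  · intro h1 h2
    obtain ⟨q, q1, q2, q3, q4⟩ := hh.some (by rw [hp]; exact h1) (by rw [tot_congr h]; exact h2)
    refine ⟨q, by rw [← hl]; exact q1, ?_, ?_, ?_⟩
    · intro u hu q' hq'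
      rw [← hld u hu] at hq'
      exact q2 u hu q' hq'
    · intro i hi
      have := q3 i hi
      rwa [qu_congr h, hp] at this
    · rcases q4 with ⟨u, hu, hq⟩ | ⟨i, hi, hq⟩
      · exact Or.inl ⟨u, hu, by rw [← hld u hu]; exact hq⟩
      · refine Or.inr ⟨i, hi, ?_⟩
        rwa [qu_congr h, hp] at hq

lemma load_exists (R : ℕ → Rec) (ω : ℕ → ℕ) (r s : ℕ) (p : List Str) :
    ∃ q : ℕ, (∀ u < s, ∀ q', ld R u = some q' → q' ≤ q) ∧
      (∀ i ≤ r, qu R ω s i (p.take i) (el (p.getD i [])) ≤ q) ∧
      ((∃ u < s, ld R u = some q) ∨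
        ∃ i ≤ r, qu R ω s i (p.take i) (el (p.getD i [])) = q) := by
  classical
  set Q : Finset ℕ := (Finset.range s).biUnion (fun u => (ld R u).toFinset) ∪
    (Finset.range (r + 1)).image (fun i => qu R ω s i (p.take i) (el (p.getD i []))) with hQ
  have hmem : ∀ q, q ∈ Q ↔ ((∃ u < s, ld R u = some q) ∨
      ∃ i ≤ r, qu R ω s i (p.take i) (el (p.getD i [])) = q) := by
    intro q
    rw [hQ, Finset.mem_union, Finset.mem_biUnion, Finset.mem_image]
    constructor
    · rintro (⟨u, hu, hq⟩ | ⟨i, hi, hq⟩)
      · rw [Option.mem_toFinset] at hq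
        exact Or.inl ⟨u, Finset.mem_range.mp hu, hq⟩
      · exact Or.inr ⟨i, by have := Finset.mem_range.mp hi; omega, hq⟩
    · rintro (⟨u, hu, hq⟩ | ⟨i, hi, hq⟩)
      · exact Or.inl ⟨u, Finset.mem_range.mpr hu, by rw [Option.mem_toFinset]; exact hq⟩
      · exact Or.inr ⟨i, Finset.mem_range.mpr (by omega), hq⟩
  have hne : Q.Nonempty := ⟨_, (hmem _).mpr (Or.inr ⟨0, Nat.zero_le _, rfl⟩)⟩
  refine ⟨Q.max' hne, ?_, ?_, (hmem _).mp (Q.max'_mem hne)⟩
  · intro u hu q' hq'
    exact Q.le_max' _ ((hmem _).mpr (Or.inl ⟨u, hu, hq'⟩))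
  · intro i hi
    exact Q.le_max' _ ((hmem _).mpr (Or.inr ⟨i, hi, rfl⟩))

end ExL

open ExL

theorem s_Ex : S_Ex := by
  classical
  intro R ω en r s a ha
  obtain ⟨p, hp⟩ := PL.exists (fun i L τ => Hungry R ω en s i L τ) a.1 (r + 1)
  have key : ∀ o : Option ℕ, ∀ u < s, R u = (Function.update R s (a, p, o)) u := by
    intro o u hu
    rw [Function.update_of_ne hu.ne]
  obtain ⟨q, q1, q2, q3⟩ := load_exists R ω r s p
  set o : Option ℕ := if p.length = r + 1 ∧ tot R s < 1 then some q else none with ho
  refine ⟨p, o, ?_, ?_⟩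
  · rw [psAt_iff]
    have e1 : al (Function.update R s (a, p, o)) s = a.1 := by simp [al]
    have e2 : ps (Function.update R s (a, p, o)) s = p := by simp [ps]
    rw [e1, e2, ← H_congr (key o) ω en]
    exact ⟨ha, hp⟩
  · have e2 : ps (Function.update R s (a, p, o)) s = p := by simp [ps]
    have e3 : ld (Function.update R s (a, p, o)) s = o := by simp [ld]
    have e4 : ∀ u < s, ld R u = ld (Function.update R s (a, p, o)) u := by
      intro u hu
      unfold ld
      rw [← key o u hu]
    refine ⟨?_, ?_⟩
    · intro h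
      rw [e2, ← tot_congr (key o)] at h
      rw [e3, ho, if_neg h]
    · intro h1 h2
      rw [e2] at h1
      rw [← tot_congr (key o)] at h2
      refine ⟨q, by rw [e3, ho, if_pos ⟨h1, h2⟩], ?_, ?_, ?_⟩
      · intro u hu q' hq'
        rw [← e4 u hu] at hq'
        exact q1 u hu q' hq'
      · intro i hi
        rw [← qu_congr (key o), e2]
        exact q2 i hi
      · rcases q3 with ⟨u, hu, hq⟩ | ⟨i, hi, hq⟩
        · exact Or.inl ⟨u, hu, by rw [← e4 u hu]; exact hq⟩
        · refine Or.inr ⟨i, hi, ?_⟩
          rw [← qu_congr (key o), e2]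
          exact hq

theorem s_Un : S_Un := by
  intro R R' ω en r s h h0 h1 h2
  have hal : al R s = al R' s := by unfold al; rw [h0]
  obtain ⟨p1, l1⟩ := h1
  obtain ⟨p2, l2⟩ := h2
  rw [psAt_iff] at p1 p2
  have hps : ps R s = ps R' s := by
    have a1 := p1.2
    have a2 := p2.2
    rw [hal, H_congr h ω en] at a1
    exact a1.unique a2
  have hld : ld R s = ld R' s := by
    by_cases hc : (ps R s).length = r + 1 ∧ tot R s < 1
    · obtain ⟨q, a1, a2, a3, a4⟩ := l1.some hc.1 hc.2
      obtain ⟨q', b1, b2, b3, b4⟩ := l2.some (by rw [← hps]; exact hc.1)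
        (by rw [← tot_congr h]; exact hc.2)
      have hle : q ≤ q' := by
        rcases a4 with ⟨u, hu, hq⟩ | ⟨i, hi, hq⟩
        · apply b2 u hu
          unfold ld at hq ⊢
          rwa [← h u hu]
        · have := b3 i hi
          rwa [← qu_congr h, ← hps, hq] at this
      have hge : q' ≤ q := by
        rcases b4 with ⟨u, hu, hq⟩ | ⟨i, hi, hq⟩
        · apply a2 u hu
          unfold ld at hq ⊢
          rwa [h u hu]
        · have := a3 i hi
          rwa [qu_congr h, hps, hq] at this
      rw [a1, b1, le_antisymm hle hge]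
    · rw [l1.none hc, l2.none (by rw [← hps, ← tot_congr h]; exact hc)]
  exact Prod.ext h0 (Prod.ext hps hld)

theorem s_Cg : S_Cg := by
  intro R R' ω en r s h h1
  have h' : ∀ u < s, R u = R' u := fun u hu => h u hu.le
  have hal : al R s = al R' s := by unfold al; rw [h s le_rfl]
  have hps : ps R s = ps R' s := by unfold ps; rw [h s le_rfl]
  have hld : ld R s = ld R' s := by unfold ld; rw [h s le_rfl]
  obtain ⟨p1, l1⟩ := h1
  refine ⟨?_, ldAt_congr h' hps hld ω r l1⟩
  rw [psAt_iff] at p1 ⊢
  rw [← hal, ← hps, ← H_congr h' ω en]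
  exact p1

end GR

end Pool.Agent.H709.OW
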