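import Pool.Agent.H709.OW.Props

/-! Leaf Fin: the final Oberwolfach test. -/

set_option autoImplicit false

namespace Pool.Agent.H709.OW

open Pool.Agent.Helper227 MeasureTheory Encodable
open scoped ENNReal

namespace FinL

/-- the greatest `r ≤ t + K` with `2 ^ r ≤ Q t` -/
def gg (Q : ℕ → ℕ) (K t : ℕ) : ℕ := Nat.findGreatest (fun r => 2 ^ r ≤ Q t) (t + K)

theorem primrec_gg {Q : ℕ → ℕ} (hQ : Primrec Q) (K : ℕ) : Primrec (gg Q K) :=
  Primrec.nat_findGreatest (f := fun t => t + K) (p := fun t r => 2 ^ r ≤ Q t)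
    (Primrec.nat_add.comp Primrec.id (Primrec.const K))
    (Primrec.nat_le.comp (primrec_pow.comp (Primrec.const 2) Primrec.snd)
      (hQ.comp Primrec.fst))

/-- the weights -/
def om (Q : ℕ → ℕ) (K t : ℕ) : ℕ := t + K - gg Q K t

theorem primrec_om {Q : ℕ → ℕ} (hQ : Primrec Q) (K : ℕ) : Primrec (om Q K) :=
  Primrec.nat_sub.comp (Primrec.nat_add.comp Primrec.id (Primrec.const K)) (primrec_gg hQ K)

theorem om_eq (Q : ℕ → ℕ) (K t : ℕ) :
    (1 / 2 : ℝ) ^ om Q K t * 2 ^ (t + K) = 2 ^ gg Q K t := by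
  have h : om Q K t + gg Q K t = t + K := Nat.sub_add_cancel (Nat.findGreatest_le _)
  rw [← h, pow_add, ← mul_assoc, ← mul_pow]
  norm_num

theorem om_le {Q : ℕ → ℕ} (K t : ℕ) (h0 : 0 < Q t) :
    (1 / 2 : ℝ) ^ om Q K t ≤ (Q t : ℝ) / 2 ^ t / 2 ^ K := by
  have h1 : 2 ^ gg Q K t ≤ Q t :=
    Nat.findGreatest_spec (P := fun r => 2 ^ r ≤ Q t) (Nat.zero_le _)
      (show 2 ^ 0 ≤ Q t by rw [pow_zero]; exact h0)
  have h2 : (2 : ℝ) ^ gg Q K t ≤ Q t := by exact_mod_cast h1
  rw [div_div, ← pow_add, le_div_iff₀ (by positivity), om_eq]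
  exact h2

theorem le_om {Q : ℕ → ℕ} (K t : ℕ) (h0 : 0 < Q t) (hM : Q t < 2 ^ (t + K)) :
    (Q t : ℝ) / 2 ^ t ≤ 2 * 2 ^ K * (1 / 2 : ℝ) ^ om Q K t := by
  have h1 : 2 ^ gg Q K t ≤ Q t :=
    Nat.findGreatest_spec (P := fun r => 2 ^ r ≤ Q t) (Nat.zero_le _)
      (show 2 ^ 0 ≤ Q t by rw [pow_zero]; exact h0)
  have h3 : gg Q K t < t + K := (Nat.pow_lt_pow_iff_right (by norm_num)).1 (h1.trans_lt hM)
  have h4 : ¬ 2 ^ (gg Q K t + 1) ≤ Q t :=
    Nat.findGreatest_is_greatest (P := fun r => 2 ^ r ≤ Q t) (Nat.lt_succ_self _) h3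
  have h5 : (Q t : ℝ) ≤ 2 ^ (gg Q K t + 1) := by
    have := (Nat.lt_of_not_le h4).le
    exact_mod_cast this
  rw [div_le_iff₀ (by positivity)]
  have h6 := om_eq Q K t
  calc (Q t : ℝ) ≤ 2 ^ (gg Q K t + 1) := h5
    _ = 2 * ((1 / 2 : ℝ) ^ om Q K t * 2 ^ (t + K)) := by rw [h6, pow_succ]; ring
    _ = 2 * 2 ^ K * (1 / 2 : ℝ) ^ om Q K t * 2 ^ t := by rw [pow_add]; ring

theorem sum_real {Q : ℕ → ℕ} {M : ℕ}
    (h : ∀ n, ∑ t ∈ Finset.range n, (Q t : ℝ≥0∞) / 2 ^ t ≤ M) (n : ℕ) :
    ∑ t ∈ Finset.range n, (Q t : ℝ) / 2 ^ t ≤ M := by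
  have h1 := ENNReal.toReal_mono (ENNReal.natCast_ne_top M) (h n)
  rw [ENNReal.toReal_sum] at h1
  · simpa [ENNReal.toReal_div] using h1
  · intro t _
    exact ENNReal.div_ne_top (ENNReal.natCast_ne_top _) (by positivity)

theorem lt_pow {Q : ℕ → ℕ} {M : ℕ}
    (h : ∀ n, ∑ t ∈ Finset.range n, (Q t : ℝ≥0∞) / 2 ^ t ≤ M) (t : ℕ) : Q t < 2 ^ (t + M) := by
  have h1 := sum_real h (t + 1)
  rw [Finset.sum_range_succ] at h1
  have h2 : 0 ≤ ∑ t ∈ Finset.range t, (Q t : ℝ) / 2 ^ t :=
    Finset.sum_nonneg fun i _ => by positivity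
  have h3 : (Q t : ℝ) / 2 ^ t ≤ M := by linarith
  rw [div_le_iff₀ (by positivity)] at h3
  have h4 : Q t ≤ M * 2 ^ t := by exact_mod_cast h3
  calc Q t ≤ M * 2 ^ t := h4
    _ < 2 ^ M * 2 ^ t := Nat.mul_lt_mul_of_pos_right (Nat.lt_two_pow_self) (by positivity)
    _ = 2 ^ (t + M) := by rw [pow_add, mul_comm]

/-- the length of the string coded by `x` -/
def ln (x : ℕ) : ℕ := ((decode (α := Str) x).getD []).length

theorem primrec_ln : Primrec ln :=
  Primrec.list_length.comp (Primrec.option_getD.comp (Primrec.decode) (Primrec.const []))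

theorem ln_encode (v : Str) : ln (encode v) = v.length := by
  simp [ln]

/-- the `A`-c.e. set of the initial segments of `A` -/
theorem cover {A : ℕ → Bool} {Q : ℕ → ℕ} {M : ℕ} (hA : Cov A) (hQ : Primrec Q)
    (h0 : ∀ t, 0 < Q t) (h : ∀ n, ∑ t ∈ Finset.range n, (Q t : ℝ≥0∞) / 2 ^ t ≤ M) :
    ∃ V : ℕ → Prop, S1 V ∧ (∀ t, V (encode (pre A t))) ∧ ∃ B : ℝ,
      ∀ F : Finset Str, (∀ v ∈ F, V (encode v)) → ∑ v ∈ F, 2 * (Q v.length : ℝ) / 2 ^ v.length ≤ B := by
  classical
  obtain ⟨V, hV, hV1, c, hc⟩ := hA (fun x => encode x.1 = x.2) (fun x => om Q M (ln x))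
    (S1.of_prim (Primrec.eq.comp (Primrec.encode.comp Primrec.fst) Primrec.snd))
    ((primrec_om hQ M).comp primrec_ln) (by
      intro F hF
      have hinj : Function.Injective fun s => encode (pre A s) := by
        intro s s' he
        have h1 : pre A s = pre A s' := encode_injective he
        have := congrArg List.length h1
        simpa using this
      obtain ⟨N, hN⟩ : ∃ N, ∀ x ∈ F, ln x < N :=
        ⟨F.sup ln + 1, fun x hx => Nat.lt_succ_of_le (Finset.le_sup hx)⟩
      have hsub : F ⊆ (Finset.range N).image fun s => encode (pre A s) := by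
        intro x hx
        obtain ⟨s, hs⟩ := hF x hx
        have hs' : encode (pre A s) = x := hs
        rw [Finset.mem_image]
        refine ⟨s, ?_, hs'⟩
        rw [Finset.mem_range]
        have := hN x hx
        rw [← hs', ln_encode, length_pre] at this
        exact this
      have hK : (M : ℝ) ≤ 2 ^ M := by
        have : M ≤ 2 ^ M := Nat.lt_two_pow_self.le
        exact_mod_cast this
      calc ∑ x ∈ F, (1 / 2 : ℝ) ^ om Q M (ln x)
          ≤ ∑ x ∈ (Finset.range N).image fun s => encode (pre A s), (1 / 2 : ℝ) ^ om Q M (ln x) :=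
            Finset.sum_le_sum_of_subset_of_nonneg hsub fun _ _ _ => by positivity
        _ = ∑ s ∈ Finset.range N, (1 / 2 : ℝ) ^ om Q M s := by
            rw [Finset.sum_image fun a _ b _ hab => hinj hab]
            refine Finset.sum_congr rfl fun s _ => ?_
            rw [ln_encode, length_pre]
        _ ≤ ∑ s ∈ Finset.range N, (Q s : ℝ) / 2 ^ s / 2 ^ M :=
            Finset.sum_le_sum fun s _ => om_le M s (h0 s)
        _ = (∑ s ∈ Finset.range N, (Q s : ℝ) / 2 ^ s) / 2 ^ M := by rw [Finset.sum_div]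
        _ ≤ M / 2 ^ M := by
            gcongr
            exact sum_real h N
        _ ≤ 1 := by
            rw [div_le_one (by positivity)]
            exact hK)
  refine ⟨V, hV, fun t => hV1 _ ⟨t, rfl⟩, 2 * (2 * 2 ^ M) * c, fun F hF => ?_⟩
  have h1 := hc (F.image encode) (by
    intro x hx
    obtain ⟨v, hv, rfl⟩ := Finset.mem_image.1 hx
    exact hF v hv)
  rw [Finset.sum_image fun a _ b _ hab => encode_injective hab] at h1
  calc ∑ v ∈ F, 2 * (Q v.length : ℝ) / 2 ^ v.length
      ≤ ∑ v ∈ F, 2 * (2 * 2 ^ M) * (1 / 2 : ℝ) ^ om Q M (ln (encode v)) := by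
        refine Finset.sum_le_sum fun v _ => ?_
        rw [ln_encode]
        have := le_om M v.length (h0 v.length) (lt_pow h v.length)
        rw [mul_div_assoc, mul_assoc]
        linarith
    _ = 2 * (2 * 2 ^ M) * ∑ v ∈ F, (1 / 2 : ℝ) ^ om Q M (ln (encode v)) := by
        rw [Finset.mul_sum]
    _ ≤ 2 * (2 * 2 ^ M) * c := by gcongr

/-- the measure of a clopen set -/
theorem lam_num (t : ℕ) (P : Str → Prop) :
    lam {X | P (pre X t)} = (num t P : ℝ≥0∞) * (1 / 2) ^ t := by
  classical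
  have h := lam_finset ((allStr t).filter fun ξ => decide (P ξ)).toFinset t
    (by intro σ hσ; simp only [List.mem_toFinset, List.mem_filter, mem_allStr] at hσ; exact hσ.1)
  rw [List.toFinset_card_of_nodup ((nodup_allStr t).filter _)] at h
  have h1 : {X : ℕ → Bool | P (pre X t)} =
      {X | pre X t ∈ ((allStr t).filter fun ξ => decide (P ξ)).toFinset} := by
    ext X
    simp [mem_allStr]
  rw [h1, h, num]

theorem foldr_sum (g : ℕ → ℕ) (n : ℕ) :
    (List.range n).foldr (fun t a => g t + a) 0 = ∑ t ∈ Finset.range n, g t := by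
  have h1 : ∀ l : List ℕ, l.foldr (fun t a => g t + a) 0 = (l.map g).sum := by
    intro l
    induction l with
    | nil => rfl
    | cons x l ih => simp [ih]
  rw [h1]
  rfl

theorem primrec_sum {G : ℕ → ℕ → ℕ} (hG : Primrec₂ G) :
    Primrec fun s => ∑ t ∈ Finset.range s, G s t := by
  have h : Primrec fun s : ℕ => (List.range s).foldr (fun t a => G s t + a) 0 :=
    Primrec.list_foldr (f := fun s => List.range s) (g := fun _ => 0)
      (h := fun s x => G s x.1 + x.2) Primrec.list_range (Primrec.const 0)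
      (Primrec.nat_add.comp (hG.comp Primrec.fst (Primrec.fst.comp Primrec.snd))
        (Primrec.snd.comp Primrec.snd))
  exact h.of_eq fun s => foldr_sum (G s) s

theorem compIn_of_primrec {A : ℕ → Bool} {f : ℕ → ℕ} (hf : Primrec f) : CompIn A f :=
  Partrec.turingReducible (f := fun n => Part.some (f n)) hf.to_comp.partrec

end FinL

open FinL in
theorem s_Fin : S_Fin := by
  classical
  intro A Q Bp M hA hQ h0 hM hBp hlen hnest hnum
  obtain ⟨V, hV, hVA, B, hB⟩ := cover hA hQ h0 hM
  obtain ⟨q, hq, hqm, hqe⟩ := hV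
  -- the test
  set E : List Bool × ℕ × List Bool → Prop := fun x => ∃ v : Str,
    (∀ t < v.length + 1, V (encode (v.take t))) ∧ (v.length = x.2.2.length ∧ Bp x.2.1 v x.2.2)
    with hE
  have hV' : S1 V := ⟨q, hq, hqm, hqe⟩
  have hE1 : S1 E := by
    refine S1.ex (S1.and (S1.all_lt (hV'.comp ?_) ?_) (S1.of_prim (PrimrecPred.and ?_ ?_)))
    · exact Primrec.encode.comp (Primrec.list_take.comp Primrec.snd
        (Primrec.snd.comp Primrec.fst))
    · exact Primrec.succ.comp (Primrec.list_length.comp Primrec.snd)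
    · exact Primrec.eq.comp (Primrec.list_length.comp Primrec.snd)
        (Primrec.list_length.comp (Primrec.snd.comp (Primrec.snd.comp Primrec.fst)))
    · exact hBp.comp ((Primrec.fst.comp (Primrec.snd.comp Primrec.fst)).pair
        (Primrec.snd.pair (Primrec.snd.comp (Primrec.snd.comp Primrec.fst))))
  set H : ℕ → Set (ℕ → Bool) := UE E (fun _ => false) with hH
  have hHmem : ∀ m X, X ∈ H m ↔ ∃ v : Str, (∀ t < v.length + 1, V (encode (v.take t))) ∧
      Bp m v (pre X v.length) := by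
    intro m X
    constructor
    · rintro ⟨s, t, v, h1, h2, h3⟩
      simp only [length_pre] at h2
      refine ⟨v, h1, ?_⟩
      rw [h2]
      exact h3
    · rintro ⟨v, h1, h2⟩
      exact ⟨0, v.length, v, h1, by simp, h2⟩
  have hanti : Antitone H := by
    refine antitone_nat_of_succ_le fun m => ?_
    intro X hX
    obtain ⟨v, h1, h2⟩ := (hHmem _ _).1 hX
    obtain ⟨t, ht, h3⟩ := hnest m v _ h2
    refine (hHmem _ _).2 ⟨v.take t, fun t' ht' => ?_, ?_⟩
    · rw [List.length_take, min_eq_left ht] at ht'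
      rw [List.take_take, min_eq_left (by omega)]
      exact h1 t' (by omega)
    · rw [List.length_take, min_eq_left ht]
      rwa [take_pre _ _ _ ht] at h3
  -- the sums
  set w : ℕ → ℝ := fun t => 2 * (Q t : ℝ) / 2 ^ t with hw
  have hw0 : ∀ t, 0 ≤ w t := fun t => by simp only [hw]; positivity
  set Fs : ℕ → Finset Str := fun s => (Finset.range s).biUnion fun t =>
    ((allStr t).filter fun v => decide (q (encode v) s)).toFinset with hFs
  have hFs' : ∀ s v, v ∈ Fs s ↔ v.length < s ∧ q (encode v) s := by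
    intro s v
    simp [hFs, mem_allStr]
  have hmono : ∀ s s', s ≤ s' → Fs s ⊆ Fs s' := by
    intro s s' h v hv
    rw [hFs'] at hv ⊢
    exact ⟨hv.1.trans_le h, hqm _ _ _ h hv.2⟩
  set sm : ℕ → ℝ := fun s => ∑ v ∈ Fs s, w v.length with hsm
  have hsmB : ∀ s, sm s ≤ B := fun s => hB (Fs s) fun v hv =>
    (hqe _).2 ⟨s, ((hFs' s v).1 hv).2⟩
  -- the rational sequence
  set G : ℕ → ℕ → ℕ := fun s t => ((allStr t).filter fun v => decide (q (encode v) s)).length *
    (2 * Q t * 2 ^ (s - t)) with hG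
  have hGp : Primrec₂ G := by
    have h1 : PrimrecRel (fun (v : Str) (s : ℕ) => q (encode v) s) :=
      hq.comp (Primrec.encode.comp Primrec.fst) Primrec.snd
    have h2 := h1.listFilter
    refine Primrec.nat_mul.comp ?_ ?_
    · refine (Primrec.list_length.comp (h2.comp (primrec_allStr.comp Primrec.snd)
        (Primrec.fst (α := ℕ) (β := ℕ)))).of_eq fun x => ?_
      congr!
    · exact Primrec.nat_mul.comp (Primrec.nat_mul.comp (Primrec.const 2) (hQ.comp Primrec.snd))
        (primrec_pow.comp (Primrec.const 2) (Primrec.nat_sub.comp Primrec.fst Primrec.snd))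
  set f : ℕ → ℕ := fun s => ∑ t ∈ Finset.range s, G s t with hf
  have hfp : Primrec f := primrec_sum hGp
  set β : ℕ → ℚ := fun n => ((f n : ℚ) - ((1 : ℕ) : ℚ)) / (((2 ^ n - 1 : ℕ) : ℚ) + 1) with hβ
  have hfs : ∀ s, (f s : ℝ) = sm s * 2 ^ s := by
    intro s
    have hdisj : ∀ t ∈ Finset.range s, ∀ t' ∈ Finset.range s, t ≠ t' →
        Disjoint ((allStr t).filter fun v => decide (q (encode v) s)).toFinset
          ((allStr t').filter fun v => decide (q (encode v) s)).toFinset := by
      intro t _ t' _ htt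
      rw [Finset.disjoint_left]
      intro v h1 h2
      simp only [List.mem_toFinset, List.mem_filter, mem_allStr] at h1 h2
      exact htt (h1.1.symm.trans h2.1)
    simp only [hf, hsm, hFs]
    rw [Finset.sum_biUnion hdisj, Nat.cast_sum, Finset.sum_mul]
    refine Finset.sum_congr rfl fun t ht => ?_
    rw [Finset.mem_range] at ht
    have h1 : ∀ v ∈ ((allStr t).filter fun v => decide (q (encode v) s)).toFinset,
        w v.length = w t := by
      intro v hv
      simp only [List.mem_toFinset, List.mem_filter, mem_allStr] at hv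
      rw [hv.1]
    rw [Finset.sum_congr rfl h1, Finset.sum_const,
      List.toFinset_card_of_nodup ((nodup_allStr t).filter _), nsmul_eq_mul]
    simp only [hG, hw]
    have h2 : (2 : ℝ) ^ s = 2 ^ t * 2 ^ (s - t) := by
      rw [← pow_add, Nat.add_sub_cancel' ht.le]
    push_cast
    rw [h2]
    field_simp
  have hβr : ∀ s, (β s : ℝ) = sm s - (1 / 2) ^ s := by
    intro s
    have h1 : (((2 ^ s - 1 : ℕ) : ℝ) + 1) = 2 ^ s := by
      rw [Nat.cast_sub Nat.one_le_two_pow]
      push_cast
      ring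
    simp only [hβ]
    push_cast [Rat.cast_natCast]
    rw [h1, hfs s]
    rw [sub_div, mul_div_assoc, div_self (by positivity), mul_one, one_div_pow]
  have hsmono : ∀ s s', s ≤ s' → sm s ≤ sm s' := fun s s' h =>
    Finset.sum_le_sum_of_subset_of_nonneg (hmono s s' h) fun v _ _ => hw0 _
  have hstrict : StrictMono β := by
    refine strictMono_nat_of_lt_succ fun s => ?_
    have h1 : (β s : ℝ) < (β (s + 1) : ℝ) := by
      rw [hβr, hβr]
      have h2 := hsmono s (s + 1) (Nat.le_succ s)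
      have h3 : (1 / 2 : ℝ) ^ (s + 1) < (1 / 2) ^ s :=
        pow_lt_pow_right_of_lt_one₀ (by norm_num) (by norm_num) (Nat.lt_succ_self s)
      linarith
    exact_mod_cast h1
  have hbdd : BddAbove (Set.range fun s => (β s : ℝ)) := by
    refine ⟨B, ?_⟩
    rintro _ ⟨s, rfl⟩
    show (β s : ℝ) ≤ B
    rw [hβr]
    have h1 := hsmB s
    have h2 : (0 : ℝ) ≤ (1 / 2) ^ s := by positivity
    linarith
  set b : ℝ := sSup (Set.range fun s => (β s : ℝ)) with hb
  have hlub : IsLUB (Set.range fun s => (β s : ℝ)) b := isLUB_csSup ⟨_, 0, rfl⟩ hbdd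
  have hle : ∀ s, (β s : ℝ) ≤ b := fun s => hlub.1 ⟨s, rfl⟩
  -- the main estimate
  have hmain : ∀ m (F : Finset Str), (∀ v ∈ F, V (encode v) ∧ m < v.length) →
      ∑ v ∈ F, w v.length ≤ b - β m := by
    intro m F hF
    have hex : ∀ v : Str, ∃ n, V (encode v) → q (encode v) n := by
      intro v
      by_cases h : V (encode v)
      · obtain ⟨n, hn⟩ := (hqe _).1 h
        exact ⟨n, fun _ => hn⟩
      · exact ⟨0, fun h' => absurd h' h⟩
    choose nv hnv using hex
    set n := m + F.sup (fun v => v.length + 1) + F.sup nv with hn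
    have hsub : F ⊆ Fs n := by
      intro v hv
      rw [hFs']
      have h1 : v.length + 1 ≤ F.sup (fun v => v.length + 1) :=
        Finset.le_sup (f := fun v : Str => v.length + 1) hv
      have h2 : nv v ≤ F.sup nv := Finset.le_sup hv
      exact ⟨by omega, hqm _ _ _ (by omega) (hnv v (hF v hv).1)⟩
    have hdisj : Disjoint F (Fs m) := by
      rw [Finset.disjoint_left]
      intro v hv hv'
      rw [hFs'] at hv'
      have := (hF v hv).2
      omega
    have h1 : ∑ v ∈ F, w v.length + sm m ≤ sm n := by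
      simp only [hsm]
      rw [← Finset.sum_union hdisj]
      exact Finset.sum_le_sum_of_subset_of_nonneg
        (Finset.union_subset hsub (hmono m n (by omega))) fun v _ _ => hw0 _
    have h2 := hle n
    rw [hβr] at h2
    have h3 := hβr m
    have h4 : (1 / 2 : ℝ) ^ n ≤ (1 / 2) ^ m :=
      pow_le_pow_of_le_one (by norm_num) (by norm_num) (by omega)
    linarith
  refine ⟨H, ⟨unifSigma_of_E hE1, hanti, β, b, 1, ?_, hstrict, hlub, fun m => ?_⟩, ?_⟩
  · refine ⟨f, fun _ => 1, fun n => 2 ^ n - 1, compIn_of_primrec hfp,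
      compIn_of_primrec (Primrec.const 1), compIn_of_primrec (Primrec.nat_sub.comp
        (primrec_pow.comp (Primrec.const 2) Primrec.id) (Primrec.const 1)), fun n => rfl⟩
  · -- the measure
    set T := {v : Str // V (encode v) ∧ m < v.length} with hT
    have hsub : H m ⊆ ⋃ v : T, {X | Bp m v.1 (pre X v.1.length)} := by
      intro X hX
      obtain ⟨v, h1, h2⟩ := (hHmem _ _).1 hX
      have h3 := h1 v.length (Nat.lt_succ_self _)
      rw [List.take_length] at h3
      exact Set.mem_iUnion.2 ⟨⟨v, h3, (hlen m v _ h2).2⟩, h2⟩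
    have hone : ∀ v : T, lam {X | Bp m v.1 (pre X v.1.length)} ≤
        ENNReal.ofReal (w v.1.length) := by
      intro v
      rw [lam_num]
      have h1 := hnum m v.1
      have h2 : ENNReal.ofReal (w v.1.length) =
          ((2 * Q v.1.length : ℕ) : ℝ≥0∞) * (1 / 2) ^ v.1.length := by
        simp only [hw]
        rw [ENNReal.ofReal_div_of_pos (by positivity), ENNReal.ofReal_pow (by norm_num),
          ENNReal.ofReal_mul (by norm_num), ENNReal.ofReal_natCast]
        push_cast
        rw [one_div, ← ENNReal.inv_pow, div_eq_mul_inv]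
        norm_num [ENNReal.ofReal_ofNat]
      rw [h2]
      gcongr
    calc lam (H m) ≤ lam (⋃ v : T, {X | Bp m v.1 (pre X v.1.length)}) := measure_mono hsub
      _ ≤ ∑' v : T, lam {X | Bp m v.1 (pre X v.1.length)} := measure_iUnion_le _
      _ ≤ ∑' v : T, ENNReal.ofReal (w v.1.length) := ENNReal.tsum_le_tsum hone
      _ ≤ ENNReal.ofReal (((1 : ℕ) : ℝ) * (b - β m)) := by
        rw [ENNReal.tsum_eq_iSup_sum]
        refine iSup_le fun F => ?_
        rw [← ENNReal.ofReal_sum_of_nonneg fun v _ => hw0 _]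
        refine ENNReal.ofReal_le_ofReal ?_
        have h1 := hmain m (F.map ⟨Subtype.val, Subtype.val_injective⟩) (by
          intro v hv
          obtain ⟨x, _, rfl⟩ := Finset.mem_map.1 hv
          exact x.2)
        rw [Finset.sum_map] at h1
        simpa using h1
  · intro Z hZ m
    obtain ⟨t, ht⟩ := hZ m
    refine (hHmem _ _).2 ⟨pre A t, fun t' ht' => ?_, ?_⟩
    · rw [length_pre] at ht'
      rw [take_pre _ _ _ (by omega)]
      exact hVA t'
    · rw [length_pre]
      exact ht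

end Pool.Agent.H709.OW
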