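import Pool.Agent.H709.OW.Props

set_option autoImplicit false

/-! The exhaustion lemma of the golden run (helper721). -/

namespace Pool.Agent.H709.OW

open Pool.Agent.Helper227 MeasureTheory Encodable
open scoped ENNReal

namespace GR

namespace G1L

theorem wt_some (q : ℕ) : wt (some q) = (1 / 2 : ℝ) ^ q := rfl

theorem wt_nonneg (o : Option ℕ) : 0 ≤ wt o := by
  cases o with
  | none => exact le_refl _
  | some q => rw [wt_some]; positivity

/-- being a multiple of `2 ^ (- q)` -/
def Mu (q : ℕ) (a : ℝ) : Prop := ∃ k : ℕ, a = k * (1 / 2 : ℝ) ^ q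

theorem mu_zero (q : ℕ) : Mu q 0 := ⟨0, by simp⟩

theorem mu_add {q : ℕ} {a b : ℝ} (h : Mu q a) (h' : Mu q b) : Mu q (a + b) := by
  obtain ⟨k, rfl⟩ := h
  obtain ⟨l, rfl⟩ := h'
  exact ⟨k + l, by push_cast; ring⟩

theorem mu_sum {q : ℕ} {I : Finset ℕ} {f : ℕ → ℝ} (h : ∀ u ∈ I, Mu q (f u)) : Mu q (∑ u ∈ I, f u) := by
  classical
  induction I using Finset.induction_on with
  | empty => simpa using mu_zero q
  | insert a I ha ih =>
    rw [Finset.sum_insert ha]
    exact mu_add (h a (Finset.mem_insert_self _ _)) (ih fun u hu => h u (Finset.mem_insert_of_mem hu))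

theorem pow_split {p q : ℕ} (h : p ≤ q) : (1 / 2 : ℝ) ^ p = ((2 ^ (q - p) : ℕ) : ℝ) * (1 / 2 : ℝ) ^ q := by
  obtain ⟨m, rfl⟩ := Nat.exists_eq_add_of_le h
  rw [Nat.add_sub_cancel_left, pow_add]
  push_cast
  have h1 : (2 : ℝ) ^ m * (1 / 2 : ℝ) ^ m = 1 := by rw [← mul_pow]; norm_num
  calc (1 / 2 : ℝ) ^ p = (1 / 2 : ℝ) ^ p * (2 ^ m * (1 / 2 : ℝ) ^ m) := by rw [h1, mul_one]
    _ = _ := by ring

theorem mu_wt {q : ℕ} {o : Option ℕ} (h : ∀ q', o = some q' → q' ≤ q) : Mu q (wt o) := by
  cases o with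
  | none => exact mu_zero q
  | some p => exact ⟨2 ^ (q - p), pow_split (h p rfl)⟩

theorem mu_lt {q p : ℕ} {a : ℝ} (h : Mu q a) (hp : p ≤ q) (hlt : a < (1 / 2 : ℝ) ^ p) :
    a + (1 / 2 : ℝ) ^ q ≤ (1 / 2 : ℝ) ^ p := by
  obtain ⟨k, rfl⟩ := h
  rw [pow_split hp] at hlt ⊢
  have h0 : (0 : ℝ) < (1 / 2 : ℝ) ^ q := by positivity
  have h1 : (k : ℝ) < ((2 ^ (q - p) : ℕ) : ℝ) := lt_of_mul_lt_mul_right hlt h0.le
  have h2 : k + 1 ≤ 2 ^ (q - p) := by exact_mod_cast h1
  have h3 : ((k : ℝ) + 1) ≤ ((2 ^ (q - p) : ℕ) : ℝ) := by exact_mod_cast h2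
  calc (k : ℝ) * (1 / 2 : ℝ) ^ q + (1 / 2 : ℝ) ^ q = ((k : ℝ) + 1) * (1 / 2 : ℝ) ^ q := by ring
    _ ≤ _ := mul_le_mul_of_nonneg_right h3 h0.le

end G1L

open G1L

theorem s_Tot : S_Tot := by
  intro R ω r s
  induction s with
  | zero => intro _; simp [tot]
  | succ s ih =>
    intro h
    have h1 := ih fun u hu => h u (Nat.lt_succ_of_lt hu)
    have h2 : tot R (s + 1) = tot R s + wt (ld R s) := Finset.sum_range_succ _ _
    rw [h2]
    have hs := h s (Nat.lt_succ_self s)
    by_cases hc : (ps R s).length = r + 1 ∧ tot R s < 1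
    · obtain ⟨q, hq, hle, -, -⟩ := hs.some hc.1 hc.2
      have h3 : Mu q (tot R s) := mu_sum fun u hu => mu_wt fun q' hq' =>
        hle u (Finset.mem_range.1 hu) q' hq'
      have h4 := mu_lt h3 (Nat.zero_le q) (by simpa using hc.2)
      rw [hq, wt_some]
      simpa using h4
    · rw [hs.none hc]
      simpa [wt] using h1

namespace G1L

section

variable {R : ℕ → Rec} {ω : ℕ → ℕ} {en : Str → Prop} {r S : ℕ}

theorem st_spec (s i : ℕ) (L : List Str) : ∀ u, st R s i L ≤ u → u < s → (ps R u).take i = L := by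
  classical
  exact Nat.find_spec (p := fun t => ∀ u, t ≤ u → u < s → (ps R u).take i = L) _

theorem st_le (s i : ℕ) (L : List Str) : st R s i L ≤ s := by
  classical
  exact Nat.find_min' (p := fun t => ∀ u, t ≤ u → u < s → (ps R u).take i = L) _
    (fun _ h1 h2 => absurd h1 (Nat.not_le.2 h2))

/-- the `i`-bad stages -/
def Bad (R : ℕ → Rec) (S i s : ℕ) : Prop := ∀ u, s ≤ u → u < S →
  (∀ v, s ≤ v → v ≤ u → (ps R v).take i = (ps R s).take i) → (ps R s).getD i [] <+: al R u

theorem load_len (hs : ∀ s < S, SpecAt R ω en r s) {s : ℕ} (h : s < S) (hl : (ld R s).isSome) :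
    (ps R s).length = r + 1 ∧ tot R s < 1 := by
  by_contra hc
  rw [(hs s h).2.none hc] at hl
  exact absurd hl (by simp)

theorem getD_eq {l : List Str} {i : ℕ} (h : i < l.length) : l.getD i [] = l[i] := by
  simp [List.getD_eq_getElem?_getD, h]

/-- one value in one group -/
theorem val_bound (hs : ∀ s < S, SpecAt R ω en r s) {i t : ℕ} (hi : i ≤ r) (L : List Str) (x : ℕ)
    (M : Finset ℕ) (hM : ∀ s ∈ M, s < S ∧ (ld R s).isSome ∧ (ps R s).take i = L ∧ st R s i L = t ∧
      el ((ps R s).getD i []) = x) : ∑ s ∈ M, wt (ld R s) ≤ (1 / 2 : ℝ) ^ (i + t + 3 + ω x) := by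
  classical
  rcases M.eq_empty_or_nonempty with rfl | hne
  · simp
  set w := M.max' hne with hw
  have hwM : w ∈ M := M.max'_mem hne
  obtain ⟨hwS, hwl, hwL, hwt, hwx⟩ := hM w hwM
  obtain ⟨hlen, htot⟩ := load_len hs hwS hwl
  obtain ⟨hP, hLd⟩ := hs w hwS
  obtain ⟨q, hq, hqle, hqu, -⟩ := hLd.some hlen htot
  have hiw : i < (ps R w).length := by omega
  have hH := (hP.mem i hiw).2
  rw [hwL] at hH
  rw [getD_eq hiw] at hwx
  obtain ⟨hen, hfed⟩ := hH
  rw [hwx] at hfed
  have hqu' : qu R ω w i L x = i + t + 3 + ω x := by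
    unfold qu; rw [hwt]
  rw [hqu'] at hfed
  have hqi : i + t + 3 + ω x ≤ q := by
    have h1 := hqu i hi
    rw [hwL, getD_eq hiw, hwx, hqu'] at h1
    exact h1
  -- the fed amount is a multiple
  have hmu : Mu q (fed R w i L x) := by
    refine mu_sum fun u hu => ?_
    split_ifs
    · exact mu_wt fun q' hq' => hqle u (Finset.mem_Ico.1 hu).2 q' hq'
    · exact mu_zero q
  have h1 := mu_lt hmu hqi hfed
  -- the sum over the earlier members
  have h2 : ∑ s ∈ M.erase w, wt (ld R s) ≤ fed R w i L x := by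
    unfold fed
    rw [hwt]
    calc ∑ s ∈ M.erase w, wt (ld R s) = ∑ s ∈ M.erase w,
          (if ((ps R s)[i]?).map el = some x then wt (ld R s) else 0) := by
          refine Finset.sum_congr rfl fun s hsM => ?_
          obtain ⟨h3, h4, h5, h6, h7⟩ := hM s (Finset.mem_of_mem_erase hsM)
          have h8 : i < (ps R s).length := by
            have := (load_len hs h3 h4).1; omega
          rw [getD_eq h8] at h7
          rw [if_pos]
          rw [List.getElem?_eq_getElem h8, Option.map_some, h7]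
      _ ≤ _ := by
          refine Finset.sum_le_sum_of_subset_of_nonneg ?_ ?_
          · intro s hsM
            obtain ⟨h3, h4, h5, h6, h7⟩ := hM s (Finset.mem_of_mem_erase hsM)
            rw [Finset.mem_Ico]
            refine ⟨?_, ?_⟩
            · rw [← h6]; exact st_le s i L
            · exact lt_of_le_of_ne (M.le_max' s (Finset.mem_of_mem_erase hsM)) (Finset.ne_of_mem_erase hsM)
          · intro s _ _
            split_ifs
            · exact wt_nonneg _
            · exact le_refl _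
  rw [← Finset.add_sum_erase M _ hwM, hq, wt_some]
  linarith

/-- one group -/
theorem grp_bound (htr : Trimmed ω en) (hs : ∀ s < S, SpecAt R ω en r s) {i t : ℕ} (hi : i ≤ r)
    (M : Finset ℕ) (hM : ∀ s ∈ M, s < S ∧ (ld R s).isSome ∧ Bad R S i s ∧
      st R s i ((ps R s).take i) = t) : ∑ s ∈ M, wt (ld R s) ≤ (1 / 2 : ℝ) ^ (i + t + 3) := by
  classical
  rcases M.eq_empty_or_nonempty with rfl | hne
  · simp
  set w := M.max' hne with hw
  have hwM : w ∈ M := M.max'_mem hne
  obtain ⟨hwS, hwl, hwB, hwt⟩ := hM w hwM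
  set L := (ps R w).take i with hL
  have hLu : ∀ u, t ≤ u → u ≤ w → (ps R u).take i = L := by
    intro u h1 h2
    rcases eq_or_lt_of_le h2 with h3 | h3
    · rw [h3]
    · exact st_spec w i L u (by rw [hwt]; exact h1) h3
  have hmem : ∀ s ∈ M, t ≤ s ∧ s ≤ w ∧ (ps R s).take i = L ∧ st R s i L = t := by
    intro s hsM
    obtain ⟨h1, h2, h3, h4⟩ := hM s hsM
    have h5 : t ≤ s := by rw [← h4]; exact st_le _ _ _
    have h6 : s ≤ w := M.le_max' s hsM
    have h7 := hLu s h5 h6
    rw [h7] at h4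
    exact ⟨h5, h6, h7, h4⟩
  set X := M.image (fun s => el ((ps R s).getD i [])) with hX
  have h1 : ∑ s ∈ M, wt (ld R s) = ∑ x ∈ X, ∑ s ∈ M.filter (fun s => el ((ps R s).getD i []) = x), wt (ld R s) :=
    (Finset.sum_fiberwise_of_maps_to (fun s hsM => Finset.mem_image_of_mem _ hsM) _).symm
  have h2 : ∀ x ∈ X, ∑ s ∈ M.filter (fun s => el ((ps R s).getD i []) = x), wt (ld R s) ≤
      (1 / 2 : ℝ) ^ (i + t + 3 + ω x) := by
    intro x _
    refine val_bound hs hi L x _ fun s hsM => ?_
    rw [Finset.mem_filter] at hsM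
    obtain ⟨h3, h4, -, -⟩ := hM s hsM.1
    obtain ⟨-, -, h5, h6⟩ := hmem s hsM.1
    exact ⟨h3, h4, h5, h6, hsM.2⟩
  have h3 := htr (al R w) X (by
    intro x hx
    rw [hX, Finset.mem_image] at hx
    obtain ⟨s, hsM, hsx⟩ := hx
    obtain ⟨h3, h4, h5, h6⟩ := hM s hsM
    obtain ⟨h7, h8, h9, h10⟩ := hmem s hsM
    have h11 : i < (ps R s).length := by
      have := (load_len hs h3 h4).1; omega
    refine ⟨(ps R s).getD i [], ?_, ?_, hsx⟩
    · exact h5 w h8 hwS fun v hv1 hv2 => by rw [h9, hLu v (h7.trans hv1) hv2]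
    · rw [getD_eq h11]
      exact (((hs s h3).1.mem i h11).2).1)
  rw [h1]
  calc _ ≤ ∑ x ∈ X, (1 / 2 : ℝ) ^ (i + t + 3 + ω x) := Finset.sum_le_sum h2
    _ = (1 / 2 : ℝ) ^ (i + t + 3) * ∑ x ∈ X, (1 / 2 : ℝ) ^ ω x := by
        rw [Finset.mul_sum]
        exact Finset.sum_congr rfl fun x _ => pow_add _ _ _
    _ ≤ (1 / 2 : ℝ) ^ (i + t + 3) * 1 := by gcongr
    _ = _ := mul_one _

theorem geo (n : ℕ) : ∑ i ∈ Finset.range n, (1 / 2 : ℝ) ^ i ≤ 2 := by
  have h := geom_sum_eq (x := (1 / 2 : ℝ)) (by norm_num) n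
  rw [h]
  have : (0 : ℝ) < (1 / 2) ^ n := by positivity
  rw [div_le_iff_of_neg (by norm_num)]
  linarith

theorem dbl (n m : ℕ) : ∑ i ∈ Finset.range n, ∑ t ∈ Finset.range m, (1 / 2 : ℝ) ^ (i + t + 3) ≤ 1 / 2 := by
  have h1 : ∑ i ∈ Finset.range n, ∑ t ∈ Finset.range m, (1 / 2 : ℝ) ^ (i + t + 3) =
      1 / 8 * ((∑ i ∈ Finset.range n, (1 / 2 : ℝ) ^ i) * ∑ t ∈ Finset.range m, (1 / 2 : ℝ) ^ t) := by
    rw [Finset.sum_mul_sum, Finset.mul_sum]
    refine Finset.sum_congr rfl fun i _ => ?_
    rw [Finset.mul_sum]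
    refine Finset.sum_congr rfl fun t _ => ?_
    rw [pow_add, pow_add]
    norm_num
    ring
  rw [h1]
  have h2 := geo n
  have h3 := geo m
  have h4 : 0 ≤ ∑ i ∈ Finset.range n, (1 / 2 : ℝ) ^ i := Finset.sum_nonneg fun _ _ => by positivity
  have h5 : 0 ≤ ∑ t ∈ Finset.range m, (1 / 2 : ℝ) ^ t := Finset.sum_nonneg fun _ _ => by positivity
  nlinarith

/-- the good loads -/
theorem good (hs : ∀ s < S, SpecAt R ω en r s) {s : ℕ} (hsS : s < S) (hl : (ld R s).isSome)
    (hb : ∀ i ≤ r, ¬ Bad R S i s) : ∃ T : Finset Str, T.card = r + 1 ∧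
      ∀ σ ∈ T, σ.length = s ∧ ∃ u, s < u ∧ u < S ∧ σ = (al R u).take s := by
  classical
  have hlen := (load_len hs hsS hl).1
  have hal : (al R s).length = s := (hs s hsS).1.len
  set τ : ℕ → Str := fun i => (ps R s).getD i [] with hτ
  have hτi : ∀ i (hi : i ≤ r), τ i = (ps R s)[i]'(by omega) := fun i hi => getD_eq _
  have hτs : ∀ i ≤ r, τ i <+: al R s := fun i hi => by
    rw [hτi i hi]; exact ((hs s hsS).1.mem i (by omega)).1
  have hτl : ∀ i ≤ r, (τ i).length ≤ s := fun i hi => by
    have := (hτs i hi).length_le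
    rwa [hal] at this
  -- the stages `ε i`
  have hex : ∀ i, i ≤ r → ∃ e, (s ≤ e ∧ ∃ j ≤ i, ¬ τ j <+: al R e) ∧
      (∀ u, s ≤ u → u < e → ∀ j ≤ i, τ j <+: al R u) ∧ e < S ∧
      (∀ u, s ≤ u → u ≤ e → ∀ j < i, τ j <+: al R u) := by
    intro i hi
    have h1 := hb i hi
    unfold Bad at h1
    push Not at h1
    obtain ⟨u, hsu, huS, hv, hnu⟩ := h1
    have hE : ∃ e, s ≤ e ∧ ∃ j ≤ i, ¬ τ j <+: al R e := ⟨u, hsu, i, le_rfl, hnu⟩
    have hle : Nat.find hE ≤ u := Nat.find_min' hE ⟨hsu, i, le_rfl, hnu⟩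
    refine ⟨Nat.find hE, Nat.find_spec hE, ?_, lt_of_le_of_lt hle huS, ?_⟩
    · intro v h2 h3 j hj
      by_contra h4
      exact Nat.find_min hE h3 ⟨h2, j, hj, h4⟩
    · intro v h2 h3 j hj
      have h4 := hv v h2 (h3.trans hle)
      have h5 : j < (ps R v).length := by
        have h6 := congrArg List.length h4
        rw [List.length_take, List.length_take, hlen] at h6
        omega
      have h6 : (ps R v)[j] = τ j := by
        rw [hτi j (by omega)]
        have h7 : ((ps R v).take i)[j]? = ((ps R s).take i)[j]? := by rw [h4]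
        rw [List.getElem?_take_of_lt hj, List.getElem?_take_of_lt hj, List.getElem?_eq_getElem h5,
          List.getElem?_eq_getElem (by omega)] at h7
        exact Option.some.inj h7
      rw [← h6]
      exact ((hs v (by omega)).1.mem j h5).1
  choose! e he1 he2 he3 he4 using hex
  have hlt : ∀ i j, i < j → j ≤ r → e j < e i := by
    intro i j hij hj
    by_contra hc
    push Not at hc
    obtain ⟨h1, k, hk, h2⟩ := he1 i (by omega)
    exact h2 (he4 j hj (e i) h1 hc k (by omega))
  have hse : ∀ i ≤ r, s < e i := by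
    intro i hi
    obtain ⟨h1, k, hk, h2⟩ := he1 i hi
    refine lt_of_le_of_ne h1 ?_
    intro h3
    rw [← h3] at h2
    exact h2 (hτs k (by omega))
  have hinj : Set.InjOn (fun i => (al R (e i)).take s) (Finset.range (r + 1)) := by
    have key : ∀ i j, i < j → j ≤ r → (al R (e i)).take s ≠ (al R (e j)).take s := by
      intro i j hij hj heq
      obtain ⟨h1, k, hk, h2⟩ := he1 i (by omega)
      have h3 : τ k <+: al R (e j) := he2 i (by omega) (e j) (hse j hj).le (hlt i j hij hj) k hk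
      have h4 : τ k <+: (al R (e j)).take s := by
        rw [List.prefix_take_iff]
        exact ⟨h3, hτl k (by omega)⟩
      rw [← heq] at h4
      exact h2 (h4.trans (List.take_prefix _ _))
    intro i hi j hj hij
    simp only [Finset.coe_range, Set.mem_Iio] at hi hj
    rcases lt_trichotomy i j with h | h | h
    · exact absurd hij (key i j h (by omega))
    · exact h
    · exact absurd hij.symm (key j i h (by omega))
  refine ⟨(Finset.range (r + 1)).image (fun i => (al R (e i)).take s), ?_, ?_⟩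
  · rw [Finset.card_image_of_injOn hinj, Finset.card_range]
  · intro σ hσ
    rw [Finset.mem_image] at hσ
    obtain ⟨i, hi, rfl⟩ := hσ
    have hi' : i ≤ r := by
      have := Finset.mem_range.1 hi; omega
    refine ⟨?_, e i, hse i hi', he3 i hi', rfl⟩
    have h1 : (al R (e i)).length = e i := (hs (e i) (he3 i hi')).1.len
    rw [List.length_take, h1]
    have := hse i hi'
    omega

end

end G1L

theorem s_G1 : S_G1 := by
  classical
  intro R ω en r S htr hs
  set Good := (Finset.range S).filter (fun s => (ld R s).isSome ∧ ∀ i ≤ r, ¬ Bad R S i s) with hG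
  refine ⟨Good, ?_, ?_, ?_⟩
  · intro s h
    rw [hG, Finset.mem_filter, Finset.mem_range] at h
    exact ⟨h.1, h.2.1⟩
  · have h1 : tot R S = ∑ s ∈ Good, wt (ld R s) +
        ∑ s ∈ (Finset.range S).filter (fun s => ¬ ((ld R s).isSome ∧ ∀ i ≤ r, ¬ Bad R S i s)), wt (ld R s) :=
      (Finset.sum_filter_add_sum_filter_not _ _ _).symm
    have h2 : ∑ s ∈ (Finset.range S).filter (fun s => ¬ ((ld R s).isSome ∧ ∀ i ≤ r, ¬ Bad R S i s)),
        wt (ld R s) ≤ 1 / 2 := by
      set N := (Finset.range S).filter (fun s => ¬ ((ld R s).isSome ∧ ∀ i ≤ r, ¬ Bad R S i s)) with hN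
      set Gr : ℕ → ℕ → Finset ℕ := fun i t => (Finset.range S).filter
        (fun s => (ld R s).isSome ∧ Bad R S i s ∧ st R s i ((ps R s).take i) = t) with hGr
      have h3 : ∑ s ∈ N, wt (ld R s) ≤ ∑ i ∈ Finset.range (r + 1), ∑ t ∈ Finset.range S,
          ∑ s ∈ Gr i t, wt (ld R s) := by
        have h4 : ∀ s ∈ N, wt (ld R s) ≤ ∑ i ∈ Finset.range (r + 1), ∑ t ∈ Finset.range S,
            (if s ∈ Gr i t then wt (ld R s) else 0) := by
          intro s hsN
          rw [hN, Finset.mem_filter, Finset.mem_range] at hsN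
          obtain ⟨hsS, hn⟩ := hsN
          have hnn : ∀ i t, 0 ≤ (if s ∈ Gr i t then wt (ld R s) else 0) := fun i t => by
            split_ifs
            · exact wt_nonneg _
            · exact le_refl _
          by_cases hl : (ld R s).isSome
          · push Not at hn
            obtain ⟨i, hi, hbad⟩ := hn hl
            have hst : st R s i ((ps R s).take i) < S := lt_of_le_of_lt (st_le _ _ _) hsS
            have hmem : s ∈ Gr i (st R s i ((ps R s).take i)) := by
              rw [hGr, Finset.mem_filter, Finset.mem_range]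
              exact ⟨hsS, hl, hbad, rfl⟩
            calc wt (ld R s) = (if s ∈ Gr i (st R s i ((ps R s).take i)) then wt (ld R s) else 0) := by
                  rw [if_pos hmem]
              _ ≤ ∑ t ∈ Finset.range S, (if s ∈ Gr i t then wt (ld R s) else 0) :=
                  Finset.single_le_sum (f := fun t => if s ∈ Gr i t then wt (ld R s) else 0)
                    (fun t _ => hnn i t) (Finset.mem_range.2 hst)
              _ ≤ _ := Finset.single_le_sum
                    (f := fun i => ∑ t ∈ Finset.range S, if s ∈ Gr i t then wt (ld R s) else 0)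
                    (fun i _ => Finset.sum_nonneg fun t _ => hnn i t) (Finset.mem_range.2 (by omega))
          · have h5 : ld R s = none := by
              rw [Bool.not_eq_true, Option.isSome_eq_false_iff, Option.isNone_iff_eq_none] at hl
              exact hl
            rw [h5]
            exact Finset.sum_nonneg fun i _ => Finset.sum_nonneg fun t _ => by
              rw [← h5]; exact hnn i t
        refine (Finset.sum_le_sum h4).trans ?_
        rw [Finset.sum_comm]
        refine Finset.sum_le_sum fun i _ => ?_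
        rw [Finset.sum_comm]
        refine Finset.sum_le_sum fun t _ => ?_
        rw [← Finset.sum_filter]
        refine Finset.sum_le_sum_of_subset_of_nonneg ?_ fun s _ _ => wt_nonneg _
        intro s hs'
        exact (Finset.mem_filter.1 hs').2
      refine h3.trans (le_trans ?_ (dbl (r + 1) S))
      refine Finset.sum_le_sum fun i hi => Finset.sum_le_sum fun t _ => ?_
      refine grp_bound htr hs (by have := Finset.mem_range.1 hi; omega) _ fun s hsG => ?_
      rw [hGr, Finset.mem_filter, Finset.mem_range] at hsG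
      exact hsG
    linarith
  · intro s h
    rw [hG, Finset.mem_filter, Finset.mem_range] at h
    exact good hs h.1 h.2.1 h.2.2

end GR

end Pool.Agent.H709.OW
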