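import Pool.Agent.H709.OW.Props

set_option autoImplicit false

namespace Pool.Agent.H709.OW

open Pool.Agent.Helper227 MeasureTheory Encodable
open scoped ENNReal

namespace GR

namespace G2L

theorem st_spec (R : ℕ → Rec) (s i : ℕ) (L : List Str) :
    ∀ u, st R s i L ≤ u → u < s → (ps R u).take i = L := by
  classical
  unfold st
  exact Nat.find_spec (p := fun t => ∀ u, t ≤ u → u < s → (ps R u).take i = L)
    ⟨s, fun _ h1 h2 => absurd h1 (Nat.not_le.2 h2)⟩

theorem st_le (R : ℕ → Rec) (s i : ℕ) (L : List Str) (t : ℕ)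
    (h : ∀ u, t ≤ u → u < s → (ps R u).take i = L) : st R s i L ≤ t := by
  classical
  unfold st
  exact Nat.find_min' _ h

theorem st_const (R : ℕ → Rec) (i : ℕ) (L : List Str) (s₀ : ℕ)
    (h : ∀ s ≥ s₀, (ps R s).take i = L) (s : ℕ) (hs : s₀ ≤ s) : st R s i L = st R s₀ i L := by
  apply le_antisymm
  · apply st_le
    intro u h1 h2
    by_cases h3 : u < s₀
    · exact st_spec R s₀ i L u h1 h3
    · exact h u (not_lt.mp h3)
  · apply st_le
    intro u h1 h2
    exact st_spec R s i L u h1 (lt_of_lt_of_le h2 hs)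

theorem wt_nonneg (o : Option ℕ) : 0 ≤ wt o := by
  cases o with
  | none => exact le_rfl
  | some q => exact pow_nonneg (by norm_num) _

theorem fed_mono (R : ℕ → Rec) (i : ℕ) (L : List Str) (x s s' : ℕ) (hs : s ≤ s')
    (hst : st R s' i L = st R s i L) : fed R s i L x ≤ fed R s' i L x := by
  unfold fed
  rw [hst]
  apply Finset.sum_le_sum_of_subset_of_nonneg
  · exact Finset.Ico_subset_Ico_right hs
  · intro u _ _
    split_ifs
    · exact wt_nonneg _
    · exact le_rfl

/-- a bounded sequence which is monotone from some point on is eventually constant -/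
theorem ev_const (f : ℕ → ℕ) (s₁ B : ℕ) (hm : ∀ s ≥ s₁, f s ≤ f (s + 1))
    (hB : ∀ s ≥ s₁, f s ≤ B) : ∃ s₂ ≥ s₁, ∀ s ≥ s₂, f s = f s₂ := by
  have hmono : ∀ s ≥ s₁, ∀ t ≥ s, f s ≤ f t := by
    intro s hs t ht
    induction t, ht using Nat.le_induction with
    | base => exact le_rfl
    | succ t ht ih => exact le_trans ih (hm t (le_trans hs ht))
  have key : ∀ d, ∀ s ≥ s₁, B - f s = d → ∃ s₂ ≥ s₁, ∀ s ≥ s₂, f s = f s₂ := by
    intro d
    induction d using Nat.strong_induction_on with
    | _ d ih =>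
      intro s hs hd
      by_cases hc : ∀ t ≥ s, f t = f s
      · exact ⟨s, hs, hc⟩
      · push Not at hc
        obtain ⟨t, ht, hne⟩ := hc
        have h1 := hmono s hs t ht
        have h2 := hB t (le_trans hs ht)
        exact ih (B - f t) (by omega) t (le_trans hs ht) rfl
  exact key _ s₁ le_rfl rfl

/-- `P i` : the first `i` strings are eventually constant -/
def P (R : ℕ → Rec) (i : ℕ) : Prop :=
  ∃ L : List Str, L.length = i ∧ ∃ s₀, ∀ s ≥ s₀, (ps R s).take i = L

theorem not_P (R : ℕ → Rec) (ω : ℕ → ℕ) (en : Str → Prop) (r : ℕ)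
    (hS : ∀ s, SpecAt R ω en r s) (hT : ∀ s, tot R s < 1) : ¬ P R (r + 1) := by
  rintro ⟨L, hL, s₀, h⟩
  have hps : ∀ s ≥ s₀, ps R s = L := by
    intro s hs
    have h1 := h s hs
    rwa [List.take_of_length_le (hS s).1.le] at h1
  have hload : ∀ s ≥ s₀, ∃ q, ld R s = some q ∧
      (∀ u < s, ∀ q', ld R u = some q' → q' ≤ q) ∧
      (∀ i ≤ r, qu R ω s₀ i (L.take i) (el (L.getD i [])) ≤ q) ∧
      ((∃ u < s, ld R u = some q) ∨
        ∃ i ≤ r, qu R ω s₀ i (L.take i) (el (L.getD i [])) = q) := by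
    intro s hs
    obtain ⟨q, h1, h2, h3, h4⟩ := (hS s).2.some (by rw [hps s hs, hL]) (hT s)
    have hq : ∀ i, qu R ω s i ((ps R s).take i) (el ((ps R s).getD i []))
        = qu R ω s₀ i (L.take i) (el (L.getD i [])) := by
      intro i
      rw [hps s hs]
      unfold qu
      rw [st_const R i (L.take i) s₀ (fun t ht => by rw [hps t ht]) s hs]
    refine ⟨q, h1, h2, ?_, ?_⟩
    · intro i hi
      rw [← hq i]
      exact h3 i hi
    · rcases h4 with h4 | ⟨i, hi, h4⟩
      · exact Or.inl h4
      · exact Or.inr ⟨i, hi, by rw [← hq i]; exact h4⟩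
  obtain ⟨q, hq0, hq1, hq2, -⟩ := hload s₀ le_rfl
  have hconst : ∀ s, s₀ ≤ s → ld R s = some q := by
    intro s
    induction s using Nat.strong_induction_on with
    | _ s ih =>
      intro hs
      rcases Nat.eq_or_lt_of_le hs with e | e
      · rw [← e]; exact hq0
      · obtain ⟨q', h1, h2, h3, h4⟩ := hload s hs
        have hle : q ≤ q' := h2 s₀ e q hq0
        have hge : q' ≤ q := by
          rcases h4 with ⟨u, hu, hu'⟩ | ⟨i, hi, h4⟩
          · by_cases hus : s₀ ≤ u
            · have := ih u hu hus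
              rw [hu'] at this
              exact (Option.some.inj this).le
            · exact hq1 u (not_le.mp hus) q' hu'
          · rw [← h4]
            exact hq2 i hi
        rw [h1, le_antisymm hge hle]
  have htot : ∀ m : ℕ, (m : ℝ) * (1 / 2 : ℝ) ^ q ≤ tot R (s₀ + m) := by
    intro m
    induction m with
    | zero =>
      simp only [Nat.cast_zero, zero_mul]
      exact Finset.sum_nonneg fun u _ => wt_nonneg _
    | succ m ih =>
      have : tot R (s₀ + (m + 1)) = tot R (s₀ + m) + wt (ld R (s₀ + m)) := by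
        unfold tot
        rw [← add_assoc, Finset.sum_range_succ]
      rw [this, hconst (s₀ + m) (by omega)]
      have hw : wt (some q) = (1 / 2 : ℝ) ^ q := rfl
      rw [hw]
      push_cast
      linarith
  have h1 := htot (2 ^ q)
  have h2 := hT (s₀ + 2 ^ q)
  have h3 : ((2 ^ q : ℕ) : ℝ) * (1 / 2 : ℝ) ^ q = 1 := by
    push_cast
    rw [← mul_pow]
    norm_num
  rw [h3] at h1
  linarith

end G2L

open G2L in
theorem s_G2 : S_G2 := by
  intro R ω en r A hS hT hA
  have h0 : P R 0 := ⟨[], rfl, 0, fun s _ => by simp⟩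
  have hex : ∃ i ≤ r, P R i ∧ ¬ P R (i + 1) := by
    by_contra hcon
    push Not at hcon
    have : ∀ i, i ≤ r + 1 → P R i := by
      intro i
      induction i with
      | zero => exact fun _ => h0
      | succ i ih => exact fun hi => hcon i (by omega) (ih (by omega))
    exact not_P R ω en r hS hT (this (r + 1) le_rfl)
  obtain ⟨i, hir, ⟨L, hL, s₀, h⟩, hnP⟩ := hex
  have hst : ∀ s ≥ s₀, st R s i L = st R s₀ i L := fun s hs => st_const R i L s₀ h s hs
  refine ⟨i, hir, L, s₀, hst, ?_⟩
  by_contra hcon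
  push Not at hcon
  obtain ⟨l, hen, hfed⟩ := hcon
  apply hnP
  have hH : ∀ s ≥ s₀, Hungry R ω en s i L (pre A l) := by
    intro s hs
    refine ⟨hen, ?_⟩
    unfold qu
    rw [hst s hs]
    exact hfed s hs
  obtain ⟨s₁', hs₁'⟩ := hA l
  obtain ⟨s₁, hs₁0, hs₁⟩ : ∃ s₁ ≥ s₀, ∀ s ≥ s₁, (al R s).take l = pre A l :=
    ⟨max s₀ s₁', le_max_left _ _, fun s hs => hs₁' s (le_trans (le_max_right _ _) hs)⟩
  have hpre : ∀ s ≥ s₁, ∀ m ≤ l, pre A m <+: al R s := by
    intro s hs m hm
    rw [← take_pre A l m hm, ← hs₁ s hs, List.take_take, min_eq_left hm]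
    exact List.take_prefix _ _
  have hlt : ∀ s ≥ s₁, i < (ps R s).length := by
    intro s hs
    have h1 := h s (le_trans hs₁0 hs)
    have h2 : i ≤ (ps R s).length := by
      have := congrArg List.length h1
      rw [List.length_take, hL] at this
      omega
    rcases Nat.eq_or_lt_of_le h2 with e | e
    · exfalso
      have h3 : ps R s = L := by
        rw [← h1, List.take_of_length_le (by omega)]
      have h4 := (hS s).1.max (by omega) (pre A l) (hpre s hs l le_rfl)
      rw [← e, h3] at h4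
      exact h4 (hH s (le_trans hs₁0 hs))
    · exact e
  -- the strings of level `i`
  have hτ : ∀ s ≥ s₁, ∀ hi : i < (ps R s).length,
      (ps R s)[i].length ≤ l ∧ (ps R s)[i] = pre A (ps R s)[i].length := by
    intro s hs hi
    have h1 : (ps R s)[i].length ≤ l := by
      by_contra hc
      have := (hS s).1.min i hi (pre A l) (hpre s hs l le_rfl) (by rw [length_pre]; omega)
      rw [h s (le_trans hs₁0 hs)] at this
      exact this (hH s (le_trans hs₁0 hs))
    refine ⟨h1, ?_⟩
    have h2 := ((hS s).1.mem i hi).1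
    rw [List.prefix_iff_eq_take] at h2
    rw [← take_pre A l _ h1, ← hs₁ s hs, List.take_take, min_eq_left h1]
    exact h2
  have hmono : ∀ s ≥ s₁, ((ps R s).getD i []).length ≤ ((ps R (s + 1)).getD i []).length := by
    intro s hs
    have hi := hlt s hs
    have hi' := hlt (s + 1) (by omega)
    rw [List.getD_eq_getElem _ _ hi, List.getD_eq_getElem _ _ hi']
    by_contra hc
    push Not at hc
    obtain ⟨h1, h2⟩ := hτ (s + 1) (by omega) hi'
    have h3 := ((hS (s + 1)).1.mem i hi').2
    rw [h (s + 1) (by omega), h2] at h3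
    have h4 := (hS s).1.min i hi (pre A (ps R (s + 1))[i].length) (hpre s hs _ h1)
      (by rw [length_pre]; exact hc)
    rw [h s (by omega)] at h4
    apply h4
    refine ⟨h3.1, ?_⟩
    have h5 := h3.2
    unfold qu at h5 ⊢
    rw [hst (s + 1) (by omega)] at h5
    rw [hst s (by omega)]
    refine lt_of_le_of_lt (fed_mono R i L _ s (s + 1) (by omega) ?_) h5
    rw [hst (s + 1) (by omega), hst s (by omega)]
  obtain ⟨s₂, hs₂, hc⟩ := ev_const (fun s => ((ps R s).getD i []).length) s₁ l hmono (by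
    intro s hs
    have hi := hlt s hs
    rw [List.getD_eq_getElem _ _ hi]
    exact (hτ s hs hi).1)
  refine ⟨L ++ [pre A ((ps R s₂).getD i []).length], by simp [hL], s₂, ?_⟩
  intro s hs
  have hs' : s ≥ s₁ := le_trans hs₂ hs
  have hi := hlt s hs'
  rw [List.take_succ_eq_append_getElem hi, h s (le_trans hs₁0 hs'), (hτ s hs' hi).2]
  congr 3
  rw [← hc s hs, List.getD_eq_getElem _ _ hi]

end GR

end Pool.Agent.H709.OW
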