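import Pool.Agent.H709.OW.Props

set_option autoImplicit false

/-! Basic facts used in the assembly of the golden run. -/

namespace Pool.Agent.H709.OW

open Pool.Agent.Helper227 Encodable

/-- the graph of a partial computable function is `Σ₁` -/
theorem s1_graph {U : Str →. Str} (hU : Partrec U) : S1 fun x : Str × Str => x.2 ∈ U x.1 := by
  have h1 : Partrec fun x : Str × Str => (U x.1).bind fun y =>
      (if y = x.2 then Part.some () else Part.none) := by
    refine Partrec.bind (hU.comp Computable.fst) ?_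
    have h2 : PrimrecPred fun z : (Str × Str) × Str => z.2 = z.1.2 :=
      Primrec.eq.comp Primrec.snd (Primrec.snd.comp Primrec.fst)
    have h3 : Partrec fun z : (Str × Str) × Str =>
        (cond (decide (z.2 = z.1.2)) (Part.some ()) Part.none : Part Unit) :=
      Partrec.cond h2.decide.to_comp (Computable.const ()).partrec Partrec.none
    refine h3.of_eq fun z => ?_
    by_cases h : z.2 = z.1.2 <;> simp [h]
  refine (S1.of_re h1.dom_re).of_eq fun x => ?_
  simp only [Part.bind_dom]
  constructor
  · rintro ⟨h, h2⟩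
    by_cases h3 : (U x.1).get h = x.2
    · rw [← h3]; exact Part.get_mem h
    · rw [if_neg h3] at h2
      exact h2.elim
  · intro h
    refine ⟨Part.dom_iff_mem.2 ⟨_, h⟩, ?_⟩
    have h3 : (U x.1).get (Part.dom_iff_mem.2 ⟨_, h⟩) = x.2 := Part.get_eq_of_mem h _
    rw [h3, if_pos rfl]
    trivial

/-- `K(y) ≤ k` is `Σ₁` -/
theorem s1_KU {U : Str →. Str} (hU : IsUniversal U) : S1 fun x : Str × ℕ => KU U x.1 ≤ x.2 := by
  have h : S1 fun x : Str × ℕ => ∃ τ : Str, τ.length ≤ x.2 ∧ x.1 ∈ U τ := by
    refine S1.ex (S1.and (S1.of_prim ?_) (S1.comp (f := fun x : (Str × ℕ) × Str => (x.2, x.1.1))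
      (s1_graph hU.1.1) ?_))
    · exact Primrec.nat_le.comp (Primrec.list_length.comp Primrec.snd)
        (Primrec.snd.comp Primrec.fst)
    · exact Primrec.snd.pair (Primrec.fst.comp Primrec.fst)
  refine h.of_eq fun x => ?_
  constructor
  · rintro ⟨τ, h1, h2⟩
    exact (KU_le h2).trans h1
  · intro h1
    obtain ⟨τ, h2, h3⟩ := hU.exists_min x.1
    exact ⟨τ, by omega, h3⟩

namespace GR

theorem wt_nonneg (o : Option ℕ) : 0 ≤ wt o := by
  cases o with
  | none => simp [wt]
  | some q => simp only [wt, Option.elim]; positivity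

theorem st_congr {R R' : ℕ → Rec} {s : ℕ} (h : ∀ u < s, R u = R' u) (i : ℕ) (L : List Str) :
    st R s i L = st R' s i L := by
  classical
  have : (fun t => ∀ u, t ≤ u → u < s → (ps R u).take i = L) =
      (fun t => ∀ u, t ≤ u → u < s → (ps R' u).take i = L) := by
    funext t
    refine propext (forall_congr' fun u => forall_congr' fun _ => forall_congr' fun hu => ?_)
    rw [ps, ps, h u hu]
  unfold st
  congr 1

theorem fed_congr {R R' : ℕ → Rec} {s : ℕ} (h : ∀ u < s, R u = R' u) (i : ℕ) (L : List Str)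
    (x : ℕ) : fed R s i L x = fed R' s i L x := by
  unfold fed
  rw [st_congr h]
  refine Finset.sum_congr rfl fun u hu => ?_
  have hu' := (Finset.mem_Ico.1 hu).2
  rw [ps, ps, ld, ld, h u hu']

theorem tot_congr {R R' : ℕ → Rec} {s : ℕ} (h : ∀ u < s, R u = R' u) : tot R s = tot R' s := by
  unfold tot
  refine Finset.sum_congr rfl fun u hu => ?_
  rw [ld, ld, h u (Finset.mem_range.1 hu)]

theorem tot_mono (R : ℕ → Rec) {s s' : ℕ} (h : s ≤ s') : tot R s ≤ tot R s' := by
  unfold tot
  exact Finset.sum_le_sum_of_subset_of_nonneg (Finset.range_mono h) fun _ _ _ => wt_nonneg _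

theorem fed_mono {R : ℕ → Rec} {s s' i : ℕ} {L : List Str} (h : s ≤ s')
    (hst : st R s' i L = st R s i L) (x : ℕ) : fed R s i L x ≤ fed R s' i L x := by
  unfold fed
  rw [hst]
  refine Finset.sum_le_sum_of_subset_of_nonneg (Finset.Ico_subset_Ico le_rfl h) fun u _ _ => ?_
  split_ifs
  · exact wt_nonneg _
  · exact le_rfl

theorem sum_fed_le (R : ℕ → Rec) (s i : ℕ) (L : List Str) (F : Finset ℕ) :
    ∑ x ∈ F, fed R s i L x ≤ tot R s := by
  unfold fed tot
  rw [Finset.sum_comm]
  refine le_trans ?_ (Finset.sum_le_sum_of_subset_of_nonneg (s := Finset.Ico (st R s i L) s)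
    (f := fun u => wt (ld R u)) (fun u hu => ?_) fun _ _ _ => wt_nonneg _)
  · refine Finset.sum_le_sum fun u _ => ?_
    rcases h : ((ps R u)[i]?).map el with _ | y
    · simp only [reduceCtorEq, if_false, Finset.sum_const_zero]
      exact wt_nonneg _
    · simp only [Option.some.injEq]
      rw [Finset.sum_ite_eq]
      split_ifs
      · exact le_rfl
      · exact wt_nonneg _
  · rw [Finset.mem_range]
    exact (Finset.mem_Ico.1 hu).2

end GR

end Pool.Agent.H709.OW
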