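import Pool.Agent.H709.OW.GoldA

set_option autoImplicit false

/-! Histories of the golden run construction: definition, computability, uniqueness. -/

namespace Pool.Agent.H709.OW.GR

open Pool.Agent.Helper227 Encodable

/-- `a` is a candidate for the approximation at stage `s` -/
def Cand (kq : Str × ℕ → ℕ → Prop) (ρ : Str) (b D : ℕ) (R : ℕ → Rec) (s : ℕ) (a : Str × ℕ) :
    Prop :=
  (a.1.length = s ∧ a.1.take ρ.length = ρ.take s) ∧
  (∀ n < s + 1, ∀ k < s + 1, kq (List.replicate n false, k) s → kq (a.1.take n, k + b) a.2) ∧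
  ∀ n < s, ∀ q ∈ (ld R n).toList, kq (a.1.take n, q + D + b) a.2

theorem Cand.congr {kq : Str × ℕ → ℕ → Prop} {ρ : Str} {b D : ℕ} {R R' : ℕ → Rec} {s : ℕ}
    {a : Str × ℕ} (h : ∀ u < s, R u = R' u) : Cand kq ρ b D R s a ↔ Cand kq ρ b D R' s a := by
  unfold Cand
  refine and_congr_right fun _ => and_congr_right fun _ => ?_
  refine forall_congr' fun n => forall_congr' fun hn => ?_
  rw [ld, ld, h n hn]

/-- `a` is the candidate with the least code -/
def Least (kq : Str × ℕ → ℕ → Prop) (ρ : Str) (b D : ℕ) (R : ℕ → Rec) (s : ℕ) (a : Str × ℕ) :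
    Prop :=
  Cand kq ρ b D R s a ∧
    ∀ y < encode a, ∀ a' ∈ (decode₂ (Str × ℕ) y).toList, ¬ Cand kq ρ b D R s a'

theorem Least.congr {kq : Str × ℕ → ℕ → Prop} {ρ : Str} {b D : ℕ} {R R' : ℕ → Rec} {s : ℕ}
    {a : Str × ℕ} (h : ∀ u < s, R u = R' u) : Least kq ρ b D R s a ↔ Least kq ρ b D R' s a := by
  unfold Least
  rw [Cand.congr h]
  refine and_congr_right fun _ => ?_
  refine forall_congr' fun y => forall_congr' fun _ => forall_congr' fun a' =>
    forall_congr' fun _ => not_congr (Cand.congr h)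

theorem Least.unique {kq : Str × ℕ → ℕ → Prop} {ρ : Str} {b D : ℕ} {R : ℕ → Rec} {s : ℕ}
    {a a' : Str × ℕ} (h : Least kq ρ b D R s a) (h' : Least kq ρ b D R s a') : a = a' := by
  rcases Nat.lt_trichotomy (encode a) (encode a') with hlt | he | hlt
  · exact absurd h.1 (h'.2 _ hlt a (by rw [Option.mem_toList]; exact mem_decode₂.2 rfl))
  · exact encode_injective he
  · exact absurd h'.1 (h.2 _ hlt a' (by rw [Option.mem_toList]; exact mem_decode₂.2 rfl))

theorem Least.exists {kq : Str × ℕ → ℕ → Prop} {ρ : Str} {b D : ℕ} {R : ℕ → Rec} {s : ℕ}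
    (h : ∃ a, Cand kq ρ b D R s a) : ∃ a, Least kq ρ b D R s a := by
  classical
  obtain ⟨a₀, ha₀⟩ := h
  have hex : ∃ y, ∃ a ∈ decode₂ (Str × ℕ) y, Cand kq ρ b D R s a :=
    ⟨encode a₀, a₀, mem_decode₂.2 rfl, ha₀⟩
  obtain ⟨a, ha, hc⟩ := Nat.find_spec hex
  have he : encode a = Nat.find hex := mem_decode₂.1 ha
  refine ⟨a, hc, fun y hy a' ha' hc' => ?_⟩
  rw [he] at hy
  exact Nat.find_min hex hy ⟨a', by rwa [Option.mem_toList] at ha', hc'⟩

section
variable (kq : Str × ℕ → ℕ → Prop) (ρ : Str) (b : ℕ) (ω : ℕ → ℕ) (en : Str → Prop)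

/-- the honour constant of strategy `d` -/
def DD (d : ℕ) : ℕ := 2 * d + 1

/-- the number of levels (minus one) of strategy `d` -/
def rr (d : ℕ) : ℕ := 2 ^ (DD d + b + 2) - 1

/-- `h` is an initial segment of the history of strategy `d` -/
def IsHist (d : ℕ) (h : List Rec) : Prop :=
  ∀ s < h.length, SpecAt (seqOf h) ω en (rr b d) s ∧
    Least kq ρ b (DD d) (seqOf h) s (seqOf h s).1

end

theorem primrec_DD : Primrec DD :=
  Primrec.succ.comp (Primrec.nat_mul.comp (Primrec.const 2) Primrec.id)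

theorem primrec_rr (b : ℕ) : Primrec (rr b) := by
  unfold rr
  exact Primrec.nat_sub.comp (primrec_pow.comp (Primrec.const 2) (Primrec.nat_add.comp
    (Primrec.nat_add.comp primrec_DD (Primrec.const b)) (Primrec.const 2))) (Primrec.const 1)

theorem primrec_seqOf : Primrec₂ seqOf := by
  unfold seqOf
  exact Primrec.list_getD _

theorem primrec_cand {kq : Str × ℕ → ℕ → Prop} (hkq : PrimrecRel kq) (ρ : Str) (b : ℕ) :
    PrimrecPred fun x : (ℕ × List Rec × ℕ) × (Str × ℕ) =>
      Cand kq ρ b x.1.1 (seqOf x.1.2.1) x.1.2.2 x.2 := by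
  unfold Cand
  have e1 : Primrec fun x : (ℕ × List Rec × ℕ) × (Str × ℕ) => x.2.1 :=
    Primrec.fst.comp Primrec.snd
  have es : Primrec fun x : (ℕ × List Rec × ℕ) × (Str × ℕ) => x.1.2.2 :=
    Primrec.snd.comp (Primrec.snd.comp Primrec.fst)
  refine PrimrecPred.and (PrimrecPred.and ?_ ?_) (PrimrecPred.and ?_ ?_)
  · exact Primrec.eq.comp (Primrec.list_length.comp e1) es
  · exact Primrec.eq.comp (Primrec.list_take.comp (Primrec.const _) e1)
      (Primrec.list_take.comp es (Primrec.const _))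
  · refine PP.all_lt (α := (ℕ × List Rec × ℕ) × (Str × ℕ)) (f := fun x => x.1.2.2 + 1)
      (p := fun x n => ∀ k < x.1.2.2 + 1, kq (List.replicate n false, k) x.1.2.2 →
        kq (x.2.1.take n, k + b) x.2.2) ?_ (Primrec.succ.comp es)
    refine PP.all_lt (α := ((ℕ × List Rec × ℕ) × (Str × ℕ)) × ℕ) (f := fun x => x.1.1.2.2 + 1)
      (p := fun x k => kq (List.replicate x.2 false, k) x.1.1.2.2 →
        kq (x.1.2.1.take x.2, k + b) x.1.2.2) ?_ (Primrec.succ.comp (es.comp Primrec.fst))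
    have hrep : Primrec fun n : ℕ => List.replicate n false := by
      refine (Primrec.list_map Primrec.list_range (Primrec₂.const false)).of_eq fun n => ?_
      refine List.ext_getElem (by simp) fun i h1 h2 => by simp
    have p1 : PrimrecPred fun x : (((ℕ × List Rec × ℕ) × (Str × ℕ)) × ℕ) × ℕ =>
        kq (List.replicate x.1.2 false, x.2) x.1.1.1.2.2 :=
      hkq.comp ((hrep.comp (Primrec.snd.comp Primrec.fst)).pair Primrec.snd)
        (es.comp (Primrec.fst.comp Primrec.fst))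
    have p2 : PrimrecPred fun x : (((ℕ × List Rec × ℕ) × (Str × ℕ)) × ℕ) × ℕ =>
        kq (x.1.1.2.1.take x.1.2, x.2 + b) x.1.1.2.2 := by
      refine hkq.comp (Primrec.pair (Primrec.list_take.comp (Primrec.snd.comp Primrec.fst)
        (e1.comp (Primrec.fst.comp Primrec.fst))) (Primrec.nat_add.comp Primrec.snd
        (Primrec.const b))) ?_
      exact Primrec.snd.comp (Primrec.snd.comp (Primrec.fst.comp Primrec.fst))
    exact (PrimrecPred.or p1.not p2).of_eq fun x => by
      change (_ ∨ _) ↔ (_ → _)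
      rw [imp_iff_not_or]
  · refine PP.all_lt (α := (ℕ × List Rec × ℕ) × (Str × ℕ)) (f := fun x => x.1.2.2)
      (p := fun x n => ∀ q ∈ (ld (seqOf x.1.2.1) n).toList,
        kq (x.2.1.take n, q + x.1.1 + b) x.2.2) ?_ es
    refine PP.all_mem (α := ((ℕ × List Rec × ℕ) × (Str × ℕ)) × ℕ)
      (f := fun x => (ld (seqOf x.1.1.2.1) x.2).toList)
      (p := fun x q => kq (x.1.2.1.take x.2, q + x.1.1.1 + b) x.1.2.2) ?_ ?_
    · refine hkq.comp (Primrec.pair (Primrec.list_take.comp (Primrec.snd.comp Primrec.fst)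
        (e1.comp (Primrec.fst.comp Primrec.fst))) (Primrec.nat_add.comp (Primrec.nat_add.comp
        Primrec.snd (Primrec.fst.comp (Primrec.fst.comp (Primrec.fst.comp Primrec.fst))))
        (Primrec.const b))) ?_
      exact Primrec.snd.comp (Primrec.snd.comp (Primrec.fst.comp Primrec.fst))
    · exact Primrec.optionToList.comp (Primrec.snd.comp (Primrec.snd.comp
        (primrec_seqOf.comp (Primrec.fst.comp (Primrec.snd.comp (Primrec.fst.comp Primrec.fst)))
          Primrec.snd)))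

theorem primrec_least {kq : Str × ℕ → ℕ → Prop} (hkq : PrimrecRel kq) (ρ : Str) (b : ℕ) :
    PrimrecPred fun x : (ℕ × List Rec × ℕ) × (Str × ℕ) =>
      Least kq ρ b x.1.1 (seqOf x.1.2.1) x.1.2.2 x.2 := by
  unfold Least
  refine PrimrecPred.and (primrec_cand hkq ρ b) ?_
  refine PP.all_lt (α := (ℕ × List Rec × ℕ) × (Str × ℕ)) (f := fun x => encode x.2)
    (p := fun x y => ∀ a' ∈ (decode₂ (Str × ℕ) y).toList,
      ¬ Cand kq ρ b x.1.1 (seqOf x.1.2.1) x.1.2.2 a') ?_ (Primrec.encode.comp Primrec.snd)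
  refine PP.all_mem (α := ((ℕ × List Rec × ℕ) × (Str × ℕ)) × ℕ)
    (f := fun x => (decode₂ (Str × ℕ) x.2).toList)
    (p := fun x a' => ¬ Cand kq ρ b x.1.1.1 (seqOf x.1.1.2.1) x.1.1.2.2 a') ?_ ?_
  · exact ((primrec_cand hkq ρ b).comp (f := fun x : (((ℕ × List Rec × ℕ) × (Str × ℕ)) × ℕ) ×
      (Str × ℕ) => (x.1.1.1, x.2)) ((Primrec.fst.comp (Primrec.fst.comp Primrec.fst)).pair
      Primrec.snd)).not
  · exact Primrec.optionToList.comp (Primrec.decode₂.comp Primrec.snd)

theorem primrec_isHist (hPr : S_Pr) {kq : Str × ℕ → ℕ → Prop} (hkq : PrimrecRel kq) (ρ : Str)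
    (b : ℕ) {ω : ℕ → ℕ} {en : Str → Prop} (hω : Primrec ω) (hen : PrimrecPred en) :
    PrimrecPred fun x : ℕ × List Rec => IsHist kq ρ b ω en x.1 x.2 := by
  unfold IsHist
  refine PP.all_lt (α := ℕ × List Rec) (f := fun x => x.2.length)
    (p := fun x s => SpecAt (seqOf x.2) ω en (rr b x.1) s ∧
      Least kq ρ b (DD x.1) (seqOf x.2) s (seqOf x.2 s).1) ?_ (Primrec.list_length.comp Primrec.snd)
  refine PrimrecPred.and ?_ ?_
  · exact (hPr ω en hω hen).comp (f := fun y : (ℕ × List Rec) × ℕ => (rr b y.1.1, y.1.2, y.2))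
      (((primrec_rr b).comp (Primrec.fst.comp Primrec.fst)).pair
        ((Primrec.snd.comp Primrec.fst).pair Primrec.snd))
  · exact (primrec_least hkq ρ b).comp (f := fun y : (ℕ × List Rec) × ℕ =>
      ((DD y.1.1, y.1.2, y.2), (seqOf y.1.2 y.2).1))
      ((((primrec_DD.comp (Primrec.fst.comp Primrec.fst))).pair
        ((Primrec.snd.comp Primrec.fst).pair Primrec.snd)).pair (Primrec.fst.comp
          (primrec_seqOf.comp (Primrec.snd.comp Primrec.fst) Primrec.snd)))

/-- histories of the same strategy agree -/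
theorem IsHist.agree (hUn : S_Un) {kq : Str × ℕ → ℕ → Prop} {ρ : Str}
    {b : ℕ} {ω : ℕ → ℕ} {en : Str → Prop} {d : ℕ} {h h' : List Rec}
    (H : IsHist kq ρ b ω en d h) (H' : IsHist kq ρ b ω en d h') :
    ∀ s, s < h.length → s < h'.length → seqOf h s = seqOf h' s := by
  intro s
  induction s using Nat.strong_induction_on with
  | _ s ih =>
    intro hs hs'
    have hlt : ∀ u < s, seqOf h u = seqOf h' u := fun u hu => ih u hu (by omega) (by omega)
    refine hUn _ _ ω en (rr b d) s hlt ?_ (H s hs).1 (H' s hs').1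
    exact Least.unique (H s hs).2 ((Least.congr hlt).2 (H' s hs').2)

end Pool.Agent.H709.OW.GR
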