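import Pool.Agent.H709.OW.GoldB

set_option autoImplicit false

/-! The requests of the golden run construction and the honour constant. -/

namespace Pool.Agent.H709.OW.GR

open Pool.Agent.Helper227 Encodable

section
variable (kq : Str × ℕ → ℕ → Prop) (ρ : Str) (b : ℕ) (ω : ℕ → ℕ) (en : Str → Prop)

/-- stage `n` is reached by strategy `d` -/
def hasH (d n : ℕ) : Prop := ∃ h, IsHist kq ρ b ω en d h ∧ n < h.length

open Classical in
/-- the records of strategy `d` (as far as they are defined) -/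
noncomputable def Rd (d n : ℕ) : Rec :=
  if h : hasH kq ρ b ω en d n then seqOf h.choose n else (([], 0), [], none)

/-- the requests: all the loads of all the strategies -/
def Rq (x : ℕ × Str) : Prop :=
  ∃ d : ℕ, ∃ h : List Rec, ∃ n : ℕ, ∃ q : ℕ, (IsHist kq ρ b ω en d h ∧ (n < h.length ∧
    ((seqOf h n).2.2 = some q ∧ (x.2 = (List.range n).map (fun _ => false) ∧ x.1 = q + d + 1))))

end

theorem IsHist.Rd_eq (hUn : S_Un) {kq : Str × ℕ → ℕ → Prop} {ρ : Str} {b : ℕ} {ω : ℕ → ℕ}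
    {en : Str → Prop} {d : ℕ} {h : List Rec} (H : IsHist kq ρ b ω en d h) {s : ℕ}
    (hs : s < h.length) : seqOf h s = Rd kq ρ b ω en d s := by
  have hh : hasH kq ρ b ω en d s := ⟨h, H, hs⟩
  unfold Rd
  rw [dif_pos hh]
  exact H.agree hUn hh.choose_spec.1 s hs hh.choose_spec.2

theorem hasH_mono {kq : Str × ℕ → ℕ → Prop} {ρ : Str} {b : ℕ} {ω : ℕ → ℕ}
    {en : Str → Prop} {d m n : ℕ} (h : m ≤ n) (H : hasH kq ρ b ω en d n) :
    hasH kq ρ b ω en d m := by
  obtain ⟨l, hl, hn⟩ := H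
  exact ⟨l, hl, by omega⟩

theorem tot_Rd_le (hTot : S_Tot) (hUn : S_Un) (kq : Str × ℕ → ℕ → Prop) (ρ : Str) (b : ℕ)
    (ω : ℕ → ℕ) (en : Str → Prop) (d N : ℕ) : tot (Rd kq ρ b ω en d) N ≤ 1 := by
  induction N with
  | zero => simp [tot]
  | succ N ih =>
    by_cases hN : hasH kq ρ b ω en d N
    · obtain ⟨h, H, hn⟩ := hN
      have h1 : tot (Rd kq ρ b ω en d) (N + 1) = tot (seqOf h) (N + 1) :=
        tot_congr fun u hu => (H.Rd_eq hUn (by omega)).symm
      rw [h1]
      exact hTot _ ω (rr b d) _ fun u hu => (H u (by omega)).1.2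
    · unfold tot at ih ⊢
      rw [Finset.sum_range_succ]
      have : ld (Rd kq ρ b ω en d) N = none := by
        unfold ld Rd
        rw [dif_neg hN]
      rw [this]
      simpa [wt] using ih

theorem s1_Rq (hPr : S_Pr) {kq : Str × ℕ → ℕ → Prop} (hkq : PrimrecRel kq) (ρ : Str)
    (b : ℕ) {ω : ℕ → ℕ} {en : Str → Prop} (hω : Primrec ω) (hen : PrimrecPred en) :
    S1 (Rq kq ρ b ω en) := by
  unfold Rq
  refine S1.ex (S1.ex (S1.ex (S1.ex (S1.of_prim ?_))))
  have ed : Primrec fun y : ((((ℕ × Str) × ℕ) × List Rec) × ℕ) × ℕ => y.1.1.1.2 :=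
    Primrec.snd.comp (Primrec.fst.comp (Primrec.fst.comp Primrec.fst))
  have eh : Primrec fun y : ((((ℕ × Str) × ℕ) × List Rec) × ℕ) × ℕ => y.1.1.2 :=
    Primrec.snd.comp (Primrec.fst.comp Primrec.fst)
  have en' : Primrec fun y : ((((ℕ × Str) × ℕ) × List Rec) × ℕ) × ℕ => y.1.2 :=
    Primrec.snd.comp Primrec.fst
  have eq : Primrec fun y : ((((ℕ × Str) × ℕ) × List Rec) × ℕ) × ℕ => y.2 := Primrec.snd
  have ex : Primrec fun y : ((((ℕ × Str) × ℕ) × List Rec) × ℕ) × ℕ => y.1.1.1.1 :=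
    Primrec.fst.comp (Primrec.fst.comp (Primrec.fst.comp Primrec.fst))
  refine PrimrecPred.and ?_ (PrimrecPred.and ?_ (PrimrecPred.and ?_ (PrimrecPred.and ?_ ?_)))
  · exact (primrec_isHist hPr hkq ρ b hω hen).comp (ed.pair eh)
  · exact Primrec.nat_lt.comp en' (Primrec.list_length.comp eh)
  · exact Primrec.eq.comp (Primrec.snd.comp (Primrec.snd.comp (primrec_seqOf.comp eh en')))
      (Primrec.option_some.comp eq)
  · exact Primrec.eq.comp (Primrec.snd.comp ex) (Primrec.list_map (Primrec.list_range.comp en')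
      (Primrec₂.const false))
  · exact Primrec.eq.comp (Primrec.fst.comp ex) (Primrec.succ.comp (Primrec.nat_add.comp eq ed))

theorem map_range_false (n : ℕ) : (List.range n).map (fun _ => false) = List.replicate n false :=
  List.ext_getElem (by simp) fun i h1 h2 => by simp

theorem Rq_sum (hTot : S_Tot) (hUn : S_Un) (kq : Str × ℕ → ℕ → Prop) (ρ : Str) (b : ℕ)
    (ω : ℕ → ℕ) (en : Str → Prop) (F : Finset (ℕ × Str)) (hF : ∀ x ∈ F, Rq kq ρ b ω en x) :
    ∑ x ∈ F, (1 / 2 : ℝ) ^ x.1 ≤ 1 := by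
  classical
  choose! d h n q H using hF
  -- the pair (d, n) determines x
  have key : ∀ x ∈ F, ld (Rd kq ρ b ω en (d x)) (n x) = some (q x) := by
    intro x hx
    obtain ⟨h1, h2, h3, -, -⟩ := H x hx
    rw [ld, ← h1.Rd_eq hUn h2]
    exact h3
  have hinj : Set.InjOn (fun x => (d x, n x)) (F : Set (ℕ × Str)) := by
    intro x hx y hy hxy
    simp only [Prod.mk.injEq] at hxy
    have hx' := key x hx
    have hy' := key y hy
    rw [hxy.1, hxy.2, hy'] at hx'
    have hq : q x = q y := (Option.some.inj hx').symm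
    obtain ⟨-, -, -, h4, h5⟩ := H x hx
    obtain ⟨-, -, -, h4', h5'⟩ := H y hy
    refine Prod.ext ?_ ?_
    · rw [h5, h5', hq, hxy.1]
    · rw [h4, h4', hxy.2]
  have hval : ∀ x ∈ F, (1 / 2 : ℝ) ^ x.1 =
      (1 / 2 : ℝ) ^ (d x + 1) * wt (ld (Rd kq ρ b ω en (d x)) (n x)) := by
    intro x hx
    obtain ⟨-, -, -, -, h5⟩ := H x hx
    rw [key x hx, h5]
    simp only [wt, Option.elim]
    rw [← pow_add]
    congr 1
    omega
  rw [Finset.sum_congr rfl hval]
  rw [← Finset.sum_image (f := fun p : ℕ × ℕ => (1 / 2 : ℝ) ^ (p.1 + 1) *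
    wt (ld (Rd kq ρ b ω en p.1) p.2)) hinj]
  obtain ⟨N, hN⟩ : ∃ N, ∀ p ∈ F.image (fun x => (d x, n x)), p.1 < N ∧ p.2 < N := by
    refine ⟨(F.image (fun x => (d x, n x))).sup (fun p => p.1 + p.2 + 1), fun p hp => ?_⟩
    have := Finset.le_sup (f := fun p : ℕ × ℕ => p.1 + p.2 + 1) hp
    omega
  refine (Finset.sum_le_sum_of_subset_of_nonneg (t := Finset.range N ×ˢ Finset.range N)
    (fun p hp => ?_) fun p _ _ => ?_).trans ?_
  · rw [Finset.mem_product, Finset.mem_range, Finset.mem_range]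
    exact hN p hp
  · exact mul_nonneg (by positivity) (wt_nonneg _)
  · rw [Finset.sum_product]
    have h1 : ∀ e ∈ Finset.range N, ∑ m ∈ Finset.range N, (1 / 2 : ℝ) ^ (e + 1) *
        wt (ld (Rd kq ρ b ω en e) m) ≤ (1 / 2 : ℝ) ^ (e + 1) := by
      intro e _
      rw [← Finset.mul_sum]
      have := tot_Rd_le hTot hUn kq ρ b ω en e N
      unfold tot at this
      exact mul_le_of_le_one_right (by positivity) this
    refine (Finset.sum_le_sum h1).trans ?_
    have h2 : ∀ N : ℕ, ∑ e ∈ Finset.range N, (1 / 2 : ℝ) ^ (e + 1) = 1 - (1 / 2) ^ N := by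
      intro N
      induction N with
      | zero => simp
      | succ N ih => rw [Finset.sum_range_succ, ih, pow_succ]; ring
    rw [h2]
    have : (0 : ℝ) ≤ (1 / 2) ^ N := by positivity
    linarith

/-- the honour constant -/
theorem exists_honour (hKC : S_KC) (hTot : S_Tot) (hUn : S_Un) (hPr : S_Pr)
    {U : Str →. Str} (hU : IsUniversal U) {kq : Str × ℕ → ℕ → Prop} (hkq : PrimrecRel kq)
    (ρ : Str) (b : ℕ) {ω : ℕ → ℕ} {en : Str → Prop} (hω : Primrec ω) (hen : PrimrecPred en) :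
    ∃ d : ℕ, ∀ h : List Rec, IsHist kq ρ b ω en d h → ∀ n < h.length, ∀ q,
      ld (seqOf h) n = some q → KU U (List.replicate n false) ≤ q + DD d := by
  obtain ⟨c, hc⟩ := hKC U hU (Rq kq ρ b ω en) (s1_Rq hPr hkq ρ b hω hen)
    (Rq_sum hTot hUn kq ρ b ω en)
  refine ⟨c, fun h H n hn q hq => ?_⟩
  have := hc (q + c + 1) (List.replicate n false) ⟨c, h, n, q, H, hn, hq,
    (map_range_false n).symm, rfl⟩
  unfold DD
  omega

end Pool.Agent.H709.OW.GR
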