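import Pool.Agent.H709.OW.GoldC

set_option autoImplicit false

/-! Existence of histories of every length, and the assembly of the golden run theorem. -/

namespace Pool.Agent.H709.OW.GR

open Pool.Agent.Helper227 Encodable

theorem seqOf_append {h : List Rec} {a : Rec} :
    seqOf (h ++ [a]) = Function.update (seqOf h) h.length a := by
  funext u
  unfold seqOf
  rcases Nat.lt_trichotomy u h.length with hu | hu | hu
  · rw [Function.update_of_ne (by omega), List.getD_append _ _ _ _ hu]
  · subst hu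
    rw [Function.update_self, List.getD_append_right _ _ _ _ le_rfl]
    simp
  · rw [Function.update_of_ne (by omega), List.getD_eq_default _ _ (by simp; omega),
      List.getD_eq_default _ _ (by omega)]

theorem exists_hist (hEx : S_Ex) (hCg : S_Cg) {U : Str →. Str} {A : ℕ → Bool}
    {b : ℕ} (hA : ∀ n, KU U (pre A n) ≤ KU U (List.replicate n false) + b)
    {kq : Str × ℕ → ℕ → Prop} (hkm : ∀ x m n, m ≤ n → kq x m → kq x n)
    (hke : ∀ x : Str × ℕ, KU U x.1 ≤ x.2 ↔ ∃ n, kq x n) (l₀ : ℕ) {ω : ℕ → ℕ} {en : Str → Prop}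
    {d : ℕ} (hd : ∀ h : List Rec, IsHist kq (pre A l₀) b ω en d h → ∀ n < h.length, ∀ q,
      ld (seqOf h) n = some q → KU U (List.replicate n false) ≤ q + DD d) (s : ℕ) :
    ∃ h : List Rec, IsHist kq (pre A l₀) b ω en d h ∧ h.length = s := by
  induction s with
  | zero => exact ⟨[], fun s hs => absurd hs (Nat.not_lt_zero _), rfl⟩
  | succ s ih =>
    obtain ⟨h, H, hl⟩ := ih
    -- a candidate
    have hc : ∃ a, Cand kq (pre A l₀) b (DD d) (seqOf h) s a := by
      have h1 : ∀ n < s + 1, ∀ k < s + 1, ∃ z, kq (List.replicate n false, k) s →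
          kq (pre A n, k + b) z := by
        intro n _ k _
        by_cases hq : kq (List.replicate n false, k) s
        · have h2 : KU U (List.replicate n false) ≤ k := (hke (List.replicate n false, k)).2 ⟨s, hq⟩
          obtain ⟨z, hz⟩ := (hke (pre A n, k + b)).1 (by have := hA n; simp only; omega)
          exact ⟨z, fun _ => hz⟩
        · exact ⟨0, fun h => absurd h hq⟩
      choose! z1 hz1 using h1
      have h2 : ∀ n < s, ∃ z, ∀ q ∈ (ld (seqOf h) n).toList, kq (pre A n, q + DD d + b) z := by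
        intro n hn
        rcases hq : ld (seqOf h) n with _ | q
        · exact ⟨0, by simp⟩
        · have h3 := hd h H n (by omega) q hq
          obtain ⟨z, hz⟩ := (hke (pre A n, q + DD d + b)).1 (by have := hA n; simp only; omega)
          exact ⟨z, by simpa using hz⟩
      choose! z2 hz2 using h2
      obtain ⟨z, hz, hz'⟩ : ∃ z, (∀ n < s + 1, ∀ k < s + 1, z1 n k ≤ z) ∧ ∀ n < s, z2 n ≤ z := by
        refine ⟨(∑ n ∈ Finset.range (s + 1), ∑ k ∈ Finset.range (s + 1), z1 n k) +
          ∑ n ∈ Finset.range s, z2 n, fun n hn k hk => ?_, fun n hn => ?_⟩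
        · have h3 := Finset.single_le_sum (f := fun n => ∑ k ∈ Finset.range (s + 1), z1 n k)
            (fun _ _ => Nat.zero_le _) (Finset.mem_range.2 hn)
          have h4 := Finset.single_le_sum (f := fun k => z1 n k)
            (fun _ _ => Nat.zero_le _) (Finset.mem_range.2 hk)
          omega
        · have h3 := Finset.single_le_sum (f := fun n => z2 n)
            (fun _ _ => Nat.zero_le _) (Finset.mem_range.2 hn)
          omega
      refine ⟨(pre A s, z), ⟨by simp, ?_⟩, fun n hn k hk hq => ?_, fun n hn q hq => ?_⟩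
      · simp only [length_pre]
        rcases Nat.le_total l₀ s with hle | hle
        · rw [take_pre _ _ _ hle, List.take_of_length_le (by simpa using hle)]
        · rw [take_pre _ _ _ hle, List.take_of_length_le (by simpa using hle)]
      · simp only
        rw [take_pre _ _ _ (by omega)]
        exact hkm _ _ _ (hz n hn k hk) (hz1 n hn k hk hq)
      · simp only
        rw [take_pre _ _ _ (by omega)]
        exact hkm _ _ _ (hz' n hn) (hz2 n hn q hq)
    obtain ⟨a, ha⟩ := Least.exists hc
    obtain ⟨p, o, hpo⟩ := hEx (seqOf h) ω en (rr b d) s a ha.1.1.1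
    refine ⟨h ++ [(a, p, o)], fun u hu => ?_, by simp [hl]⟩
    rw [seqOf_append, hl]
    rw [List.length_append, List.length_singleton, hl] at hu
    rcases Nat.lt_succ_iff_lt_or_eq.1 hu with hu | rfl
    · have hag : ∀ v ≤ u, seqOf h v = Function.update (seqOf h) s (a, p, o) v := fun v hv => by
        rw [Function.update_of_ne (by omega)]
      obtain ⟨h1, h2⟩ := H u (by omega)
      refine ⟨hCg _ _ _ _ _ _ hag h1, ?_⟩
      rw [← hag u le_rfl]
      exact (Least.congr fun v hv => hag v hv.le).1 h2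
    · refine ⟨hpo, ?_⟩
      rw [Function.update_self]
      refine (Least.congr fun v hv => ?_).1 ha
      rw [Function.update_of_ne (by omega)]

/-- The golden run theorem: K-trivial sets have the covering property. -/
theorem cov_of_KTrivial (hKC : S_KC) (hKr : S_Kraft) (hIso : S_Iso) (hConv : S_Conv)
    (hTot : S_Tot) (hG1 : S_G1) (hG2 : S_G2) (hEx : S_Ex) (hUn : S_Un) (hCg : S_Cg) (hPr : S_Pr)
    (hPrF : S_PrF) (hTrim : S_Trim) {U : Str →. Str} (hU : IsUniversal U) {A : ℕ → Bool}
    (hA : KTrivial U A) : Cov A := by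
  classical
  intro E ω hE hω hbound
  obtain ⟨en, hen, htrim, hcov⟩ := hTrim A E ω hE hω hbound
  obtain ⟨b, hb⟩ := hA
  have hb : ∀ n, KU U (pre A n) ≤ KU U (List.replicate n false) + b := hb
  obtain ⟨kq, hkq, hkm, hke⟩ := s1_KU hU
  obtain ⟨l₀, hl₀⟩ := hIso U hU A b
  obtain ⟨d, hd⟩ := exists_honour hKC hTot hUn hPr hU hkq (pre A l₀) b hω hen
  have hhist := exists_hist hEx hCg hb hkm hke l₀ hd
  -- the infinite sequence
  obtain ⟨R, hR⟩ : ∃ R, R = Rd kq (pre A l₀) b ω en d := ⟨_, rfl⟩
  have hag : ∀ h, IsHist kq (pre A l₀) b ω en d h → ∀ u < h.length, seqOf h u = R u := by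
    intro h H u hu
    rw [hR]
    exact H.Rd_eq hUn hu
  have hspec : ∀ s, SpecAt R ω en (rr b d) s := by
    intro s
    obtain ⟨h, H, hl⟩ := hhist (s + 1)
    exact hCg _ _ _ _ _ _ (fun u hu => hag h H u (by omega)) (H s (by omega)).1
  have hcand : ∀ s, Cand kq (pre A l₀) b (DD d) R s (R s).1 := by
    intro s
    obtain ⟨h, H, hl⟩ := hhist (s + 1)
    have h1 := (H s (by omega)).2.1
    rw [hag h H s (by omega)] at h1
    exact (Cand.congr fun u hu => hag h H u (by omega)).1 h1
  have hlen : ∀ s, (al R s).length = s := fun s => (hspec s).1.len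
  -- convergence
  have hconv : ∀ l, ∃ s₁, ∀ s ≥ s₁, (al R s).take l = pre A l := by
    refine hConv (fun n y => KU U y ≤ KU U (List.replicate n false) + b) A l₀
      (fun X h1 h2 => hl₀ X h1 h2 hb) (al R) hlen (fun s hs => ?_) fun n => ?_
    · have h1 := (hcand s).1.2
      rw [length_pre] at h1
      rw [al, h1, List.take_of_length_le (by simpa using hs)]
    · obtain ⟨n1, hn1⟩ := (hke (List.replicate n false, KU U (List.replicate n false))).1 le_rfl
      refine ⟨n1 + n + KU U (List.replicate n false), fun s hs => ?_⟩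
      have h1 := (hcand s).2.1 n (by omega) (KU U (List.replicate n false)) (by omega)
        (hkm _ _ _ (by omega) hn1)
      exact (hke ((al R s).take n, KU U (List.replicate n false) + b)).2 ⟨_, h1⟩
  -- the budget is never exhausted
  have htot : ∀ s, tot R s < 1 := by
    intro S
    by_contra hS
    rw [not_lt] at hS
    obtain ⟨Good, hG, hGs, hGT⟩ := hG1 R ω en (rr b d) S htrim fun s _ => hspec s
    choose! T hT1 hT2 using hGT
    have hdisj : (Good : Set ℕ).PairwiseDisjoint T := by
      intro s hs s' hs' hne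
      rw [Function.onFun, Finset.disjoint_left]
      intro σ h1 h2
      exact hne (((hT2 s hs σ h1).1).symm.trans (hT2 s' hs' σ h2).1)
    have h1 := hKr U hU (Good.biUnion T)
    rw [Finset.sum_biUnion hdisj] at h1
    have h2 : ∀ s ∈ Good, 4 * wt (ld R s) ≤ ∑ σ ∈ T s, (1 / 2 : ℝ) ^ KU U σ := by
      intro s hs
      obtain ⟨q, hq⟩ := Option.isSome_iff_exists.1 (hG s hs).2
      have h3 : ∀ σ ∈ T s, (1 / 2 : ℝ) ^ (q + DD d + b) ≤ (1 / 2 : ℝ) ^ KU U σ := by
        intro σ hσ
        obtain ⟨-, u, hu1, hu2, rfl⟩ := hT2 s hs σ hσ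
        refine pow_le_pow_of_le_one (by norm_num) (by norm_num) ?_
        have h4 := (hcand u).2.2 s hu1 q (by rw [hq]; simp)
        exact (hke ((al R u).take s, q + DD d + b)).2 ⟨_, h4⟩
      have h4 := Finset.card_nsmul_le_sum (T s) _ _ h3
      rw [hT1 s hs, nsmul_eq_mul] at h4
      refine le_trans (le_of_eq ?_) h4
      have h5 : rr b d + 1 = 2 ^ (DD d + b + 2) := by
        unfold rr
        have : 0 < 2 ^ (DD d + b + 2) := by positivity
        omega
      rw [h5, hq]
      simp only [wt, Option.elim]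
      push_cast
      rw [show q + DD d + b = q + (DD d + b) by ring, pow_add, pow_add]
      have h6 : (2 : ℝ) ^ (DD d + b) * (1 / 2) ^ (DD d + b) = 1 := by
        rw [← mul_pow]; norm_num
      linear_combination (-4 * (1 / 2 : ℝ) ^ q) * h6
    have h3 := Finset.sum_le_sum h2
    rw [← Finset.mul_sum] at h3
    linarith
  -- the golden run
  obtain ⟨i, hi, L, s₀, hst, hgold⟩ := hG2 R ω en (rr b d) A hspec htot hconv
  obtain ⟨t, ht⟩ : ∃ t, t = st R s₀ i L := ⟨_, rfl⟩
  rw [← ht] at hst hgold
  refine ⟨fun x => ∃ h : List Rec, IsHist kq (pre A l₀) b ω en d h ∧ (s₀ ≤ h.length ∧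
    (1 / 2 : ℝ) ^ (i + t + 3 + ω x) ≤ fed (seqOf h) h.length i L x), ?_, ?_, ?_⟩
  · refine S1.ex (S1.of_prim (PrimrecPred.and ?_ (PrimrecPred.and ?_ ?_)))
    · exact (primrec_isHist hPr hkq (pre A l₀) b hω hen).comp
        (f := fun x : ℕ × List Rec => (d, x.2)) ((Primrec.const d).pair Primrec.snd)
    · exact Primrec.nat_le.comp (Primrec.const s₀) (Primrec.list_length.comp Primrec.snd)
    · exact hPrF.comp (f := fun x : ℕ × List Rec =>
        ((x.2, x.2.length), (i, L), (x.1, i + t + 3 + ω x.1)))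
        ((Primrec.snd.pair (Primrec.list_length.comp Primrec.snd)).pair
          ((Primrec.const (i, L)).pair (Primrec.fst.pair (Primrec.nat_add.comp
            (Primrec.const (i + t + 3)) (hω.comp Primrec.fst)))))
  · intro x hx
    obtain ⟨l, hl1, hl2⟩ := hcov x hx
    obtain ⟨s, hs, hs2⟩ := hgold l hl1
    rw [hl2] at hs2
    obtain ⟨h, H, hl⟩ := hhist s
    refine ⟨h, H, by omega, ?_⟩
    rw [hl, fed_congr (fun u hu => hag h H u (by omega))]
    exact hs2
  · refine ⟨2 ^ (i + t + 3), fun F hF => ?_⟩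
    choose! h H using hF
    obtain ⟨s, hs1, hs2⟩ : ∃ s, s₀ ≤ s ∧ ∀ x ∈ F, (h x).length ≤ s := by
      refine ⟨s₀ + ∑ x ∈ F, (h x).length, by omega, fun x hx => ?_⟩
      have := Finset.single_le_sum (f := fun x => (h x).length) (fun _ _ => Nat.zero_le _) hx
      omega
    have h1 : ∀ x ∈ F, (1 / 2 : ℝ) ^ ω x ≤ 2 ^ (i + t + 3) * fed R s i L x := by
      intro x hx
      obtain ⟨h2, h3, h4⟩ := H x hx
      rw [fed_congr (fun u hu => hag _ h2 u hu)] at h4
      have h5 : fed R (h x).length i L x ≤ fed R s i L x :=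
        fed_mono (hs2 x hx) (by rw [hst s hs1, hst _ h3]) x
      have h6 : (1 / 2 : ℝ) ^ ω x = 2 ^ (i + t + 3) * (1 / 2 : ℝ) ^ (i + t + 3 + ω x) := by
        rw [pow_add _ (i + t + 3) (ω x), ← mul_assoc, ← mul_pow]; norm_num
      rw [h6]
      exact mul_le_mul_of_nonneg_left (h4.trans h5) (by positivity)
    refine (Finset.sum_le_sum h1).trans ?_
    rw [← Finset.mul_sum]
    have h2 := sum_fed_le R s i L F
    have h3 : ∑ x ∈ F, fed R s i L x ≤ 1 := h2.trans (htot s).le
    push_cast
    exact mul_le_of_le_one_right (by positivity) h3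

end Pool.Agent.H709.OW.GR
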