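import Pool.Agent.H709.OW.Props2
import Pool.Agent.H709.OW.GoldA

set_option autoImplicit false

/-!
The covering property implies K-triviality.
-/

namespace Pool.Agent.H709.OW

open Pool.Agent.Helper227 MeasureTheory Encodable
open scoped ENNReal

namespace KTL

/-- the weight exponent of a code of a pair -/
def om (x : ℕ) : ℕ := ((decode x : Option (ℕ × Str)).map fun p => p.1 + 1).getD 0

theorem om_encode (k : ℕ) (σ : Str) : om (encode (k, σ)) = k + 1 := by
  unfold om
  rw [encodek]
  rfl

theorem om_primrec : Primrec om := by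
  unfold om
  exact Primrec.option_getD.comp
    (Primrec.option_map Primrec.decode
      (Primrec.succ.comp (Primrec.fst.comp Primrec.snd)).to₂) (Primrec.const 0)

theorem zeros_primrec : Primrec fun σ : Str => List.replicate σ.length false := by
  have : Primrec fun σ : Str => (List.range σ.length).map (fun _ => false) :=
    Primrec.list_map (Primrec.list_range.comp Primrec.list_length) (Primrec.const false).to₂
  refine this.of_eq fun σ => ?_
  simp

/-- the enumeration of the codes of the pairs `(k, A ↾ n)` with `K(0^n) ≤ k` -/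
def E (U : Str →. Str) (x : Str × ℕ) : Prop :=
  ∃ k : ℕ, x.2 = encode (k, x.1) ∧ KU U (List.replicate x.1.length false) ≤ k

theorem E_s1 {U : Str →. Str} (hU : IsUniversal U) : S1 (E U) := by
  unfold E
  refine S1.ex (S1.and (S1.of_prim ?_) ?_)
  · exact Primrec.eq.comp (Primrec.snd.comp Primrec.fst)
      (Primrec.encode.comp (Primrec.snd.pair (Primrec.fst.comp Primrec.fst)))
  · exact S1.comp (f := fun x : (Str × ℕ) × ℕ => (List.replicate x.1.1.length false, x.2))
      (s1_KU hU) ((zeros_primrec.comp (Primrec.fst.comp Primrec.fst)).pair Primrec.snd)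

theorem geom (K : ℕ) (B : ℕ) :
    ∑ k ∈ (Finset.range B).filter (fun k => K ≤ k), (1 / 2 : ℝ) ^ (k + 1) ≤ (1 / 2 : ℝ) ^ K := by
  have key : ∀ B : ℕ, ∑ k ∈ (Finset.range B).filter (fun k => K ≤ k), (1 / 2 : ℝ) ^ (k + 1) ≤
      (1 / 2 : ℝ) ^ K - if K ≤ B then (1 / 2 : ℝ) ^ B else (1 / 2 : ℝ) ^ K := by
    intro B
    induction B with
    | zero =>
      rw [Finset.range_zero, Finset.filter_empty, Finset.sum_empty]
      split_ifs with h
      · have : K = 0 := by omega
        subst this; simp
      · simp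
    | succ B ih =>
      rw [Finset.range_add_one, Finset.filter_insert]
      by_cases h : K ≤ B
      · rw [if_pos h, Finset.sum_insert (by simp), if_pos (by omega)]
        rw [if_pos h] at ih
        have e : (1 / 2 : ℝ) ^ B = 2 * (1 / 2 : ℝ) ^ (B + 1) := by rw [pow_succ]; ring
        linarith
      · rw [if_neg h]
        rw [if_neg h] at ih
        split_ifs with h1
        · have : K = B + 1 := by omega
          subst this
          linarith
        · exact ih
  refine (key B).trans ?_
  have : (0 : ℝ) ≤ if K ≤ B then (1 / 2 : ℝ) ^ B else (1 / 2 : ℝ) ^ K := by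
    split_ifs <;> positivity
  linarith

theorem weight_le {U : Str →. Str} (hU : IsUniversal U) (hKr : S_Kraft) (A : ℕ → Bool)
    (F : Finset ℕ) (hF : ∀ x ∈ F, x ∈ En (E U) A) : ∑ x ∈ F, (1 / 2 : ℝ) ^ om x ≤ 1 := by
  classical
  have h1 : ∀ x ∈ F, ∃ s k : ℕ, x = encode (k, pre A s) ∧
      KU U (List.replicate s false) ≤ k := by
    intro x hx
    obtain ⟨s, k, h1, h2⟩ := hF x hx
    simp only [length_pre] at h1 h2
    exact ⟨s, k, h1, h2⟩
  choose! s k h1 h2 using h1
  set M := F.sup s + 1 with hM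
  set B := F.sup k + 1 with hB
  set P : Finset (ℕ × ℕ) := (Finset.range M ×ˢ Finset.range B).filter
    (fun p => KU U (List.replicate p.1 false) ≤ p.2) with hP
  have hsub : F ⊆ P.image (fun p => encode (p.2, pre A p.1)) := by
    intro x hx
    rw [Finset.mem_image]
    refine ⟨(s x, k x), ?_, (h1 x hx).symm⟩
    rw [hP, Finset.mem_filter, Finset.mem_product, Finset.mem_range, Finset.mem_range]
    exact ⟨⟨Nat.lt_succ_of_le (Finset.le_sup (f := s) hx),
      Nat.lt_succ_of_le (Finset.le_sup (f := k) hx)⟩, h2 x hx⟩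
  have hinj : Function.Injective (fun p : ℕ × ℕ => encode (p.2, pre A p.1)) := by
    intro p q h
    have h3 := encode_injective h
    simp only [Prod.mk.injEq] at h3
    have h4 := congrArg List.length h3.2
    rw [length_pre, length_pre] at h4
    exact Prod.ext h4 h3.1
  calc ∑ x ∈ F, (1 / 2 : ℝ) ^ om x
      ≤ ∑ x ∈ P.image (fun p => encode (p.2, pre A p.1)), (1 / 2 : ℝ) ^ om x :=
        Finset.sum_le_sum_of_subset_of_nonneg hsub fun _ _ _ => by positivity
    _ = ∑ p ∈ P, (1 / 2 : ℝ) ^ (p.2 + 1) := by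
        rw [Finset.sum_image (fun _ _ _ _ h => hinj h)]
        refine Finset.sum_congr rfl fun p _ => ?_
        rw [om_encode]
    _ = ∑ n ∈ Finset.range M, ∑ j ∈ (Finset.range B).filter
          (fun j => KU U (List.replicate n false) ≤ j), (1 / 2 : ℝ) ^ (j + 1) := by
        rw [hP, Finset.sum_filter, Finset.sum_product]
        refine Finset.sum_congr rfl fun n _ => ?_
        rw [Finset.sum_filter]
    _ ≤ ∑ n ∈ Finset.range M, (1 / 2 : ℝ) ^ KU U (List.replicate n false) :=
        Finset.sum_le_sum fun n _ => geom _ _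
    _ = ∑ y ∈ (Finset.range M).image (fun n => List.replicate n false), (1 / 2 : ℝ) ^ KU U y := by
        rw [Finset.sum_image]
        intro a _ b _ h
        have := congrArg List.length h
        simpa using this
    _ ≤ 1 := hKr U hU _

end KTL

open KTL in
theorem s_KT (hKC : S_KC) (hKr : S_Kraft) : S_KT := by
  classical
  intro U hU A hA
  obtain ⟨V, hV, hVA, c, hc⟩ := hA (E U) om (E_s1 hU) om_primrec
    (fun F hF => weight_le hU hKr A F hF)
  have hRq : S1 fun x : ℕ × Str => ∃ k : ℕ, x.1 = k + 1 + c ∧ V (encode (k, x.2)) := by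
    refine S1.ex (S1.and (S1.of_prim ?_) ?_)
    · exact Primrec.eq.comp (Primrec.fst.comp Primrec.fst)
        (Primrec.nat_add.comp (Primrec.succ.comp Primrec.snd) (Primrec.const c))
    · exact S1.comp (f := fun x : (ℕ × Str) × ℕ => encode (x.2, x.1.2)) hV
        (Primrec.encode.comp (Primrec.snd.pair (Primrec.snd.comp Primrec.fst)))
  obtain ⟨c', hc'⟩ := hKC U hU _ hRq (by
    intro F hF
    have h1 : ∀ x ∈ F, (1 / 2 : ℝ) ^ x.1 =
        (1 / 2 : ℝ) ^ c * (1 / 2 : ℝ) ^ om (encode (x.1 - 1 - c, x.2)) := by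
      intro x hx
      obtain ⟨k, h1, -⟩ := hF x hx
      rw [om_encode, ← pow_add, h1]
      congr 1
      omega
    rw [Finset.sum_congr rfl h1, ← Finset.mul_sum]
    have hinj : Set.InjOn (fun x : ℕ × Str => encode (x.1 - 1 - c, x.2)) F := by
      intro x hx y hy h
      obtain ⟨k, h1, -⟩ := hF x hx
      obtain ⟨l, h2, -⟩ := hF y hy
      have h3 := encode_injective h
      simp only [Prod.mk.injEq] at h3
      exact Prod.ext (by omega) h3.2
    have h2 : ∑ x ∈ F, (1 / 2 : ℝ) ^ om (encode (x.1 - 1 - c, x.2)) ≤ c := by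
      rw [← Finset.sum_image (f := fun z => (1 / 2 : ℝ) ^ om z) hinj]
      apply hc
      intro z hz
      obtain ⟨x, hx, rfl⟩ := Finset.mem_image.1 hz
      obtain ⟨k, h1, h2⟩ := hF x hx
      have : x.1 - 1 - c = k := by omega
      rw [this]; exact h2
    have h3 : (c : ℝ) ≤ 2 ^ c := by exact_mod_cast (Nat.lt_two_pow_self (n := c)).le
    calc (1 / 2 : ℝ) ^ c * ∑ x ∈ F, (1 / 2 : ℝ) ^ om (encode (x.1 - 1 - c, x.2))
        ≤ (1 / 2 : ℝ) ^ c * 2 ^ c :=
          mul_le_mul_of_nonneg_left (h2.trans h3) (by positivity)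
      _ = 1 := by rw [← mul_pow]; norm_num)
  refine ⟨1 + c + c', fun n => ?_⟩
  have h1 : encode (KU U (List.replicate n false), pre A n) ∈ En (E U) A :=
    ⟨n, KU U (List.replicate n false), rfl, by simp⟩
  have h2 := hc' (KU U (List.replicate n false) + 1 + c) (pre A n) ⟨_, rfl, hVA _ h1⟩
  change KU U (pre A n) ≤ _
  omega

end Pool.Agent.H709.OW
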