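import Pool.Agent.H709.OW.Props

set_option autoImplicit false

namespace Pool.Agent.H709.OW

open Pool.Agent.Helper227 MeasureTheory Encodable
open scoped ENNReal

namespace KWL

/-- the set with a chain starting at `a` and bounded by `b` -/
def SS (G : ℕ → ℕ → Set (ℕ → Bool)) (B : ℕ → Set (ℕ → Bool)) (j a b : ℕ) : Set (ℕ → Bool) :=
  {x | ∃ u : ℕ → ℕ, u 0 = a ∧
      (∀ i < j + 1, u i < u (i + 1) ∧ x ∈ G (u i) (u (i + 1))) ∧ u (j + 1) ≤ b ∧
      ∀ t < u (j + 1), x ∉ B t}

/-- the set with a chain inside `N` -/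
def SN (G : ℕ → ℕ → Set (ℕ → Bool)) (B : ℕ → Set (ℕ → Bool)) (j : ℕ) (N : Finset ℕ) :
    Set (ℕ → Bool) :=
  {x | ∃ u : ℕ → ℕ, (∀ i < j + 1, u i < u (i + 1) ∧ x ∈ G (u i) (u (i + 1))) ∧
      (∀ t, u 0 ≤ t → t < u (j + 1) → t ∈ N) ∧ ∀ t < u (j + 1), x ∉ B t}

theorem chain_mono {u : ℕ → ℕ} {j : ℕ} (h : ∀ i < j + 1, u i < u (i + 1)) :
    ∀ i ≤ j + 1, u 0 ≤ u i := by
  intro i hi
  induction i with
  | zero => exact le_rfl
  | succ i ih => exact (ih (by omega)).trans (h i (by omega)).le

theorem chain_lt {u : ℕ → ℕ} {j : ℕ} (h : ∀ i < j + 1, u i < u (i + 1)) :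
    u 0 < u (j + 1) :=
  lt_of_le_of_lt (chain_mono h j (by omega)) (h j (by omega))

variable {μ : Measure (ℕ → Bool)} {δ : ℕ → ℝ≥0∞} {G : ℕ → ℕ → Set (ℕ → Bool)}
  {B : ℕ → Set (ℕ → Bool)} {m : ℕ}

/-- from intervals to finite sets -/
theorem fin_of_int (hG : ∀ n n' t, n ≤ n' → G n' t ⊆ G n t) (j : ℕ)
    (hI : ∀ a b, m ≤ a → 2 ^ j * μ (SS G B j a b) ≤ ∑ i ∈ Finset.Ico a b, δ i) :
    ∀ (k : ℕ) (N : Finset ℕ), N.card ≤ k → (∀ t ∈ N, m ≤ t) →
      2 ^ j * μ (SN G B j N) ≤ ∑ i ∈ N, δ i := by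
  classical
  intro k
  induction k with
  | zero =>
    intro N hN hm
    have hN0 : N = ∅ := Finset.card_eq_zero.1 (by omega)
    subst hN0
    have h0 : SN G B j ∅ = ∅ := by
      ext x
      simp only [Set.mem_empty_iff_false, iff_false]
      rintro ⟨u, h1, h2, -⟩
      have := h2 (u 0) le_rfl (chain_lt fun i hi => (h1 i hi).1)
      simp at this
    rw [h0]
    simp
  | succ k ih =>
    intro N hN hm
    rcases N.eq_empty_or_nonempty with hE | hE
    · subst hE
      exact ih ∅ (by simp) (by simp)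
    -- the least element and its interval
    set α := N.min' hE with hα
    have hαN : α ∈ N := N.min'_mem hE
    have hex : ∃ w, α < w ∧ w ∉ N := by
      refine ⟨N.max' hE + 1, ?_, ?_⟩
      · exact Nat.lt_succ_of_le (N.le_max' _ hαN)
      · intro h
        have := N.le_max' _ h
        omega
    set w := Nat.find hex with hw
    obtain ⟨hw1, hw2⟩ := Nat.find_spec hex
    rw [← hw] at hw1 hw2
    have hint : ∀ t, α ≤ t → t < w → t ∈ N := by
      intro t h1 h2
      rcases h1.eq_or_lt with h3 | h3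
      · rw [← h3]
        exact hαN
      · by_contra h4
        exact Nat.find_min hex (hw ▸ h2) ⟨h3, h4⟩
    have hsub : Finset.Ico α w ⊆ N := by
      intro t ht
      rw [Finset.mem_Ico] at ht
      exact hint t ht.1 ht.2
    set N' := N \ Finset.Ico α w with hN'
    have hcard : N'.card ≤ k := by
      have h1 : N'.card + (Finset.Ico α w).card = N.card := Finset.card_sdiff_add_card_eq_card hsub
      rw [Nat.card_Ico] at h1
      omega
    have hm' : ∀ t ∈ N', m ≤ t := fun t ht => hm t (Finset.mem_sdiff.1 ht).1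
    have hcov : SN G B j N ⊆ SS G B j α w ∪ SN G B j N' := by
      rintro x ⟨u, h1, h2, h3⟩
      have hlt : u 0 < u (j + 1) := chain_lt fun i hi => (h1 i hi).1
      have hu0 : u 0 ∈ N := h2 (u 0) le_rfl hlt
      have hαu : α ≤ u 0 := N.min'_le _ hu0
      by_cases h4 : u 0 < w
      · left
        have hjw : u (j + 1) ≤ w := by
          by_contra h5
          exact hw2 (h2 w h4.le (by omega))
        refine ⟨fun i => if i = 0 then α else u i, by simp, ?_, ?_, ?_⟩
        · intro i hi
          rcases Nat.eq_zero_or_pos i with h6 | h6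
          · subst h6
            obtain ⟨h7, h8⟩ := h1 0 (by omega)
            simp only [if_true, Nat.zero_add, Nat.one_ne_zero, if_false]
            exact ⟨lt_of_le_of_lt hαu h7, hG _ _ _ hαu h8⟩
          · have h7 : i ≠ 0 := by omega
            have h8 : i + 1 ≠ 0 := by omega
            simp only [h7, h8, if_false]
            exact h1 i hi
        · simpa using hjw
        · simpa using h3
      · right
        refine ⟨u, h1, ?_, h3⟩
        intro t ht1 ht2
        rw [hN', Finset.mem_sdiff, Finset.mem_Ico]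
        exact ⟨h2 t ht1 ht2, by omega⟩
    calc 2 ^ j * μ (SN G B j N) ≤ 2 ^ j * (μ (SS G B j α w) + μ (SN G B j N')) := by
          gcongr
          exact (measure_mono hcov).trans (measure_union_le _ _)
      _ = 2 ^ j * μ (SS G B j α w) + 2 ^ j * μ (SN G B j N') := mul_add _ _ _
      _ ≤ ∑ i ∈ Finset.Ico α w, δ i + ∑ i ∈ N', δ i :=
          add_le_add (hI α w (hm α hαN)) (ih N' hcard hm')
      _ = ∑ i ∈ N, δ i := by
          rw [add_comm]
          exact Finset.sum_sdiff hsub

end KWL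

open KWL in
theorem s_KW : S_KW := by
  classical
  intro μ δ G B m hGm hBm hG hG' hμ hdis halt j
  induction j with
  | zero =>
    intro a b hm
    rw [pow_zero, one_mul]
    refine (measure_mono ?_).trans (hμ a b)
    rintro x ⟨u, h0, h1, h2, -⟩
    obtain ⟨h3, h4⟩ := h1 0 (by omega)
    rw [h0] at h4
    exact hG' _ _ _ (by simpa using h2) h4
  | succ j ih =>
    intro a b hm
    have ih' : ∀ a b, m ≤ a → 2 ^ j * μ (SS G B j a b) ≤ ∑ i ∈ Finset.Ico a b, δ i := ih
    set N := (Finset.Ico a b).filter fun t => ¬ (∀ x ∈ G a t, (∀ u < t, x ∉ B u) → x ∈ B t)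
      with hN
    have hF := fin_of_int hG j ih' N.card N le_rfl (fun t ht => by
      rw [hN, Finset.mem_filter, Finset.mem_Ico] at ht
      omega)
    have hsub : {x | ∃ u : ℕ → ℕ, u 0 = a ∧
        (∀ i < j + 1 + 1, u i < u (i + 1) ∧ x ∈ G (u i) (u (i + 1))) ∧ u (j + 1 + 1) ≤ b ∧
        ∀ t < u (j + 1 + 1), x ∉ B t} ⊆ SN G B j N := by
      rintro x ⟨u, h0, h1, h2, h3⟩
      refine ⟨fun i => u (i + 1), fun i hi => h1 (i + 1) (by omega), ?_, h3⟩
      intro t ht1 ht2
      simp only [Nat.zero_add] at ht1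
      replace ht2 : t < u (j + 1 + 1) := ht2
      obtain ⟨h4, h5⟩ := h1 0 (by omega)
      rw [h0, Nat.zero_add] at h4 h5
      rw [hN, Finset.mem_filter, Finset.mem_Ico]
      refine ⟨⟨by omega, by omega⟩, ?_⟩
      intro h6
      exact h3 t ht2 (h6 x (hG' _ _ _ ht1 h5) (fun v hv => h3 v (hv.trans ht2)))
    calc 2 ^ (j + 1) * μ _ ≤ 2 ^ (j + 1) * μ (SN G B j N) := by
          gcongr
      _ = 2 * (2 ^ j * μ (SN G B j N)) := by rw [pow_succ]; ring
      _ ≤ 2 * ∑ t ∈ N, δ t := by gcongr
      _ = ∑ t ∈ N, 2 * δ t := Finset.mul_sum _ _ _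
      _ ≤ ∑ t ∈ N, μ (B t ∩ G a b) := by
          refine Finset.sum_le_sum fun t ht => ?_
          rw [hN, Finset.mem_filter, Finset.mem_Ico] at ht
          rcases halt a t hm with h | h
          · exact absurd h ht.2
          · refine h.trans (measure_mono ?_)
            exact Set.inter_subset_inter_right _ (hG' _ _ _ (by omega))
      _ = μ (⋃ t ∈ N, (B t ∩ G a b)) := by
          rw [measure_biUnion_finset]
          · intro s _ t _ hst
            rcases lt_or_gt_of_ne hst with h | h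
            · exact (hdis s t h).mono Set.inter_subset_left Set.inter_subset_left
            · exact ((hdis t s h).symm).mono Set.inter_subset_left Set.inter_subset_left
          · intro t _
            exact (hBm t).inter (hGm a b)
      _ ≤ μ (G a b) := by
          refine measure_mono ?_
          simp
      _ ≤ _ := hμ a b

end Pool.Agent.H709.OW
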