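import Pool.Agent.H709.OW.Props

set_option autoImplicit false

namespace Pool.Agent.H709.OW

open Pool.Agent.Helper227 MeasureTheory Encodable
open scoped ENNReal

namespace KcL

abbrev PR := ℕ × List Bool

open Classical in
/-- the requests -/
noncomputable def req (q : PR → ℕ → Prop) (i : ℕ) : Option PR :=
  Option.casesOn (decode₂ (ℕ × PR) i) none fun x =>
    if q x.2 (x.1 + 1) ∧ ¬ (x.1 ≠ 0 ∧ q x.2 x.1) then some x.2 else none

variable {q : PR → ℕ → Prop}

theorem primrec_req (hq : PrimrecRel q) : Primrec (req q) := by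
  classical
  unfold req
  refine Primrec.option_casesOn (o := fun i : ℕ => decode₂ (ℕ × PR) i) (f := fun _ => none)
    (g := fun _ x => if q x.2 (x.1 + 1) ∧ ¬ (x.1 ≠ 0 ∧ q x.2 x.1) then some x.2 else none)
    Primrec.decode₂ (Primrec.const none) ?_
  refine Primrec.ite ?_ (Primrec.option_some.comp (Primrec.snd.comp Primrec.snd))
    (Primrec.const none)
  have e1 : Primrec fun x : ℕ × ℕ × PR => x.2.2 := Primrec.snd.comp Primrec.snd
  have e2 : Primrec fun x : ℕ × ℕ × PR => x.2.1 := Primrec.fst.comp Primrec.snd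
  have h1 : PrimrecPred fun x : ℕ × ℕ × PR => q x.2.2 (x.2.1 + 1) :=
    hq.comp e1 (Primrec.succ.comp e2)
  have h2 : PrimrecPred fun x : ℕ × ℕ × PR => q x.2.2 x.2.1 := hq.comp e1 e2
  have h3 : PrimrecPred fun x : ℕ × ℕ × PR => x.2.1 ≠ 0 :=
    PrimrecPred.not (Primrec.eq.comp e2 (Primrec.const 0))
  exact h1.and (h3.and h2).not

theorem req_some {i : ℕ} {r : PR} (h : req q i = some r) :
    ∃ s, encode ((s, r) : ℕ × PR) = i ∧ q r (s + 1) ∧ ¬ (s ≠ 0 ∧ q r s) := by
  classical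
  unfold req at h
  rcases hd : decode₂ (ℕ × PR) i with _ | x
  · rw [hd] at h; cases h
  · rw [hd] at h
    simp only at h
    split_ifs at h with hf
    rw [Option.some.injEq] at h
    subst h
    exact ⟨x.1, mem_decode₂.1 hd, hf.1, hf.2⟩

theorem req_of {s : ℕ} {p : PR} (h1 : q p (s + 1)) (h2 : ¬ (s ≠ 0 ∧ q p s)) :
    req q (encode ((s, p) : ℕ × PR)) = some p := by
  classical
  unfold req
  have : decode₂ (ℕ × PR) (encode ((s, p) : ℕ × PR)) = some (s, p) := mem_decode₂.2 rfl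
  rw [this]
  simp only
  rw [if_pos ⟨h1, h2⟩]

theorem exists_first (hm : ∀ a m n, m ≤ n → q a m → q a n) {s : ℕ} {p : PR} (h : q p s) :
    ∃ t, q p (t + 1) ∧ ¬ (t ≠ 0 ∧ q p t) := by
  induction s with
  | zero => exact ⟨0, hm _ _ _ (by omega) h, fun h => h.1 rfl⟩
  | succ s ih =>
    by_cases hs : q p s
    · exact ih hs
    · exact ⟨s, h, fun h => hs h.2⟩

theorem req_inj (hm : ∀ a m n, m ≤ n → q a m → q a n) {i j : ℕ} {p : PR}
    (hi : req q i = some p) (hj : req q j = some p) : i = j := by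
  obtain ⟨s, hs1, hs2, hs3⟩ := req_some hi
  obtain ⟨t, ht1, ht2, ht3⟩ := req_some hj
  rw [← hs1, ← ht1]
  rcases Nat.lt_trichotomy s t with h | h | h
  · exact absurd ⟨by omega, hm _ _ _ h hs2⟩ ht3
  · rw [h]
  · exact absurd ⟨by omega, hm _ _ _ h ht2⟩ hs3

theorem req_bound (hm : ∀ a m n, m ≤ n → q a m → q a n)
    (hb : ∀ F : Finset PR, (∀ x ∈ F, ∃ n, q x n) → ∑ x ∈ F, (1 / 2 : ℝ) ^ x.1 ≤ 1) (n : ℕ) :
    ∑ i ∈ Finset.range n, KC.wr (req q) i ≤ 1 := by
  classical
  have h1 : ∑ i ∈ Finset.range n, KC.wr (req q) i =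
      ∑ i ∈ (Finset.range n).filter (fun i => (req q i).isSome), KC.wr (req q) i := by
    rw [Finset.sum_filter]
    refine Finset.sum_congr rfl fun i _ => ?_
    split_ifs with h
    · rfl
    · unfold KC.wr
      rcases hr : req q i with _ | r
      · rfl
      · rw [hr] at h; exact absurd rfl h
  rw [h1]
  let g : ℕ → PR := fun i => (req q i).getD (0, [])
  have hg : ∀ i, (req q i).isSome → req q i = some (g i) := by
    intro i hi
    obtain ⟨r, hr⟩ := Option.isSome_iff_exists.1 hi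
    simp only [g, hr, Option.getD_some]
  have hinj : Set.InjOn g ((Finset.range n).filter (fun i => (req q i).isSome) : Finset ℕ) := by
    intro i hi j hj hij
    rw [Finset.mem_coe, Finset.mem_filter] at hi hj
    have h2 := hg i hi.2
    have h3 := hg j hj.2
    rw [← hij] at h3
    exact req_inj hm h2 h3
  have h2 : ∀ i ∈ (Finset.range n).filter (fun i => (req q i).isSome),
      KC.wr (req q) i = (fun p : PR => (1 / 2 : ℝ) ^ p.1) (g i) := by
    intro i hi
    rw [Finset.mem_filter] at hi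
    have h2 := hg i hi.2
    unfold KC.wr
    rw [h2]
    rfl
  rw [Finset.sum_congr rfl h2, ← Finset.sum_image (f := fun p : PR => (1 / 2 : ℝ) ^ p.1) hinj]
  refine hb _ ?_
  intro x hx
  rw [Finset.mem_image] at hx
  obtain ⟨i, hi, rfl⟩ := hx
  rw [Finset.mem_filter] at hi
  obtain ⟨s, _, hs, _⟩ := req_some (hg i hi.2)
  exact ⟨_, hs⟩

end KcL

theorem s_KC : S_KC := by
  intro U hU Rq hR hb
  obtain ⟨q, hq, hm, he⟩ := hR
  have hb' : ∀ n, ∑ i ∈ Finset.range n, KC.wr (KcL.req q) i ≤ 1 :=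
    KcL.req_bound hm fun F hF => hb F fun x hx => (he x).2 (hF x hx)
  obtain ⟨M, hM1, hM2, hM3⟩ := KC.kraft_chaitin (KcL.primrec_req hq) hb'
  obtain ⟨c, hc⟩ := hU.2 M ⟨hM1, hM2⟩
  refine ⟨c, fun r y hry => ?_⟩
  obtain ⟨n, hn⟩ := (he (r, y)).1 hry
  obtain ⟨t, ht1, ht2⟩ := KcL.exists_first hm hn
  obtain ⟨τ, h1, h2⟩ := hM3 _ r y (KcL.req_of ht1 ht2)
  obtain ⟨τ', h3, h4⟩ := hc τ y h2
  have := KU_le h4
  omega

theorem s_Kraft : S_Kraft := by
  classical
  intro U hU F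
  choose τ h1 h2 using fun y => hU.exists_min y
  have hinj : Set.InjOn τ (F : Set (List Bool)) := by
    intro x _ y _ hxy
    have h3 := h2 x
    have h4 := h2 y
    rw [hxy] at h3
    exact Part.mem_unique h3 h4
  have h3 := kraft (P := fun σ => (U σ).Dom) (fun σ τ hσ hτ h => hU.1.2 σ τ hσ hτ h) (F.image τ)
    (by
      intro σ hσ
      rw [Finset.mem_image] at hσ
      obtain ⟨y, _, rfl⟩ := hσ
      exact Part.dom_iff_mem.2 ⟨_, h2 y⟩)
  rw [Finset.sum_image hinj] at h3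
  have h4 : ∑ y ∈ F, (1 / 2 : ℝ≥0∞) ^ (τ y).length =
      ENNReal.ofReal (∑ y ∈ F, (1 / 2 : ℝ) ^ KU U y) := by
    rw [ENNReal.ofReal_sum_of_nonneg (fun y _ => by positivity)]
    refine Finset.sum_congr rfl fun y _ => ?_
    rw [h1 y, ENNReal.ofReal_pow (by norm_num)]
    congr 1
    rw [ENNReal.ofReal_div_of_pos (by norm_num)]
    simp
  rw [h4] at h3
  have h5 := ENNReal.ofReal_le_one.1 h3
  exact h5

end Pool.Agent.H709.OW
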