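import Pool.Agent.H709.OW.Props

set_option autoImplicit false

namespace Pool.Agent.H709.OW

open Pool.Agent.Helper227 MeasureTheory Encodable
open scoped ENNReal

namespace KillL

/-- the approximations of the `G n` -/
def Gs (A : ℕ → Bool) (g : Str → ℕ → Str → Prop) (n t : ℕ) : Set (ℕ → Bool) :=
  {X | g (pre A t) n (pre X t)}

/-- the absorbed sets -/
def Bs (A : ℕ → Bool) (Bp : ℕ → Str → Str → Prop) (m t : ℕ) : Set (ℕ → Bool) :=
  {X | Bp m (pre A t) (pre X t)}

/-- the sets of the chain lemma -/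
def Sj (A : ℕ → Bool) (g : Str → ℕ → Str → Prop) (Bp : ℕ → Str → Str → Prop) (m j b : ℕ) :
    Set (ℕ → Bool) :=
  {x | ∃ u : ℕ → ℕ, u 0 = m ∧
      (∀ i < j + 1, u i < u (i + 1) ∧ x ∈ Gs A g (u i) (u (i + 1))) ∧ u (j + 1) ≤ b ∧
      ∀ t < u (j + 1), x ∉ Bs A Bp m t}

/-- the enumeration of the sets of the chain lemma -/
def EE (g : Str → ℕ → Str → Prop) (Bp : ℕ → Str → Str → Prop) (m M : ℕ)
    (x : List Bool × ℕ × List Bool) : Prop :=
  ∃ L : List ℕ, (L.getD 0 0 = m ∧ ∀ i < x.2.1 + M + 1, L.getD i 0 < L.getD (i + 1) 0 ∧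
      g (x.1.take (L.getD (i + 1) 0)) (L.getD i 0) (x.2.2.take (L.getD (i + 1) 0))) ∧
    (L.getD (x.2.1 + M + 1) 0 ≤ x.1.length ∧ L.getD (x.2.1 + M + 1) 0 ≤ x.2.2.length) ∧
    ∀ t < L.getD (x.2.1 + M + 1) 0, ¬ Bp m (x.1.take t) (x.2.2.take t)

theorem s1_EE {g : Str → ℕ → Str → Prop} {Bp : ℕ → Str → Str → Prop} (m M : ℕ)
    (hg : PrimrecPred fun x : Str × ℕ × Str => g x.1 x.2.1 x.2.2)
    (hB : PrimrecPred fun x : ℕ × Str × Str => Bp x.1 x.2.1 x.2.2) : S1 (EE g Bp m M) := by
  refine S1.ex (α := List Bool × ℕ × List Bool) (β := List ℕ)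
    (p := fun x L => (L.getD 0 0 = m ∧ ∀ i < x.2.1 + M + 1, L.getD i 0 < L.getD (i + 1) 0 ∧
      g (x.1.take (L.getD (i + 1) 0)) (L.getD i 0) (x.2.2.take (L.getD (i + 1) 0))) ∧
    (L.getD (x.2.1 + M + 1) 0 ≤ x.1.length ∧ L.getD (x.2.1 + M + 1) 0 ≤ x.2.2.length) ∧
    ∀ t < L.getD (x.2.1 + M + 1) 0, ¬ Bp m (x.1.take t) (x.2.2.take t)) (S1.of_prim ?_)
  have hj : Primrec fun x : (List Bool × ℕ × List Bool) × List ℕ => x.1.2.1 + M + 1 :=
    Primrec.succ.comp (Primrec.nat_add.comp
      (Primrec.fst.comp (Primrec.snd.comp Primrec.fst)) (Primrec.const M))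
  have hl : Primrec fun x : (List Bool × ℕ × List Bool) × List ℕ => x.2.getD (x.1.2.1 + M + 1) 0 :=
    (Primrec.list_getD 0).comp Primrec.snd hj
  refine PrimrecPred.and (PrimrecPred.and ?_ ?_) (PrimrecPred.and (PrimrecPred.and ?_ ?_) ?_)
  · exact Primrec.eq.comp ((Primrec.list_getD 0).comp Primrec.snd (Primrec.const 0))
      (Primrec.const m)
  · refine PP.all_lt (α := (List Bool × ℕ × List Bool) × List ℕ)
      (p := fun x i => x.2.getD i 0 < x.2.getD (i + 1) 0 ∧
      g (x.1.1.take (x.2.getD (i + 1) 0)) (x.2.getD i 0) (x.1.2.2.take (x.2.getD (i + 1) 0))) ?_ hj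
    have h1 : Primrec fun y : ((List Bool × ℕ × List Bool) × List ℕ) × ℕ => y.1.2.getD y.2 0 :=
      (Primrec.list_getD 0).comp (Primrec.snd.comp Primrec.fst) Primrec.snd
    have h2 : Primrec fun y : ((List Bool × ℕ × List Bool) × List ℕ) × ℕ =>
        y.1.2.getD (y.2 + 1) 0 :=
      (Primrec.list_getD 0).comp (Primrec.snd.comp Primrec.fst) (Primrec.succ.comp Primrec.snd)
    refine PrimrecPred.and (Primrec.nat_lt.comp h1 h2) ?_
    exact hg.comp ((Primrec.list_take.comp h2 (Primrec.fst.comp (Primrec.fst.comp Primrec.fst))).pair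
      (h1.pair (Primrec.list_take.comp h2
        (Primrec.snd.comp (Primrec.snd.comp (Primrec.fst.comp Primrec.fst))))))
  · exact Primrec.nat_le.comp hl (Primrec.list_length.comp (Primrec.fst.comp Primrec.fst))
  · exact Primrec.nat_le.comp hl
      (Primrec.list_length.comp (Primrec.snd.comp (Primrec.snd.comp Primrec.fst)))
  · refine PP.all_lt (α := (List Bool × ℕ × List Bool) × List ℕ)
      (p := fun x t => ¬ Bp m (x.1.1.take t) (x.1.2.2.take t)) (PrimrecPred.not ?_) hl
    exact hB.comp ((Primrec.const m).pair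
      ((Primrec.list_take.comp Primrec.snd (Primrec.fst.comp (Primrec.fst.comp Primrec.fst))).pair
      (Primrec.list_take.comp Primrec.snd
        (Primrec.snd.comp (Primrec.snd.comp (Primrec.fst.comp Primrec.fst))))))

theorem chain_le {u : ℕ → ℕ} {j : ℕ} (h : ∀ i < j + 1, u i < u (i + 1)) :
    ∀ i ≤ j + 1, u i ≤ u (j + 1) := by
  intro i hi
  obtain ⟨d, hd⟩ := Nat.exists_eq_add_of_le hi
  induction d generalizing i with
  | zero => rw [hd]; simp
  | succ d ih => exact (h i (by omega)).le.trans (ih (i + 1) (by omega) (by omega))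

theorem UE_EE (A : ℕ → Bool) (g : Str → ℕ → Str → Prop) (Bp : ℕ → Str → Str → Prop) (m M n : ℕ) :
    UE (EE g Bp m M) A n = ⋃ b, Sj A g Bp m (n + M) b := by
  ext X
  rw [Set.mem_iUnion]
  constructor
  · rintro ⟨s, t, L, ⟨h0, h1⟩, ⟨h2, h3⟩, h4⟩
    simp only [length_pre] at h0 h1 h2 h3 h4
    have hle := chain_le (u := fun i => L.getD i 0) (fun i hi => (h1 i hi).1)
    refine ⟨L.getD (n + M + 1) 0, fun i => L.getD i 0, h0, ?_, le_rfl, ?_⟩
    · intro i hi
      obtain ⟨h5, h6⟩ := h1 i hi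
      refine ⟨h5, ?_⟩
      have h7 := hle (i + 1) (by omega)
      rw [take_pre _ _ _ (by omega), take_pre _ _ _ (by omega)] at h6
      exact h6
    · intro t' ht' h8
      refine h4 t' ht' ?_
      simp only at ht'
      rw [take_pre _ _ _ (by omega), take_pre _ _ _ (by omega)]
      exact h8
  · rintro ⟨b, u, h0, h1, h2, h3⟩
    have hL : ∀ i ≤ n + M + 1, ((List.range (n + M + 2)).map u).getD i 0 = u i := by
      intro i hi
      rw [List.getD_eq_getElem _ _ (by simp; omega)]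
      simp
    have hle := chain_le (fun i hi => (h1 i hi).1)
    refine ⟨b, b, (List.range (n + M + 2)).map u, ⟨?_, ?_⟩, ⟨?_, ?_⟩, ?_⟩
    · rw [hL 0 (by omega), h0]
    · intro i hi
      simp only at hi
      obtain ⟨h5, h6⟩ := h1 i hi
      rw [hL i (by omega), hL (i + 1) (by omega)]
      refine ⟨h5, ?_⟩
      have h7 := hle (i + 1) (by omega)
      simp only
      rw [take_pre _ _ _ (by omega), take_pre _ _ _ (by omega)]
      exact h6
    · simp only
      rw [hL _ le_rfl, length_pre]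
      exact h2
    · simp only
      rw [hL _ le_rfl, length_pre]
      exact h2
    · intro t ht
      simp only at ht ⊢
      rw [hL _ le_rfl] at ht
      rw [take_pre _ _ _ (by omega), take_pre _ _ _ (by omega)]
      exact h3 t ht

theorem lam_num (t : ℕ) (P : Str → Prop) :
    lam {X | P (pre X t)} = (num t P : ℝ≥0∞) / 2 ^ t := by
  classical
  have h : {X : ℕ → Bool | P (pre X t)} =
      {X | pre X t ∈ ((allStr t).filter fun ξ => decide (P ξ)).toFinset} := by
    ext X
    simp [mem_allStr]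
  rw [h, lam_finset _ t (fun σ hσ => by
    simp only [List.mem_toFinset, List.mem_filter, mem_allStr] at hσ
    exact hσ.1), List.toFinset_card_of_nodup ((nodup_allStr t).filter _), num, one_div,
    ← ENNReal.inv_pow, ENNReal.div_eq_inv_mul, mul_comm]

end KillL

open KillL in
theorem s_Kill (hKW : S_KW) (hPri : S_Pri) : S_Kill := by
  intro A G g Q Bp M hE hM hlam hBp hAbs Z hZ hZG m
  by_contra hcon
  push Not at hcon
  -- the bound of the chain lemma
  have hk : ∀ j b, 2 ^ j * lam (Sj A g Bp m j b) ≤ ∑ i ∈ Finset.Ico m b, (Q i : ℝ≥0∞) / 2 ^ i := by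
    intro j b
    refine hKW lam (fun t => (Q t : ℝ≥0∞) / 2 ^ t) (Gs A g) (Bs A Bp m) m
      (fun n t => measurableSet_pre t fun ξ => g (pre A t) n ξ)
      (fun t => measurableSet_pre t fun ξ => Bp m (pre A t) ξ) ?_ ?_ hlam ?_ ?_ j m b le_rfl
    · intro n n' t hn X hX
      exact hE.anti _ _ _ _ hn hX
    · intro n t t' ht X hX
      exact hE.mono _ _ _ _ _ (pre_prefix A ht) (pre_prefix X ht) hX
    · intro s t hst
      rw [Set.disjoint_left]
      intro X h1 h2
      have h3 := ((hAbs m (pre A t) (pre X t)).1 h2).2.1.2 s (by simpa using hst)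
      rw [take_pre _ _ _ hst.le, take_pre _ _ _ hst.le] at h3
      exact h3 h1
    · intro a t ha
      rcases hPri g (fun t => 2 * Q t) Bp hE.anti hE.small hAbs m a (pre A t) with h | h
      · left
        intro X hX hu
        refine h (pre X t) (by simp) ⟨hE.anti _ _ _ _ ha hX, ?_⟩ hX
        intro s hs
        rw [length_pre] at hs
        rw [take_pre _ _ _ hs.le, take_pre _ _ _ hs.le]
        exact hu s hs
      · right
        simp only [length_pre] at h
        have h1 : Bs A Bp m t ∩ Gs A g a t =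
            {X | (fun ξ => Bp m (pre A t) ξ ∧ g (pre A t) a ξ) (pre X t)} := rfl
        have h2 := lam_num t (fun ξ => Bp m (pre A t) ξ ∧ g (pre A t) a ξ)
        rw [h1]
        refine le_trans ?_ h2.ge
        rw [← mul_div_assoc]
        gcongr
        exact_mod_cast h
  -- the test
  have hmono : ∀ j, Monotone (Sj A g Bp m j) := by
    rintro j b b' hb X ⟨u, h0, h1, h2, h3⟩
    exact ⟨u, h0, h1, h2.trans hb, h3⟩
  have hmeas : ∀ n, lam (UE (EE g Bp m M) A n) ≤ (1 / 2) ^ n := by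
    intro n
    rw [UE_EE, (hmono (n + M)).measure_iUnion]
    refine iSup_le fun b => ?_
    have h1 : 2 ^ (n + M) * lam (Sj A g Bp m (n + M) b) ≤ (M : ℝ≥0∞) := by
      refine (hk (n + M) b).trans (le_trans ?_ (hM b))
      refine Finset.sum_le_sum_of_subset ?_
      intro i hi
      rw [Finset.mem_Ico] at hi
      exact Finset.mem_range.2 hi.2
    have h2 : (M : ℝ≥0∞) ≤ 2 ^ M := by
      exact_mod_cast (Nat.lt_two_pow_self (n := M)).le
    have h3 : (2 : ℝ≥0∞) ^ M * (2 ^ n * lam (Sj A g Bp m (n + M) b)) ≤ 2 ^ M * 1 := by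
      rw [mul_one, ← mul_assoc, ← pow_add, add_comm M n]
      exact h1.trans h2
    have h4 : (2 : ℝ≥0∞) ^ n * lam (Sj A g Bp m (n + M) b) ≤ 1 :=
      (ENNReal.mul_le_mul_iff_right (by simp) (by simp)).1 h3
    rw [one_div, ← ENNReal.inv_pow, ← one_div, ENNReal.le_div_iff_mul_le (by simp) (by simp), mul_comm]
    exact h4
  refine hZ _ (isMLTest_of_E (s1_EE m M hE.prim hBp) hmeas) ?_
  rw [Set.mem_iInter]
  intro n
  rw [UE_EE, Set.mem_iUnion]
  -- the chain of `Z`
  have hex : ∀ k, ∃ t, g (pre A t) k (pre Z t) := fun k => (hE.spec k Z).1 (hZG k)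
  choose f hf using hex
  have hfk : ∀ k, k < f k := by
    intro k
    have := hE.small _ _ _ (hf k)
    simpa using this
  refine ⟨(f^[n + M + 1]) m, fun i => (f^[i]) m, rfl, ?_, le_rfl, ?_⟩
  · intro i _
    simp only [Function.iterate_succ_apply']
    exact ⟨hfk _, hf _⟩
  · intro t _
    exact hcon t

end Pool.Agent.H709.OW
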