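import Pool.Agent.H709.OW.Props

set_option autoImplicit false

/-! The covering property implies lowness for Martin-Löf randomness. -/

namespace Pool.Agent.H709.OW

open Pool.Agent.Helper227 MeasureTheory Encodable
open scoped ENNReal

namespace LowL

/-- the stage approximation -/
def P (q : Str × ℕ × Str → ℕ → Prop) (v : Str) (n : ℕ) (ξ : Str) : Prop :=
  ∃ i < v.length + 1, ∃ j < ξ.length + 1, q (v.take i, n, ξ.take j) v.length

theorem prim_P {q : Str × ℕ × Str → ℕ → Prop} (hq : PrimrecRel q) :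
    PrimrecPred fun x : Str × ℕ × Str => P q x.1 x.2.1 x.2.2 := by
  unfold P
  refine PP.ex_lt (α := Str × ℕ × Str) (f := fun x => x.1.length + 1)
    (p := fun x i => ∃ j < x.2.2.length + 1, q (x.1.take i, x.2.1, x.2.2.take j) x.1.length) ?_
    (Primrec.succ.comp (Primrec.list_length.comp Primrec.fst))
  refine PP.ex_lt (α := (Str × ℕ × Str) × ℕ) (f := fun x => x.1.2.2.length + 1)
    (p := fun x j => q (x.1.1.take x.2, x.1.2.1, x.1.2.2.take j) x.1.1.length) ?_
    (Primrec.succ.comp (Primrec.list_length.comp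
      (Primrec.snd.comp (Primrec.snd.comp Primrec.fst))))
  refine hq.comp (Primrec.pair ?_ (Primrec.pair ?_ ?_)) ?_
  · exact Primrec.list_take.comp (Primrec.snd.comp Primrec.fst)
      (Primrec.fst.comp (Primrec.fst.comp Primrec.fst))
  · exact Primrec.fst.comp (Primrec.snd.comp (Primrec.fst.comp Primrec.fst))
  · exact Primrec.list_take.comp Primrec.snd
      (Primrec.snd.comp (Primrec.snd.comp (Primrec.fst.comp Primrec.fst)))
  · exact Primrec.list_length.comp (Primrec.fst.comp (Primrec.fst.comp Primrec.fst))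

theorem P_mono {q : Str × ℕ × Str → ℕ → Prop} (hm : ∀ a m n, m ≤ n → q a m → q a n)
    {v v' : Str} {n : ℕ} {ξ ξ' : Str} (hv : v <+: v') (hξ : ξ <+: ξ') (h : P q v n ξ) :
    P q v' n ξ' := by
  obtain ⟨i, hi, j, hj, hq⟩ := h
  refine ⟨i, lt_of_lt_of_le hi (Nat.succ_le_succ hv.length_le), j,
    lt_of_lt_of_le hj (Nat.succ_le_succ hξ.length_le), ?_⟩
  have h1 : v'.take i = v.take i := by
    rw [List.prefix_iff_eq_take] at hv
    rw [hv, List.take_take, min_eq_left (by omega)]
  have h2 : ξ'.take j = ξ.take j := by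
    rw [List.prefix_iff_eq_take] at hξ
    rw [hξ, List.take_take, min_eq_left (by omega)]
  rw [h1, h2]
  exact hm _ _ _ hv.length_le hq

theorem UE_eq {F : Str × ℕ × Str → Prop} {q : Str × ℕ × Str → ℕ → Prop}
    (hm : ∀ a m n, m ≤ n → q a m → q a n) (he : ∀ a, F a ↔ ∃ n, q a n) (A : ℕ → Bool) (n : ℕ)
    (X : ℕ → Bool) : X ∈ UE F A n ↔ ∃ t, P q (pre A t) n (pre X t) := by
  constructor
  · rintro ⟨s, t, h⟩
    obtain ⟨k, hk⟩ := (he _).1 h
    refine ⟨max k (max s t), s, ?_, t, ?_, ?_⟩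
    · rw [length_pre]; omega
    · rw [length_pre]; omega
    · rw [take_pre _ _ _ (by omega), take_pre _ _ _ (by omega), length_pre]
      exact hm _ _ _ (by omega) hk
  · rintro ⟨T, i, hi, j, hj, h⟩
    rw [length_pre] at hi hj
    rw [take_pre _ _ _ (by omega), take_pre _ _ _ (by omega)] at h
    exact ⟨i, j, (he _).2 ⟨_, h⟩⟩

/-- the new string at its stage -/
def Nw (q : Str × ℕ × Str → ℕ → Prop) (v : Str) (n : ℕ) (ξ : Str) : Prop :=
  (ξ.length = v.length ∧ P q v n ξ) ∧
    (v.length = 0 ∨ ¬ P q (v.take (v.length - 1)) n (ξ.take (v.length - 1)))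

theorem prim_Nw {q : Str × ℕ × Str → ℕ → Prop} (hq : PrimrecRel q) :
    PrimrecPred fun x : Str × ℕ × Str => Nw q x.1 x.2.1 x.2.2 := by
  unfold Nw
  have hlen : Primrec fun x : Str × ℕ × Str => x.1.length := Primrec.list_length.comp Primrec.fst
  have hlen1 : Primrec fun x : Str × ℕ × Str => x.1.length - 1 :=
    Primrec.nat_sub.comp hlen (Primrec.const 1)
  refine PrimrecPred.and (PrimrecPred.and ?_ (prim_P hq)) (PrimrecPred.or ?_ (PrimrecPred.not ?_))
  · exact Primrec.eq.comp (Primrec.list_length.comp (Primrec.snd.comp Primrec.snd)) hlen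
  · exact Primrec.eq.comp hlen (Primrec.const 0)
  · exact (prim_P hq).comp (Primrec.pair (Primrec.list_take.comp hlen1 Primrec.fst)
      (Primrec.pair (Primrec.fst.comp Primrec.snd)
        (Primrec.list_take.comp hlen1 (Primrec.snd.comp Primrec.snd))))

/-- the enumeration operator -/
def Eop (q : Str × ℕ × Str → ℕ → Prop) (y : Str × ℕ) : Prop :=
  ∃ x : ℕ × Str, y.2 = encode x ∧ Nw q y.1 (2 * x.1) x.2

theorem s1_Eop {q : Str × ℕ × Str → ℕ → Prop} (hq : PrimrecRel q) : S1 (Eop q) := by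
  unfold Eop
  refine S1.ex (S1.of_prim (PrimrecPred.and ?_ ?_))
  · exact Primrec.eq.comp (Primrec.snd.comp Primrec.fst) (Primrec.encode.comp Primrec.snd)
  · exact (prim_Nw hq).comp (f := fun z : (Str × ℕ) × (ℕ × Str) => (z.1.1, 2 * z.2.1, z.2.2))
      (Primrec.pair (Primrec.fst.comp Primrec.fst)
        (Primrec.pair (Primrec.nat_mul.comp (Primrec.const 2) (Primrec.fst.comp Primrec.snd))
          (Primrec.snd.comp Primrec.snd)))

/-- the weights -/
def om (x : ℕ) : ℕ :=
  ((decode (α := ℕ × Str) x).map fun y => y.2.length - y.1 + 1).getD 0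

theorem om_encode (x : ℕ × Str) : om (encode x) = x.2.length - x.1 + 1 := by
  simp [om, encodek]

theorem prim_om : Primrec om := by
  unfold om
  refine Primrec.option_getD.comp (Primrec.option_map Primrec.decode ?_) (Primrec.const 0)
  exact Primrec.succ.comp (Primrec.nat_sub.comp
    (Primrec.list_length.comp (Primrec.snd.comp Primrec.snd)) (Primrec.fst.comp Primrec.snd))

theorem half_pow_ofReal (k : ℕ) : ENNReal.ofReal ((1 / 2 : ℝ) ^ k) = (1 / 2 : ℝ≥0∞) ^ k := by
  rw [ENNReal.ofReal_pow (by norm_num)]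
  congr 1
  rw [ENNReal.ofReal_div_of_pos (by norm_num)]
  simp

/-- weights of disjoint cylinders inside a set -/
theorem sum_le_of_disj (G : Finset Str) (S : Set (ℕ → Bool)) (m : ℕ) (hS : lam S ≤ (1 / 2) ^ m)
    (hsub : ∀ ξ ∈ G, cyl ξ ⊆ S)
    (hd : ∀ ξ ∈ G, ∀ ξ' ∈ G, ξ ≠ ξ' → Disjoint (cyl ξ) (cyl ξ')) :
    ∑ ξ ∈ G, (1 / 2 : ℝ) ^ ξ.length ≤ (1 / 2) ^ m := by
  have h1 : lam (⋃ ξ ∈ G, cyl ξ) ≤ (1 / 2) ^ m :=
    (measure_mono (Set.iUnion₂_subset hsub)).trans hS
  rw [measure_biUnion_finset (fun ξ h ξ' h' hne => hd ξ h ξ' h' hne)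
    (fun ξ _ => measurableSet_cyl ξ)] at h1
  simp only [lam_cyl, ← half_pow_ofReal] at h1
  rw [← ENNReal.ofReal_sum_of_nonneg (fun _ _ => by positivity)] at h1
  exact (ENNReal.ofReal_le_ofReal_iff (by positivity)).1 h1

/-- finite sums of powers of one half -/
theorem sum_half_le (S : Finset ℕ) : ∑ n ∈ S, (1 / 2 : ℝ) ^ (n + 1) ≤ 1 := by
  have h1 : Summable fun n : ℕ => (1 / 2 : ℝ) ^ (n + 1) := by
    simp only [pow_succ]
    exact (summable_geometric_of_lt_one (by norm_num) (by norm_num)).mul_right _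
  have h2 : ∑' n : ℕ, (1 / 2 : ℝ) ^ (n + 1) = 1 := by
    simp only [pow_succ]
    rw [tsum_mul_right, tsum_geometric_of_lt_one (by norm_num) (by norm_num)]
    norm_num
  exact (h1.sum_le_tsum S (fun _ _ => by positivity)).trans h2.le

end LowL

open LowL in
/-- the covering property implies lowness for Martin-Löf randomness -/
theorem s_Low : S_Low := by
  intro A hCov Z hZ U hU hZU
  obtain ⟨F, hF, -, hUF⟩ := hU.exists_E
  obtain ⟨q, hq, hm, he⟩ := hF
  have hlam : ∀ n, lam (U n) ≤ (1 / 2) ^ n := hU.2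
  have hmem : ∀ n X, X ∈ U n ↔ ∃ t, P q (pre A t) n (pre X t) := fun n X => by
    rw [hUF]
    exact UE_eq hm he A n X
  -- cylinders
  have hcyl : ∀ n t ξ, ξ.length = t → P q (pre A t) n ξ → cyl ξ ⊆ U n := by
    intro n t ξ hξ h X hX
    rw [mem_cyl_iff, hξ] at hX
    exact (hmem n X).2 ⟨t, by rwa [hX]⟩
  have hlen : ∀ n ξ, cyl ξ ⊆ U n → n ≤ ξ.length := by
    intro n ξ h
    have h1 := (measure_mono h).trans (hlam n)
    rw [lam_cyl, ← half_pow_ofReal, ← half_pow_ofReal,
      ENNReal.ofReal_le_ofReal_iff (by positivity)] at h1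
    by_contra hcon
    push Not at hcon
    exact absurd h1 (not_le.2 (pow_lt_pow_right_of_lt_one₀ (by norm_num) (by norm_num) hcon))
  -- the bound for the weights
  have hw : ∀ S : Finset ℕ, (∀ x ∈ S, x ∈ En (Eop q) A) → ∑ x ∈ S, (1 / 2 : ℝ) ^ om x ≤ 1 := by
    classical
    intro S hS
    -- decode
    have hx : ∀ x ∈ S, ∃ y : ℕ × Str, x = encode y ∧ Nw q (pre A y.2.length) (2 * y.1) y.2 := by
      intro x hx
      obtain ⟨s, y, h1, h2⟩ := hS x hx
      have h3 : y.2.length = s := by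
        have := h2.1.1
        rwa [length_pre] at this
      exact ⟨y, h1, by rw [h3]; exact h2⟩
    choose! dec hdec1 hdec2 using hx
    have hinj : Set.InjOn dec S := by
      intro x hx y hy hxy
      rw [hdec1 x hx, hdec1 y hy, hxy]
    set G : Finset (ℕ × Str) := S.image dec with hG
    have hsum : ∑ x ∈ S, (1 / 2 : ℝ) ^ om x = ∑ y ∈ G, (1 / 2 : ℝ) ^ (y.2.length - y.1 + 1) := by
      rw [hG, Finset.sum_image hinj]
      refine Finset.sum_congr rfl fun x hx => ?_
      conv_lhs => rw [hdec1 x hx, om_encode]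
    have hGN : ∀ y ∈ G, Nw q (pre A y.2.length) (2 * y.1) y.2 := by
      intro y hy
      rw [hG, Finset.mem_image] at hy
      obtain ⟨x, hx, rfl⟩ := hy
      exact hdec2 x hx
    have hGc : ∀ y ∈ G, cyl y.2 ⊆ U (2 * y.1) := fun y hy =>
      hcyl _ _ _ rfl (hGN y hy).1.2
    rw [hsum, ← Finset.sum_fiberwise_of_maps_to (s := G) (t := G.image Prod.fst) (g := Prod.fst)
      (fun y hy => Finset.mem_image_of_mem _ hy)]
    refine le_trans (Finset.sum_le_sum (g := fun n => (1 / 2 : ℝ) ^ (n + 1)) fun n _ => ?_)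
      (sum_half_le _)
    -- one index
    have h1 : ∀ y ∈ G.filter (fun y => y.1 = n),
        (1 / 2 : ℝ) ^ (y.2.length - y.1 + 1) = 2 ^ n / 2 * (1 / 2 : ℝ) ^ y.2.length := by
      intro y hy
      rw [Finset.mem_filter] at hy
      have h2 := hlen _ _ (hGc y hy.1)
      obtain ⟨k, hk⟩ : ∃ k, y.2.length = n + k := ⟨y.2.length - n, by rw [hy.2] at h2; omega⟩
      rw [hy.2, hk, Nat.add_sub_cancel_left, pow_succ, pow_add]
      have h3 : (2 : ℝ) ^ n * (1 / 2) ^ n = 1 := by
        rw [← mul_pow]; norm_num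
      linear_combination (-(1 / 2 : ℝ) ^ k / 2) * h3
    rw [Finset.sum_congr rfl h1, ← Finset.mul_sum]
    have h2 : ∑ y ∈ G.filter (fun y => y.1 = n), (1 / 2 : ℝ) ^ y.2.length ≤ (1 / 2) ^ (2 * n) := by
      have hinj2 : Set.InjOn Prod.snd (G.filter (fun y => y.1 = n) : Set (ℕ × Str)) := by
        intro y hy y' hy' h
        rw [Finset.mem_coe, Finset.mem_filter] at hy hy'
        exact Prod.ext (hy.2.trans hy'.2.symm) h
      rw [← Finset.sum_image (f := fun ξ : Str => (1 / 2 : ℝ) ^ ξ.length) hinj2]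
      refine sum_le_of_disj _ (U (2 * n)) _ (hlam _) ?_ ?_
      · intro ξ hξ
        rw [Finset.mem_image] at hξ
        obtain ⟨y, hy, rfl⟩ := hξ
        rw [Finset.mem_filter] at hy
        have := hGc y hy.1
        rwa [hy.2] at this
      · -- disjointness
        have hd : ∀ y ∈ G, ∀ y' ∈ G, y.1 = n → y'.1 = n → y.2.length < y'.2.length →
            ∀ X, X ∈ cyl y.2 → X ∈ cyl y'.2 → False := by
          intro y hy y' hy' h3 h4 h5 X hX hX'
          rw [mem_cyl_iff] at hX hX'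
          have h6 := hGN y hy
          have h7 := hGN y' hy'
          rw [h3] at h6
          rw [h4] at h7
          rcases h7.2 with h8 | h8
          · rw [length_pre] at h8
            omega
          · apply h8
            rw [length_pre]
            refine P_mono hm ?_ ?_ h6.1.2
            · rw [take_pre _ _ _ (by omega)]
              exact pre_prefix A (by omega)
            · rw [← hX', take_pre _ _ _ (by rw [length_pre] <;> omega)]
              rw [← hX]
              rw [length_pre]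
              apply pre_prefix
              omega
        intro ξ hξ ξ' hξ' hne
        rw [Finset.mem_image] at hξ hξ'
        obtain ⟨y, hy, rfl⟩ := hξ
        obtain ⟨y', hy', rfl⟩ := hξ'
        rw [Finset.mem_filter] at hy hy'
        rcases lt_trichotomy y.2.length y'.2.length with h3 | h3 | h3
        · rw [Set.disjoint_left]
          exact fun X hX hX' => hd y hy.1 y' hy'.1 hy.2 hy'.2 h3 X hX hX'
        · exact cyl_disjoint h3 hne
        · rw [Set.disjoint_left]
          exact fun X hX hX' => hd y' hy'.1 y hy.1 hy'.2 hy.2 h3 X hX' hX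
    calc (2 : ℝ) ^ n / 2 * ∑ y ∈ G.filter (fun y => y.1 = n), (1 / 2 : ℝ) ^ y.2.length
        ≤ (2 : ℝ) ^ n / 2 * (1 / 2) ^ (2 * n) := mul_le_mul_of_nonneg_left h2 (by positivity)
      _ = (1 / 2) ^ (n + 1) := by
          have h3 : (2 : ℝ) ^ n * (1 / 2) ^ n = 1 := by
            rw [← mul_pow]; norm_num
          rw [two_mul, pow_add, pow_succ]
          linear_combination ((1 / 2 : ℝ) ^ n / 2) * h3
  -- the covering
  obtain ⟨V, hV, hVE, c, hc⟩ := hCov (Eop q) om (s1_Eop hq) prim_om hw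
  obtain ⟨K, hK⟩ : ∃ K : ℕ, 2 * c ≤ 2 ^ K := ⟨2 * c, Nat.lt_two_pow_self.le⟩
  -- the test
  set E' : Str × ℕ × Str → Prop := fun x =>
    V (encode (x.2.1 + K, x.2.2)) ∧ x.2.1 + K ≤ x.2.2.length with hE'
  have hE's : S1 E' := by
    refine S1.and (hV.comp (Primrec.encode.comp (Primrec.pair ?_ ?_))) (S1.of_prim ?_)
    · exact Primrec.nat_add.comp (Primrec.fst.comp Primrec.snd) (Primrec.const K)
    · exact Primrec.snd.comp Primrec.snd
    · exact Primrec.nat_le.comp
        (Primrec.nat_add.comp (Primrec.fst.comp Primrec.snd) (Primrec.const K))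
        (Primrec.list_length.comp (Primrec.snd.comp Primrec.snd))
  have hE'm : ∀ m, lam (UE E' (fun _ => false) m) ≤ (1 / 2) ^ m := by
    classical
    intro m
    set T : Set Str := {ξ | V (encode (m + K, ξ)) ∧ m + K ≤ ξ.length} with hT
    have h1 : UE E' (fun _ => false) m ⊆ ⋃ ξ ∈ T, cyl ξ := by
      rintro X ⟨s, t, h⟩
      rw [Set.mem_iUnion₂]
      exact ⟨pre X t, h, mem_cyl_pre X t⟩
    refine (measure_mono h1).trans ((measure_biUnion_le lam (Set.to_countable T) _).trans ?_)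
    rw [ENNReal.tsum_eq_iSup_sum]
    refine iSup_le fun G => ?_
    simp only [lam_cyl, ← half_pow_ofReal]
    rw [← ENNReal.ofReal_sum_of_nonneg (fun _ _ => by positivity)]
    refine ENNReal.ofReal_le_ofReal ?_
    have h2 := hc (G.image fun ξ : T => encode (m + K, ξ.1)) (by
      intro x hx
      rw [Finset.mem_image] at hx
      obtain ⟨ξ, -, rfl⟩ := hx
      exact ξ.2.1)
    rw [Finset.sum_image (by
      intro ξ _ ξ' _ h
      have h3 := encode_injective h
      exact Subtype.ext (Prod.ext_iff.1 h3).2)] at h2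
    simp only [om_encode] at h2
    have h3 : ∀ ξ ∈ G, (1 / 2 : ℝ) ^ ξ.1.length =
        2 * (1 / 2) ^ (m + K) * (1 / 2 : ℝ) ^ (ξ.1.length - (m + K) + 1) := by
      intro ξ _
      obtain ⟨k, hk⟩ : ∃ k, ξ.1.length = m + K + k := ⟨ξ.1.length - (m + K), by
        have := ξ.2.2
        omega⟩
      rw [hk, Nat.add_sub_cancel_left, pow_succ, pow_add]
      ring
    rw [Finset.sum_congr rfl h3, ← Finset.mul_sum]
    have hK' : (2 : ℝ) * c ≤ 2 ^ K := by exact_mod_cast hK
    calc 2 * (1 / 2 : ℝ) ^ (m + K) * ∑ ξ ∈ G, (1 / 2 : ℝ) ^ (ξ.1.length - (m + K) + 1)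
        ≤ 2 * (1 / 2 : ℝ) ^ (m + K) * c := mul_le_mul_of_nonneg_left h2 (by positivity)
      _ = (1 / 2 : ℝ) ^ (m + K) * (2 * c) := by ring
      _ ≤ (1 / 2 : ℝ) ^ (m + K) * 2 ^ K := mul_le_mul_of_nonneg_left hK' (by positivity)
      _ = (1 / 2) ^ m := by
          have h4 : (1 / 2 : ℝ) ^ K * 2 ^ K = 1 := by
            rw [← mul_pow]; norm_num
          rw [pow_add]
          linear_combination ((1 / 2 : ℝ) ^ m) * h4
  refine hZ _ (isMLTest_of_E hE's hE'm) ?_
  rw [Set.mem_iInter] at hZU ⊢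
  intro m
  have h1 := hZU (2 * (m + K))
  rw [hmem] at h1
  classical
  set t := Nat.find h1 with ht
  have h2 : P q (pre A t) (2 * (m + K)) (pre Z t) := Nat.find_spec h1
  have h3 : ∀ u < t, ¬ P q (pre A u) (2 * (m + K)) (pre Z u) := fun u hu => Nat.find_min h1 hu
  have h4 : encode (m + K, pre Z t) ∈ En (Eop q) A := by
    refine ⟨t, (m + K, pre Z t), rfl, ⟨by simp, h2⟩, ?_⟩
    rcases Nat.eq_zero_or_pos t with h0 | h0
    · left
      rw [length_pre]
      exact h0
    · right
      rw [length_pre, take_pre _ _ _ (by omega), take_pre _ _ _ (by omega)]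
      exact h3 _ (by omega)
  have h5 : 2 * (m + K) ≤ t := by
    have h6 := hlen _ _ (hcyl _ _ _ (length_pre Z t) h2)
    rwa [length_pre] at h6
  refine ⟨0, t, hVE _ h4, ?_⟩
  simp only [length_pre]
  omega

end Pool.Agent.H709.OW
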