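import Pool.Agent.H709.OW.Props

set_option autoImplicit false

namespace Pool.Agent.H709.OW

open Pool.Agent.Helper227 MeasureTheory Encodable
open scoped ENNReal

namespace OrdL

open Classical in
/-- strings of length `t` with property `P`, as a finite set -/
noncomputable def FS (t : ℕ) (P : Str → Prop) : Finset Str := (allStr t).toFinset.filter P

lemma mem_FS {t : ℕ} {P : Str → Prop} {ξ : Str} : ξ ∈ FS t P ↔ ξ.length = t ∧ P ξ := by
  classical
  rw [FS, Finset.mem_filter, List.mem_toFinset, mem_allStr]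

lemma num_eq (t : ℕ) (P : Str → Prop) : num t P = (FS t P).card := by
  classical
  have h : FS t P = ((allStr t).filter fun ξ => decide (P ξ)).toFinset := by
    ext ξ
    rw [mem_FS, List.mem_toFinset, List.mem_filter, mem_allStr, decide_eq_true_eq]
  rw [h, List.toFinset_card_of_nodup ((nodup_allStr t).filter _)]
  rfl

lemma num_mono {t : ℕ} {P P' : Str → Prop} (h : ∀ ξ : Str, ξ.length = t → P ξ → P' ξ) :
    num t P ≤ num t P' := by
  rw [num_eq, num_eq]
  refine Finset.card_le_card (fun ξ hξ => ?_)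
  rw [mem_FS] at hξ ⊢
  exact ⟨hξ.1, h ξ hξ.1 hξ.2⟩

variable {g : Str → ℕ → Str → Prop}

lemma lev_eq (g : Str → ℕ → Str → Prop) (v ξ : Str) :
    lev g v ξ = (open Classical in ((Finset.range v.length).filter fun n => g v n ξ)).card := by
  classical
  rfl

lemma lt_lev (anti : ∀ v m n ξ, m ≤ n → g v n ξ → g v m ξ)
    (small : ∀ v m ξ, g v m ξ → m < v.length) {v ξ : Str} {a : ℕ} (h : g v a ξ) :
    a + 1 ≤ lev g v ξ := by
  classical
  rw [lev_eq]
  have h1 : Finset.range (a + 1) ⊆ (Finset.range v.length).filter fun n => g v n ξ := by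
    intro n hn
    rw [Finset.mem_range] at hn
    rw [Finset.mem_filter, Finset.mem_range]
    have hs := small v a ξ h
    exact ⟨by omega, anti v n a ξ (by omega) h⟩
  have h2 := Finset.card_le_card h1
  rw [Finset.card_range] at h2
  convert h2

lemma of_lt_lev (anti : ∀ v m n ξ, m ≤ n → g v n ξ → g v m ξ) {v ξ : Str} {a : ℕ}
    (h : a + 1 ≤ lev g v ξ) : g v a ξ := by
  classical
  by_contra hc
  rw [lev_eq] at h
  have h1 : ((Finset.range v.length).filter fun n => g v n ξ) ⊆ Finset.range a := by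
    intro n hn
    rw [Finset.mem_filter] at hn
    rw [Finset.mem_range]
    by_contra hn'
    exact hc (anti v a n ξ (by omega) hn.2)
  have h2 := Finset.card_le_card h1
  rw [Finset.card_range] at h2
  have h3 : a + 1 ≤ a := le_trans (by convert h) h2
  omega

lemma before_total {v ξ ξ' : Str} (h : ξ ≠ ξ') : Before g v ξ ξ' ∨ Before g v ξ' ξ := by
  unfold Before
  rcases lt_trichotomy (lev g v ξ) (lev g v ξ') with h1 | h1 | h1
  · exact Or.inr (Or.inl h1)
  · have h2 : encode ξ ≠ encode ξ' := fun he => h (encode_injective he)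
    rcases lt_or_gt_of_ne h2 with h3 | h3
    · exact Or.inl (Or.inr ⟨h1.symm, h3⟩)
    · exact Or.inr (Or.inr ⟨h1, h3⟩)
  · exact Or.inl (Or.inl h1)

lemma before_irrefl {v ξ : Str} : ¬ Before g v ξ ξ := by
  unfold Before
  omega

lemma before_trans {v x y z : Str} (h1 : Before g v x y) (h2 : Before g v y z) :
    Before g v x z := by
  unfold Before at *
  omega

lemma before_lev {v ξ ξ' : Str} (h : Before g v ξ' ξ) : lev g v ξ ≤ lev g v ξ' := by
  unfold Before at h
  omega

lemma before_g (anti : ∀ v m n ξ, m ≤ n → g v n ξ → g v m ξ)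
    (small : ∀ v m ξ, g v m ξ → m < v.length) {v ξ ξ' : Str} {a : ℕ} (h : g v a ξ)
    (hb : Before g v ξ' ξ) : g v a ξ' :=
  of_lt_lev anti ((lt_lev anti small h).trans (before_lev hb))

variable {Bp : ℕ → Str → Str → Prop}

/-- the rank of a string -/
noncomputable def rk (g : Str → ℕ → Str → Prop) (Bp : ℕ → Str → Str → Prop) (m : ℕ) (v ξ : Str) :
    ℕ := num v.length (fun ξ' => Alive g Bp m v ξ' ∧ Before g v ξ' ξ)

lemma rk_lt {m : ℕ} {v ξ ξ' : Str} (hl : ξ.length = v.length) (ha : Alive g Bp m v ξ)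
    (hb : Before g v ξ ξ') : rk g Bp m v ξ < rk g Bp m v ξ' := by
  unfold rk
  rw [num_eq, num_eq]
  refine Finset.card_lt_card ?_
  rw [Finset.ssubset_iff_of_subset]
  · refine ⟨ξ, mem_FS.2 ⟨hl, ha, hb⟩, fun h => ?_⟩
    exact before_irrefl (mem_FS.1 h).2.2
  · intro x hx
    rw [mem_FS] at hx ⊢
    exact ⟨hx.1, hx.2.1, before_trans hx.2.2 hb⟩

lemma rk_inj {m : ℕ} {v ξ ξ' : Str} (hl : ξ.length = v.length) (ha : Alive g Bp m v ξ)
    (hl' : ξ'.length = v.length) (ha' : Alive g Bp m v ξ')
    (h : rk g Bp m v ξ = rk g Bp m v ξ') : ξ = ξ' := by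
  by_contra hne
  rcases before_total (g := g) (v := v) hne with hb | hb
  · have := rk_lt hl ha hb
    omega
  · have := rk_lt hl' ha' hb
    omega

end OrdL

open OrdL

theorem s_Nest : S_Nest := by
  intro g q Bp anti small hA m
  have key : ∀ (N : ℕ) (v ξ : Str), v.length = N → Bp (m + 1) v ξ →
      ∃ t ≤ v.length, Bp m (v.take t) (ξ.take t) := by
    intro N
    induction N using Nat.strong_induction_on with
    | _ N ih =>
      intro v ξ hN hB
      by_contra hcon
      push Not at hcon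
      obtain ⟨hl, hal, hnum⟩ := (hA (m + 1) v ξ).1 hB
      have hB' : Bp m v ξ := by
        rw [hA]
        refine ⟨hl, ⟨anti v m (m + 1) ξ (by omega) hal.1, fun t ht => hcon t ht.le⟩, ?_⟩
        refine lt_of_le_of_lt (num_mono fun ξ' hl' h => ?_) hnum
        obtain ⟨ha', hb'⟩ := h
        refine ⟨⟨before_g anti small hal.1 hb', fun t ht hBt => ?_⟩, hb'⟩
        have htl : (v.take t).length = t := by rw [List.length_take]; omega
        obtain ⟨s, hs, hBs⟩ := ih t (by omega) (v.take t) (ξ'.take t) htl hBt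
        rw [htl] at hs
        rw [List.take_take, List.take_take, min_eq_left hs] at hBs
        exact ha'.2 s (by omega) hBs
      have h1 := hcon v.length le_rfl
      rw [List.take_length, ← hl, List.take_length] at h1
      exact h1 hB'
  intro v ξ hB
  exact key v.length v ξ rfl hB

theorem s_Cnt : S_Cnt := by
  intro g q Bp hA m v
  classical
  rw [num_eq, ← Finset.card_range (q v.length)]
  refine Finset.card_le_card_of_injOn (fun ξ => rk g Bp m v ξ) ?_ ?_
  · intro ξ hξ
    have h := (hA m v ξ).1 (mem_FS.1 (Finset.mem_coe.1 hξ)).2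
    exact Finset.mem_coe.2 (Finset.mem_range.2 h.2.2)
  · intro ξ hξ ξ' hξ' he
    have h := (hA m v ξ).1 (mem_FS.1 (Finset.mem_coe.1 hξ)).2
    have h' := (hA m v ξ').1 (mem_FS.1 (Finset.mem_coe.1 hξ')).2
    exact rk_inj h.1 h.2.1 h'.1 h'.2.1 he

theorem s_Pri : S_Pri := by
  intro g q Bp anti small hA m a v
  classical
  set K : Finset Str := FS v.length (fun ξ => Alive g Bp m v ξ ∧ g v a ξ) with hK
  have hrk : ∀ ξ ∈ K, rk g Bp m v ξ < K.card := by
    intro ξ hξ
    obtain ⟨hl, ha, hg⟩ := mem_FS.1 hξ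
    have h1 : rk g Bp m v ξ ≤ (K.erase ξ).card := by
      unfold rk
      rw [num_eq]
      refine Finset.card_le_card (fun x hx => ?_)
      obtain ⟨hxl, hxa, hxb⟩ := mem_FS.1 hx
      refine Finset.mem_erase.2 ⟨?_, mem_FS.2 ⟨hxl, hxa, before_g anti small hg hxb⟩⟩
      rintro rfl
      exact before_irrefl hxb
    rw [Finset.card_erase_of_mem hξ] at h1
    have h2 : 0 < K.card := Finset.card_pos.2 ⟨ξ, hξ⟩
    omega
  rcases le_or_gt K.card (q v.length) with hk | hk
  · left
    intro ξ hl ha hg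
    rw [hA]
    exact ⟨hl, ha, lt_of_lt_of_le (hrk ξ (mem_FS.2 ⟨hl, ha, hg⟩)) hk⟩
  · right
    have hinj : Set.InjOn (fun ξ => rk g Bp m v ξ) (K : Set Str) := by
      intro ξ hξ ξ' hξ' he
      have h := mem_FS.1 (Finset.mem_coe.1 hξ)
      have h' := mem_FS.1 (Finset.mem_coe.1 hξ')
      exact rk_inj h.1 h.2.1 h'.1 h'.2.1 he
    have himg : K.image (fun ξ => rk g Bp m v ξ) = Finset.range K.card := by
      refine Finset.eq_of_subset_of_card_le ?_ ?_
      · intro x hx
        obtain ⟨ξ, hξ, rfl⟩ := Finset.mem_image.1 hx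
        exact Finset.mem_range.2 (hrk ξ hξ)
      · rw [Finset.card_image_of_injOn hinj, Finset.card_range]
    have hsub : Finset.range (q v.length) ⊆
        (FS v.length (fun ξ => Bp m v ξ ∧ g v a ξ)).image (fun ξ => rk g Bp m v ξ) := by
      intro x hx
      have hx' := Finset.mem_range.1 hx
      have hxK : x ∈ K.image (fun ξ => rk g Bp m v ξ) := by
        rw [himg, Finset.mem_range]
        omega
      obtain ⟨ξ, hξ, rfl⟩ := Finset.mem_image.1 hxK
      obtain ⟨hl, ha, hg⟩ := mem_FS.1 hξ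
      refine Finset.mem_image.2 ⟨ξ, mem_FS.2 ⟨hl, ?_, hg⟩, rfl⟩
      rw [hA]
      exact ⟨hl, ha, hx'⟩
    rw [num_eq]
    have h1 := Finset.card_le_card hsub
    rw [Finset.card_range] at h1
    exact h1.trans Finset.card_image_le

end Pool.Agent.H709.OW
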