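import Pool.Agent.H709.OW.Props

set_option autoImplicit false

/-!
helper709's project, leaf `Pr` (helper127): primitive recursiveness of the specification.
-/

namespace Pool.Agent.H709.OW

open Pool.Agent.Helper227 MeasureTheory Encodable
open GR

namespace PrL

variable {α : Type} [Primcodable α]

theorem sum_range {n : α → ℕ} {f : α → ℕ → ℕ} (hn : Primrec n) (hf : Primrec₂ f) :
    Primrec fun x => ∑ u ∈ Finset.range (n x), f x u := by
  have h : Primrec fun x => (Nat.rec 0 (fun u acc => acc + f x u) (n x) : ℕ) :=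
    Primrec.nat_rec' (h := fun x (p : ℕ × ℕ) => p.2 + f x p.1) hn (Primrec.const 0)
      (Primrec.nat_add.comp (Primrec.snd.comp Primrec.snd)
        (hf.comp Primrec.fst (Primrec.fst.comp Primrec.snd)))
  refine h.of_eq fun x => ?_
  induction n x with
  | zero => simp
  | succ k ih => rw [Finset.sum_range_succ, ← ih]

theorem two_pow : Primrec fun n : ℕ => 2 ^ n := by
  have h : Primrec fun n : ℕ => (Nat.rec 1 (fun _ acc => acc * 2) n : ℕ) :=
    Primrec.nat_rec' (h := fun _ (p : ℕ × ℕ) => p.2 * 2) Primrec.id (Primrec.const 1)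
      (Primrec.nat_mul.comp (Primrec.snd.comp Primrec.snd) (Primrec.const 2))
  refine h.of_eq fun n => ?_
  induction n with
  | zero => rfl
  | succ k ih => rw [pow_succ, ← ih]

theorem imp {p q : α → Prop} (hp : PrimrecPred p) (hq : PrimrecPred q) :
    PrimrecPred fun x => p x → q x :=
  (hp.not.or hq).of_eq fun x => by rw [imp_iff_not_or]

/-! ### the components of the history -/

variable {h : α → List Rec} {s i u : α → ℕ} {L : α → List Str}

theorem pr_seq (hh : Primrec h) (hu : Primrec u) : Primrec fun x => seqOf (h x) (u x) :=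
  (Primrec.list_getD _).comp hh hu

theorem pr_al (hh : Primrec h) (hu : Primrec u) : Primrec fun x => al (seqOf (h x)) (u x) :=
  Primrec.fst.comp (Primrec.fst.comp (pr_seq hh hu))

theorem pr_ps (hh : Primrec h) (hu : Primrec u) : Primrec fun x => ps (seqOf (h x)) (u x) :=
  Primrec.fst.comp (Primrec.snd.comp (pr_seq hh hu))

theorem pr_ld (hh : Primrec h) (hu : Primrec u) : Primrec fun x => ld (seqOf (h x)) (u x) :=
  Primrec.snd.comp (Primrec.snd.comp (pr_seq hh hu))

theorem pr_el : Primrec el :=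
  Primrec.fst.comp (Primrec.unpair.comp Primrec.list_length)

open Classical in
theorem st_eq (R : ℕ → Rec) (s i : ℕ) (L : List Str) :
    st R s i L = s - Nat.findGreatest (fun k => ∀ u < s, s - k ≤ u → (ps R u).take i = L) s := by
  have hst : ∀ u, st R s i L ≤ u → u < s → (ps R u).take i = L := by
    unfold st
    exact Nat.find_spec (p := fun t => ∀ u, t ≤ u → u < s → (ps R u).take i = L) _
  have hmin : ∀ t, (∀ u, t ≤ u → u < s → (ps R u).take i = L) → st R s i L ≤ t := by
    intro t ht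
    unfold st
    exact Nat.find_min' _ ht
  have hle : st R s i L ≤ s := hmin s fun _ h1 h2 => absurd h1 (Nat.not_le.2 h2)
  apply le_antisymm
  · apply hmin
    have h1 := Nat.findGreatest_spec (P := fun k => ∀ u < s, s - k ≤ u → (ps R u).take i = L)
      (Nat.zero_le s) (fun u hu h2 => by omega)
    exact fun u h2 h3 => h1 u h3 h2
  · have h1 := Nat.le_findGreatest (P := fun k => ∀ u < s, s - k ≤ u → (ps R u).take i = L)
      (m := s - st R s i L) (n := s) (Nat.sub_le _ _) (fun u h2 h3 => hst u (by omega) h2)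
    omega

theorem pr_st (hh : Primrec h) (hs : Primrec s) (hi : Primrec i) (hL : Primrec L) :
    Primrec fun x => st (seqOf (h x)) (s x) (i x) (L x) := by
  classical
  have h1 : PrimrecRel fun (x : α) (k : ℕ) =>
      ∀ u < s x, s x - k ≤ u → (ps (seqOf (h x)) u).take (i x) = L x := by
    refine PP.all_lt (α := α × ℕ) (f := fun y => s y.1)
      (p := fun y u => s y.1 - y.2 ≤ u → (ps (seqOf (h y.1)) u).take (i y.1) = L y.1) ?_
      (hs.comp Primrec.fst)
    refine imp (Primrec.nat_le.comp (Primrec.nat_sub.comp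
      (hs.comp (Primrec.fst.comp Primrec.fst)) (Primrec.snd.comp Primrec.fst)) Primrec.snd) ?_
    exact Primrec.eq.comp (Primrec.list_take.comp (hi.comp (Primrec.fst.comp Primrec.fst))
      (pr_ps (hh.comp (Primrec.fst.comp Primrec.fst)) Primrec.snd))
      (hL.comp (Primrec.fst.comp Primrec.fst))
  have h2 := Primrec.nat_findGreatest hs h1
  exact (Primrec.nat_sub.comp hs h2).of_eq fun x => (st_eq _ _ _ _).symm

/-! ### integer versions of the sums -/

/-- `2^M wt o` -/
def wN (M : ℕ) (o : Option ℕ) : ℕ := o.elim 0 fun q => 2 ^ (M - q)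

theorem wt_eq {M : ℕ} {o : Option ℕ} (ho : ∀ q, o = some q → q ≤ M) :
    wt o = (wN M o : ℝ) / 2 ^ M := by
  cases o with
  | none => simp [wt, wN]
  | some q =>
    have h1 := ho q rfl
    simp only [wt, wN, Option.elim_some]
    rw [eq_div_iff (by positivity)]
    push_cast
    rw [one_div_pow, one_div_mul_eq_div, div_eq_iff (by positivity), ← pow_add]
    congr 1; omega

theorem pr_wN : Primrec₂ wN := by
  have h1 : Primrec fun x : ℕ × Option ℕ => (x.2.casesOn 0 fun q => 2 ^ (x.1 - q) : ℕ) :=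
    Primrec.option_casesOn (g := fun (x : ℕ × Option ℕ) (q : ℕ) => 2 ^ (x.1 - q))
      Primrec.snd (Primrec.const 0) (two_pow.comp (Primrec.nat_sub.comp
        (Primrec.fst.comp Primrec.fst) Primrec.snd))
  refine h1.of_eq fun x => ?_
  unfold wN
  cases x.2 <;> rfl

/-- a bound for the exponents -/
def mx (R : ℕ → Rec) (s : ℕ) : ℕ := ∑ u ∈ Finset.range s, (ld R u).getD 0

theorem le_mx {R : ℕ → Rec} {s u q : ℕ} (hu : u < s) (hq : ld R u = some q) : q ≤ mx R s := by
  have h1 := Finset.single_le_sum (f := fun u => (ld R u).getD 0) (fun _ _ => Nat.zero_le _)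
    (Finset.mem_range.2 hu)
  simp only [hq, Option.getD_some] at h1
  exact h1

theorem pr_mx (hh : Primrec h) (hs : Primrec s) : Primrec fun x => mx (seqOf (h x)) (s x) :=
  sum_range (f := fun x u => (ld (seqOf (h x)) u).getD 0) hs
    (Primrec.option_getD.comp (pr_ld (hh.comp Primrec.fst) Primrec.snd) (Primrec.const 0))

/-- `2^M fed` -/
noncomputable def fedN (R : ℕ → Rec) (s i : ℕ) (L : List Str) (x M : ℕ) : ℕ :=
  open Classical in ∑ u ∈ Finset.range s,
    if st R s i L ≤ u ∧ ((ps R u)[i]?).map el = some x then wN M (ld R u) else 0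

theorem fed_eq {R : ℕ → Rec} {s i : ℕ} {L : List Str} {x M : ℕ}
    (hM : ∀ u < s, ∀ q, ld R u = some q → q ≤ M) :
    fed R s i L x = (fedN R s i L x M : ℝ) / 2 ^ M := by
  classical
  unfold fed fedN
  push_cast
  rw [Finset.sum_div]
  have h1 : Finset.Ico (st R s i L) s = (Finset.range s).filter (fun u => st R s i L ≤ u) := by
    ext u; simp only [Finset.mem_Ico, Finset.mem_filter, Finset.mem_range]; tauto
  rw [h1, Finset.sum_filter]
  refine Finset.sum_congr rfl fun u hu => ?_
  rw [Finset.mem_range] at hu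
  by_cases h2 : st R s i L ≤ u
  · by_cases h3 : ((ps R u)[i]?).map el = some x
    · rw [if_pos h2, if_pos h3, if_pos ⟨h2, h3⟩, wt_eq (hM u hu)]
    · rw [if_pos h2, if_neg h3, if_neg (fun h => h3 h.2)]; simp
  · rw [if_neg h2, if_neg (fun h => h2 h.1)]; simp

theorem pr_fedN {x M : α → ℕ} (hh : Primrec h) (hs : Primrec s) (hi : Primrec i) (hL : Primrec L)
    (hx : Primrec x) (hM : Primrec M) :
    Primrec fun a => fedN (seqOf (h a)) (s a) (i a) (L a) (x a) (M a) := by
  classical
  unfold fedN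
  refine (sum_range (f := fun a u => if st (seqOf (h a)) (s a) (i a) (L a) ≤ u ∧
    ((ps (seqOf (h a)) u)[i a]?).map el = some (x a) then wN (M a) (ld (seqOf (h a)) u) else 0)
    hs ?_).of_eq fun a => ?_
  · have hst := (pr_st hh hs hi hL).comp (Primrec.fst (α := α) (β := ℕ))
    have hps := pr_ps (hh.comp (Primrec.fst (α := α) (β := ℕ))) Primrec.snd
    have hld := pr_ld (hh.comp (Primrec.fst (α := α) (β := ℕ))) Primrec.snd
    refine Primrec.ite (PrimrecPred.and (Primrec.nat_le.comp hst Primrec.snd) ?_) ?_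
      (Primrec.const 0)
    · refine Primrec.eq.comp (Primrec.option_map (Primrec.list_getElem?.comp hps
        (hi.comp Primrec.fst)) (pr_el.comp Primrec.snd).to₂) ?_
      exact Primrec.option_some.comp (hx.comp Primrec.fst)
    · exact pr_wN.comp (hM.comp Primrec.fst) hld
  · refine Finset.sum_congr rfl fun u _ => ?_
    congr

theorem cmp (N M e : ℕ) (he : e ≤ M) : (1 / 2 : ℝ) ^ e ≤ (N : ℝ) / 2 ^ M ↔ 2 ^ (M - e) ≤ N := by
  rw [le_div_iff₀ (by positivity)]
  have h1 : (1 / 2 : ℝ) ^ e * 2 ^ M = ((2 ^ (M - e) : ℕ) : ℝ) := by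
    push_cast
    rw [one_div_pow, one_div_mul_eq_div, div_eq_iff (by positivity), ← pow_add]
    congr 1; omega
  rw [h1]
  exact Nat.cast_le

theorem prF {x e : α → ℕ} (hh : Primrec h) (hs : Primrec s) (hi : Primrec i) (hL : Primrec L)
    (hx : Primrec x) (he : Primrec e) :
    PrimrecPred fun a => (1 / 2 : ℝ) ^ e a ≤ fed (seqOf (h a)) (s a) (i a) (L a) (x a) := by
  have hM : Primrec fun a => mx (seqOf (h a)) (s a) + e a := Primrec.nat_add.comp (pr_mx hh hs) he
  have h1 : PrimrecPred fun a => 2 ^ (mx (seqOf (h a)) (s a) + e a - e a) ≤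
      fedN (seqOf (h a)) (s a) (i a) (L a) (x a) (mx (seqOf (h a)) (s a) + e a) :=
    Primrec.nat_le.comp (two_pow.comp (Primrec.nat_sub.comp hM he))
      (pr_fedN hh hs hi hL hx hM)
  refine h1.of_eq fun a => ?_
  rw [fed_eq (M := mx (seqOf (h a)) (s a) + e a)
    (fun u hu q hq => (le_mx hu hq).trans (Nat.le_add_right _ _)), cmp _ _ _ (Nat.le_add_left _ _)]

theorem tot_eq {R : ℕ → Rec} {s M : ℕ} (hM : ∀ u < s, ∀ q, ld R u = some q → q ≤ M) :
    tot R s = ((∑ u ∈ Finset.range s, wN M (ld R u) : ℕ) : ℝ) / 2 ^ M := by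
  unfold tot
  push_cast
  rw [Finset.sum_div]
  exact Finset.sum_congr rfl fun u hu => wt_eq (hM u (Finset.mem_range.1 hu))

theorem pr_tot (hh : Primrec h) (hs : Primrec s) :
    PrimrecPred fun a => tot (seqOf (h a)) (s a) < 1 := by
  have hM := pr_mx hh hs
  have h1 : PrimrecPred fun a => ¬ 2 ^ mx (seqOf (h a)) (s a) ≤
      ∑ u ∈ Finset.range (s a), wN (mx (seqOf (h a)) (s a)) (ld (seqOf (h a)) u) := by
    refine PrimrecPred.not (Primrec.nat_le.comp (two_pow.comp hM) ?_)
    exact sum_range (f := fun a u => wN (mx (seqOf (h a)) (s a)) (ld (seqOf (h a)) u)) hs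
      (pr_wN.comp (hM.comp Primrec.fst) (pr_ld (hh.comp Primrec.fst) Primrec.snd))
  refine h1.of_eq fun a => ?_
  rw [tot_eq (M := mx (seqOf (h a)) (s a)) (fun u hu q hq => le_mx hu hq), ← not_le]
  have := cmp (∑ u ∈ Finset.range (s a), wN (mx (seqOf (h a)) (s a)) (ld (seqOf (h a)) u))
    (mx (seqOf (h a)) (s a)) 0 (Nat.zero_le _)
  rw [pow_zero, Nat.sub_zero] at this
  rw [this]

/-! ### the specification -/

variable {ω : ℕ → ℕ} {en : Str → Prop}

theorem pr_qu {x : α → ℕ} (hω : Primrec ω) (hh : Primrec h) (hs : Primrec s) (hi : Primrec i)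
    (hL : Primrec L) (hx : Primrec x) :
    Primrec fun a => qu (seqOf (h a)) ω (s a) (i a) (L a) (x a) :=
  Primrec.nat_add.comp (Primrec.nat_add.comp (Primrec.nat_add.comp hi (pr_st hh hs hi hL))
    (Primrec.const 3)) (hω.comp hx)

theorem pr_hungry {τ : α → Str} (hω : Primrec ω) (hen : PrimrecPred en) (hh : Primrec h)
    (hs : Primrec s) (hi : Primrec i) (hL : Primrec L) (hτ : Primrec τ) :
    PrimrecPred fun a => Hungry (seqOf (h a)) ω en (s a) (i a) (L a) (τ a) := by
  refine ((hen.comp hτ).and (prF hh hs hi hL (pr_el.comp hτ)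
    (pr_qu hω hh hs hi hL (pr_el.comp hτ))).not).of_eq fun a => ?_
  rw [not_le]
  rfl

theorem psAt_iff (R : ℕ → Rec) (ω : ℕ → ℕ) (en : Str → Prop) (r s : ℕ) : PsAt R ω en r s ↔
    (al R s).length = s ∧ (ps R s).length ≤ r + 1 ∧
    (∀ i < (ps R s).length, ((al R s).take ((ps R s).getD i []).length = (ps R s).getD i [] ∧
      Hungry R ω en s i ((ps R s).take i) ((ps R s).getD i [])) ∧
      ∀ j < (al R s).length + 1, ((al R s).take j).length < ((ps R s).getD i []).length →
        ¬ Hungry R ω en s i ((ps R s).take i) ((al R s).take j)) ∧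
    ((ps R s).length < r + 1 → ∀ j < (al R s).length + 1,
      ¬ Hungry R ω en s (ps R s).length (ps R s) ((al R s).take j)) := by
  have hpre : ∀ {τ : Str} {P : Str → Prop}, (∀ τ, τ <+: al R s → P τ) ↔
      ∀ j < (al R s).length + 1, P ((al R s).take j) := by
    intro _ P
    constructor
    · exact fun h j _ => h _ (List.take_prefix _ _)
    · intro h τ hτ
      have h1 := h τ.length (Nat.lt_succ_of_le hτ.length_le)
      rwa [← List.prefix_iff_eq_take.1 hτ] at h1
  have hp2 : ∀ τ : Str, τ <+: al R s ↔ (al R s).take τ.length = τ := fun τ => by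
    rw [List.prefix_iff_eq_take]; exact eq_comm
  constructor
  · intro h
    refine ⟨h.len, h.le, ?_, ?_⟩
    · intro i hi
      have h1 := h.mem i hi
      rw [List.getD_eq_getElem _ _ hi]
      refine ⟨⟨(hp2 _).1 h1.1, h1.2⟩, ?_⟩
      intro j _
      exact h.min i hi _ (List.take_prefix _ _)
    · intro h1 j _
      exact h.max h1 _ (List.take_prefix _ _)
  · rintro ⟨h1, h2, h3, h4⟩
    refine ⟨h1, h2, ?_, ?_, ?_⟩
    · intro i hi
      have h5 := (h3 i hi).1
      rw [List.getD_eq_getElem _ _ hi] at h5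
      exact ⟨(hp2 _).2 h5.1, h5.2⟩
    · intro i hi τ hτ hl
      have h5 := (h3 i hi).2 τ.length (Nat.lt_succ_of_le hτ.length_le)
      rw [List.getD_eq_getElem _ _ hi, (hp2 τ).1 hτ] at h5
      exact h5 hl
    · intro h5 τ hτ
      have h6 := h4 h5 τ.length (Nat.lt_succ_of_le hτ.length_le)
      rwa [(hp2 τ).1 hτ] at h6

theorem pr_psAt {r : α → ℕ} (hω : Primrec ω) (hen : PrimrecPred en) (hh : Primrec h)
    (hs : Primrec s) (hr : Primrec r) :
    PrimrecPred fun a => PsAt (seqOf (h a)) ω en (r a) (s a) := by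
  have hps := pr_ps hh hs
  have hal := pr_al hh hs
  have h1 : PrimrecPred fun a => (al (seqOf (h a)) (s a)).length = s a :=
    Primrec.eq.comp (Primrec.list_length.comp hal) hs
  have h2 : PrimrecPred fun a => (ps (seqOf (h a)) (s a)).length ≤ r a + 1 :=
    Primrec.nat_le.comp (Primrec.list_length.comp hps) (Primrec.succ.comp hr)
  have hgd : Primrec fun y : α × ℕ => (ps (seqOf (h y.1)) (s y.1)).getD y.2 [] :=
    (Primrec.list_getD []).comp (hps.comp Primrec.fst) Primrec.snd
  have htk : Primrec fun y : α × ℕ => (ps (seqOf (h y.1)) (s y.1)).take y.2 :=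
    Primrec.list_take.comp Primrec.snd (hps.comp Primrec.fst)
  have hta : Primrec fun y : α × ℕ => (al (seqOf (h y.1)) (s y.1)).take y.2 :=
    Primrec.list_take.comp Primrec.snd (hal.comp Primrec.fst)
  have h3 : PrimrecPred fun a => ∀ i < (ps (seqOf (h a)) (s a)).length,
      ((al (seqOf (h a)) (s a)).take ((ps (seqOf (h a)) (s a)).getD i []).length =
        (ps (seqOf (h a)) (s a)).getD i [] ∧
      Hungry (seqOf (h a)) ω en (s a) i ((ps (seqOf (h a)) (s a)).take i)
        ((ps (seqOf (h a)) (s a)).getD i [])) ∧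
      ∀ j < (al (seqOf (h a)) (s a)).length + 1, ((al (seqOf (h a)) (s a)).take j).length <
        ((ps (seqOf (h a)) (s a)).getD i []).length →
        ¬ Hungry (seqOf (h a)) ω en (s a) i ((ps (seqOf (h a)) (s a)).take i)
          ((al (seqOf (h a)) (s a)).take j) := by
    refine PP.all_lt (α := α) (f := fun a => (ps (seqOf (h a)) (s a)).length)
      (p := fun a i => ((al (seqOf (h a)) (s a)).take ((ps (seqOf (h a)) (s a)).getD i []).length =
        (ps (seqOf (h a)) (s a)).getD i [] ∧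
      Hungry (seqOf (h a)) ω en (s a) i ((ps (seqOf (h a)) (s a)).take i)
        ((ps (seqOf (h a)) (s a)).getD i [])) ∧
      ∀ j < (al (seqOf (h a)) (s a)).length + 1, ((al (seqOf (h a)) (s a)).take j).length <
        ((ps (seqOf (h a)) (s a)).getD i []).length →
        ¬ Hungry (seqOf (h a)) ω en (s a) i ((ps (seqOf (h a)) (s a)).take i)
          ((al (seqOf (h a)) (s a)).take j)) ?_ (Primrec.list_length.comp hps)
    refine PrimrecPred.and (PrimrecPred.and ?_ ?_) ?_
    · exact Primrec.eq.comp (Primrec.list_take.comp (Primrec.list_length.comp hgd)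
        (hal.comp Primrec.fst)) hgd
    · exact pr_hungry hω hen (hh.comp Primrec.fst) (hs.comp Primrec.fst) Primrec.snd htk hgd
    · refine PP.all_lt (α := α × ℕ) (f := fun y => (al (seqOf (h y.1)) (s y.1)).length + 1)
        (p := fun y j => ((al (seqOf (h y.1)) (s y.1)).take j).length <
          ((ps (seqOf (h y.1)) (s y.1)).getD y.2 []).length →
          ¬ Hungry (seqOf (h y.1)) ω en (s y.1) y.2 ((ps (seqOf (h y.1)) (s y.1)).take y.2)
          ((al (seqOf (h y.1)) (s y.1)).take j)) ?_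
        (Primrec.succ.comp (Primrec.list_length.comp (hal.comp Primrec.fst)))
      have hta' : Primrec fun z : (α × ℕ) × ℕ => (al (seqOf (h z.1.1)) (s z.1.1)).take z.2 :=
        hta.comp ((Primrec.fst.comp Primrec.fst).pair Primrec.snd)
      refine imp (Primrec.nat_lt.comp (Primrec.list_length.comp hta')
        (Primrec.list_length.comp (hgd.comp Primrec.fst))) (PrimrecPred.not ?_)
      exact pr_hungry hω hen (hh.comp (Primrec.fst.comp Primrec.fst))
        (hs.comp (Primrec.fst.comp Primrec.fst)) (Primrec.snd.comp Primrec.fst)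
        (htk.comp Primrec.fst) hta'
  have h4 : PrimrecPred fun a => ((ps (seqOf (h a)) (s a)).length < r a + 1 →
      ∀ j < (al (seqOf (h a)) (s a)).length + 1,
      ¬ Hungry (seqOf (h a)) ω en (s a) (ps (seqOf (h a)) (s a)).length (ps (seqOf (h a)) (s a))
        ((al (seqOf (h a)) (s a)).take j)) := by
    refine imp (Primrec.nat_lt.comp (Primrec.list_length.comp hps) (Primrec.succ.comp hr)) ?_
    refine PP.all_lt (α := α) (f := fun a => (al (seqOf (h a)) (s a)).length + 1)
      (p := fun a j => ¬ Hungry (seqOf (h a)) ω en (s a) (ps (seqOf (h a)) (s a)).length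
        (ps (seqOf (h a)) (s a)) ((al (seqOf (h a)) (s a)).take j)) (PrimrecPred.not ?_)
      (Primrec.succ.comp (Primrec.list_length.comp hal))
    exact pr_hungry hω hen (hh.comp Primrec.fst) (hs.comp Primrec.fst)
      (Primrec.list_length.comp (hps.comp Primrec.fst)) (hps.comp Primrec.fst) hta
  exact (h1.and (h2.and (h3.and h4))).of_eq fun a => (psAt_iff _ _ _ _ _).symm

theorem ldAt_iff (R : ℕ → Rec) (ω : ℕ → ℕ) (r s : ℕ) : LdAt R ω r s ↔
    (¬ ((ps R s).length = r + 1 ∧ tot R s < 1) → ld R s = none) ∧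
    ((ps R s).length = r + 1 → tot R s < 1 → ∃ q ∈ (ld R s).toList,
      (∀ u < s, ∀ q' ∈ (ld R u).toList, q' ≤ q) ∧
      (∀ i < r + 1, qu R ω s i ((ps R s).take i) (el ((ps R s).getD i [])) ≤ q) ∧
      ((∃ u < s, ld R u = some q) ∨
        ∃ i < r + 1, qu R ω s i ((ps R s).take i) (el ((ps R s).getD i [])) = q)) := by
  simp only [Option.mem_toList, Nat.lt_succ_iff]
  constructor
  · exact fun h => ⟨h.none, fun h1 h2 => h.some h1 h2⟩
  · exact fun h => ⟨h.1, fun h1 h2 => h.2 h1 h2⟩

theorem pr_toList : Primrec (fun o : Option ℕ => o.toList) := by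
  have h1 : Primrec fun o : Option ℕ => (o.casesOn [] fun q => [q] : List ℕ) :=
    Primrec.option_casesOn (g := fun (_ : Option ℕ) (q : ℕ) => [q]) Primrec.id (Primrec.const [])
      (Primrec.list_cons.comp Primrec.snd (Primrec.const []))
  exact h1.of_eq fun o => by cases o <;> rfl

theorem pr_ldAt {r : α → ℕ} (hω : Primrec ω) (hh : Primrec h)
    (hs : Primrec s) (hr : Primrec r) :
    PrimrecPred fun a => LdAt (seqOf (h a)) ω (r a) (s a) := by
  have hps := pr_ps hh hs
  have hld := pr_ld hh hs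
  have hlen : PrimrecPred fun a => (ps (seqOf (h a)) (s a)).length = r a + 1 :=
    Primrec.eq.comp (Primrec.list_length.comp hps) (Primrec.succ.comp hr)
  have htot := pr_tot hh hs
  have hqu : Primrec fun y : α × ℕ => qu (seqOf (h y.1)) ω (s y.1) y.2
      ((ps (seqOf (h y.1)) (s y.1)).take y.2) (el ((ps (seqOf (h y.1)) (s y.1)).getD y.2 [])) :=
    pr_qu hω (hh.comp Primrec.fst) (hs.comp Primrec.fst) Primrec.snd
      (Primrec.list_take.comp Primrec.snd (hps.comp Primrec.fst))
      (pr_el.comp ((Primrec.list_getD []).comp (hps.comp Primrec.fst) Primrec.snd))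
  have h1 : PrimrecPred fun a => (¬ ((ps (seqOf (h a)) (s a)).length = r a + 1 ∧
      tot (seqOf (h a)) (s a) < 1) → ld (seqOf (h a)) (s a) = none) :=
    imp (hlen.and htot).not (Primrec.eq.comp hld (Primrec.const none))
  have h2 : PrimrecPred fun a => ((ps (seqOf (h a)) (s a)).length = r a + 1 →
      tot (seqOf (h a)) (s a) < 1 → ∃ q ∈ (ld (seqOf (h a)) (s a)).toList,
      (∀ u < s a, ∀ q' ∈ (ld (seqOf (h a)) u).toList, q' ≤ q) ∧
      (∀ i < r a + 1, qu (seqOf (h a)) ω (s a) i ((ps (seqOf (h a)) (s a)).take i)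
        (el ((ps (seqOf (h a)) (s a)).getD i [])) ≤ q) ∧
      ((∃ u < s a, ld (seqOf (h a)) u = some q) ∨
        ∃ i < r a + 1, qu (seqOf (h a)) ω (s a) i ((ps (seqOf (h a)) (s a)).take i)
          (el ((ps (seqOf (h a)) (s a)).getD i [])) = q)) := by
    refine imp hlen (imp htot ?_)
    refine PP.ex_mem (α := α) (β := ℕ) (f := fun a => (ld (seqOf (h a)) (s a)).toList)
      (p := fun a q => (∀ u < s a, ∀ q' ∈ (ld (seqOf (h a)) u).toList, q' ≤ q) ∧
      (∀ i < r a + 1, qu (seqOf (h a)) ω (s a) i ((ps (seqOf (h a)) (s a)).take i)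
        (el ((ps (seqOf (h a)) (s a)).getD i [])) ≤ q) ∧
      ((∃ u < s a, ld (seqOf (h a)) u = some q) ∨
        ∃ i < r a + 1, qu (seqOf (h a)) ω (s a) i ((ps (seqOf (h a)) (s a)).take i)
          (el ((ps (seqOf (h a)) (s a)).getD i [])) = q)) ?_ (pr_toList.comp hld)
    have hqu' : Primrec fun z : (α × ℕ) × ℕ => qu (seqOf (h z.1.1)) ω (s z.1.1) z.2
        ((ps (seqOf (h z.1.1)) (s z.1.1)).take z.2)
        (el ((ps (seqOf (h z.1.1)) (s z.1.1)).getD z.2 [])) :=
      hqu.comp ((Primrec.fst.comp Primrec.fst).pair Primrec.snd)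
    have hld' : Primrec fun z : (α × ℕ) × ℕ => ld (seqOf (h z.1.1)) z.2 :=
      pr_ld (hh.comp (Primrec.fst.comp Primrec.fst)) Primrec.snd
    refine PrimrecPred.and ?_ (PrimrecPred.and ?_ (PrimrecPred.or ?_ ?_))
    · refine PP.all_lt (α := α × ℕ) (f := fun y => s y.1)
        (p := fun y u => ∀ q' ∈ (ld (seqOf (h y.1)) u).toList, q' ≤ y.2) ?_ (hs.comp Primrec.fst)
      refine PP.all_mem (α := (α × ℕ) × ℕ) (β := ℕ)
        (f := fun z => (ld (seqOf (h z.1.1)) z.2).toList) (p := fun z q' => q' ≤ z.1.2) ?_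
        (pr_toList.comp hld')
      exact Primrec.nat_le.comp Primrec.snd (Primrec.snd.comp (Primrec.fst.comp Primrec.fst))
    · refine PP.all_lt (α := α × ℕ) (f := fun y => r y.1 + 1)
        (p := fun y i => qu (seqOf (h y.1)) ω (s y.1) i ((ps (seqOf (h y.1)) (s y.1)).take i)
        (el ((ps (seqOf (h y.1)) (s y.1)).getD i [])) ≤ y.2) ?_
        (Primrec.succ.comp (hr.comp Primrec.fst))
      exact Primrec.nat_le.comp hqu' (Primrec.snd.comp Primrec.fst)
    · refine PP.ex_lt (α := α × ℕ) (f := fun y => s y.1)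
        (p := fun y u => ld (seqOf (h y.1)) u = some y.2) ?_ (hs.comp Primrec.fst)
      exact Primrec.eq.comp hld' (Primrec.option_some.comp (Primrec.snd.comp Primrec.fst))
    · refine PP.ex_lt (α := α × ℕ) (f := fun y => r y.1 + 1)
        (p := fun y i => qu (seqOf (h y.1)) ω (s y.1) i ((ps (seqOf (h y.1)) (s y.1)).take i)
        (el ((ps (seqOf (h y.1)) (s y.1)).getD i [])) = y.2) ?_
        (Primrec.succ.comp (hr.comp Primrec.fst))
      exact Primrec.eq.comp hqu' (Primrec.snd.comp Primrec.fst)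
  exact (h1.and h2).of_eq fun a => (ldAt_iff _ _ _ _).symm

end PrL

namespace GR

theorem s_Pr : S_Pr := by
  intro ω en hω hen
  refine (PrimrecPred.and
    (PrL.pr_psAt (α := ℕ × List Rec × ℕ) (h := fun x => x.2.1) (s := fun x => x.2.2)
      (r := fun x => x.1) hω hen (Primrec.fst.comp Primrec.snd) (Primrec.snd.comp Primrec.snd)
      Primrec.fst)
    (PrL.pr_ldAt (α := ℕ × List Rec × ℕ) (h := fun x => x.2.1) (s := fun x => x.2.2)
      (r := fun x => x.1) hω (Primrec.fst.comp Primrec.snd) (Primrec.snd.comp Primrec.snd)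
      Primrec.fst)).of_eq fun x => Iff.rfl

theorem s_PrF : S_PrF :=
  PrL.prF (α := (List Rec × ℕ) × (ℕ × List Str) × (ℕ × ℕ)) (h := fun x => x.1.1)
    (s := fun x => x.1.2) (i := fun x => x.2.1.1) (L := fun x => x.2.1.2)
    (x := fun x => x.2.2.1) (e := fun x => x.2.2.2)
    (Primrec.fst.comp Primrec.fst) (Primrec.snd.comp Primrec.fst)
    (Primrec.fst.comp (Primrec.fst.comp Primrec.snd))
    (Primrec.snd.comp (Primrec.fst.comp Primrec.snd))
    (Primrec.fst.comp (Primrec.snd.comp Primrec.snd))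
    (Primrec.snd.comp (Primrec.snd.comp Primrec.snd))

end GR

end Pool.Agent.H709.OW
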