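import Pool.Agent.H709.OW.Props

set_option autoImplicit false

namespace Pool.Agent.H709.OW

open Pool.Agent.Helper227 MeasureTheory Encodable
open scoped ENNReal

namespace QsL

theorem graph1 {A : ℕ → Bool} {f : ℕ → ℕ} (hf : CompIn A f) :
    ∃ G : List Bool × ℕ × ℕ → Prop, S1 G ∧
      (∀ σ τ n m, σ <+: τ → G (σ, n, m) → G (τ, n, m)) ∧
      ∀ n m, m = f n ↔ ∃ s, G (pre A s, n, m) := by
  obtain ⟨G, hG, mG, eG⟩ := recIn_graph (RecursiveIn.iff_nat.1 hf)
  refine ⟨G, hG, mG, fun n m => ?_⟩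
  have := eG n m
  simpa only [Part.mem_some_iff] using this

theorem graph3 {A : ℕ → Bool} {f g h : ℕ → ℕ} (hf : CompIn A f) (hg : CompIn A g)
    (hh : CompIn A h) :
    ∃ G : List Bool × ℕ × (ℕ × ℕ × ℕ) → Prop, S1 G ∧
      (∀ σ τ n m, σ <+: τ → G (σ, n, m) → G (τ, n, m)) ∧
      ∀ n m, m = (f n, g n, h n) ↔ ∃ s, G (pre A s, n, m) := by
  obtain ⟨G1, hG1, mG1, eG1⟩ := graph1 hf
  obtain ⟨G2, hG2, mG2, eG2⟩ := graph1 hg
  obtain ⟨G3, hG3, mG3, eG3⟩ := graph1 hh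
  refine ⟨fun x => G1 (x.1, x.2.1, x.2.2.1) ∧ G2 (x.1, x.2.1, x.2.2.2.1) ∧
    G3 (x.1, x.2.1, x.2.2.2.2), ?_, ?_, ?_⟩
  · refine S1.and (hG1.comp ?_) (S1.and (hG2.comp ?_) (hG3.comp ?_))
    · exact Primrec.fst.pair ((Primrec.fst.comp Primrec.snd).pair
        (Primrec.fst.comp (Primrec.snd.comp Primrec.snd)))
    · exact Primrec.fst.pair ((Primrec.fst.comp Primrec.snd).pair
        (Primrec.fst.comp (Primrec.snd.comp (Primrec.snd.comp Primrec.snd))))
    · exact Primrec.fst.pair ((Primrec.fst.comp Primrec.snd).pair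
        (Primrec.snd.comp (Primrec.snd.comp (Primrec.snd.comp Primrec.snd))))
  · rintro σ τ n m hst ⟨h1, h2, h3⟩
    exact ⟨mG1 _ _ _ _ hst h1, mG2 _ _ _ _ hst h2, mG3 _ _ _ _ hst h3⟩
  · intro n m
    constructor
    · rintro rfl
      obtain ⟨s1, h1⟩ := (eG1 n _).1 rfl
      obtain ⟨s2, h2⟩ := (eG2 n _).1 rfl
      obtain ⟨s3, h3⟩ := (eG3 n _).1 rfl
      refine ⟨max s1 (max s2 s3), mG1 _ _ _ _ (pre_prefix _ ?_) h1,
        mG2 _ _ _ _ (pre_prefix _ ?_) h2, mG3 _ _ _ _ (pre_prefix _ ?_) h3⟩ <;> omega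
    · rintro ⟨s, h1, h2, h3⟩
      have e1 := (eG1 n _).2 ⟨s, h1⟩
      have e2 := (eG2 n _).2 ⟨s, h2⟩
      have e3 := (eG3 n _).2 ⟨s, h3⟩
      exact Prod.ext e1 (Prod.ext e2 e3)

/-- the rational coded by a triple -/
noncomputable def val (w : ℕ × ℕ × ℕ) : ℝ := ((w.1 : ℝ) - w.2.1) / ((w.2.2 : ℝ) + 1)

/-- `M₀ 2^{-r} ≤ val w.2 - val w.1`, in integers -/
def cond (M : ℕ) (w : (ℕ × ℕ × ℕ) × (ℕ × ℕ × ℕ)) (r : ℕ) : Prop :=
  M * ((w.1.2.2 + 1) * (w.2.2.2 + 1)) +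
    2 ^ r * (w.2.2.1 * (w.1.2.2 + 1) + w.1.1 * (w.2.2.2 + 1)) ≤
    2 ^ r * (w.2.1 * (w.1.2.2 + 1) + w.1.2.1 * (w.2.2.2 + 1))

theorem cond_iff (M : ℕ) (w : (ℕ × ℕ × ℕ) × (ℕ × ℕ × ℕ)) (r : ℕ) :
    cond M w r ↔ (M : ℝ) * (1 / 2) ^ r ≤ val w.2 - val w.1 := by
  obtain ⟨⟨a1, b1, c1⟩, ⟨a2, b2, c2⟩⟩ := w
  simp only [cond, val]
  rw [← Nat.cast_le (α := ℝ)]
  push_cast
  have h1 : (0 : ℝ) < (c1 : ℝ) + 1 := by positivity
  have h2 : (0 : ℝ) < (c2 : ℝ) + 1 := by positivity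
  have h3 : (0 : ℝ) < 2 ^ r := by positivity
  rw [one_div, inv_pow, ← div_eq_mul_inv, div_sub_div _ _ h2.ne' h1.ne', div_le_div_iff₀ h3 (by positivity)]
  constructor <;> intro h <;> nlinarith

theorem cond_mono {M : ℕ} {w : (ℕ × ℕ × ℕ) × (ℕ × ℕ × ℕ)} {r r' : ℕ} (hr : r ≤ r')
    (h : cond M w r) : cond M w r' := by
  rw [cond_iff] at h ⊢
  refine le_trans (mul_le_mul_of_nonneg_left ?_ (by positivity)) h
  exact pow_le_pow_of_le_one (by norm_num) (by norm_num) hr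

/-- `r` is the least number with `cond` -/
def lst (M : ℕ) (w : (ℕ × ℕ × ℕ) × (ℕ × ℕ × ℕ)) (r : ℕ) : Prop :=
  cond M w r ∧ (r = 0 ∨ ¬ cond M w (r - 1))

theorem lst_unique {M : ℕ} {w : (ℕ × ℕ × ℕ) × (ℕ × ℕ × ℕ)} {r r' : ℕ}
    (h : lst M w r) (h' : lst M w r') : r = r' := by
  by_contra hne
  rcases Nat.lt_or_gt_of_ne hne with hl | hl
  · rcases h'.2 with h0 | h0
    · omega
    · exact h0 (cond_mono (by omega) h.1)
  · rcases h.2 with h0 | h0
    · omega
    · exact h0 (cond_mono (by omega) h'.1)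

theorem lst_exists {M : ℕ} {w : (ℕ × ℕ × ℕ) × (ℕ × ℕ × ℕ)} (h : 0 < val w.2 - val w.1) :
    ∃ r, lst M w r := by
  classical
  have hex : ∃ r, cond M w r := by
    obtain ⟨r, hr⟩ := exists_pow_lt_of_lt_one (show 0 < (val w.2 - val w.1) / ((M : ℝ) + 1) by positivity)
      (show (1 / 2 : ℝ) < 1 by norm_num)
    refine ⟨r, (cond_iff _ _ _).2 ?_⟩
    rw [lt_div_iff₀ (by positivity)] at hr
    have : (0 : ℝ) < (1 / 2) ^ r := by positivity
    nlinarith
  refine ⟨Nat.find hex, Nat.find_spec hex, ?_⟩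
  rcases Nat.eq_zero_or_pos (Nat.find hex) with h0 | h0
  · exact Or.inl h0
  · exact Or.inr (Nat.find_min hex (by omega))

theorem lst_upper {M : ℕ} {w : (ℕ × ℕ × ℕ) × (ℕ × ℕ × ℕ)} {r : ℕ} (h : lst M w r)
    (hM : val w.2 - val w.1 ≤ M) : val w.2 - val w.1 ≤ 2 * M * (1 / 2) ^ r := by
  rcases h.2 with h0 | h0
  · subst h0
    have : (0 : ℝ) ≤ M := by positivity
    simp only [pow_zero, mul_one]
    linarith
  · by_cases hr : r = 0
    · subst hr
      have : (0 : ℝ) ≤ M := by positivity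
      simp only [pow_zero, mul_one]
      linarith
    · rw [cond_iff, not_le] at h0
      obtain ⟨k, rfl⟩ := Nat.exists_eq_succ_of_ne_zero hr
      simp only [Nat.succ_eq_add_one, Nat.add_sub_cancel] at h0 ⊢
      rw [pow_succ]
      nlinarith

theorem prim_pow2 : Primrec fun n : ℕ => 2 ^ n := by
  have : Primrec fun n : ℕ => (Nat.rec 1 (fun _ ih => 2 * ih) n : ℕ) := by
    refine Primrec.nat_rec₁ 1 ?_
    exact Primrec.nat_mul.comp (Primrec.const 2) Primrec.snd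
  refine this.of_eq fun n => ?_
  induction n with
  | zero => rfl
  | succ n ih => 
    show 2 * _ = _
    rw [ih, pow_succ]
    ring

theorem prim_cond (M : ℕ) : PrimrecPred fun x : ((ℕ × ℕ × ℕ) × (ℕ × ℕ × ℕ)) × ℕ =>
    cond M x.1 x.2 := by
  have hr : Primrec fun x : ((ℕ × ℕ × ℕ) × (ℕ × ℕ × ℕ)) × ℕ => 2 ^ x.2 :=
    prim_pow2.comp Primrec.snd
  have a1 : Primrec fun x : ((ℕ × ℕ × ℕ) × (ℕ × ℕ × ℕ)) × ℕ => x.1.1.1 :=
    Primrec.fst.comp (Primrec.fst.comp Primrec.fst)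
  have b1 : Primrec fun x : ((ℕ × ℕ × ℕ) × (ℕ × ℕ × ℕ)) × ℕ => x.1.1.2.1 :=
    Primrec.fst.comp (Primrec.snd.comp (Primrec.fst.comp Primrec.fst))
  have c1 : Primrec fun x : ((ℕ × ℕ × ℕ) × (ℕ × ℕ × ℕ)) × ℕ => x.1.1.2.2 + 1 :=
    Primrec.succ.comp (Primrec.snd.comp (Primrec.snd.comp (Primrec.fst.comp Primrec.fst)))
  have a2 : Primrec fun x : ((ℕ × ℕ × ℕ) × (ℕ × ℕ × ℕ)) × ℕ => x.1.2.1 :=
    Primrec.fst.comp (Primrec.snd.comp Primrec.fst)
  have b2 : Primrec fun x : ((ℕ × ℕ × ℕ) × (ℕ × ℕ × ℕ)) × ℕ => x.1.2.2.1 :=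
    Primrec.fst.comp (Primrec.snd.comp (Primrec.snd.comp Primrec.fst))
  have c2 : Primrec fun x : ((ℕ × ℕ × ℕ) × (ℕ × ℕ × ℕ)) × ℕ => x.1.2.2.2 + 1 :=
    Primrec.succ.comp (Primrec.snd.comp (Primrec.snd.comp (Primrec.snd.comp Primrec.fst)))
  refine Primrec.nat_le.comp (Primrec.nat_add.comp (Primrec.nat_mul.comp (Primrec.const M)
    (Primrec.nat_mul.comp c1 c2)) (Primrec.nat_mul.comp hr (Primrec.nat_add.comp
      (Primrec.nat_mul.comp b2 c1) (Primrec.nat_mul.comp a1 c2)))) (Primrec.nat_mul.comp hr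
      (Primrec.nat_add.comp (Primrec.nat_mul.comp a2 c1) (Primrec.nat_mul.comp b1 c2)))

theorem prim_lst (M : ℕ) : PrimrecPred fun x : ((ℕ × ℕ × ℕ) × (ℕ × ℕ × ℕ)) × ℕ =>
    lst M x.1 x.2 := by
  refine PrimrecPred.and (prim_cond M) (PrimrecPred.or ?_ (PrimrecPred.not ?_))
  · exact Primrec.eq.comp Primrec.snd (Primrec.const 0)
  · exact (prim_cond M).comp (Primrec.fst.pair (Primrec.nat_sub.comp Primrec.snd (Primrec.const 1)))

/-- The `A`-c.e. set of the `pair s r_s`. -/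
theorem exists_E {A : ℕ → Bool} {f g h : ℕ → ℕ} (hf : CompIn A f) (hg : CompIn A g)
    (hh : CompIn A h) (M : ℕ) :
    ∃ E : Str × ℕ → Prop, S1 E ∧ ∀ x, x ∈ En E A ↔
      lst M ((f (Nat.unpair x).1, g (Nat.unpair x).1, h (Nat.unpair x).1),
        (f ((Nat.unpair x).1 + 1), g ((Nat.unpair x).1 + 1), h ((Nat.unpair x).1 + 1)))
        (Nat.unpair x).2 := by
  obtain ⟨G, hG, mG, eG⟩ := graph3 hf hg hh
  refine ⟨fun x => ∃ w : (ℕ × ℕ × ℕ) × (ℕ × ℕ × ℕ), G (x.1, (Nat.unpair x.2).1, w.1) ∧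
    G (x.1, (Nat.unpair x.2).1 + 1, w.2) ∧ lst M w (Nat.unpair x.2).2, ?_, ?_⟩
  · have hl : Primrec fun x : (Str × ℕ) × ((ℕ × ℕ × ℕ) × (ℕ × ℕ × ℕ)) =>
        (x.2, (Nat.unpair x.1.2).2) := Primrec.snd.pair (Primrec.snd.comp (Primrec.unpair.comp
        (Primrec.snd.comp Primrec.fst)))
    have hl2 : PrimrecPred fun x : (Str × ℕ) × ((ℕ × ℕ × ℕ) × (ℕ × ℕ × ℕ)) =>
        lst M x.2 (Nat.unpair x.1.2).2 := (prim_lst M).comp hl
    refine S1.ex (S1.and (hG.comp ?_) (S1.and (hG.comp ?_) (S1.of_prim hl2)))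
    · exact (Primrec.fst.comp Primrec.fst).pair ((Primrec.fst.comp (Primrec.unpair.comp
        (Primrec.snd.comp Primrec.fst))).pair (Primrec.fst.comp Primrec.snd))
    · exact (Primrec.fst.comp Primrec.fst).pair ((Primrec.succ.comp (Primrec.fst.comp
        (Primrec.unpair.comp (Primrec.snd.comp Primrec.fst)))).pair (Primrec.snd.comp Primrec.snd))
  · intro x
    simp only [En, Set.mem_ofPred_eq]
    constructor
    · rintro ⟨s, w, h1, h2, h3⟩
      have e1 := (eG _ _).2 ⟨s, h1⟩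
      have e2 := (eG _ _).2 ⟨s, h2⟩
      rw [← e1, ← e2]
      exact h3
    · intro hl
      obtain ⟨s1, h1⟩ := (eG (Nat.unpair x).1 _).1 rfl
      obtain ⟨s2, h2⟩ := (eG ((Nat.unpair x).1 + 1) _).1 rfl
      exact ⟨max s1 s2, _, mG _ _ _ _ (pre_prefix _ (le_max_left _ _)) h1,
        mG _ _ _ _ (pre_prefix _ (le_max_right _ _)) h2, hl⟩

/-- bounded sums are primitive recursive -/
theorem prim_sum {k : ℕ → ℕ} {F : ℕ → ℕ → ℕ} (hk : Primrec k) (hF : Primrec₂ F) :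
    Primrec fun t => ∑ x ∈ Finset.range (k t), F t x := by
  have : Primrec fun t : ℕ => (Nat.rec 0 (fun x ih => ih + F t x) (k t) : ℕ) := by
    refine Primrec.nat_rec' (g := fun _ => 0) (h := fun t p => p.2 + F t p.1) hk
      (Primrec.const 0) ?_
    exact Primrec.nat_add.comp (Primrec.snd.comp Primrec.snd)
      (hF.comp Primrec.fst (Primrec.fst.comp Primrec.snd))
  refine this.of_eq fun t => ?_
  generalize k t = n
  induction n with
  | zero => rfl
  | succ n ih =>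
    rw [Finset.sum_range_succ, ← ih]

open Classical in
/-- the integers `2 ^ t γ_u` -/
noncomputable def gi (q : ℕ → ℕ → Prop) (t u : ℕ) : ℕ :=
  ∑ x ∈ Finset.range u, if q x u then 2 ^ (t - (Nat.unpair x).2) else 0

open Classical in
/-- the reals `γ_u` -/
noncomputable def gam (q : ℕ → ℕ → Prop) (u : ℕ) : ℝ :=
  ∑ x ∈ Finset.range u, if q x u then (1 / 2 : ℝ) ^ (Nat.unpair x).2 else 0

theorem gi_eq (q : ℕ → ℕ → Prop) {t u : ℕ} (h : u ≤ t + 1) :
    (gi q t u : ℝ) = 2 ^ t * gam q u := by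
  classical
  rw [gi, gam, Finset.mul_sum]
  push_cast
  refine Finset.sum_congr rfl fun x hx => ?_
  split_ifs
  · have h1 : (Nat.unpair x).2 ≤ x := Nat.unpair_right_le x
    have h2 : x < u := Finset.mem_range.1 hx
    rw [one_div, inv_pow, ← div_eq_mul_inv, eq_div_iff (by positivity), ← pow_add,
      Nat.sub_add_cancel (by omega)]
  · simp

theorem gam_eq_filter (q : ℕ → ℕ → Prop) (u : ℕ) [DecidablePred fun x => q x u] :
    gam q u = ∑ x ∈ (Finset.range u).filter (fun x => q x u), (1 / 2 : ℝ) ^ (Nat.unpair x).2 := by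
  rw [gam, Finset.sum_filter]
  refine Finset.sum_congr rfl fun x _ => ?_
  by_cases hx : q x u <;> simp [hx]

theorem gam_mono {q : ℕ → ℕ → Prop} (hq : ∀ x m n, m ≤ n → q x m → q x n) {u v : ℕ} (h : u ≤ v) :
    gam q u ≤ gam q v := by
  classical
  rw [gam_eq_filter, gam_eq_filter]
  refine Finset.sum_le_sum_of_subset_of_nonneg ?_ fun _ _ _ => by positivity
  intro x hx
  rw [Finset.mem_filter, Finset.mem_range] at hx ⊢
  exact ⟨by omega, hq _ _ _ h hx.2⟩

theorem gam_nonneg (q : ℕ → ℕ → Prop) (u : ℕ) : 0 ≤ gam q u := by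
  classical
  rw [gam_eq_filter]
  exact Finset.sum_nonneg fun _ _ => by positivity

theorem gam_le {q : ℕ → ℕ → Prop} {V : ℕ → Prop} (hV : ∀ x, V x ↔ ∃ n, q x n) {c : ℕ}
    (hc : ∀ F : Finset ℕ, (∀ x ∈ F, V x) → ∑ x ∈ F, (1 / 2 : ℝ) ^ (Nat.unpair x).2 ≤ c) (u : ℕ) :
    gam q u ≤ c := by
  classical
  rw [gam_eq_filter]
  refine hc _ fun x hx => ?_
  rw [Finset.mem_filter] at hx
  exact (hV x).2 ⟨u, hx.2⟩

/-- the unrelativised bound -/
noncomputable def QQ (q : ℕ → ℕ → Prop) (K : ℕ) (t : ℕ) : ℕ :=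
  K * (gi q t (t + 1) - gi q t t) + 1

theorem prim_gi {q : ℕ → ℕ → Prop} (hq : PrimrecRel q) {k : ℕ → ℕ} (hk : Primrec k) :
    Primrec fun t => gi q t (k t) := by
  classical
  refine prim_sum (F := fun t x => if q x (k t) then 2 ^ (t - (Nat.unpair x).2) else 0) hk ?_
  refine Primrec.ite ?_ ?_ (Primrec.const 0)
  · exact hq.comp Primrec.snd (hk.comp Primrec.fst)
  · exact prim_pow2.comp (Primrec.nat_sub.comp Primrec.fst
      (Primrec.snd.comp (Primrec.unpair.comp Primrec.snd)))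

theorem prim_QQ {q : ℕ → ℕ → Prop} (hq : PrimrecRel q) (K : ℕ) : Primrec (QQ q K) := by
  refine Primrec.succ.comp (Primrec.nat_mul.comp (Primrec.const K) (Primrec.nat_sub.comp ?_ ?_))
  · exact prim_gi hq Primrec.succ
  · exact prim_gi hq Primrec.id

theorem QQ_real {q : ℕ → ℕ → Prop} (hq : ∀ x m n, m ≤ n → q x m → q x n) (K t : ℕ) :
    (QQ q K t : ℝ) / 2 ^ t = K * (gam q (t + 1) - gam q t) + (1 / 2) ^ t := by
  have h2 : (0 : ℝ) < 2 ^ t := by positivity
  have hle : gi q t t ≤ gi q t (t + 1) := by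
    rw [← Nat.cast_le (α := ℝ), gi_eq q (by omega), gi_eq q le_rfl]
    exact mul_le_mul_of_nonneg_left (gam_mono hq (by omega)) h2.le
  have e1 := gi_eq q (t := t) (u := t) (by omega)
  have e2 := gi_eq q (t := t) (u := t + 1) le_rfl
  rw [QQ]
  push_cast [Nat.cast_sub hle]
  rw [e1, e2, one_div, inv_pow]
  field_simp

theorem QQ_sum {q : ℕ → ℕ → Prop} (hq : ∀ x m n, m ≤ n → q x m → q x n) (K : ℕ) {m n : ℕ}
    (h : m ≤ n) : ∑ t ∈ Finset.Ico m n, (QQ q K t : ℝ) / 2 ^ t =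
      K * (gam q n - gam q m) + ∑ t ∈ Finset.Ico m n, (1 / 2 : ℝ) ^ t := by
  induction n, h using Nat.le_induction with
  | base => simp
  | succ n hn ih =>
    rw [Finset.sum_Ico_succ_top hn, Finset.sum_Ico_succ_top hn, ih, QQ_real hq]
    ring

theorem sum_ennreal (Q : ℕ → ℕ) (F : Finset ℕ) :
    ∑ t ∈ F, (Q t : ℝ≥0∞) / 2 ^ t = ENNReal.ofReal (∑ t ∈ F, (Q t : ℝ) / 2 ^ t) := by
  rw [ENNReal.ofReal_sum_of_nonneg fun _ _ => by positivity]
  refine Finset.sum_congr rfl fun t _ => ?_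
  rw [ENNReal.ofReal_div_of_pos (by positivity), ENNReal.ofReal_natCast,
    ENNReal.ofReal_pow (by norm_num)]
  simp

end QsL

open QsL in
theorem s_Q : S_Q := by
  classical
  rintro A β b c hCov ⟨f, g, h, hf, hg, hh, hβ⟩ hmono hlub
  -- the values
  have hval : ∀ n, (β n : ℝ) = val (f n, g n, h n) := by
    intro n
    rw [hβ n, val]
    push_cast
    rfl
  have hmono' : StrictMono fun s => (β s : ℝ) := fun _ _ h => Rat.cast_lt.2 (hmono h)
  have hb : ∀ s, (β s : ℝ) ≤ b := fun s => hlub.1 ⟨s, rfl⟩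
  obtain ⟨M₀, hM₀⟩ := exists_nat_ge (max (b - β 0) 1)
  have hM1 : (1 : ℝ) ≤ M₀ := le_trans (le_max_right _ _) hM₀
  have hMb : b - β 0 ≤ M₀ := le_trans (le_max_left _ _) hM₀
  obtain ⟨E, hE, eE⟩ := exists_E hf hg hh M₀
  -- the exponents
  have hpos : ∀ s, 0 < (β (s + 1) : ℝ) - β s := fun s => sub_pos.2 (hmono' (Nat.lt_succ_self s))
  have hlst : ∀ s, ∃ r, lst M₀ ((f s, g s, h s), (f (s + 1), g (s + 1), h (s + 1))) r := by
    intro s
    apply lst_exists
    have := hpos s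
    rw [hval, hval] at this
    exact this
  choose r hr using hlst
  have hlow : ∀ s, (M₀ : ℝ) * (1 / 2) ^ r s ≤ β (s + 1) - β s := by
    intro s
    have := (cond_iff _ _ _).1 (hr s).1
    rw [hval, hval]
    exact this
  have hup : ∀ s, (β (s + 1) : ℝ) - β s ≤ 2 * M₀ * (1 / 2) ^ r s := by
    intro s
    rw [hval, hval]
    refine lst_upper (hr s) ?_
    have h1 := hb (s + 1)
    have h2 : (β 0 : ℝ) ≤ β s := hmono'.monotone (Nat.zero_le s)
    rw [hval] at h1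
    rw [hval s] at h2
    show val (f (s + 1), g (s + 1), h (s + 1)) - val (f s, g s, h s) ≤ M₀
    linarith
  have hEn : ∀ x, x ∈ En E A ↔ (Nat.unpair x).2 = r (Nat.unpair x).1 := by
    intro x
    rw [eE]
    constructor
    · intro h1
      exact lst_unique h1 (hr _)
    · intro h1
      rw [h1]
      exact hr _
  -- the weight
  have htel : ∀ m n, m ≤ n → ∑ s ∈ Finset.Ico m n, ((β (s + 1) : ℝ) - β s) = β n - β m := by
    intro m n hmn
    rw [Finset.sum_Ico_eq_sub _ hmn, Finset.sum_range_sub (fun s => (β s : ℝ)),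
      Finset.sum_range_sub (fun s => (β s : ℝ))]
    ring
  obtain ⟨V, ⟨q, hq, mq, eq⟩, hV, c₁, hc₁⟩ := hCov E (fun x => (Nat.unpair x).2) hE
    (Primrec.snd.comp Primrec.unpair) (by
      intro F hF
      have hinj : Set.InjOn (fun x => (Nat.unpair x).1) (F : Set ℕ) := by
        intro x hx y hy hxy
        have h1 := (hEn x).1 (hF x hx)
        have h2 := (hEn y).1 (hF y hy)
        simp only at hxy
        rw [hxy, ← h2] at h1
        rw [← Nat.pair_unpair x, ← Nat.pair_unpair y, hxy, h1]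
      obtain ⟨N, hN⟩ : ∃ N, ∀ s ∈ F.image fun x => (Nat.unpair x).1, s < N :=
        ⟨(F.image fun x => (Nat.unpair x).1).sup id + 1, fun s hs =>
          Nat.lt_succ_of_le (Finset.le_sup (f := id) hs)⟩
      have h1 : ∑ x ∈ F, (1 / 2 : ℝ) ^ (Nat.unpair x).2 =
          ∑ s ∈ F.image fun x => (Nat.unpair x).1, (1 / 2 : ℝ) ^ r s := by
        rw [Finset.sum_image hinj]
        refine Finset.sum_congr rfl fun x hx => ?_
        rw [(hEn x).1 (hF x hx)]
      have h2 : ∑ s ∈ F.image fun x => (Nat.unpair x).1, (1 / 2 : ℝ) ^ r s ≤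
          ∑ s ∈ Finset.Ico 0 N, (1 / 2 : ℝ) ^ r s := by
        refine Finset.sum_le_sum_of_subset_of_nonneg ?_ fun _ _ _ => by positivity
        intro s hs
        rw [Finset.mem_Ico]
        exact ⟨Nat.zero_le _, hN s hs⟩
      have h3 : (M₀ : ℝ) * ∑ s ∈ Finset.Ico 0 N, (1 / 2 : ℝ) ^ r s ≤ M₀ * 1 := by
        rw [Finset.mul_sum]
        refine le_trans (Finset.sum_le_sum fun s _ => hlow s) ?_
        rw [htel 0 N (Nat.zero_le _)]
        have := hb N
        linarith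
      have h4 := le_of_mul_le_mul_left h3 (by linarith)
      rw [h1]
      exact le_trans h2 h4)
  have hcut : ∀ s, V (Nat.pair s (r s)) := by
    intro s
    apply hV
    rw [hEn]
    simp
  refine ⟨QQ q (2 * c * M₀), prim_QQ hq _, fun t => Nat.succ_pos _, ⟨2 * c * M₀ * c₁ + 2, ?_⟩, ?_⟩
  · intro n
    rw [sum_ennreal, ← ENNReal.ofReal_natCast]
    apply ENNReal.ofReal_le_ofReal
    rw [Finset.range_eq_Ico, QQ_sum mq _ (Nat.zero_le n)]
    have h1 : gam q n - gam q 0 ≤ c₁ := by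
      have := gam_le eq hc₁ n
      have := gam_nonneg q 0
      linarith
    have h2 : ∑ t ∈ Finset.Ico 0 n, (1 / 2 : ℝ) ^ t ≤ 2 := by
      rw [← Finset.range_eq_Ico, geom_sum_eq (by norm_num)]
      have : (0 : ℝ) < (1 / 2) ^ n := by positivity
      rw [div_le_iff_of_neg (by norm_num)]
      linarith
    have h3 : ((2 * c * M₀ : ℕ) : ℝ) * (gam q n - gam q 0) ≤ ((2 * c * M₀ : ℕ) : ℝ) * c₁ :=
      mul_le_mul_of_nonneg_left h1 (by positivity)
    push_cast at h3 ⊢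
    linarith
  · intro m
    -- choose `N`
    obtain ⟨N, hmN, hN⟩ : ∃ N, m ≤ N ∧ (c : ℝ) * (b - β N) < (1 / 2) ^ m := by
      have hpm : (0 : ℝ) < (1 / 2) ^ m / (c + 1) := by positivity
      obtain ⟨_, ⟨N, rfl⟩, hN⟩ := (lt_isLUB_iff hlub).1 (sub_lt_self b hpm)
      refine ⟨max m N, le_max_left _ _, ?_⟩
      have h1 : (β N : ℝ) ≤ β (max m N) := hmono'.monotone (le_max_right _ _)
      have h2 : b - β (max m N) < (1 / 2) ^ m / (c + 1) := by
        simp only at hN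
        linarith
      rw [lt_div_iff₀ (by positivity)] at h2
      have h3 := hb (max m N)
      nlinarith
    -- choose `n`
    have hn : ∃ n, m < n ∧ ∀ s < N, Nat.pair s (r s) < n ∧ q (Nat.pair s (r s)) n := by
      have : ∀ N, ∃ n, m < n ∧ ∀ s < N, Nat.pair s (r s) < n ∧ q (Nat.pair s (r s)) n := by
        intro N
        induction N with
        | zero => exact ⟨m + 1, Nat.lt_succ_self m, fun s hs => absurd hs (Nat.not_lt_zero s)⟩
        | succ N ih =>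
          obtain ⟨n, hn, h1⟩ := ih
          obtain ⟨k, hk⟩ := (eq _).1 (hcut N)
          refine ⟨max n (max k (Nat.pair N (r N) + 1)), by omega, fun s hs => ?_⟩
          rcases Nat.lt_succ_iff_lt_or_eq.1 hs with h2 | rfl
          · exact ⟨lt_of_lt_of_le (h1 s h2).1 (le_max_left _ _),
              mq _ _ _ (le_max_left _ _) (h1 s h2).2⟩
          · exact ⟨by omega, mq _ _ _ (by omega) hk⟩
      exact this N
    obtain ⟨n, hmn, hn⟩ := hn
    refine ⟨n, ?_⟩
    rw [sum_ennreal]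
    have hsum : (c : ℝ) * (b - β m) < ∑ t ∈ Finset.Ico m n, (QQ q (2 * c * M₀) t : ℝ) / 2 ^ t := by
      rw [QQ_sum mq _ hmn.le]
      have h1 : (1 / 2 : ℝ) ^ m ≤ ∑ t ∈ Finset.Ico m n, (1 / 2 : ℝ) ^ t :=
        Finset.single_le_sum (f := fun t => (1 / 2 : ℝ) ^ t) (fun _ _ => by positivity)
          (Finset.mem_Ico.2 ⟨le_rfl, hmn⟩)
      have h2 : ∑ s ∈ Finset.Ico m N, (1 / 2 : ℝ) ^ r s ≤ gam q n - gam q m := by
        rw [gam_eq_filter, gam_eq_filter, le_sub_iff_add_le]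
        have hinj : Set.InjOn (fun s => Nat.pair s (r s)) ((Finset.Ico m N : Finset ℕ) : Set ℕ) := by
          intro s _ s' _ hss
          have := congrArg (fun x => (Nat.unpair x).1) hss
          simpa using this
        have h3 : ∑ s ∈ Finset.Ico m N, (1 / 2 : ℝ) ^ r s =
            ∑ x ∈ (Finset.Ico m N).image fun s => Nat.pair s (r s),
              (1 / 2 : ℝ) ^ (Nat.unpair x).2 := by
          rw [Finset.sum_image hinj]
          refine Finset.sum_congr rfl fun s _ => ?_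
          rw [Nat.unpair_pair]
        have hdisj : Disjoint ((Finset.Ico m N).image fun s => Nat.pair s (r s))
            ((Finset.range m).filter fun x => q x m) := by
          rw [Finset.disjoint_left]
          intro x hx hx2
          rw [Finset.mem_image] at hx
          obtain ⟨s, hs, rfl⟩ := hx
          rw [Finset.mem_Ico] at hs
          rw [Finset.mem_filter, Finset.mem_range] at hx2
          have := Nat.left_le_pair s (r s)
          omega
        rw [h3, ← Finset.sum_union hdisj]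
        refine Finset.sum_le_sum_of_subset_of_nonneg ?_ fun _ _ _ => by positivity
        intro x hx
        rw [Finset.mem_filter, Finset.mem_range]
        rcases Finset.mem_union.1 hx with hx | hx
        · rw [Finset.mem_image] at hx
          obtain ⟨s, hs, rfl⟩ := hx
          rw [Finset.mem_Ico] at hs
          exact hn s hs.2
        · rw [Finset.mem_filter, Finset.mem_range] at hx
          exact ⟨by omega, mq _ _ _ hmn.le hx.2⟩
      have h4 : (β N : ℝ) - β m ≤ 2 * M₀ * ∑ s ∈ Finset.Ico m N, (1 / 2 : ℝ) ^ r s := by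
        rw [← htel m N hmN, Finset.mul_sum]
        exact Finset.sum_le_sum fun s _ => hup s
      have h5 : (c : ℝ) * (β N - β m) ≤ (2 * c * M₀ : ℕ) * (gam q n - gam q m) := by
        push_cast
        have h6 : (2 * M₀ : ℝ) * ∑ s ∈ Finset.Ico m N, (1 / 2 : ℝ) ^ r s ≤
            2 * M₀ * (gam q n - gam q m) := mul_le_mul_of_nonneg_left h2 (by positivity)
        have h7 : (c : ℝ) * (β N - β m) ≤ c * (2 * M₀ * (gam q n - gam q m)) :=
          mul_le_mul_of_nonneg_left (le_trans h4 h6) (by positivity)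
        linarith
      have h8 : (c : ℝ) * (b - β m) = c * (b - β N) + c * (β N - β m) := by ring
      rw [h8]
      linarith
    refine (ENNReal.ofReal_lt_ofReal_iff_of_nonneg ?_).2 hsum
    exact mul_nonneg (by positivity) (by linarith [hb m])

end Pool.Agent.H709.OW
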