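import Pool.Agent.H709.OW.Props2
import Pool.Graph.R_seed8.Helper227.Cover

set_option autoImplicit false

namespace Pool.Agent.H709.OW

open Pool.Agent.Helper227 MeasureTheory Encodable
open scoped ENNReal
open Nat.Partrec (Code)

namespace RevL

/-- the open set of a set of strings -/
def Op (P : List Bool → Prop) : Set (ℕ → Bool) := {X | ∃ t, P (pre X t)}

theorem measurableSet_Op (P : List Bool → Prop) : MeasurableSet (Op P) :=
  measurableSet_open (fun _ τ => P τ)

/-- the empty oracle -/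
abbrev nul : ℕ → Bool := fun _ => false

/-- the predicate enumerated by a code -/
def Ec (c : Code) (x : List Bool × ℕ × List Bool) : Prop := ∃ r, stp c r x

theorem s1_Ec (c : Code) : S1 (Ec c) := by
  unfold Ec
  refine S1.ex (S1.of_prim ?_)
  exact primrec_stp.comp (((Primrec.const c).pair Primrec.snd).pair Primrec.fst)

theorem primrec_pre_nul : Primrec (pre nul) := by
  have h : ∀ s, pre nul s = List.replicate s false := by
    intro s
    refine List.ext_getElem (by simp) fun i h1 h2 => ?_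
    rw [getElem_pre]
    simp
  have h2 : pre nul = fun s => (List.range s).map (fun _ => false) := by
    funext s; rfl
  rw [h2]
  exact Primrec.list_map Primrec.list_range (Primrec.const false).to₂

theorem ow_small {G : ℕ → Set (ℕ → Bool)} (hG : IsOWTest nul G) {e : ℝ≥0∞} (he : e ≠ 0) :
    ∃ m, lam (G m) < e := by
  obtain ⟨-, -, β, b, c, -, -, hb, hm⟩ := hG
  by_cases het : e = ⊤
  · exact ⟨0, by rw [het]; exact measure_lt_top _ _⟩
  have hpos : 0 < e.toReal := ENNReal.toReal_pos he het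
  have hc : (0 : ℝ) < c + 1 := by positivity
  -- find m with b - β m < e / (c+1)
  obtain ⟨x, ⟨m, rfl⟩, hx, -⟩ := hb.exists_between (b := b - e.toReal / (c + 1))
    (by have := div_pos hpos hc; linarith)
  refine ⟨m, lt_of_le_of_lt (hm m) ?_⟩
  rw [ENNReal.ofReal_lt_iff_lt_toReal ?_ het]
  · have h1 : b - (β m : ℝ) < e.toReal / (c + 1) := by simpa using (by linarith : b - (β m : ℝ) < e.toReal / (c + 1))
    have h2 : 0 ≤ b - (β m : ℝ) := by
      have := hb.1 ⟨m, rfl⟩
      simp only at this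
      linarith
    rw [lt_div_iff₀ hc] at h1
    nlinarith
  · have h2 : 0 ≤ b - (β m : ℝ) := by
      have := hb.1 ⟨m, rfl⟩
      simp only at this
      linarith
    positivity

/-- Nested cylinder argument for left-c.e. tests. -/
theorem exists_rho {A : ℕ → Bool} (hLR : ∀ Z, OWR nul Z → MLR A Z)
    {g : ℕ → ℕ} (hg : Primrec g) {ES : List Bool × ℕ → Prop} (hES : S1 ES)
    (hw : ∀ F : Finset ℕ, (∀ x ∈ F, ∃ s, ES (pre A s, x)) → ∑ x ∈ F, (1 / 2 : ℝ≥0∞) ^ (g x) ≤ 1) :
    ∃ (ρ : List Bool) (i : ℕ) (P : List Bool → Prop), S1 P ∧ lam (cyl ρ \ Op P) ≠ 0 ∧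
      lam ((cyl ρ ∩ UE (EVb g ES) A i) \ Op P) = 0 := by
  classical
  by_contra hneg
  push Not at hneg
  have htest : IsMLTest A (UE (EVb g ES) A) :=
    isMLTest_of_E (s1_EVb hg hES) (lam_UE_EVb_le g ES A hw)
  -- good states
  let Good : List Bool × (List Bool → Prop) → Prop := fun q => S1 q.2 ∧ lam (cyl q.1 \ Op q.2) ≠ 0
  -- one step
  have hstep : ∀ (q : List Bool × (List Bool → Prop)) (i : ℕ), Good q →
      ∃ q' : List Bool × (List Bool → Prop), Good q' ∧ q.1 <+: q'.1 ∧ i + 1 ≤ q'.1.length ∧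
        cyl q'.1 ⊆ UE (EVb g ES) A i ∧ Op q.2 ⊆ Op q'.2 ∧
        ∀ c : Code, encode c = i → (∀ e : ℝ≥0∞, e ≠ 0 → ∃ m, lam (UE (Ec c) nul m) < e) →
          ∃ m, UE (Ec c) nul m ⊆ Op q'.2 := by
    rintro ⟨ρ, P⟩ i ⟨hP, hρ⟩
    simp only at hP hρ
    -- extend the string
    obtain ⟨ρ', h1, h2, h3, h4⟩ : ∃ ρ', ρ <+: ρ' ∧
        i + 1 ≤ ρ'.length ∧ cyl ρ' ⊆ UE (EVb g ES) A i ∧ lam (cyl ρ' \ Op P) ≠ 0 := by
      by_contra hc
      push Not at hc
      apply hneg ρ i P hP hρ
      have hsub : (cyl ρ ∩ UE (EVb g ES) A i) \ Op P ⊆ ⋃ ρ' : List Bool, ⋃ _ : ρ <+: ρ' ∧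
          i + 1 ≤ ρ'.length ∧ cyl ρ' ⊆ UE (EVb g ES) A i, cyl ρ' \ Op P := by
        rintro Z ⟨⟨h1, s, t, h2⟩, h3⟩
        obtain ⟨N, hN⟩ : ∃ N, N = max (max t ρ.length) (i + 1) := ⟨_, rfl⟩
        simp only [Set.mem_iUnion, exists_prop]
        refine ⟨pre Z N, ⟨?_, by simp; omega, ?_⟩, mem_cyl_pre _ _, h3⟩
        · rw [mem_cyl_iff] at h1
          rw [← h1]
          exact pre_prefix Z (by omega)
        · intro Z' hZ'
          rw [mem_cyl_iff, length_pre] at hZ'
          refine ⟨s, t, ?_⟩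
          have : pre Z' t = pre Z t := by
            rw [← take_pre Z' N t (by omega), hZ', take_pre _ _ _ (by omega)]
          rw [this]
          exact h2
      refine le_antisymm (le_trans (measure_mono hsub) ?_) (bot_le)
      rw [nonpos_iff_eq_zero, measure_iUnion_null_iff]
      intro ρ'
      rw [measure_iUnion_null_iff]
      intro h
      exact hc ρ' h.1 h.2.1 h.2.2
    -- extend the open set
    by_cases hcode : ∃ c : Code, encode c = i ∧ (∀ e : ℝ≥0∞, e ≠ 0 → ∃ m, lam (UE (Ec c) nul m) < e)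
    · obtain ⟨c, hci, hc⟩ := hcode
      obtain ⟨m, hm⟩ := hc _ h4
      refine ⟨(ρ', fun τ => P τ ∨ ∃ s, Ec c (pre nul s, m, τ)), ⟨?_, ?_⟩, h1, h2, h3, ?_, ?_⟩
      · refine S1.or hP (S1.ex ?_)
        refine S1.comp (f := fun x : List Bool × ℕ => (pre nul x.2, m, x.1)) (s1_Ec c) ?_
        exact (primrec_pre_nul.comp Primrec.snd).pair ((Primrec.const m).pair Primrec.fst)
      · intro h0
        simp only at h0
        have hsub : cyl ρ' \ Op P ⊆ (cyl ρ' \ Op (fun τ => P τ ∨ ∃ s, Ec c (pre nul s, m, τ))) ∪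
            UE (Ec c) nul m := by
          rintro Z ⟨hZ1, hZ2⟩
          by_cases hZ : Z ∈ UE (Ec c) nul m
          · exact Or.inr hZ
          · left
            refine ⟨hZ1, ?_⟩
            rintro ⟨t, ht | ⟨s, hs⟩⟩
            · exact hZ2 ⟨t, ht⟩
            · exact hZ ⟨s, t, hs⟩
        have h5 := le_trans (measure_mono hsub) (measure_union_le (μ := lam) _ _)
        rw [h0, zero_add] at h5
        exact absurd hm (not_lt.2 h5)
      · rintro Z ⟨t, ht⟩
        exact ⟨t, Or.inl ht⟩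
      · intro c' hc' _
        have : c' = c := encode_injective (hc'.trans hci.symm)
        subst this
        refine ⟨m, ?_⟩
        rintro Z ⟨s, t, h⟩
        exact ⟨t, Or.inr ⟨s, h⟩⟩
    · refine ⟨(ρ', P), ⟨hP, h4⟩, h1, h2, h3, subset_rfl, ?_⟩
      intro c hc h
      exact absurd ⟨c, hc, h⟩ hcode
  choose! f hf using hstep
  let s : ℕ → List Bool × (List Bool → Prop) := fun n => Nat.rec ([], fun _ => False) (fun i q => f q i) n
  have hs : ∀ n, s (n + 1) = f (s n) n := fun n => rfl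
  have hpos : ∀ n, Good (s n) := by
    intro n
    induction n with
    | zero =>
      refine ⟨?_, ?_⟩
      · exact S1.of_prim (PP.const False)
      · have h0 : cyl (s 0).1 \ Op (s 0).2 = Set.univ := by
          ext X; simp [cyl, s, Op]
        rw [h0, measure_univ]
        exact one_ne_zero
    | succ n ih =>
      rw [hs]
      exact (hf (s n) n ih).1
  have hl : ∀ n, n ≤ (s n).1.length := by
    intro n
    cases n with
    | zero => exact Nat.zero_le _
    | succ n => rw [hs]; exact (hf (s n) n (hpos n)).2.2.1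
  have hopm : ∀ m n, m ≤ n → Op (s m).2 ⊆ Op (s n).2 := by
    intro m n hmn
    induction hmn with
    | refl => exact subset_rfl
    | step _ ih => exact ih.trans (by rw [hs]; exact (hf _ _ (hpos _)).2.2.2.2.1)
  obtain ⟨Z, hZ⟩ := exists_limit (fun n => (s n).1)
    (fun n => by simp only [hs]; exact (hf (s n) n (hpos n)).2.1) hl
  have hZc : ∀ n, Z ∈ cyl (s n).1 := fun n => by rw [mem_cyl_iff]; exact hZ n
  have hZU : ∀ k, Z ∉ Op (s k).2 := by
    rintro k ⟨t, h⟩
    apply (hpos (max k t)).2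
    have hsub : cyl (s (max k t)).1 ⊆ Op (s (max k t)).2 := by
      intro Z' hZ'
      apply hopm k _ (le_max_left _ _)
      refine ⟨t, ?_⟩
      rw [mem_cyl_iff] at hZ'
      have ht : t ≤ (s (max k t)).1.length := le_trans (le_max_right _ _) (hl _)
      have h3 : pre Z' t = pre Z t := by
        rw [← take_pre Z' _ t ht, hZ', ← hZ (max k t), take_pre _ _ _ ht]
      rw [h3]
      exact h
    rw [Set.sdiff_eq_empty.2 hsub, measure_empty]
  have hZO : OWR nul Z := by
    intro G hG hZG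
    obtain ⟨E, hE, -, hGE⟩ := UnifSigma.exists_E hG.1
    obtain ⟨c, hc⟩ := exists_code hE
    have hGc : ∀ n, G n = UE (Ec c) nul n := by
      intro n
      rw [hGE n]
      ext X
      simp only [UE, Set.mem_ofPred_eq, hc, Ec]
    obtain ⟨m, hm⟩ := (hf (s (encode c)) (encode c) (hpos _)).2.2.2.2.2 c rfl (by
      intro e he
      obtain ⟨m, hm⟩ := ow_small hG he
      exact ⟨m, by rw [← hGc]; exact hm⟩)
    rw [← hs, ← hGc] at hm
    rw [Set.mem_iInter] at hZG
    exact hZU (encode c + 1) (hm (hZG m))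
  apply hLR Z hZO _ htest
  rw [Set.mem_iInter]
  intro i
  have := (hf (s i) i (hpos i)).2.2.2.1
  rw [← hs] at this
  exact this (hZc (i + 1))

/-- the covering lemma -/
theorem cover {A : ℕ → Bool} (hLR : ∀ Z, OWR nul Z → MLR A Z) {g : ℕ → ℕ} (hg : Primrec g)
    {ES : List Bool × ℕ → Prop} (hES : S1 ES)
    (hw : ∀ F : Finset ℕ, (∀ x ∈ F, ∃ s, ES (pre A s, x)) → ∑ x ∈ F, (1 / 2 : ℝ≥0∞) ^ (g x) ≤ 1) :
    ∃ V : ℕ → Prop, S1 V ∧ (∀ x, (∃ s, ES (pre A s, x)) → V x) ∧
      ∃ b : ℕ, ∀ F : Finset ℕ, (∀ x ∈ F, V x) →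
        ∑ x ∈ F, (1 / 2 : ℝ) ^ (g x) ≤ b := by
  classical
  obtain ⟨ρ, i, P, hP, hρ, hi⟩ := exists_rho hLR hg hES hw
  have hE : S1 (fun y : List Bool × ℕ × List Bool => P y.2.2) :=
    hP.comp (Primrec.snd.comp Primrec.snd)
  obtain ⟨lm, hlm⟩ : ∃ lm : ℝ, lm = lam.real (cyl ρ \ Op P) := ⟨_, rfl⟩
  have hlm0 : 0 < lm := by
    rw [hlm, measureReal_def]
    exact ENNReal.toReal_pos hρ (measure_ne_top _ _)
  obtain ⟨d, hd⟩ : ∃ d : ℕ, (1 / 2 : ℝ) ^ d < lm / 4 :=
    exists_pow_lt_of_lt_one (by positivity) (by norm_num)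
  let C : ℕ → Set (ℕ → Bool) := fun x =>
    {Z | ∃ t, RP (fun y : List Bool × ℕ × List Bool => P y.2.2) g ρ i ([], x) (pre Z t)}
  have hAeq : ∀ x, C x = Op P ∪
      (cyl ρ ∩ Blk (Nat.pair (encode x) i) (g x + i))ᶜ := fun x =>
    RP_set (fun y : List Bool × ℕ × List Bool => P y.2.2) g ρ i [] x
  have hAm : ∀ x, MeasurableSet (C x) := fun x =>
    measurableSet_open (fun _ τ => RP (fun y : List Bool × ℕ × List Bool => P y.2.2) g ρ i ([], x) τ)
  have hS1 : S1 fun x : List Bool × ℕ => ((2 ^ (encode x.2 + d) - 1 : ℕ) : ℝ≥0∞) /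
      ((2 ^ (encode x.2 + d) : ℕ) : ℝ≥0∞) < lam {Z | ∃ t,
        RP (fun y : List Bool × ℕ × List Bool => P y.2.2) g ρ i x (pre Z t)} := by
    refine s1_measure_gt (P := fun x ζ =>
        RP (fun y : List Bool × ℕ × List Bool => P y.2.2) g ρ i x ζ)
      (a := fun x : List Bool × ℕ => 2 ^ (encode x.2 + d) - 1)
      (b := fun x : List Bool × ℕ => 2 ^ (encode x.2 + d)) (s1_RP hE hg ρ i) ?_ ?_ ?_
    · exact Primrec.nat_sub.comp (primrec_pow.comp (Primrec.const 2) (Primrec.nat_add.comp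
        (Primrec.encode.comp Primrec.snd) (Primrec.const d))) (Primrec.const 1)
    · exact primrec_pow.comp (Primrec.const 2) (Primrec.nat_add.comp
        (Primrec.encode.comp Primrec.snd) (Primrec.const d))
    · intro x; positivity
  have hS2 : S1 fun x : ℕ => ((2 ^ (encode x + d) - 1 : ℕ) : ℝ≥0∞) /
      ((2 ^ (encode x + d) : ℕ) : ℝ≥0∞) < lam (C x) :=
    hS1.comp (f := fun x : ℕ => (([], x) : List Bool × ℕ)) ((Primrec.const []).pair Primrec.id)
  have hthr : ∀ (N : ℕ) (V : Set (ℕ → Bool)), ((2 ^ N - 1 : ℕ) : ℝ≥0∞) / ((2 ^ N : ℕ) : ℝ≥0∞) < lam V →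
      1 - (1 / 2) ^ N < lam.real V := by
    intro N V h
    have h1 := (ENNReal.toReal_lt_toReal (ne_top_of_lt h) (measure_ne_top lam V)).2 h
    rw [ENNReal.toReal_div, ENNReal.toReal_natCast, ENNReal.toReal_natCast, two_pow_frac] at h1
    exact h1
  refine ⟨fun x => ((2 ^ (encode x + d) - 1 : ℕ) : ℝ≥0∞) /
      ((2 ^ (encode x + d) : ℕ) : ℝ≥0∞) < lam (C x), hS2, ?_, ?_⟩
  · intro x hx
    have hfull : lam (C x) = 1 := by
      have h0 : lam (C x)ᶜ = 0 := by
        refine le_antisymm (le_trans (measure_mono ?_) (le_of_eq hi)) bot_le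
        intro Z hZ
        simp only [Set.mem_compl_iff, hAeq, Set.mem_union, not_or, not_not] at hZ
        refine ⟨⟨hZ.2.1, ?_⟩, hZ.1⟩
        rw [UE_EVb]
        simp only [Set.mem_iUnion, exists_prop]
        exact ⟨x, hx, hZ.2.2⟩
      have h1 := prob_add_prob_compl (μ := lam) (s := C x) (hAm x)
      rwa [h0, add_zero] at h1
    show ((2 ^ (encode x + d) - 1 : ℕ) : ℝ≥0∞) / ((2 ^ (encode x + d) : ℕ) : ℝ≥0∞) < lam (C x)
    rw [hfull, ENNReal.div_lt_iff (Or.inl (by positivity)) (Or.inl (ENNReal.natCast_ne_top _)),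
      one_mul]
    exact_mod_cast Nat.sub_lt (by positivity) Nat.one_pos
  · obtain ⟨b, hb⟩ := exists_nat_gt (2 ^ i * (2 / lm))
    refine ⟨b, fun F hF => ?_⟩
    -- measure of the overlap
    have hover : ∀ x ∈ F, lam.real ((cyl ρ \ Op P) ∩ Blk (Nat.pair (encode x) i) (g x + i)) ≤
        (1 / 2) ^ (encode x + d) := by
      intro x hx
      have h1 := hthr _ _ (hF x hx)
      have h2 : (cyl ρ \ Op P) ∩ Blk (Nat.pair (encode x) i) (g x + i) ⊆ (C x)ᶜ := by
        rintro Z ⟨⟨h3, h4⟩, h5⟩ h6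
        rw [hAeq] at h6
        rcases h6 with h6 | h6
        · exact h4 h6
        · exact h6 ⟨h3, h5⟩
      have h3 : lam.real (C x)ᶜ = 1 - lam.real (C x) :=
        probReal_compl_eq_one_sub (hAm x)
      have h4 := measureReal_mono h2 (μ := lam)
      rw [h3] at h4
      linarith
    obtain ⟨Q, hQ⟩ : ∃ Q : Set (ℕ → Bool), Q = (cyl ρ \ Op P) \
        ⋃ x ∈ F, Blk (Nat.pair (encode x) i) (g x + i) := ⟨_, rfl⟩
    have hQm : MeasurableSet Q := by
      rw [hQ]
      exact ((measurableSet_cyl ρ).diff (measurableSet_Op P)).diff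
        (Finset.measurableSet_biUnion _ fun x _ => measurableSet_Blk _ _)
    have hQl : lm / 2 ≤ lam.real Q := by
      have h1 : cyl ρ \ Op P ⊆ Q ∪ ⋃ x ∈ F, ((cyl ρ \ Op P) ∩
          Blk (Nat.pair (encode x) i) (g x + i)) := by
        intro Z hZ
        by_cases h : ∃ x ∈ F, Z ∈ Blk (Nat.pair (encode x) i) (g x + i)
        · right
          simp only [Set.mem_iUnion, exists_prop]
          obtain ⟨x, h3, h4⟩ := h
          exact ⟨x, h3, hZ, h4⟩
        · left
          rw [hQ]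
          refine ⟨hZ, ?_⟩
          simpa using h
      have h2 := measureReal_mono h1 (μ := lam)
      have h3 := measureReal_union_le (μ := lam) Q (⋃ x ∈ F, ((cyl ρ \ Op P) ∩
          Blk (Nat.pair (encode x) i) (g x + i)))
      have h4 : lam.real (⋃ x ∈ F, ((cyl ρ \ Op P) ∩ Blk (Nat.pair (encode x) i) (g x + i))) ≤
          ∑ x ∈ F, lam.real ((cyl ρ \ Op P) ∩ Blk (Nat.pair (encode x) i) (g x + i)) :=
        measureReal_biUnion_finset_le _ _
      have h5 := Finset.sum_le_sum hover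
      have h6 := sum_half_encode_le F d
      rw [← hlm] at h2
      linarith
    have hch := chebyshev lam F (fun x => Blk (Nat.pair (encode x) i) (g x + i))
      (fun x _ => measurableSet_Blk _ _) (fun x => (1 / 2) ^ (g x + i))
      (fun x _ => by rw [measureReal_def, lam_Blk, real_half_pow])
      (fun x _ y _ hne => by
        rw [measureReal_def, lam_Blk_Blk, real_half_pow, pow_add]
        intro h
        exact hne (encode_injective (Nat.pair_eq_pair.1 h).1)) Q hQm
      (fun x hx => by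
        rw [Set.disjoint_left, hQ]
        rintro Z ⟨_, h1⟩ h2
        apply h1
        simp only [Set.mem_iUnion, exists_prop]
        exact ⟨x, hx, h2⟩)
    have hsum : (∑ x ∈ F, (1 / 2 : ℝ) ^ (g x + i)) * (lm / 2) ≤ 1 := by
      refine le_trans (mul_le_mul_of_nonneg_left hQl ?_) hch
      exact Finset.sum_nonneg fun x _ => by positivity
    have hsum2 : ∑ x ∈ F, (1 / 2 : ℝ) ^ (g x) ≤ 2 ^ i * (2 / lm) := by
      have h1 : ∑ x ∈ F, (1 / 2 : ℝ) ^ (g x) = 2 ^ i * ∑ x ∈ F, (1 / 2 : ℝ) ^ (g x + i) := by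
        rw [Finset.mul_sum]
        refine Finset.sum_congr rfl fun x _ => ?_
        rw [pow_add, mul_comm, mul_assoc, ← mul_pow]
        norm_num
      rw [h1]
      refine mul_le_mul_of_nonneg_left ?_ (by positivity)
      rw [le_div_iff₀ hlm0]
      linarith
    exact le_trans hsum2 hb.le

end RevL

theorem s_Rev : S_Rev := by
  intro A hLR E ω hE hω hw
  have hw' : ∀ F : Finset ℕ, (∀ x ∈ F, ∃ s, E (pre A s, x)) →
      ∑ x ∈ F, (1 / 2 : ℝ≥0∞) ^ (ω x) ≤ 1 := by
    intro F hF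
    have h1 := hw F hF
    have hsum3 : ∑ x ∈ F, (1 / 2 : ℝ≥0∞) ^ (ω x) = ENNReal.ofReal (∑ x ∈ F, (1 / 2 : ℝ) ^ (ω x)) := by
      rw [ENNReal.ofReal_sum_of_nonneg (fun x _ => by positivity)]
      refine Finset.sum_congr rfl fun x _ => ?_
      rw [ENNReal.ofReal_pow (by norm_num), one_div, one_div, ENNReal.ofReal_inv_of_pos (by norm_num)]
      norm_num
    rw [hsum3]
    refine le_trans (ENNReal.ofReal_le_ofReal h1) ?_
    rw [ENNReal.ofReal_one]
  obtain ⟨V, hV, hV2, b, hb⟩ := RevL.cover hLR hω hE hw'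
  exact ⟨V, hV, fun x hx => hV2 x hx, b, hb⟩

end Pool.Agent.H709.OW
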