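import Pool.Agent.H709.OW.Props

set_option autoImplicit false

/-! Leaf Trim: trimmed enumeration operators. -/

namespace Pool.Agent.H709.OW

open Pool.Agent.Helper227 MeasureTheory Encodable
open scoped ENNReal

namespace TrimL

theorem primrec_sum {α : Type*} [Primcodable α] {g : α → ℕ} {f : α → ℕ → ℕ} (hg : Primrec g)
    (hf : Primrec₂ f) : Primrec fun a => ∑ i ∈ Finset.range (g a), f a i := by
  have h := Primrec.nat_rec' (f := g) (g := fun _ => 0) (h := fun a p => p.2 + f a p.1) hg
    (Primrec.const 0) (Primrec.nat_add.comp (Primrec.snd.comp Primrec.snd)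
      (hf.comp Primrec.fst (Primrec.fst.comp Primrec.snd)))
  refine h.of_eq fun a => ?_
  induction g a with
  | zero => simp
  | succ n ih => simp [Finset.sum_range_succ, ih]

theorem primrec_pow2 {α : Type*} [Primcodable α] {g : α → ℕ} (hg : Primrec g) :
    Primrec fun a => 2 ^ g a := by
  have h := Primrec.nat_rec' (f := g) (g := fun _ => 1) (h := fun _ p => p.2 * 2) hg
    (Primrec.const 1) (Primrec.nat_mul.comp (Primrec.snd.comp Primrec.snd) (Primrec.const 2))
  refine h.of_eq fun a => ?_
  induction g a with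
  | zero => simp
  | succ n ih => simp [pow_succ, ih]

theorem primrec_el : Primrec GR.el :=
  Primrec.fst.comp (Primrec.unpair.comp Primrec.list_length)

/-- the untrimmed operator -/
def en0 (q : Str × ℕ → ℕ → Prop) (τ : Str) : Prop :=
  ∃ j < τ.length + 1, q (τ.take j, GR.el τ) (Nat.unpair τ.length).2

theorem primrec_en0 {q : Str × ℕ → ℕ → Prop} (hq : PrimrecRel q) : PrimrecPred (en0 q) := by
  unfold en0
  refine PP.ex_lt (p := fun (τ : Str) j => q (τ.take j, GR.el τ) (Nat.unpair τ.length).2) ?_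
    (Primrec.succ.comp Primrec.list_length)
  exact hq.comp ((Primrec.list_take.comp Primrec.snd Primrec.fst).pair
    (primrec_el.comp Primrec.fst))
    (Primrec.snd.comp (Primrec.unpair.comp (Primrec.list_length.comp Primrec.fst)))

/-- the elements enumerated along `τ` -/
def PX (q : Str × ℕ → ℕ → Prop) (τ : Str) (x : ℕ) : Prop :=
  ∃ j < τ.length + 1, en0 q (τ.take j) ∧ GR.el (τ.take j) = x

theorem primrec_PX {q : Str × ℕ → ℕ → Prop} (hq : PrimrecRel q) : PrimrecRel (PX q) := by
  unfold PX
  refine PP.ex_lt (α := Str × ℕ)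
    (p := fun (a : Str × ℕ) j => en0 q (a.1.take j) ∧ GR.el (a.1.take j) = a.2) ?_
    (Primrec.succ.comp (Primrec.list_length.comp Primrec.fst))
  have h1 : Primrec fun x : (Str × ℕ) × ℕ => x.1.1.take x.2 :=
    Primrec.list_take.comp Primrec.snd (Primrec.fst.comp Primrec.fst)
  exact PrimrecPred.and ((primrec_en0 hq).comp h1)
    (Primrec.eq.comp (primrec_el.comp h1) (Primrec.snd.comp Primrec.fst))

/-- the common exponent -/
def MM (ω : ℕ → ℕ) (τ : Str) : ℕ := ∑ x ∈ Finset.range (τ.length + 1), ω x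

open Classical in
/-- the weight, as an integer -/
noncomputable def WW (q : Str × ℕ → ℕ → Prop) (ω : ℕ → ℕ) (τ : Str) : ℕ :=
  ∑ x ∈ Finset.range (τ.length + 1), if PX q τ x then 2 ^ (MM ω τ - ω x) else 0

theorem primrec_MM {ω : ℕ → ℕ} (hω : Primrec ω) : Primrec (MM ω) := by
  unfold MM
  exact primrec_sum (f := fun (_ : Str) x => ω x) (Primrec.succ.comp Primrec.list_length)
    (hω.comp Primrec.snd)

theorem primrec_WW {q : Str × ℕ → ℕ → Prop} (hq : PrimrecRel q) {ω : ℕ → ℕ} (hω : Primrec ω) :
    Primrec (WW q ω) := by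
  classical
  unfold WW
  refine primrec_sum (f := fun (τ : Str) x => if PX q τ x then 2 ^ (MM ω τ - ω x) else 0)
    (Primrec.succ.comp Primrec.list_length) ?_
  refine Primrec.ite (primrec_PX hq) ?_ (Primrec.const 0)
  exact primrec_pow2 (Primrec.nat_sub.comp ((primrec_MM hω).comp Primrec.fst)
    (hω.comp Primrec.snd))

open Classical in
theorem WW_le_iff (q : Str × ℕ → ℕ → Prop) (ω : ℕ → ℕ) (τ : Str) :
    WW q ω τ ≤ 2 ^ MM ω τ ↔
      ∑ x ∈ (Finset.range (τ.length + 1)).filter (fun x => PX q τ x), (1 / 2 : ℝ) ^ ω x ≤ 1 := by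
  have h1 : (WW q ω τ : ℝ) = 2 ^ MM ω τ *
      ∑ x ∈ (Finset.range (τ.length + 1)).filter (fun x => PX q τ x), (1 / 2 : ℝ) ^ ω x := by
    rw [WW, Finset.mul_sum, Finset.sum_filter]
    push_cast
    refine Finset.sum_congr rfl fun x hx => ?_
    split_ifs
    · have hle : ω x ≤ MM ω τ :=
        Finset.single_le_sum (f := fun x => ω x) (fun _ _ => Nat.zero_le _) hx
      rw [pow_sub₀ _ two_ne_zero hle, one_div, inv_pow]
    · rfl
  have h2 : (0 : ℝ) < 2 ^ MM ω τ := by positivity
  constructor
  · intro h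
    have h3 : (WW q ω τ : ℝ) ≤ 2 ^ MM ω τ := by exact_mod_cast h
    rw [h1] at h3
    exact (mul_le_iff_le_one_right h2).1 h3
  · intro h
    have h3 : (WW q ω τ : ℝ) ≤ 2 ^ MM ω τ := by
      rw [h1]
      exact (mul_le_iff_le_one_right h2).2 h
    exact_mod_cast h3

end TrimL

namespace GR

open TrimL

theorem s_Trim : GR.S_Trim := by
  classical
  intro A E ω hE hω hw
  obtain ⟨q, hq, hm, he⟩ := hE
  refine ⟨fun τ => en0 q τ ∧ WW q ω τ ≤ 2 ^ MM ω τ, ?_, ?_, ?_⟩
  · exact PrimrecPred.and (primrec_en0 hq)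
      (Primrec.nat_le.comp (primrec_WW hq hω) (primrec_pow2 (primrec_MM hω)))
  · intro α F hF
    rcases F.eq_empty_or_nonempty with rfl | ⟨x0, hx0⟩
    · simp
    set p : ℕ → Prop := fun n => en0 q (α.take n) ∧ WW q ω (α.take n) ≤ 2 ^ MM ω (α.take n)
      with hp
    set N := Nat.findGreatest p α.length with hN
    have hpN : p N := by
      obtain ⟨τ, h1, h2, -⟩ := hF x0 hx0
      refine Nat.findGreatest_spec (P := p) (m := τ.length) h1.length_le ?_
      rw [hp]
      simp only
      rwa [← List.prefix_iff_eq_take.1 h1]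
    have hNle : N ≤ α.length := Nat.findGreatest_le _
    have hlen : (α.take N).length = N := by rw [List.length_take, min_eq_left hNle]
    have hsub : F ⊆ (Finset.range ((α.take N).length + 1)).filter
        (fun x => PX q (α.take N) x) := by
      intro x hx
      obtain ⟨τ, h1, h2, h3⟩ := hF x hx
      have hτ : τ.length ≤ N := by
        refine Nat.le_findGreatest (P := p) h1.length_le ?_
        rw [hp]
        simp only
        rwa [← List.prefix_iff_eq_take.1 h1]
      have hτ2 : (α.take N).take τ.length = τ := by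
        rw [List.take_take, min_eq_left hτ]
        exact (List.prefix_iff_eq_take.1 h1).symm
      rw [Finset.mem_filter, Finset.mem_range, hlen]
      refine ⟨?_, τ.length, by rw [hlen]; omega, by rw [hτ2]; exact h2.1, by rw [hτ2]; exact h3⟩
      rw [← h3]
      have := Nat.unpair_left_le τ.length
      show (Nat.unpair τ.length).1 < N + 1
      omega
    refine (Finset.sum_le_sum_of_subset_of_nonneg hsub (fun _ _ _ => by positivity)).trans ?_
    exact (WW_le_iff q ω _).1 hpN.2
  · rintro x ⟨s, hs⟩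
    obtain ⟨n, hn⟩ := (he _).1 hs
    refine ⟨Nat.pair x (max n s), ⟨?_, ?_⟩, ?_⟩
    · refine ⟨s, ?_, ?_⟩
      · rw [length_pre]
        have := Nat.right_le_pair x (max n s)
        have := le_max_right n s
        omega
      · rw [take_pre _ _ _ ((le_max_right n s).trans (Nat.right_le_pair _ _))]
        simp only [el, length_pre, Nat.unpair_pair]
        exact hm _ _ _ (le_max_left _ _) hn
    · rw [WW_le_iff]
      refine hw _ fun y hy => ?_
      rw [Finset.mem_filter] at hy
      obtain ⟨-, j, hj, ⟨i, hi, hq1⟩, hy2⟩ := hy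
      rw [length_pre] at hj
      rw [take_pre _ _ _ (by omega)] at hi hq1 hy2
      rw [length_pre] at hi
      rw [take_pre _ _ _ (by omega), hy2] at hq1
      exact ⟨i, (he _).2 ⟨_, hq1⟩⟩
    · simp [el]

end GR

end Pool.Agent.H709.OW
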