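import Pool.Agent.H709.OW.Asm
import Pool.Agent.H709.OW.GoldD
import Pool.Agent.H709.OW.Kc
import Pool.Agent.H709.OW.Count
import Pool.Agent.H709.OW.Conv
import Pool.Agent.H709.OW.G1
import Pool.Agent.H709.OW.G2
import Pool.Agent.H709.OW.Ex
import Pool.Agent.H709.OW.Pr
import Pool.Agent.H709.OW.Trim
import Pool.Agent.H709.OW.Low
import Pool.Agent.H709.OW.Enum
import Pool.Agent.H709.OW.Qs
import Pool.Agent.H709.OW.Delay
import Pool.Agent.H709.OW.Abs
import Pool.Agent.H709.OW.Ord
import Pool.Agent.H709.OW.KW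
import Pool.Agent.H709.OW.Kill
import Pool.Agent.H709.OW.Fin
import Pool.Agent.H709.OW.KT
import Pool.Agent.H709.OW.Rev

set_option autoImplicit false

/-! Low for Oberwolfach randomness = K-trivial. -/

namespace Pool.Agent.H709.OW

open Pool.Agent.Helper227

/-- K-trivial sets have the covering property (golden run theorem). -/
theorem cov_of_kt {U : List Bool →. List Bool} (hU : IsUniversal U) {A : ℕ → Bool}
    (hA : KTrivial U A) : Cov A :=
  GR.cov_of_KTrivial s_KC s_Kraft (s_Iso (s_Count s_KC s_Kraft)) s_Conv GR.s_Tot GR.s_G1 GR.s_G2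
    GR.s_Ex GR.s_Un GR.s_Cg GR.s_Pr GR.s_PrF GR.s_Trim hU hA

/-- K-trivial sets are low for Oberwolfach randomness. -/
theorem ow_of_kt {U : List Bool →. List Bool} (hU : IsUniversal U) {A : ℕ → Bool}
    (hA : KTrivial U A) (Z : ℕ → Bool) (hZ : OWR (fun _ => false) Z) : OWR A Z :=
  low_of_cov s_g s_Q s_Delay s_Abs s_Nest s_Cnt (s_Kill s_KW s_Pri) s_Fin s_OWML s_Low A
    (cov_of_kt hU hA) Z hZ

/-- Sets which are low for Oberwolfach randomness are K-trivial. -/
theorem kt_of_ow {U : List Bool →. List Bool} (hU : IsUniversal U) {A : ℕ → Bool}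
    (hA : ∀ Z, OWR (fun _ => false) Z → OWR A Z) : KTrivial U A :=
  s_KT s_KC s_Kraft U hU A (s_Rev A fun Z hZ => s_OWML A Z (hA Z hZ))

end Pool.Agent.H709.OW
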