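import Pool.Agent.H709.OW.Defs

set_option autoImplicit false

/-!
The lemmas (`S_X : Prop`) from which the theorem is assembled in `Asm.lean`.

Conventions.  `Str = List Bool`; `pre A n` is the initial segment of length `n`; `S1 p` (library,
`Helper227/SOne.lean`) says that `p` is a `Σ₁` predicate in normal form, with closure lemmas
`S1.ex, S1.and, S1.or, S1.all_lt, S1.all_mem, S1.comp, S1.of_prim, S1.of_re, S1.re,
S1.comp_computable` and for primitive recursive predicates `PP.ex_lt, PP.all_lt, PP.ex_mem,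
PP.all_mem`.  `allStr n` (`Helper227/Meas.lean`) lists all strings of length `n`.
-/

namespace Pool.Agent.H709.OW

open Pool.Agent.Helper227 MeasureTheory Encodable
open scoped ENNReal

/-! ### Kolmogorov complexity -/

/-- **S_KC** (Kraft-Chaitin for `Σ₁` sets of requests).
Proof: as in `Pool.Graph.R_seed8.H561R3.LR.Hungry` (`req`, `req_bound`) but simpler. From `S1 Rq`
take the primitive recursive monotone stage predicate `q`. Put
`req i := match decode₂ (ℕ × ℕ × List Bool) i with | some (n, r, y) => if q (r, y) (n+1) ∧ ¬ q (r, y) n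
then some (r, y) else none` (and treat `q (r,y) 0` too, e.g. use `n = 0 ∧ q (r,y) 0` or replace `q x n`
by `n ≠ 0 ∧ q x n`), so that every element of `Rq` is requested exactly once. `KC.kraft_chaitin`
(`Helper227/KC2.lean`) gives a prefix-free machine, and `IsUniversal` the constant; `KU_le`. -/
def S_KC : Prop := ∀ (U : List Bool →. List Bool), IsUniversal U → ∀ Rq : ℕ × List Bool → Prop,
  S1 Rq → (∀ F : Finset (ℕ × List Bool), (∀ x ∈ F, Rq x) → ∑ x ∈ F, (1 / 2 : ℝ) ^ x.1 ≤ 1) →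
  ∃ c : ℕ, ∀ r y, Rq (r, y) → KU U y ≤ r + c

/-- **S_Kraft**: the Kraft inequality for `KU`. Proof: choose shortest programs
(`IsUniversal.exists_min`), they are distinct for distinct `y` and form a prefix-free set; use
`Pool.Agent.Helper227.kraft` (in `ℝ≥0∞`) and convert to `ℝ`. -/
def S_Kraft : Prop := ∀ (U : List Bool →. List Bool), IsUniversal U → ∀ F : Finset (List Bool),
  ∑ y ∈ F, (1 / 2 : ℝ) ^ KU U y ≤ 1

/-- **S_Count** (Chaitin's counting theorem): for every `b` there is `N` such that for all `n` at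
most `N` strings `σ` of length `n` have `K(σ) ≤ K(0^n) + b`.
Proof: requests `(k - j + 2, 0^n)` for all `n, k, j` such that `j ≤ k` and there are at least `2^j` strings of
length `n` with `K ≤ k` (this is `Σ₁`: there is a duplicate-free list of `2^j` strings ...).
For fixed `n, k` let `N_k` be the number of strings of length `n` with `K ≤ k`; the requests for
`(n, k)` have weight `∑_{j : 2^j ≤ N_k} 2^{-(k-j+2)} ≤ 2^{-k-1} N_k`, and
`∑_k 2^{-k} N_k = ∑_σ ∑_{k ≥ K(σ)} 2^{-k} = 2 ∑_σ 2^{-K(σ)} ≤ 2` (`S_Kraft`). So `S_KC` gives `c` with `K(0^n) ≤ k - j + 2 + c`;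
take `k = K(0^n) + b`, so `2^j ≤ N_k` implies `j ≤ b + 2 + c`. (Note: different `(k,j)` can give the same
request; this only helps. Any other proof is fine. A convenient variant: bound the sum over a finite set of
requests by an injection argument choosing for each request one witness `(n,k,j)`.) -/
def S_Count : Prop := ∀ (U : List Bool →. List Bool), IsUniversal U → ∀ b : ℕ, ∃ N : ℕ, ∀ (n : ℕ)
  (F : Finset (List Bool)), (∀ σ ∈ F, σ.length = n ∧ KU U σ ≤ KU U (List.replicate n false) + b) →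
  F.card ≤ N

/-- **S_Iso**: a K-trivial set is isolated among the sets with the same triviality constant.
Proof: by `S_Count` there are at most `N` sets `X` with `∀ n, K(X↾n) ≤ K(0^n) + b` (given `N+1` distinct ones, choose
`n` with distinct initial segments of length `n`). So the set of these `X` is finite and some `l₀` separates `A`
from the others. -/
def S_Iso : Prop := ∀ (U : List Bool →. List Bool), IsUniversal U → ∀ (A : ℕ → Bool) (b : ℕ),
  ∃ l₀ : ℕ, ∀ X : ℕ → Bool, pre X l₀ = pre A l₀ →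
    (∀ n, KU U (pre X n) ≤ KU U (List.replicate n false) + b) →
    (∀ n, KU U (pre A n) ≤ KU U (List.replicate n false) + b) → X = A

/-- **S_Conv** (compactness). If `A` is the only `X` extending `pre A l₀` with `∀ n, P n (pre X n)`,
and the strings `α s` of length `s` extend `pre A l₀` (for `s ≥ l₀`) and for every `n` satisfy `P n ((α s).take n)`
for all large `s`, then `α s → A`.
Proof: otherwise for some `l` there are infinitely many `s` with `(α s).take l ≠ pre A l`; the sets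
`X_s = α s 000...` (`fun i => (α s).getD i false`) for these `s` have a cluster point `X` in the compact space `ℕ → Bool`
(for every `n` infinitely many of these `s` have `(α s).take n = pre X n`); `X` extends `pre A l₀`, satisfies
`P n (pre X n)` for all `n`, and `pre X l ≠ pre A l`. (One can also build `X` by Koenig's lemma.) -/
def S_Conv : Prop := ∀ (P : ℕ → List Bool → Prop) (A : ℕ → Bool) (l₀ : ℕ),
  (∀ X : ℕ → Bool, pre X l₀ = pre A l₀ → (∀ n, P n (pre X n)) → X = A) →
  ∀ α : ℕ → List Bool, (∀ s, (α s).length = s) → (∀ s, l₀ ≤ s → (α s).take l₀ = pre A l₀) →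
    (∀ n, ∃ s₁, ∀ s ≥ s₁, P n ((α s).take n)) → ∀ l, ∃ s₁, ∀ s ≥ s₁, (α s).take l = pre A l

/-! ### The golden run -/

namespace GR

/-- the sequence of records coded by a list -/
def seqOf (h : List Rec) (u : ℕ) : Rec := h.getD u (([], 0), [], none)

/-- **S_Tot**: the total load never exceeds one.
Proof: induction on `s`. All loads `q'` before a load `q` satisfy `q' ≤ q`, so `tot R s` is an integer multiple of
`2^{-q}` (`∃ k : ℕ, tot R s = k * (1/2)^q`); since `tot R s < 1 = 2^q * 2^{-q}` we get `tot R s + 2^{-q} ≤ 1`. -/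
def S_Tot : Prop := ∀ (R : ℕ → Rec) (ω : ℕ → ℕ) (r s : ℕ), (∀ u < s, LdAt R ω r u) → tot R s ≤ 1

/-- **S_G1** (the exhaustion lemma). Except for weight `1/2`, all the loads made before stage `S` are
made at stages `s` for which the approximations `al R u`, `s < u < S`, have at least `r + 1` different
initial segments of length `s`.

Proof. Write `α_s, ps_s, ld_s`. For `s < S` with a load we have `(ps_s).length = r + 1`; write `τ^i_s = (ps_s)[i]`,
`i ≤ r`. Call `s` *`i`-bad* if for all `u` with `s ≤ u < S`: if `(ps_v).take i = (ps_s).take i` for all `v ∈ [s,u]` then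
`τ^i_s <+: α_u`.
(1) *Bad loads.* Fix `i ≤ r` and `t < S` and consider the group of the `i`-bad `s < S` with a load and
`st R s i ((ps_s).take i) = t`. Two members `s < s'` of the group are in the same run: as `t ≤ s < s'`, the
definition of `st` at `s'` gives `(ps_u).take i = (ps_{s'}).take i =: L` for all `u ∈ [t, s')`. Let `w` be the largest member.
By badness `τ^i_s <+: α_w` for all members `s` (all `ps_v.take i = L` for `v ∈ [s, w]`). For a member `s` put
`x_s = el τ^i_s`; `en τ^i_s` holds (`Hungry`). For each value `x` let `s_x` be the last member with `x_s = x`. All the earlier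
members with value `x` are in `[t, s_x)` and are counted in `fed R s_x i L x`, so the total load of the members with
value `x` is at most `fed R s_x i L x + wt (ld s_x)`. Since `fed < 2^{-qu}`, all the summands of `fed` are `2^{-q'}` with
`q' ≤ q` and `qu ≤ q` where `ld s_x = some q`, integrality gives `fed + 2^{-q} ≤ 2^{-qu} = 2^{-(i+t+3+ω x)}`.
Summing over the values `x` and using `Trimmed ω en` for the string `α_w`, the group has total load `≤ 2^{-(i+t+3)}`.
Summing over `i` and `t`, all bad loads together have weight `≤ ∑_{i,t} 2^{-(i+t+3)} ≤ 1/2`.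
(2) *Good loads.* Let `s < S` have a load and be `i`-bad for no `i ≤ r`. For `i ≤ r` there is `u_i`, `s ≤ u_i < S`, with
`(ps_v).take i = (ps_s).take i` for all `v ∈ [s,u_i]` and `¬ τ^i_s <+: α_{u_i}`. Let `ε_i` be the least `u ≥ s` such that
`¬ τ^j_s <+: α_u` for some `j ≤ i`. Then `s < ε_i ≤ u_i` (at `s` all `τ^j_s <+: α_s`), and `u_i < ε_{i-1}` because for `j < i`
and `v ∈ [s, u_i]` we have `τ^j_s = (ps_v)[j] <+: α_v`. So `s < ε_r < ... < ε_0 < S`. The strings `(α_{ε_i}).take s` are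
distinct: if `i < j` then `ε_j < ε_i`; some `k ≤ i` has `¬ τ^k_s <+: α_{ε_i}`, while `τ^k_s <+: α_{ε_j}` by minimality of
`ε_i`; and `|τ^k_s| ≤ s`. -/
def S_G1 : Prop := ∀ (R : ℕ → Rec) (ω : ℕ → ℕ) (en : Str → Prop) (r S : ℕ), Trimmed ω en →
  (∀ s < S, SpecAt R ω en r s) →
  ∃ Good : Finset ℕ, (∀ s ∈ Good, s < S ∧ (ld R s).isSome) ∧
    tot R S - 1 / 2 ≤ ∑ s ∈ Good, wt (ld R s) ∧
    ∀ s ∈ Good, ∃ T : Finset Str, T.card = r + 1 ∧
      ∀ σ ∈ T, σ.length = s ∧ ∃ u, s < u ∧ u < S ∧ σ = (al R u).take s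

/-- **S_G2** (the golden run). If the budget is never exhausted and `α_s → A`, then some run at some
level `i ≤ r` is permanent and feeds all the elements enumerated with oracle `A` completely.

Proof. Let `P i` say: there are `L` with `L.length = i` and `s₀` such that `(ps_s).take i = L` for all `s ≥ s₀`.
`P 0` holds. `P (r+1)` is impossible: for `s ≥ s₀` then `ps_s = L` has length `r+1` (by `le`), `tot R s < 1`, so a load `q_s` is made
at every stage `s ≥ s₀`; for `s ≥ s₀ + 1` the numbers `qu R ω s i (L.take i) _` (`i ≤ r`) do not depend on `s` because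
`st R s i (L.take i)` does not (least `t` such that ...; adding the condition at `s` changes nothing), so `q_s` is
eventually constant `= q` (`q_s` is `≥` all previous loads and is one of the previous loads or one of the constants
`qu ≤ q_{s₀+1}`), and `tot` is unbounded, a contradiction.
So let `i ≤ r` with `P i` (witnesses `L, s₀`) and not `P (i+1)`. `t := st R s i L` is the same for all `s ≥ s₀`.
Suppose that the conclusion fails for these `i, L, s₀`: there is `l*` such that `τ* = pre A l*` has `en τ*` and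
`fed R s i L (el τ*) < 2^{-(i+t+3+ω(el τ*))}` for all `s ≥ s₀`, i.e. `Hungry R ω en s i L τ*`. Take `s₁ ≥ s₀` such that
`(α_s).take l* = pre A l*` for `s ≥ s₁` (and `s₁ ≥ l*`). For `s ≥ s₁`: `τ* <+: α_s`, so `(ps_s).length ≠ i` by `max`, so `i < (ps_s).length`,
and `τ_s := (ps_s)[i]` has length `≤ l*` by `min`, so `τ_s = pre A l_s` with `l_s ≤ l*`. `l_s` is nondecreasing: strings `pre A l` with
`l < l_s` are not hungry at `s` (`min`), so not hungry at `s+1` (`fed` is nondecreasing, same `st`), and `(ps_{s+1})[i]` is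
hungry at `s+1`. So `l_s` is eventually constant and `P (i+1)` holds, a contradiction. -/
def S_G2 : Prop := ∀ (R : ℕ → Rec) (ω : ℕ → ℕ) (en : Str → Prop) (r : ℕ) (A : ℕ → Bool),
  (∀ s, SpecAt R ω en r s) → (∀ s, tot R s < 1) →
  (∀ l, ∃ s₁, ∀ s ≥ s₁, (al R s).take l = pre A l) →
  ∃ i ≤ r, ∃ (L : List Str) (s₀ : ℕ), (∀ s ≥ s₀, st R s i L = st R s₀ i L) ∧
    ∀ l, en (pre A l) → ∃ s ≥ s₀,
      (1 / 2 : ℝ) ^ (i + st R s₀ i L + 3 + ω (el (pre A l))) ≤ fed R s i L (el (pre A l))

/-- **S_Ex** (existence). Every record can be completed. Note that `st`, `fed`, `tot`, `qu` at stage `s`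
depend only on the records before `s`. Build `ps` by adding hungry strings of least length (prefixes of `α`)
level by level, at most `r + 1` times; then the load is determined. -/
def S_Ex : Prop := ∀ (R : ℕ → Rec) (ω : ℕ → ℕ) (en : Str → Prop) (r s : ℕ) (a : Str × ℕ),
  a.1.length = s → ∃ (p : List Str) (o : Option ℕ), SpecAt (Function.update R s (a, p, o)) ω en r s

/-- **S_Un** (uniqueness). The record is determined by the previous records and its first component. -/
def S_Un : Prop := ∀ (R R' : ℕ → Rec) (ω : ℕ → ℕ) (en : Str → Prop) (r s : ℕ),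
  (∀ u < s, R u = R' u) → (R s).1 = (R' s).1 → SpecAt R ω en r s → SpecAt R' ω en r s → R s = R' s

/-- **S_Cg** (locality). -/
def S_Cg : Prop := ∀ (R R' : ℕ → Rec) (ω : ℕ → ℕ) (en : Str → Prop) (r s : ℕ),
  (∀ u ≤ s, R u = R' u) → SpecAt R ω en r s → SpecAt R' ω en r s

/-- **S_Pr**: the specification is a primitive recursive predicate of the coded history.
Everything is a bounded quantification or a finite sum of powers of two; `fed < 2^{-qu}` and `tot < 1` are
expressed with integers after multiplication by `2^M`, `M` large (e.g. the sum of all load exponents plus the quota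
exponent). `st` can be handled by: `t = st ↔ t ≤ s ∧ (∀ u < s, t ≤ u → take i (ps u) = L) ∧ (t = 0 ∨ take i (ps (t-1)) ≠ L)`. -/
def S_Pr : Prop := ∀ (ω : ℕ → ℕ) (en : Str → Prop), Primrec ω → PrimrecPred en →
  PrimrecPred (fun x : ℕ × List Rec × ℕ => SpecAt (seqOf x.2.1) ω en x.1 x.2.2)

/-- **S_PrF**: comparisons of `fed` with powers of two are primitive recursive. -/
def S_PrF : Prop := PrimrecPred (fun x : (List Rec × ℕ) × (ℕ × List Str) × (ℕ × ℕ) =>
    (1 / 2 : ℝ) ^ x.2.2.2 ≤ fed (seqOf x.1.1) x.1.2 x.2.1.1 x.2.1.2 x.2.2.1)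

/-- **S_Trim**: trimmed enumeration operators.
Proof. Let `q` be the primitive recursive monotone stage predicate of `E`. Put `en0 τ :⟺ ∃ j ≤ τ.length,
q (τ.take j, el τ) (Nat.unpair τ.length).2` and `en τ :⟺ en0 τ ∧ ∑_{x ∈ X_τ} 2^{-ω x} ≤ 1` where `X_τ` is the set of the
`x = el (τ.take j)` with `j ≤ τ.length` and `en0 (τ.take j)` (integer arithmetic: multiply by `2^M`). Trimmed: for `α`, let `τ` be the longest
prefix of `α` with `en τ` (if any); all the `x` in question are in `X_τ`. Every `x ∈ En E A` is enumerated along `A`: `E (pre A s, x)`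
gives `q (pre A s, x) n`; let `l = Nat.pair x (max n s)`, so `l ≥ s`; `el (pre A l) = x`. And `X_{pre A l} ⊆ En E A`, so the weight
condition holds for `A`. -/
def S_Trim : Prop := ∀ (A : ℕ → Bool) (E : Str × ℕ → Prop) (ω : ℕ → ℕ), S1 E → Primrec ω →
  (∀ F : Finset ℕ, (∀ x ∈ F, x ∈ En E A) → ∑ x ∈ F, (1 / 2 : ℝ) ^ ω x ≤ 1) →
  ∃ en : Str → Prop, PrimrecPred en ∧ Trimmed ω en ∧
    ∀ x ∈ En E A, ∃ l, en (pre A l) ∧ el (pre A l) = x

end GR

/-! ### Lowness for Martin-Löf randomness -/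

/-- **S_Low**: the covering property implies lowness for Martin-Löf randomness.
Proof. Let `U = UE F A` (`IsMLTest.exists_E`: `F` is `S1` and `Mono3`) be a Martin-Löf test relative to `A`, with stage predicate
`q` of `F`. Put `g v n ξ :⟺ q ((v, n, ξ) , |v|)`-like clopen approximations: `gg t n X :⟺ ∃ i ≤ t, ∃ j ≤ t, q (pre A i, n, pre X j) t`, increasing
in `t` with union `U n`. Let `E` enumerate the (codes of) pairs `x = (n, ξ)` such that `ξ` (of length `t`) is in `gg t (2n)` but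
`ξ.take (t-1)` is not in `gg (t-1) (2n)` (or `t = 0`): the cylinders of these `ξ` are disjoint with union `U (2n)`. The weight is
`2^{-ω x}` with `ω x = |ξ| - n + 1` (note that `|ξ| ≥ 2n` for the enumerated ones because `lam (U (2n)) ≤ 2^{-2n}`, if `ξ` occurs), so the total weight is
`∑_n 2^{n-1} lam (U (2n)) ≤ ∑_n 2^{-n-1} ≤ 1`. `Cov A` gives a c.e. `V` containing all of them with total weight `≤ c`. So the
`Σ⁰₁` sets `H n = ⋃ {cyl ξ : (n, ξ) ∈ V, |ξ| ≥ n}` satisfy `U (2n) ⊆ H n` and `lam (H n) ≤ c 2^{-n+1}`. Shifting the index gives an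
(unrelativised) test (`isMLTest_of_E`) containing `Z` if `Z ∈ ⋂ U n`. -/
def S_Low : Prop := ∀ A : ℕ → Bool, Cov A → ∀ Z : ℕ → Bool, MLR (fun _ => false) Z → MLR A Z

/-! ### The Oberwolfach part -/

/-- `g` is a good clopen enumeration of the sequence `G` relative to `A`: `g v m ξ` says that the
cylinder of `ξ` has been enumerated into `G m` with oracle string `v` after `|v|` steps. -/
structure IsEnum (A : ℕ → Bool) (G : ℕ → Set (ℕ → Bool)) (g : Str → ℕ → Str → Prop) : Prop where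
  prim : PrimrecPred fun x : Str × ℕ × Str => g x.1 x.2.1 x.2.2
  mono : ∀ v v' m ξ ξ', v <+: v' → ξ <+: ξ' → g v m ξ → g v' m ξ'
  anti : ∀ v m n ξ, m ≤ n → g v n ξ → g v m ξ
  small : ∀ v m ξ, g v m ξ → m < v.length
  spec : ∀ m X, X ∈ G m ↔ ∃ t, g (pre A t) m (pre X t)

/-- **S_g**: existence of enumerations.
Proof. As in `IsMLTest.exists_E` get `E` with `S1 E`, `Mono3 E`, `G n = UE E A n`; with stage predicate `q` put
`g v m ξ :⟺ m < |v| ∧ ∀ n ≤ m, ∃ i ≤ |v|, ∃ j ≤ |ξ|, q (v.take i, n, ξ.take j) |v|`. `Antitone G` is used for `spec`. -/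
def S_g : Prop := ∀ (A : ℕ → Bool) (G : ℕ → Set (ℕ → Bool)), UnifSigma A G → Antitone G →
  ∃ g : Str → ℕ → Str → Prop, IsEnum A G g

/-- **S_Q**: the left-c.e. bound can be made unrelativised (here lowness for `K` is used).
Proof. Let `e_s = β (s+1) - β s > 0` and let `M₀ ≥ 1` be an integer `≥ b - β 0`. Let `r_s` be the least `r` with
`2^{-r} ≤ e_s / M₀`, so `∑ 2^{-r_s} ≤ 1` and `e_s ≤ 2 M₀ 2^{-r_s}`. The set `{Nat.pair s r_s}` is `A`-c.e. (the graph of `β` is: use
`recIn_graph` from `Helper227/Use.lean` for the three functions in `CompRatIn`, as in `tLe_iff`). Apply `Cov A` with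
`ω x = (Nat.unpair x).2` to get `V` with stage predicate `q` (monotone) and bound `c₁`. Let
`γ_t = ∑_{x < t, q x t} 2^{-ω x}`; as `ω x ≤ x`, `2^t γ_{t+1}` and `2^t γ_t` are integers. Put `Q t = 2 c M₀ (2^t γ_{t+1} - 2^t γ_t) + 1`.
Then `∑_{t ∈ [m,n)} Q_t/2^t = 2 c M₀ (γ_n - γ_m) + ∑_{t ∈ [m,n)} 2^{-t}`. For `s ≥ m` the element `x = Nat.pair s r_s ≥ s ≥ m` is not
counted in `γ_m` but is counted in `γ_n` for large `n`; so `b - β m = ∑_{s ≥ m} e_s ≤ 2 M₀ lim_n (γ_n - γ_m)`, and
strictness comes from the terms `2^{-t}`. -/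
def S_Q : Prop := ∀ (A : ℕ → Bool) (β : ℕ → ℚ) (b : ℝ) (c : ℕ), Cov A → CompRatIn A β →
  StrictMono β → IsLUB (Set.range fun s => (β s : ℝ)) b →
  ∃ Q : ℕ → ℕ, Primrec Q ∧ (∀ t, 0 < Q t) ∧
    (∃ M : ℕ, ∀ n, ∑ t ∈ Finset.range n, (Q t : ℝ≥0∞) / 2 ^ t ≤ M) ∧
    ∀ m, ∃ n, ENNReal.ofReal (c * (b - β m)) < ∑ t ∈ Finset.Ico m n, (Q t : ℝ≥0∞) / 2 ^ t

/-- **S_Delay**: delay the enumeration so that the measure bounds hold at every stage.
Proof. For a string `w` and `t ≥ |w|` let `ok w t :⟺ ∀ n < |w|, (number of ξ of length |w| with g w n ξ) / 2^|w| ≤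
∑_{i ∈ [n,t)} Q_i / 2^i` (primitive recursive after multiplication by `2^(|w|+t)`; monotone in `t`) and
`g' v m ξ :⟺ ∃ u ≤ |v|, u ≤ |ξ| ∧ ok (v.take u) |v| ∧ g (v.take u) m (ξ.take u)`. `mono`, `anti`, `small` are clear. `spec`: for
`X ∈ G m` take `t₀` with `g (pre A t₀) m (pre X t₀)`; for each `n < t₀` the measure of `{X | g (pre A t₀) n (pre X t₀)} ⊆ G n` is
`≤ lam (G n) < ∑_{i ∈ [n,t)} Q_i/2^i` for large `t`, so `ok (pre A t₀) t` for large `t`. Measure bound at `t`: since `g` is monotone, the set for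
`(m, t)` is `{X | g (pre A u) m (pre X u)}` for the largest `u ≤ t` with `ok (pre A u) t` (empty if there is none or `m ≥ u`); use `ok`.
(`lam_finset` in `Helper227/Meas.lean` computes measures of clopen sets.) -/
def S_Delay : Prop := ∀ (A : ℕ → Bool) (G : ℕ → Set (ℕ → Bool)) (g : Str → ℕ → Str → Prop)
  (Q : ℕ → ℕ), IsEnum A G g → Primrec Q →
  (∀ m, ∃ n, lam (G m) < ∑ t ∈ Finset.Ico m n, (Q t : ℝ≥0∞) / 2 ^ t) →
  ∃ g' : Str → ℕ → Str → Prop, IsEnum A G g' ∧ ∀ m t,
    lam {X | g' (pre A t) m (pre X t)} ≤ ∑ i ∈ Finset.Ico m t, (Q i : ℝ≥0∞) / 2 ^ i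

open Classical in
/-- number of strings of length `t` with property `P` -/
noncomputable def num (t : ℕ) (P : Str → Prop) : ℕ := ((allStr t).filter fun ξ => decide (P ξ)).length

/-- level of `ξ` at `v` -/
noncomputable def lev (g : Str → ℕ → Str → Prop) (v ξ : Str) : ℕ :=
  open Classical in ((List.range v.length).filter fun n => decide (g v n ξ)).length

/-- `ξ'` comes before `ξ` (deeper, or equally deep with smaller code) -/
def Before (g : Str → ℕ → Str → Prop) (v ξ' ξ : Str) : Prop :=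
  lev g v ξ < lev g v ξ' ∨ (lev g v ξ = lev g v ξ' ∧ encode ξ' < encode ξ)

/-- `ξ` is in `G m` and has not been absorbed before -/
def Alive (g : Str → ℕ → Str → Prop) (Bp : ℕ → Str → Str → Prop) (m : ℕ) (v ξ : Str) : Prop :=
  g v m ξ ∧ ∀ t < v.length, ¬ Bp m (v.take t) (ξ.take t)

/-- `Bp m v ξ`: the string `ξ` is absorbed at step `|v| = |ξ|` (oracle string `v`): it is one of the
first `q |v|` living strings. -/
def IsAbs (g : Str → ℕ → Str → Prop) (q : ℕ → ℕ) (Bp : ℕ → Str → Str → Prop) : Prop :=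
  ∀ m v ξ, Bp m v ξ ↔ (ξ.length = v.length ∧ Alive g Bp m v ξ ∧
    num v.length (fun ξ' => Alive g Bp m v ξ' ∧ Before g v ξ' ξ) < q v.length)

/-- **S_Abs**: the absorption process exists and is primitive recursive.
Proof: course-of-values recursion on the length: e.g. the table `tbl m v t` (a list of `t` lists of strings, `tbl m v (t+1) = tbl m v t ++
[(allStr t).filter (...)]` where the filter uses `v.take t`, `g` and the previous table), `Primrec.nat_rec`; then
`Bp m v ξ :⟺ ξ ∈ (tbl m v (|v|+1)).getD |v| []`; note that `tbl` depends only on `v.take t`. -/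
def S_Abs : Prop := ∀ (g : Str → ℕ → Str → Prop) (q : ℕ → ℕ),
  (PrimrecPred fun x : Str × ℕ × Str => g x.1 x.2.1 x.2.2) → Primrec q →
  ∃ Bp : ℕ → Str → Str → Prop, (PrimrecPred fun x : ℕ × Str × Str => Bp x.1 x.2.1 x.2.2) ∧
    IsAbs g q Bp

/-- **S_Nest**.
Proof: strong induction on `|v|`. Suppose `Bp (m+1) v ξ` and no `t ≤ |v|` has `Bp m (v.take t) (ξ.take t)`. Then `Alive m v ξ` (by `anti`).
If `Alive m v ξ'` and `Before v ξ' ξ` then `lev v ξ' ≥ lev v ξ ≥ m + 2` (as `g v n ξ` for all `n ≤ m+1 < |v|`, by `anti`, `small`), and by `anti`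
`{n < |v| : g v n ξ'}` is an initial segment, so `g v (m+1) ξ'`; and `¬ Bp (m+1) (v.take t) (ξ'.take t)` for `t < |v|` by the induction
hypothesis and `Alive m v ξ'`. So `Alive (m+1) v ξ'`. Hence `num ... m ≤ num ... (m+1) < q`, so `Bp m v ξ`, a contradiction. -/
def S_Nest : Prop := ∀ (g : Str → ℕ → Str → Prop) (q : ℕ → ℕ) (Bp : ℕ → Str → Str → Prop),
  (∀ v m n ξ, m ≤ n → g v n ξ → g v m ξ) → (∀ v m ξ, g v m ξ → m < v.length) → IsAbs g q Bp →
  ∀ m v ξ, Bp (m + 1) v ξ → ∃ t ≤ v.length, Bp m (v.take t) (ξ.take t)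

/-- **S_Cnt**: at most `q |v|` strings are absorbed. (`Before` is a strict linear order on the strings, so the numbers
`num ... ` are different for different living strings.) -/
def S_Cnt : Prop := ∀ (g : Str → ℕ → Str → Prop) (q : ℕ → ℕ) (Bp : ℕ → Str → Str → Prop),
  IsAbs g q Bp → ∀ m v, num v.length (fun ξ => Bp m v ξ) ≤ q v.length

/-- **S_Pri** (priority of the deep strings).
Proof. Let `k` be the number of living strings (of length `|v|`) in `G a` (i.e. `Alive m v ξ ∧ g v a ξ`). This set is closed under living predecessors: if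
`g v a ξ` and `Before v ξ' ξ`, then `lev v ξ' ≥ lev v ξ ≥ a+1` so `g v a ξ'`. If `k ≤ q` then every such `ξ` has `< k ≤ q` living predecessors, so
the first alternative holds. If `k > q`, the living strings not in `G a` have `≥ k > q` predecessors, so all the absorbed ones are in `G a`, and
exactly `q` strings are absorbed (the living strings of rank `0, ..., q-1`). -/
def S_Pri : Prop := ∀ (g : Str → ℕ → Str → Prop) (q : ℕ → ℕ) (Bp : ℕ → Str → Str → Prop),
  (∀ v m n ξ, m ≤ n → g v n ξ → g v m ξ) → (∀ v m ξ, g v m ξ → m < v.length) → IsAbs g q Bp →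
  ∀ m a v, (∀ ξ, ξ.length = v.length → Alive g Bp m v ξ → g v a ξ → Bp m v ξ) ∨
    q v.length ≤ num v.length (fun ξ => Bp m v ξ ∧ g v a ξ)

/-- **S_KW** (the busy-window lemma).
Proof. Let `T u = ⋃_{t<u} B t` and let `S j a b` be the set of the `x` such that there is a chain `a = u_0 < u_1 < ... < u_{j+1} ≤ b` with
`x ∈ G (u_i) (u_{i+1})` and `x ∉ T (u_{j+1})`. Claim `2^j μ(S j a b) ≤ ∑_{[a,b)} δ` for `a ≥ m`, by induction on `j`.
`j = 0`: `S 0 a b ⊆ G a b`. Step: let `N = {t ∈ [a,b) : ¬ (G a t \ T t ⊆ B t)}`, so `2 δ_t ≤ μ (B t ∩ G a t)` for `t ∈ N`. If `x ∈ S (j+1) a b` with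
chain `u`, then for `t ∈ [u_1, u_{j+2})` we have `x ∈ G a t \ T t` and `x ∉ B t`, so `t ∈ N`. Let `[α, ω)` be the maximal interval with
`a ≤ α ≤ ω ≤ b` contained in `N` that contains `[u_1,u_{j+2})`. Then `α < u_2 < ... < u_{j+2} ≤ ω` is a chain (`G (u_1) ⊆ G α`), so `x ∈ S j α ω`. The maximal
intervals are disjoint, so `2^j μ(S (j+1) a b) ≤ ∑_{(α,ω)} ∑_{[α,ω)} δ ≤ ∑_{t ∈ N} δ_t`, and
`2 ∑_{t ∈ N} δ_t ≤ ∑_{t ∈ N} μ (B t ∩ G a t) ≤ μ (G a b) ≤ ∑_{[a,b)} δ` as the `B t` are disjoint. -/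
def S_KW : Prop := ∀ (μ : Measure (ℕ → Bool)) (δ : ℕ → ℝ≥0∞) (G : ℕ → ℕ → Set (ℕ → Bool))
  (B : ℕ → Set (ℕ → Bool)) (m : ℕ), (∀ n t, MeasurableSet (G n t)) → (∀ t, MeasurableSet (B t)) →
  (∀ n n' t, n ≤ n' → G n' t ⊆ G n t) → (∀ n t t', t ≤ t' → G n t ⊆ G n t') →
  (∀ n t, μ (G n t) ≤ ∑ i ∈ Finset.Ico n t, δ i) → (∀ s t, s < t → Disjoint (B s) (B t)) →
  (∀ a t, m ≤ a → (∀ x ∈ G a t, (∀ u < t, x ∉ B u) → x ∈ B t) ∨ 2 * δ t ≤ μ (B t ∩ G a t)) →
  ∀ j a b, m ≤ a → 2 ^ j * μ {x | ∃ u : ℕ → ℕ, u 0 = a ∧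
      (∀ i < j + 1, u i < u (i + 1) ∧ x ∈ G (u i) (u (i + 1))) ∧ u (j + 1) ≤ b ∧
      ∀ t < u (j + 1), x ∉ B t} ≤ ∑ i ∈ Finset.Ico a b, δ i

/-- **S_Kill**: a set in all the `G m` which is Martin-Löf random relative to `A` is absorbed.
Proof. Suppose that `Z` is in all `G n` and for some `m` no `t` has `Bp m (pre A t) (pre Z t)`. Apply `S_KW` with `μ = lam`, `δ t = Q t / 2^t`,
`G n t = {X | g (pre A t) n (pre X t)}`, `B t = {X | Bp m (pre A t) (pre X t)}` (disjoint because of `Alive`; alternatives from `S_Pri` and `lam_finset`: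
`q = 2 Q`). For `j` let `W j` be the union over `b` of the sets in `S_KW` with `a = m`; by monotone convergence
`2^j lam (W j) ≤ M`. `W j` is `Σ⁰₁(A)` uniformly in `j` (`UE E A j` for the `S1` predicate `E (v, j, ξ)` : there is a list `L` of length `j+2`,
`L[0] = m`, strictly increasing, `L[j+1] ≤ |v|, |ξ|`, `g (v.take L[i+1]) L[i] (ξ.take L[i+1])`, and `¬ Bp m (v.take t) (ξ.take t)` for `t < L[j+1]`), so
`W (j + M)` (as `M ≤ 2^M`) is a Martin-Löf test relative to `A` (`isMLTest_of_E`), and `Z` is in all the `W j`: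
choose `u 0 = m`, `u (i+1)` with `g (pre A u_{i+1}) u_i (pre Z u_{i+1})` (`spec`; `small` gives `u_i < u_{i+1}`). -/
def S_Kill : Prop := ∀ (A : ℕ → Bool) (G : ℕ → Set (ℕ → Bool)) (g : Str → ℕ → Str → Prop)
  (Q : ℕ → ℕ) (Bp : ℕ → Str → Str → Prop) (M : ℕ), IsEnum A G g →
  (∀ n, ∑ t ∈ Finset.range n, (Q t : ℝ≥0∞) / 2 ^ t ≤ M) →
  (∀ m t, lam {X | g (pre A t) m (pre X t)} ≤ ∑ i ∈ Finset.Ico m t, (Q i : ℝ≥0∞) / 2 ^ i) →
  (PrimrecPred fun x : ℕ × Str × Str => Bp x.1 x.2.1 x.2.2) → IsAbs g (fun t => 2 * Q t) Bp →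
  ∀ Z, MLR A Z → (∀ m, Z ∈ G m) → ∀ m, ∃ t, Bp m (pre A t) (pre Z t)

/-- **S_Fin**: the final test.
Proof. Let `ω₀ t` be the least `r` with `2^{-r} ≤ Q t / (M₁ 2^t)`, where `M₁ ≥ max M 1`, so `2^{-ω₀ t} ≤ Q t/(M₁ 2^t) ≤ 2 · 2^{-ω₀ t}` (`ω₀` is primitive recursive: bounded
search, `ω₀ t ≤ t + M₁`). Apply `Cov A` to the `A`-c.e. set of the codes `encode (pre A t)`, `t ∈ ℕ`, with weights
`ω x = ω₀ |v|` if `x = encode v` (`decode`; something harmless for other `x`, e.g. `0`): total weight `∑_t Q t / (M₁ 2^t) ≤ 1`. This gives a c.e. set `V` of strings containing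
all `pre A t`, with `∑_{v ∈ V} 2^{-ω₀ |v|} ≤ c`, so `∑_{v ∈ V} 2 Q_{|v|} / 2^{|v|} ≤ 4 M₁ c`. Let `V'` be the set of `v` all of
whose prefixes are in `V`, `H m = {X | ∃ t ∃ v ∈ V', |v| = t, Bp m v (pre X t)}` : uniformly `Σ⁰₁`, antitone by the nesting property
(`v.take t ∈ V'`). With the primitive recursive stage predicate `q` of `v ∈ V` (monotone) put
`β s = ∑_{t < s} (number of v of length t with q v s) · 2 Q t / 2^t - 2^{-s}`, computable, strictly increasing, bounded, with supremum `b`;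
`lam (H m) ≤ ∑_{t > m} |V_t| 2 Q t / 2^t ≤ b - β m` because `β m` only counts strings of length `< m`. Put `c = 1`. For
`CompRatIn`: `β s = (f s - g s)/(h s + 1)` with `h s + 1 = 2^s`, `f, g, h` primitive recursive; a computable function is `CompIn` (`Partrec.turingReducible`,
as in `computable_iff_tLe`). -/
def S_Fin : Prop := ∀ (A : ℕ → Bool) (Q : ℕ → ℕ) (Bp : ℕ → Str → Str → Prop) (M : ℕ), Cov A →
  Primrec Q → (∀ t, 0 < Q t) → (∀ n, ∑ t ∈ Finset.range n, (Q t : ℝ≥0∞) / 2 ^ t ≤ M) →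
  (PrimrecPred fun x : ℕ × Str × Str => Bp x.1 x.2.1 x.2.2) →
  (∀ m v ξ, Bp m v ξ → ξ.length = v.length ∧ m < v.length) →
  (∀ m v ξ, Bp (m + 1) v ξ → ∃ t ≤ v.length, Bp m (v.take t) (ξ.take t)) →
  (∀ m v, num v.length (fun ξ => Bp m v ξ) ≤ 2 * Q v.length) →
  ∃ H : ℕ → Set (ℕ → Bool), IsOWTest (fun _ => false) H ∧
    ∀ Z, (∀ m, ∃ t, Bp m (pre A t) (pre Z t)) → ∀ m, Z ∈ H m

/-- **S_OWML**: Oberwolfach randomness implies Martin-Löf randomness (any oracle).
Proof. For a test `U` relative to `A` let `G m = ⋂_{n ≤ m} U n`; it is antitone, uniformly `Σ⁰₁(A)`, `lam (G m) ≤ 2^{-m} = 1 - β m` with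
`β m = 1 - 2^{-m} = (2^m - 1) / ((2^m - 1) + 1)`. -/
def S_OWML : Prop := ∀ A Z : ℕ → Bool, OWR A Z → MLR A Z

end Pool.Agent.H709.OW
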