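import Pool.Agent.H709.OW.Props

set_option autoImplicit false

/-! The (known) converse direction, to have the full equivalence. -/

namespace Pool.Agent.H709.OW

open Pool.Agent.Helper227 MeasureTheory Encodable
open scoped ENNReal

/-- **S_KT**: the covering property implies K-triviality.
Proof. By `s1_KU`-style argument (`K(y) ≤ k` is `Σ₁`; see `GoldA.lean`, theorem `s1_KU : IsUniversal U → S1 fun x : Str × ℕ => KU U x.1 ≤ x.2`,
store file helper709_OW_GoldA.lean) the set of codes of the pairs `(k, pre A n)` with `K(0^n) ≤ k` is `A`-c.e.; give the pair `(k, σ)` the weight `2^{-(k+1)}`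
(`ω x = k + 1` if `x` codes `(k, σ)`); the total weight is `∑_n ∑_{k ≥ K(0^n)} 2^{-(k+1)} = ∑_n 2^{-K(0^n)} ≤ 1` (`S_Kraft`). `Cov A` gives a c.e. `V` with
total weight `≤ c ≤ 2^c`; the requests `(k + 1 + c, σ)` for `(k, σ) ∈ V` satisfy `S_KC`, so `K(σ) ≤ k + 1 + c + c'`; take `k = K(0^n)`, `σ = pre A n`. -/
def S_KT : Prop := ∀ (U : List Bool →. List Bool), IsUniversal U → ∀ A : ℕ → Bool, Cov A →
  KTrivial U A

/-- **S_Rev**: if every Oberwolfach random set is Martin-Löf random relative to `A` then `A` has the covering property.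
Proof. This is a variant of the library theorem `Pool.Agent.Helper227.cover` (`Helper227/Cover.lean`, using `exists_rho` in `Cov3.lean` and `EVb`,
`UE_EVb`, `lam_UE_EVb_le` in `Cov2.lean`) with `B = fun _ => false`, `D = A`.
Step 1 (variant of `exists_rho`). Let `E, ω` be as in `Cov` and let `W i := UE (EVb ω E) A i` be the Martin-Löf test relative to `A` attached to them
(measure `≤ 2^{-i}`). Claim: there are `ρ`, `i` and a `Σ₁` set `P` of strings with open set `S = {X | ∃ t, P (pre X t)}` such that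
`lam (cyl ρ \ S) ≠ 0` and `lam ((cyl ρ ∩ W i) \ S) = 0`. Suppose not. There are only countably many Oberwolfach tests relative to `fun _ => false`:
each is `n ↦ UE E_c (fun _ => false) n` for the `Σ₁` predicate `E_c x := ∃ r, stp c r x` of some `c : Nat.Partrec.Code` (`UnifSigma.exists_E`, `exists_code`
in `Helper227/Univ.lean`); and `lam (G m) → 0` for each of them. Build `ρ_0 = [] ⊆ ρ_1 ⊆ ...`, `|ρ_k| ≥ k`, and `Σ₁` open sets `S_0 = ∅ ⊆ S_1 ⊆ ...` with `lam (cyl ρ_k \ S_k) ≠ 0`:
by the negation of the claim `lam ((cyl ρ_k ∩ W k) \ S_k) ≠ 0`, so some `ρ_{k+1}` extending `ρ_k`, of length `≥ k+1`, has `cyl ρ_{k+1} ⊆ W k` and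
`lam (cyl ρ_{k+1} \ S_k) ≠ 0` (countable union, as in `exists_rho`); if the `k`-th code `c` gives an antitone sequence `G_c` with `lam (G_c m) → 0`
choose `m` with `lam (G_c m) < lam (cyl ρ_{k+1} \ S_k)` and put `S_{k+1} = S_k ∪ G_c m`, else `S_{k+1} = S_k`. Let `Z` be the limit of the `ρ_k` (`exists_limit`).
`Z ∉ S_k` for all `k`: otherwise `cyl ρ_j ⊆ S_k ⊆ S_j` for some large `j ≥ k`. So `Z` is Oberwolfach random, `Z ∈ W k` for all `k`, so `Z` is not Martin-Löf random
relative to `A`, a contradiction.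
Step 2. Given `ρ, i, P` repeat the proof of `cover` (`Helper227/Cover.lean`) with `EU (ζ, 1, τ)` replaced by `P τ` (made monotone: `∃ t ≤ |τ|, P (τ.take t)`), e.g. by
taking `EU' x := ∃ t ≤ x.2.2.length, P (x.2.2.take t)` in `RP EU' g ρ i`; the final covering set does not depend on the oracle. Convert between
the `ℝ≥0∞` sums of the library and the real sums in `Cov`. -/
def S_Rev : Prop := ∀ A : ℕ → Bool, (∀ Z, OWR (fun _ => false) Z → MLR A Z) → Cov A

end Pool.Agent.H709.OW
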